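import Pool.Agent.Hhelper89.LehmerFull.EntWords
import Pool.Agent.Lib.PNT

/-!
The entropy decrement argument: for arbitrarily large `P` almost all primes in `(P, 2P]` decouple.
-/

namespace Pool.Agent.Hhelper89.LehmerFull
namespace Ent

open Finset Filter Topology

/-! ### many primes in `(P, 2P]` -/

lemma theta_diff (P : ℕ) : Chebyshev.theta ((2 * P : ℕ) : ℝ) - Chebyshev.theta (P : ℝ) =
    ∑ p ∈ PP P, Real.log p := by
  rw [Chebyshev.theta_eq_sum_Icc, Chebyshev.theta_eq_sum_Icc, Nat.floor_natCast, Nat.floor_natCast]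
  have h : (Icc 0 (2 * P)).filter Nat.Prime = (Icc 0 P).filter Nat.Prime ∪ PP P := by
    ext p
    simp only [Finset.mem_filter, Finset.mem_Icc, Finset.mem_union, mem_PP]
    constructor
    · rintro ⟨h1, h2⟩
      by_cases h3 : p ≤ P
      · exact Or.inl ⟨⟨h1.1, h3⟩, h2⟩
      · exact Or.inr ⟨⟨by omega, h1.2⟩, h2⟩
    · rintro (⟨h1, h2⟩ | ⟨h1, h2⟩)
      · exact ⟨⟨h1.1, by omega⟩, h2⟩
      · exact ⟨⟨by omega, h1.2⟩, h2⟩
  rw [h, Finset.sum_union]
  · ring
  · rw [Finset.disjoint_left]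
    intro p h1 h2
    rw [Finset.mem_filter, Finset.mem_Icc] at h1
    rw [mem_PP] at h2
    omega

lemma card_PP_lower : ∀ᶠ P : ℕ in atTop, (P : ℝ) / (4 * Real.log P) ≤ ((PP P).card : ℝ) := by
  have h1 : Tendsto (fun x : ℝ => Chebyshev.theta x / x) atTop (𝓝 1) := Pool.Agent.Lib.PNT.theta
  have h2 : Tendsto (fun P : ℕ => Chebyshev.theta (P : ℝ) / P) atTop (𝓝 1) :=
    h1.comp tendsto_natCast_atTop_atTop
  have h3 : Tendsto (fun P : ℕ => Chebyshev.theta ((2 * P : ℕ) : ℝ) / ((2 * P : ℕ) : ℝ)) atTop (𝓝 1) := by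
    refine h2.comp ?_
    exact tendsto_id.const_mul_atTop' (by norm_num)
  have h4 : Tendsto (fun P : ℕ => 2 * (Chebyshev.theta ((2 * P : ℕ) : ℝ) / ((2 * P : ℕ) : ℝ)) -
      Chebyshev.theta (P : ℝ) / P) atTop (𝓝 (2 * 1 - 1)) := (h3.const_mul 2).sub h2
  have h5 : (1 / 2 : ℝ) < 2 * 1 - 1 := by norm_num
  filter_upwards [h4.eventually (lt_mem_nhds h5), eventually_ge_atTop 2] with P hP hP2
  have hP0 : (0 : ℝ) < P := by positivity
  have hlog : 0 < Real.log P := Real.log_pos (by exact_mod_cast (by omega : 1 < P))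
  have e1 : 2 * (Chebyshev.theta ((2 * P : ℕ) : ℝ) / ((2 * P : ℕ) : ℝ)) - Chebyshev.theta (P : ℝ) / P =
      (∑ p ∈ PP P, Real.log p) / P := by
    rw [← theta_diff]
    push_cast
    field_simp
  rw [e1, lt_div_iff₀ hP0] at hP
  have h6 : ∑ p ∈ PP P, Real.log p ≤ (PP P).card * (2 * Real.log P) := by
    rw [← nsmul_eq_mul]
    refine Finset.sum_le_card_nsmul _ _ _ (fun p hp => ?_)
    rw [mem_PP] at hp
    have hp0 : (0 : ℝ) < p := by exact_mod_cast hp.2.pos
    have : (p : ℝ) ≤ (P : ℝ) ^ 2 := by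
      have : p ≤ P ^ 2 := by nlinarith [hp.1.2]
      exact_mod_cast this
    calc Real.log p ≤ Real.log ((P : ℝ) ^ 2) := Real.log_le_log hp0 this
      _ = 2 * Real.log P := by rw [Real.log_pow]; norm_num
  rw [div_le_iff₀ (by positivity)]
  nlinarith

/-! ### the decrement iteration -/

lemma iterate_step {K l : ℝ} (hK : 0 < K) (hl : K + 3 ≤ l) (k : ℝ) (hk0 : 1 ≤ k)
    (hk : k ≤ K * l + 1) :
    Real.log (Real.log (l + Real.log k)) ≤ Real.log (Real.log l) + 2 / l := by
  have hl0 : 0 < l := by linarith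
  have hl1 : 1 < l := by linarith
  have hlogl : 0 < Real.log l := Real.log_pos hl1
  have hlk : 0 ≤ Real.log k := Real.log_nonneg hk0
  have h1 : Real.log k ≤ 2 * Real.log l := by
    have : k ≤ l ^ 2 := by nlinarith
    calc Real.log k ≤ Real.log (l ^ 2) := Real.log_le_log (by linarith) this
      _ = 2 * Real.log l := by rw [Real.log_pow]; norm_num
  have h2 : Real.log (l + Real.log k) ≤ Real.log l * (1 + 2 / l) := by
    have e : l + 2 * Real.log l = l * (1 + 2 * Real.log l / l) := by field_simp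
    calc Real.log (l + Real.log k) ≤ Real.log (l + 2 * Real.log l) :=
          Real.log_le_log (by linarith) (by linarith)
      _ = Real.log l + Real.log (1 + 2 * Real.log l / l) := by
          rw [e, Real.log_mul hl0.ne' (by positivity)]
      _ ≤ Real.log l + 2 * Real.log l / l := by
          have := Real.log_le_sub_one_of_pos (show 0 < 1 + 2 * Real.log l / l by positivity)
          linarith
      _ = Real.log l * (1 + 2 / l) := by ring
  have h3 : 0 < Real.log (l + Real.log k) := Real.log_pos (by linarith)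
  calc Real.log (Real.log (l + Real.log k)) ≤ Real.log (Real.log l * (1 + 2 / l)) :=
        Real.log_le_log h3 h2
    _ = Real.log (Real.log l) + Real.log (1 + 2 / l) :=
        Real.log_mul hlogl.ne' (by positivity)
    _ ≤ Real.log (Real.log l) + 2 / l := by
        have := Real.log_le_sub_one_of_pos (show 0 < 1 + 2 / l by positivity)
        linarith

lemma no_decrement (g : ℕ → ℝ) (hg : ∀ P, 0 ≤ g P) (η K : ℝ) (hη : 0 < η) (hK : 0 < K) (P₁ : ℕ)
    (h : ∀ P : ℕ, P₁ ≤ P → ∃ k : ℕ, 2 ≤ k ∧ (k : ℝ) ≤ K * Real.log P + 1 ∧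
      g (k * P) ≤ g P - η / Real.log P) : False := by
  -- a threshold
  have hlog : Tendsto (fun P : ℕ => Real.log (P : ℝ)) atTop atTop :=
    Real.tendsto_log_atTop.comp tendsto_natCast_atTop_atTop
  have hlll : Tendsto (fun P : ℕ => Real.log (Real.log (Real.log (P : ℝ)))) atTop atTop :=
    Real.tendsto_log_atTop.comp (Real.tendsto_log_atTop.comp hlog)
  obtain ⟨P₂, hP₂⟩ := (hlog.eventually (eventually_ge_atTop (K + 3))).exists_forall_of_atTop
  set P₃ : ℕ := max (max P₁ P₂) 1 with hP₃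
  let Ψ : ℕ → ℝ := fun P => g P + (η / 2) * Real.log (Real.log (Real.log (P : ℝ)))
  have hstep : ∀ P : ℕ, P₃ ≤ P → Ψ P ≤ Ψ P₃ → ∃ P' : ℕ, P + 1 ≤ P' ∧ Ψ P' ≤ Ψ P₃ := by
    intro P hP hΨ
    have hPa : P₁ ≤ P := le_trans (le_trans (le_max_left _ _) (le_max_left _ _)) hP
    have hPb : P₂ ≤ P := le_trans (le_trans (le_max_right _ _) (le_max_left _ _)) hP
    have hPc : 1 ≤ P := le_trans (le_max_right _ _) hP
    obtain ⟨k, hk2, hk, hg'⟩ := h P hPa
    refine ⟨k * P, ?_, ?_⟩
    · calc P + 1 ≤ 2 * P := by omega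
        _ ≤ k * P := Nat.mul_le_mul_right _ hk2
    · have hl := hP₂ P hPb
      have hk1 : (1 : ℝ) ≤ k := by exact_mod_cast (by omega : 1 ≤ k)
      have h1 := iterate_step hK hl (k : ℝ) hk1 hk
      have hP0 : (0 : ℝ) < P := by exact_mod_cast hPc
      have e1 : Real.log ((k * P : ℕ) : ℝ) = Real.log P + Real.log k := by
        push_cast
        rw [Real.log_mul (by linarith) hP0.ne', add_comm]
      refine le_trans ?_ hΨ
      simp only [Ψ]
      rw [e1]
      have h2 : (η / 2) * Real.log (Real.log (Real.log P + Real.log k)) ≤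
          (η / 2) * (Real.log (Real.log (Real.log P)) + 2 / Real.log P) :=
        mul_le_mul_of_nonneg_left h1 (by positivity)
      have e2 : (η / 2) * (Real.log (Real.log (Real.log P)) + 2 / Real.log P) =
          (η / 2) * Real.log (Real.log (Real.log P)) + η / Real.log P := by ring
      linarith
  have hall : ∀ N : ℕ, ∃ P : ℕ, P₃ + N ≤ P ∧ Ψ P ≤ Ψ P₃ := by
    intro N
    induction N with
    | zero => exact ⟨P₃, le_rfl, le_rfl⟩
    | succ N ih =>
      obtain ⟨P, hP, hΨ⟩ := ih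
      obtain ⟨P', hP', hΨ'⟩ := hstep P (by omega) hΨ
      exact ⟨P', by omega, hΨ'⟩
  obtain ⟨B, hB⟩ := (hlll.eventually (eventually_gt_atTop (Ψ P₃ / (η / 2)))).exists_forall_of_atTop
  obtain ⟨P, hP, hΨ⟩ := hall B
  have h1 := hB P (by omega)
  rw [div_lt_iff₀ (by positivity)] at h1
  have h2 := hg P
  have h3 : Ψ P = g P + (η / 2) * Real.log (Real.log (Real.log (P : ℝ))) := rfl
  linarith

lemma exists_small_info (M : Mean) (X : ℤ → Bool) (c : ℕ) (hc : 0 < c) (δ : ℝ) (hδ : 0 < δ)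
    (P₀ : ℕ) : ∃ P : ℕ, P₀ ≤ P ∧ mI M X (c * P) P ≤ δ * (PP P).card := by
  by_contra hcon
  push Not at hcon
  have hc' : (0 : ℝ) < c := by exact_mod_cast hc
  have hlog4 : 0 < Real.log 4 := Real.log_pos (by norm_num)
  set K₀ : ℝ := 16 * Real.log 4 / δ with hK₀
  have hK₀' : 0 < K₀ := by positivity
  have hlog : Tendsto (fun P : ℕ => Real.log (P : ℝ)) atTop atTop :=
    Real.tendsto_log_atTop.comp tendsto_natCast_atTop_atTop
  obtain ⟨P₂, hP₂⟩ := (card_PP_lower.and (hlog.eventually (eventually_ge_atTop 1))).exists_forall_of_atTop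
  refine no_decrement (fun P => hW M X (c * P) / (c * P : ℕ))
    (fun P => div_nonneg (hW_nonneg M X _) (Nat.cast_nonneg _)) (δ / (8 * c)) (K₀ + 3)
    (by positivity) (by positivity) (max (max P₀ P₂) 1) ?_
  intro P hP
  have hPa : P₀ ≤ P := le_trans (le_trans (le_max_left _ _) (le_max_left _ _)) hP
  have hPb : P₂ ≤ P := le_trans (le_trans (le_max_right _ _) (le_max_left _ _)) hP
  have hPc : 1 ≤ P := le_trans (le_max_right _ _) hP
  have hP0 : (0 : ℝ) < P := by exact_mod_cast hPc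
  obtain ⟨hcard, hl1⟩ := hP₂ P hPb
  have hl0 : 0 < Real.log P := by linarith
  refine ⟨⌈K₀ * Real.log P⌉₊ + 2, by omega, ?_, ?_⟩
  · have := Nat.ceil_lt_add_one (show 0 ≤ K₀ * Real.log P by positivity)
    push_cast
    nlinarith
  · set k : ℕ := ⌈K₀ * Real.log P⌉₊ + 2 with hk
    have hk1 : K₀ * Real.log P ≤ k := by
      have := Nat.le_ceil (K₀ * Real.log P)
      rw [hk]; push_cast; linarith
    have hk0 : (0 : ℝ) < k := by rw [hk]; positivity
    have h1 := word_sub M X (c * P) P k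
    have h2 := log_card_BB_le P
    have h3 := (hcon P hPa).le
    have h4 : δ * (P / (4 * Real.log P)) ≤ mI M X (c * P) P :=
      (mul_le_mul_of_nonneg_left hcard hδ.le).trans h3
    have e1 : c * (k * P) = k * (c * P) := by ring
    have h5 : hW M X (c * (k * P)) ≤ 2 * P * Real.log 4 +
        k * (hW M X (c * P) - δ * (P / (4 * Real.log P))) := by
      rw [e1]
      refine h1.trans (add_le_add h2 (mul_le_mul_of_nonneg_left ?_ hk0.le))
      linarith
    show hW M X (c * (k * P)) / ((c * (k * P) : ℕ) : ℝ) ≤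
      hW M X (c * P) / ((c * P : ℕ) : ℝ) - δ / (8 * c) / Real.log P
    push_cast
    rw [div_le_iff₀ (by positivity)]
    have e2 : (hW M X (c * P) / (c * P) - δ / (8 * c) / Real.log P) * (c * (k * P)) =
        k * hW M X (c * P) - δ * k * P / (8 * Real.log P) := by
      field_simp
    rw [e2]
    have h6 : 2 * P * Real.log 4 ≤ δ * k * P / (8 * Real.log P) := by
      rw [le_div_iff₀ (by positivity)]
      have e3 : δ * (K₀ * Real.log P) = 16 * Real.log 4 * Real.log P := by
        rw [hK₀]; field_simp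
      have h7 : 16 * Real.log 4 * Real.log P ≤ δ * k := by
        rw [← e3]; exact mul_le_mul_of_nonneg_left hk1 hδ.le
      have h8 := mul_le_mul_of_nonneg_right h7 hP0.le
      nlinarith
    have e4 : (k : ℝ) * (δ * (P / (4 * Real.log P))) = 2 * (δ * k * P / (8 * Real.log P)) := by
      field_simp
      norm_num
    have e5 : (k : ℝ) * (hW M X (c * P) - δ * (P / (4 * Real.log P))) =
      k * hW M X (c * P) - 2 * (δ * k * P / (8 * Real.log P)) := by
      rw [mul_sub, e4]
    rw [e5] at h5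
    linarith

/-! ### conclusion -/

lemma sum_DD_le (M : Mean) (X : ℤ → Bool) (α β P : ℕ) (hP : 0 < P) {c : ℕ}
    (hc : c = 2 * α + 2 * β + 2) (l : ℝ) (hl : 0 < l) (hl2 : l ≤ 1 / 3)
    (hI : mI M X (c * P) P ≤ l ^ 2 * (PP P).card) (t : Bool × Bool × Bool) :
    ∑ p ∈ PP P, |DD M X α β t p| ≤ 10 * l * (PP P).card := by
  have hL : P + 2 * P * α + 2 * P * β ≤ c * P := by rw [hc]; nlinarith
  have h1 := info_bound M X α β P hP t hL l hl.le hl2
    (fun p => if 0 ≤ DD M X α β t (p : ℕ) then 1 else -1) (fun p => by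
      split_ifs <;> simp)
  have h2 : ∑ p : Ix P, (if 0 ≤ DD M X α β t (p : ℕ) then (1 : ℝ) else -1) * DD M X α β t (p : ℕ) =
      ∑ p ∈ PP P, |DD M X α β t p| := by
    rw [← Finset.sum_coe_sort (PP P) (fun p => |DD M X α β t p|)]
    refine Finset.sum_congr rfl fun p _ => ?_
    split_ifs with h
    · rw [abs_of_nonneg h, one_mul]
    · rw [abs_of_neg (not_le.1 h), neg_one_mul]
  rw [h2] at h1
  have h3 : l * ∑ p ∈ PP P, |DD M X α β t p| ≤ l * (10 * l * (PP P).card) := by
    calc _ ≤ _ := h1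
      _ ≤ 9 * l ^ 2 * (PP P).card + l ^ 2 * (PP P).card := by linarith
      _ = l * (10 * l * (PP P).card) := by ring
  exact le_of_mul_le_mul_left h3 hl

lemma abs_E_le (M : Mean) (X : ℤ → Bool) (α β p : ℕ) (F : Bool → Bool → Bool → ℝ)
    (hF : ∀ x y z, |F x y z| ≤ 1) :
    |M.E (fun n => F (X n) (X (n + (p * α : ℕ))) (X (n + (p * β : ℕ))) *
      ((if (p : ℤ) ∣ n then (p : ℝ) else 0) - 1))| ≤ ∑ t : Bool × Bool × Bool, |DD M X α β t p| := by
  have e1 : (fun n : ℤ => F (X n) (X (n + (p * α : ℕ))) (X (n + (p * β : ℕ))) *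
      ((if (p : ℤ) ∣ n then (p : ℝ) else 0) - 1)) =
      fun n => ∑ t : Bool × Bool × Bool, F t.1 t.2.1 t.2.2 *
        (pat t (X n) (X (n + (p * α : ℕ))) (X (n + (p * β : ℕ))) *
        ((if (p : ℤ) ∣ n then (p : ℝ) else 0) - 1)) := by
    funext n
    rw [Finset.sum_eq_single (X n, X (n + (p * α : ℕ)), X (n + (p * β : ℕ)))]
    · simp [pat]
    · intro t _ ht
      rw [pat, if_neg (fun h => ht h.symm)]
      ring
    · intro h
      exact absurd (Finset.mem_univ _) h
  rw [e1, E_sum M _ _ (fun t _ => (bdd_pat X α β (pat t) p).const_mul _)]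
  refine (Finset.abs_sum_le_sum_abs _ _).trans (Finset.sum_le_sum fun t _ => ?_)
  rw [M.smul _ _ (bdd_pat X α β (pat t) p), abs_mul]
  exact mul_le_of_le_one_left (abs_nonneg _) (hF _ _ _)

end Ent

open Finset Filter Topology

open Classical in
/-- **entropy decoupling** (Tao): for arbitrarily large `P`, all but a proportion `ε` of the primes
in `(P, 2P]` decouple -/
theorem entropy_decoupling (M : Mean) (X : ℤ → Bool) (α β : ℕ) (ε : ℝ) (hε : 0 < ε) (P₀ : ℕ) :
    ∃ P : ℕ, P₀ ≤ P ∧ (1 - ε) * ((PP P).card : ℝ) ≤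
      (((PP P).filter (fun p => Decouples M X α β ε p)).card : ℝ) := by
  set ε' : ℝ := min ε 1 with hε'
  have hε'0 : 0 < ε' := lt_min hε one_pos
  have hε'1 : ε' ≤ 1 := min_le_right _ _
  have hε'2 : ε' ≤ ε := min_le_left _ _
  set l : ℝ := ε' ^ 2 / 80 with hl
  have hl0 : 0 < l := by positivity
  have hl1 : l ≤ 1 / 3 := by
    have : ε' ^ 2 ≤ 1 := pow_le_one₀ hε'0.le hε'1
    rw [hl]; linarith
  obtain ⟨P, hP, hI⟩ := Ent.exists_small_info M X (2 * α + 2 * β + 2) (by omega) (l ^ 2)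
    (by positivity) (max P₀ 1)
  have hPa : P₀ ≤ P := le_trans (le_max_left _ _) hP
  have hPb : 0 < P := le_trans (le_max_right _ _) hP
  refine ⟨P, hPa, ?_⟩
  have h1 : ∀ t, ∑ p ∈ PP P, |Ent.DD M X α β t p| ≤ 10 * l * (PP P).card := fun t =>
    Ent.sum_DD_le M X α β P hPb rfl l hl0 hl1 hI t
  have h2 : ∑ p ∈ PP P, ∑ t : Bool × Bool × Bool, |Ent.DD M X α β t p| ≤ ε' ^ 2 * (PP P).card := by
    rw [Finset.sum_comm]
    calc ∑ t : Bool × Bool × Bool, ∑ p ∈ PP P, |Ent.DD M X α β t p|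
        ≤ ∑ _t : Bool × Bool × Bool, 10 * l * (PP P).card := Finset.sum_le_sum fun t _ => h1 t
      _ = ε' ^ 2 * (PP P).card := by
          rw [Finset.sum_const, Finset.card_univ, nsmul_eq_mul, hl]
          have : (Fintype.card (Bool × Bool × Bool) : ℝ) = 8 := by norm_num [Fintype.card_prod]
          rw [this]; ring
  have h3 : (((PP P).filter (fun p => ¬ Decouples M X α β ε p)).card : ℝ) * ε' ≤
      ε' ^ 2 * (PP P).card := by
    refine le_trans ?_ h2
    rw [← nsmul_eq_mul]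
    refine le_trans (Finset.card_nsmul_le_sum _
      (fun p => ∑ t : Bool × Bool × Bool, |Ent.DD M X α β t p|) _ ?_) ?_
    · intro p hp
      rw [Finset.mem_filter] at hp
      by_contra hlt
      apply hp.2
      intro F hF
      exact (Ent.abs_E_le M X α β p F hF).trans ((not_le.1 hlt).le.trans hε'2)
    · exact Finset.sum_le_sum_of_subset_of_nonneg (Finset.filter_subset _ _)
        (fun p _ _ => Finset.sum_nonneg fun t _ => abs_nonneg _)
  have h4 : (((PP P).filter (fun p => ¬ Decouples M X α β ε p)).card : ℝ) ≤ ε * (PP P).card := by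
    have h5 : (((PP P).filter (fun p => ¬ Decouples M X α β ε p)).card : ℝ) ≤ ε' * (PP P).card := by
      have e : ε' ^ 2 * ((PP P).card : ℝ) = (ε' * (PP P).card) * ε' := by ring
      rw [e] at h3
      exact le_of_mul_le_mul_right h3 hε'0
    exact h5.trans (mul_le_mul_of_nonneg_right hε'2 (Nat.cast_nonneg _))
  have h6 : (((PP P).filter (fun p => Decouples M X α β ε p)).card : ℝ) +
      (((PP P).filter (fun p => ¬ Decouples M X α β ε p)).card : ℝ) = (PP P).card := by
    exact_mod_cast Finset.card_filter_add_card_filter_not (s := PP P) (fun p => Decouples M X α β ε p)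
  linarith

end Pool.Agent.Hhelper89.LehmerFull
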