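import Pool.Agent.Hhelper89.LehmerFull.Defs

/-!
The large spectrum of the correlations of a completely multiplicative sign function under a
logarithmic mean is close to rationals with bounded denominators.
-/

namespace Pool.Agent.Hhelper89.LehmerFull

open Finset Filter Topology
open Pool.Agent.Hhelper89.Lehmer

namespace LS5

/-! ### elementary properties of the mean -/

lemma E_zero (M : Mean) : M.E (fun _ => 0) = 0 := by
  have := M.smul 0 (fun _ => 1) (Bdd.const 1)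
  simpa using this

lemma E_sum (M : Mean) {ι : Type*} (s : Finset ι) (F : ι → ℤ → ℝ) (hF : ∀ i ∈ s, Bdd (F i)) :
    M.E (fun n => ∑ i ∈ s, F i n) = ∑ i ∈ s, M.E (F i) := by
  classical
  induction s using Finset.induction_on with
  | empty => simpa using E_zero M
  | insert a s ha ih =>
    simp only [Finset.sum_insert ha]
    rw [M.add _ _ (hF a (Finset.mem_insert_self a s))
      (Bdd.sum s F fun i hi => hF i (Finset.mem_insert_of_mem hi)),
      ih fun i hi => hF i (Finset.mem_insert_of_mem hi)]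

lemma E_mono (M : Mean) {F G : ℤ → ℝ} (hF : Bdd F) (hG : Bdd G) (h : ∀ n, F n ≤ G n) :
    M.E F ≤ M.E G := by
  have h1 := M.add F (fun n => G n - F n) hF (hG.sub hF)
  have h2 := M.nonneg (fun n => G n - F n) (hG.sub hF) (fun n => sub_nonneg.2 (h n))
  have h3 : (fun n => F n + (G n - F n)) = G := by funext n; ring
  rw [h3] at h1
  linarith

lemma E_const (M : Mean) (c : ℝ) : M.E (fun _ => c) = c := by
  have := M.smul c (fun _ => 1) (Bdd.const 1)
  simpa [M.one] using this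

/-- the mean only sees large positive integers -/
lemma E_congr_gt (M : Mean) {F G : ℤ → ℝ} (hF : Bdd F) (hG : Bdd G) (N : ℤ)
    (h : ∀ n, N < n → F n = G n) : M.E F = M.E G := by
  rw [← M.shift N F hF, ← M.shift N G hG]
  exact M.congr _ _ (hF.comp _) (hG.comp _) fun n hn => h _ (by omega)

/-! ### exponentials -/

/-- `e(t)` -/
noncomputable def ee (t : ℝ) : ℂ := Complex.exp ((2 * Real.pi * t : ℝ) * Complex.I)

lemma ee_add (s t : ℝ) : ee (s + t) = ee s * ee t := by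
  unfold ee
  rw [← Complex.exp_add]
  congr 1
  push_cast
  ring

lemma ee_zero : ee 0 = 1 := by simp [ee]

lemma ee_re (t : ℝ) : (ee t).re = Real.cos (2 * Real.pi * t) := by
  unfold ee
  rw [Complex.exp_ofReal_mul_I_re]

lemma ee_im (t : ℝ) : (ee t).im = Real.sin (2 * Real.pi * t) := by
  unfold ee
  rw [Complex.exp_ofReal_mul_I_im]

lemma norm_ee (t : ℝ) : ‖ee t‖ = 1 := by
  unfold ee
  rw [Complex.norm_exp_ofReal_mul_I]

lemma normSq_ee (t : ℝ) : Complex.normSq (ee t) = 1 := by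
  rw [Complex.normSq_eq_norm_sq, norm_ee]; norm_num

lemma conj_ee (t : ℝ) : (starRingEnd ℂ) (ee t) = ee (-t) := by
  unfold ee
  rw [← Complex.exp_conj, map_mul, Complex.conj_I, Complex.conj_ofReal]
  congr 1
  push_cast
  ring

lemma ee_nat_mul (h : ℕ) (t : ℝ) : ee (h * t) = ee t ^ h := by
  unfold ee
  rw [← Complex.exp_nat_mul]
  congr 1
  push_cast
  ring

lemma ee_int (k : ℤ) : ee k = 1 := by
  unfold ee
  rw [Complex.exp_eq_one_iff]
  exact ⟨k, by push_cast; ring⟩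

lemma normSq_sum_eq {ι : Type*} (s : Finset ι) (w : ι → ℂ) :
    Complex.normSq (∑ h ∈ s, w h) =
      ∑ h ∈ s, ∑ k ∈ s, (w h * (starRingEnd ℂ) (w k)).re := by
  have h1 : ((Complex.normSq (∑ h ∈ s, w h) : ℝ) : ℂ) =
      ∑ h ∈ s, ∑ k ∈ s, (w h * (starRingEnd ℂ) (w k)) := by
    rw [← Complex.mul_conj, map_sum, Finset.sum_mul_sum]
  have h2 := congrArg Complex.re h1
  rw [Complex.ofReal_re] at h2
  rw [h2, Complex.re_sum]
  exact Finset.sum_congr rfl fun h _ => Complex.re_sum _ _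

/-! ### Bessel and Gram -/

/-- Bessel's inequality for an orthogonal family of real vectors -/
lemma bessel_real {ι κ : Type*} (s : Finset ι) (t : Finset κ) (v : ι → κ → ℝ)
    (N : ι → ℝ) (hN : ∀ i ∈ s, 0 < N i) (hdiag : ∀ i ∈ s, ∑ h ∈ t, v i h * v i h = N i)
    (hoff : ∀ i ∈ s, ∀ j ∈ s, i ≠ j → ∑ h ∈ t, v i h * v j h = 0) (y : κ → ℝ) :
    ∑ i ∈ s, (∑ h ∈ t, v i h * y h) ^ 2 / N i ≤ ∑ h ∈ t, y h ^ 2 := by
  classical
  set a : ι → ℝ := fun i => (∑ h ∈ t, v i h * y h) / N i with ha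
  have h0 : 0 ≤ ∑ h ∈ t, (y h - ∑ i ∈ s, a i * v i h) ^ 2 :=
    Finset.sum_nonneg fun h _ => sq_nonneg _
  have h1 : ∑ h ∈ t, (y h - ∑ i ∈ s, a i * v i h) ^ 2 =
      ∑ h ∈ t, y h ^ 2 - 2 * ∑ h ∈ t, y h * ∑ i ∈ s, a i * v i h +
        ∑ h ∈ t, (∑ i ∈ s, a i * v i h) * (∑ j ∈ s, a j * v j h) := by
    rw [Finset.mul_sum, ← Finset.sum_sub_distrib, ← Finset.sum_add_distrib]
    exact Finset.sum_congr rfl fun h _ => by ring
  have h2 : ∑ h ∈ t, y h * ∑ i ∈ s, a i * v i h = ∑ i ∈ s, (∑ h ∈ t, v i h * y h) ^ 2 / N i := by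
    simp only [Finset.mul_sum]
    rw [Finset.sum_comm]
    refine Finset.sum_congr rfl fun i _ => ?_
    have : ∑ h ∈ t, y h * (a i * v i h) = a i * ∑ h ∈ t, v i h * y h := by
      rw [Finset.mul_sum]
      exact Finset.sum_congr rfl fun h _ => by ring
    rw [this, ha]
    ring
  have h3 : ∑ h ∈ t, (∑ i ∈ s, a i * v i h) * (∑ j ∈ s, a j * v j h) =
      ∑ i ∈ s, (∑ h ∈ t, v i h * y h) ^ 2 / N i := by
    have e1 : ∀ h, (∑ i ∈ s, a i * v i h) * (∑ j ∈ s, a j * v j h) =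
        ∑ i ∈ s, ∑ j ∈ s, (a i * a j) * (v i h * v j h) := by
      intro h
      rw [Finset.sum_mul_sum]
      exact Finset.sum_congr rfl fun i _ => Finset.sum_congr rfl fun j _ => by ring
    simp only [e1]
    rw [Finset.sum_comm]
    refine Finset.sum_congr rfl fun i hi => ?_
    rw [Finset.sum_comm]
    rw [Finset.sum_eq_single i]
    · rw [← Finset.mul_sum, hdiag i hi, ha]
      have := (hN i hi).ne'
      field_simp
    · intro j hj hji
      rw [← Finset.mul_sum, hoff i hi j hj (Ne.symm hji), mul_zero]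
    · intro h; exact absurd hi h
  rw [h1, h2, h3] at h0
  linarith

/-- the same for complex `y` -/
lemma bessel_complex {ι κ : Type*} (s : Finset ι) (t : Finset κ) (v : ι → κ → ℝ)
    (N : ι → ℝ) (hN : ∀ i ∈ s, 0 < N i) (hdiag : ∀ i ∈ s, ∑ h ∈ t, v i h * v i h = N i)
    (hoff : ∀ i ∈ s, ∀ j ∈ s, i ≠ j → ∑ h ∈ t, v i h * v j h = 0) (y : κ → ℂ) :
    ∑ i ∈ s, Complex.normSq (∑ h ∈ t, (v i h : ℂ) * y h) / N i ≤
      ∑ h ∈ t, Complex.normSq (y h) := by
  have h1 := bessel_real s t v N hN hdiag hoff (fun h => (y h).re)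
  have h2 := bessel_real s t v N hN hdiag hoff (fun h => (y h).im)
  have h3 : ∀ i, Complex.normSq (∑ h ∈ t, (v i h : ℂ) * y h) / N i =
      (∑ h ∈ t, v i h * (y h).re) ^ 2 / N i + (∑ h ∈ t, v i h * (y h).im) ^ 2 / N i := by
    intro i
    rw [Complex.normSq_apply, Complex.re_sum, Complex.im_sum, ← add_div]
    simp only [Complex.re_ofReal_mul, Complex.im_ofReal_mul]
    ring
  have h4 : ∀ h, Complex.normSq (y h) = (y h).re ^ 2 + (y h).im ^ 2 := by
    intro h; rw [Complex.normSq_apply]; ring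
  simp only [h3, h4, Finset.sum_add_distrib]
  linarith

/-- the almost orthogonality inequality of Boas and Selberg -/
lemma gram {ι κ : Type*} (s : Finset ι) (t : Finset κ) (e : ι → κ → ℂ) (A : ℝ) (hA : 0 < A)
    (hrow : ∀ i ∈ s, ∑ j ∈ s, ‖∑ h ∈ t, e i h * (starRingEnd ℂ) (e j h)‖ ≤ A) (y : κ → ℂ) :
    ∑ i ∈ s, Complex.normSq (∑ h ∈ t, y h * (starRingEnd ℂ) (e i h)) ≤
      A * ∑ h ∈ t, Complex.normSq (y h) := by
  classical
  set a : ι → ℂ := fun i => ∑ h ∈ t, y h * (starRingEnd ℂ) (e i h) with ha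
  set S : ℝ := ∑ i ∈ s, Complex.normSq (a i) with hS
  have h0 : 0 ≤ ∑ h ∈ t, Complex.normSq (y h - (1 / A : ℝ) * ∑ i ∈ s, a i * e i h) :=
    Finset.sum_nonneg fun h _ => Complex.normSq_nonneg _
  have h1 : ∑ h ∈ t, Complex.normSq (y h - (1 / A : ℝ) * ∑ i ∈ s, a i * e i h) =
      ∑ h ∈ t, Complex.normSq (y h) +
        (1 / A) ^ 2 * ∑ h ∈ t, Complex.normSq (∑ i ∈ s, a i * e i h) -
        2 * (1 / A) * (∑ h ∈ t, y h * (starRingEnd ℂ) (∑ i ∈ s, a i * e i h)).re := by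
    rw [Complex.re_sum, Finset.mul_sum, Finset.mul_sum, ← Finset.sum_add_distrib,
      ← Finset.sum_sub_distrib]
    refine Finset.sum_congr rfl fun h _ => ?_
    rw [Complex.normSq_sub, Complex.normSq_mul, Complex.normSq_ofReal, map_mul, Complex.conj_ofReal]
    have : (y h * (((1 / A : ℝ) : ℂ) * (starRingEnd ℂ) (∑ i ∈ s, a i * e i h))).re =
        (1 / A) * (y h * (starRingEnd ℂ) (∑ i ∈ s, a i * e i h)).re := by
      rw [mul_left_comm, Complex.re_ofReal_mul]
    rw [this]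
    ring
  have h2 : (∑ h ∈ t, y h * (starRingEnd ℂ) (∑ i ∈ s, a i * e i h)) = (S : ℂ) := by
    have e1 : ∀ h, y h * (starRingEnd ℂ) (∑ i ∈ s, a i * e i h) =
        ∑ i ∈ s, (starRingEnd ℂ) (a i) * (y h * (starRingEnd ℂ) (e i h)) := by
      intro h
      rw [map_sum, Finset.mul_sum]
      refine Finset.sum_congr rfl fun i _ => ?_
      rw [map_mul]; ring
    simp only [e1]
    rw [Finset.sum_comm, hS]
    push_cast
    refine Finset.sum_congr rfl fun i _ => ?_
    rw [← Finset.mul_sum, ← Complex.mul_conj, mul_comm]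
  have h3 : ∑ h ∈ t, Complex.normSq (∑ i ∈ s, a i * e i h) ≤ A * S := by
    have e1 : ((∑ h ∈ t, Complex.normSq (∑ i ∈ s, a i * e i h) : ℝ) : ℂ) =
        ∑ i ∈ s, ∑ j ∈ s, (a i * (starRingEnd ℂ) (a j)) *
          ∑ h ∈ t, e i h * (starRingEnd ℂ) (e j h) := by
      push_cast
      have e2 : ∀ h, ((Complex.normSq (∑ i ∈ s, a i * e i h) : ℝ) : ℂ) =
          ∑ i ∈ s, ∑ j ∈ s, (a i * (starRingEnd ℂ) (a j)) * (e i h * (starRingEnd ℂ) (e j h)) := by
        intro h
        rw [← Complex.mul_conj, map_sum, Finset.sum_mul_sum]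
        refine Finset.sum_congr rfl fun i _ => Finset.sum_congr rfl fun j _ => ?_
        rw [map_mul]; ring
      simp only [e2]
      rw [Finset.sum_comm]
      refine Finset.sum_congr rfl fun i _ => ?_
      rw [Finset.sum_comm]
      refine Finset.sum_congr rfl fun j _ => ?_
      rw [Finset.mul_sum]
    have e3 : ∑ h ∈ t, Complex.normSq (∑ i ∈ s, a i * e i h) ≤
        ∑ i ∈ s, ∑ j ∈ s, (‖a i‖ * ‖a j‖) * ‖∑ h ∈ t, e i h * (starRingEnd ℂ) (e j h)‖ := by
      have : ‖((∑ h ∈ t, Complex.normSq (∑ i ∈ s, a i * e i h) : ℝ) : ℂ)‖ ≤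
          ∑ i ∈ s, ∑ j ∈ s, (‖a i‖ * ‖a j‖) * ‖∑ h ∈ t, e i h * (starRingEnd ℂ) (e j h)‖ := by
        rw [e1]
        refine (norm_sum_le _ _).trans (Finset.sum_le_sum fun i _ => ?_)
        refine (norm_sum_le _ _).trans (Finset.sum_le_sum fun j _ => ?_)
        rw [norm_mul, norm_mul, Complex.norm_conj]
      rw [Complex.norm_real, Real.norm_eq_abs] at this
      exact (le_abs_self _).trans this
    have e4 : ∑ i ∈ s, ∑ j ∈ s, (‖a i‖ * ‖a j‖) * ‖∑ h ∈ t, e i h * (starRingEnd ℂ) (e j h)‖ ≤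
        ∑ i ∈ s, ∑ j ∈ s, ((‖a i‖ ^ 2 + ‖a j‖ ^ 2) / 2) *
          ‖∑ h ∈ t, e i h * (starRingEnd ℂ) (e j h)‖ := by
      refine Finset.sum_le_sum fun i _ => Finset.sum_le_sum fun j _ => ?_
      refine mul_le_mul_of_nonneg_right ?_ (norm_nonneg _)
      nlinarith [sq_nonneg (‖a i‖ - ‖a j‖)]
    have hsymm : ∀ i j, ‖∑ h ∈ t, e i h * (starRingEnd ℂ) (e j h)‖ =
        ‖∑ h ∈ t, e j h * (starRingEnd ℂ) (e i h)‖ := by
      intro i j
      rw [← Complex.norm_conj, map_sum]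
      congr 1
      refine Finset.sum_congr rfl fun h _ => ?_
      rw [map_mul, Complex.conj_conj, mul_comm]
    have e5 : ∑ i ∈ s, ∑ j ∈ s, ((‖a i‖ ^ 2 + ‖a j‖ ^ 2) / 2) *
          ‖∑ h ∈ t, e i h * (starRingEnd ℂ) (e j h)‖ =
        ∑ i ∈ s, ‖a i‖ ^ 2 * ∑ j ∈ s, ‖∑ h ∈ t, e i h * (starRingEnd ℂ) (e j h)‖ := by
      have f1 : ∑ i ∈ s, ∑ j ∈ s, ((‖a i‖ ^ 2 + ‖a j‖ ^ 2) / 2) *
          ‖∑ h ∈ t, e i h * (starRingEnd ℂ) (e j h)‖ =
          (1 / 2) * ∑ i ∈ s, ∑ j ∈ s, ‖a i‖ ^ 2 * ‖∑ h ∈ t, e i h * (starRingEnd ℂ) (e j h)‖ +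
          (1 / 2) * ∑ i ∈ s, ∑ j ∈ s, ‖a j‖ ^ 2 *
            ‖∑ h ∈ t, e i h * (starRingEnd ℂ) (e j h)‖ := by
        rw [Finset.mul_sum, Finset.mul_sum, ← Finset.sum_add_distrib]
        refine Finset.sum_congr rfl fun i _ => ?_
        rw [Finset.mul_sum, Finset.mul_sum, ← Finset.sum_add_distrib]
        refine Finset.sum_congr rfl fun j _ => ?_
        ring
      have f2 : ∑ i ∈ s, ∑ j ∈ s, ‖a j‖ ^ 2 * ‖∑ h ∈ t, e i h * (starRingEnd ℂ) (e j h)‖ =
          ∑ i ∈ s, ∑ j ∈ s, ‖a i‖ ^ 2 * ‖∑ h ∈ t, e i h * (starRingEnd ℂ) (e j h)‖ := by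
        rw [Finset.sum_comm]
        refine Finset.sum_congr rfl fun i _ => Finset.sum_congr rfl fun j _ => ?_
        rw [hsymm j i]
      rw [f1, f2]
      simp only [Finset.mul_sum]
      rw [← Finset.sum_add_distrib]
      refine Finset.sum_congr rfl fun i _ => ?_
      rw [← Finset.sum_add_distrib]
      refine Finset.sum_congr rfl fun j _ => ?_
      ring
    have e6 : ∑ i ∈ s, ‖a i‖ ^ 2 * ∑ j ∈ s, ‖∑ h ∈ t, e i h * (starRingEnd ℂ) (e j h)‖ ≤
        ∑ i ∈ s, ‖a i‖ ^ 2 * A :=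
      Finset.sum_le_sum fun i hi => mul_le_mul_of_nonneg_left (hrow i hi) (sq_nonneg _)
    calc _ ≤ _ := e3
      _ ≤ _ := e4
      _ = _ := e5
      _ ≤ _ := e6
      _ = A * S := by
        rw [← Finset.sum_mul, hS, mul_comm]
        simp only [Complex.normSq_eq_norm_sq]
  rw [h1, h2, Complex.ofReal_re] at h0
  have h4 : (1 / A) ^ 2 * ∑ h ∈ t, Complex.normSq (∑ i ∈ s, a i * e i h) ≤ (1 / A) ^ 2 * (A * S) :=
    mul_le_mul_of_nonneg_left h3 (sq_nonneg _)
  have h5 : (1 / A) ^ 2 * (A * S) = (1 / A) * S := by field_simp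
  have h6 : (1 / A) * S ≤ ∑ h ∈ t, Complex.normSq (y h) := by
    rw [h5] at h4
    nlinarith
  have h7 := mul_le_mul_of_nonneg_left h6 hA.le
  have h8 : A * (1 / A * S) = S := by field_simp
  rw [h8] at h7
  exact h7

/-! ### geometric sums -/

lemma geom_bound {φ D : ℝ} (hD : 0 < D) (hφ : ∀ k : ℤ, D ≤ |φ - k|) (N : ℕ) :
    ‖∑ h ∈ range N, ee (h * φ)‖ ≤ 1 / (2 * D) := by
  set r : ℝ := φ - round φ with hr
  have hr1 : |r| ≤ 1 / 2 := abs_sub_round φ
  have hr2 : D ≤ |r| := hφ (round φ)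
  have h1 : ∀ h : ℕ, ee (h * φ) = ee r ^ h := by
    intro h
    have : (h : ℝ) * φ = h * r + ((h * round φ : ℤ) : ℝ) := by
      rw [hr]; push_cast; ring
    rw [this, ee_add, ee_int, mul_one, ee_nat_mul]
  simp only [h1]
  have h2 : 4 * D ≤ ‖ee r - 1‖ := by
    have e1 : ee r = Complex.exp (Complex.I * ((2 * Real.pi * r : ℝ) : ℂ)) := by
      unfold ee; rw [mul_comm]
    rw [e1, Complex.norm_exp_I_mul_ofReal_sub_one, norm_mul, Real.norm_eq_abs, Real.norm_eq_abs,
      abs_of_pos (by norm_num : (0 : ℝ) < 2)]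
    have e2 : 2 * Real.pi * r / 2 = Real.pi * r := by ring
    rw [e2]
    have e3 : |Real.sin (Real.pi * r)| = Real.sin (Real.pi * |r|) := by
      rcases le_total 0 r with h | h
      · rw [abs_of_nonneg h] at *
        exact abs_of_nonneg (Real.sin_nonneg_of_nonneg_of_le_pi (by positivity)
          (by nlinarith [Real.pi_pos]))
      · rw [abs_of_nonpos h] at *
        have : Real.pi * -r = -(Real.pi * r) := by ring
        rw [this, Real.sin_neg]
        apply abs_of_nonpos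
        have h5 : 0 ≤ Real.sin (Real.pi * -r) :=
          Real.sin_nonneg_of_nonneg_of_le_pi (mul_nonneg Real.pi_pos.le (by linarith))
            (by nlinarith [Real.pi_pos])
        rw [this, Real.sin_neg] at h5
        linarith
    rw [e3]
    have e4 := Real.mul_le_sin (x := Real.pi * |r|) (by positivity) (by nlinarith [Real.pi_pos])
    have e5 : 2 / Real.pi * (Real.pi * |r|) = 2 * |r| := by
      have := Real.pi_pos.ne'
      field_simp
    rw [e5] at e4
    linarith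
  have h3 : ee r ≠ 1 := by
    intro h
    rw [h] at h2
    simp at h2
    linarith
  rw [geom_sum_eq h3, norm_div]
  have h4 : ‖ee r ^ N - 1‖ ≤ 2 := by
    refine (norm_sub_le _ _).trans ?_
    rw [norm_pow, norm_ee]
    norm_num
  have h5 : 0 < ‖ee r - 1‖ := by linarith
  rw [div_le_div_iff₀ h5 (by positivity)]
  nlinarith [norm_nonneg (ee r ^ N - 1)]

/-! ### splitting into residue classes -/

lemma sum_split {α : Type*} [AddCommMonoid α] (q H : ℕ) (hq : 0 < q) (F : ℕ → α) :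
    ∑ h ∈ range (q * H), F h = ∑ r ∈ range q, ∑ j ∈ range H, F (q * j + r) := by
  rw [← Finset.sum_product']
  symm
  refine Finset.sum_nbij' (fun p => q * p.2 + p.1) (fun h => (h % q, h / q)) ?_ ?_ ?_ ?_ ?_
  · intro p hp
    rw [Finset.mem_product, Finset.mem_range, Finset.mem_range] at hp
    rw [Finset.mem_range]
    calc q * p.2 + p.1 < q * p.2 + q := by omega
      _ = q * (p.2 + 1) := by ring
      _ ≤ q * H := Nat.mul_le_mul_left _ hp.2
  · intro h hh
    rw [Finset.mem_range] at hh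
    rw [Finset.mem_product, Finset.mem_range, Finset.mem_range]
    exact ⟨Nat.mod_lt _ hq, Nat.div_lt_of_lt_mul hh⟩
  · intro p hp
    rw [Finset.mem_product, Finset.mem_range, Finset.mem_range] at hp
    ext
    · simp only
      rw [Nat.mul_add_mod, Nat.mod_eq_of_lt hp.1]
    · simp only
      rw [Nat.mul_add_div hq, Nat.div_eq_of_lt hp.1, add_zero]
  · intro h _
    exact Nat.div_add_mod h q
  · intro p _
    rfl

lemma sum_dvd_one (d : ℕ) (hd : 0 < d) (n : ℤ) :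
    ∑ r ∈ range d, (if (d : ℤ) ∣ n + r then (1 : ℝ) else 0) = 1 := by
  have hd' : (0 : ℤ) < d := by exact_mod_cast hd
  have h0 := Int.emod_nonneg (-n) hd'.ne'
  have h1 := Int.emod_lt_of_pos (-n) hd'
  set r0 : ℕ := ((-n) % (d : ℤ)).toNat with hr0
  have hr : (r0 : ℤ) = (-n) % (d : ℤ) := Int.toNat_of_nonneg h0
  rw [Finset.sum_eq_single r0]
  · rw [if_pos]
    have : (d : ℤ) ∣ (-n) - (-n) % d := ⟨(-n) / d, by rw [Int.emod_def]; ring⟩
    rw [hr]
    have h2 : n + -n % (d : ℤ) = -((-n) - (-n) % d) := by ring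
    rw [h2]
    exact (dvd_neg).2 this
  · intro r hr' hne
    rw [if_neg]
    intro hdvd
    apply hne
    rw [Finset.mem_range] at hr'
    have h3 : (d : ℤ) ∣ (r : ℤ) - (-n) := by
      have : (r : ℤ) - (-n) = n + r := by ring
      rw [this]; exact hdvd
    have h4 : (r : ℤ) % d = (-n) % d :=
      (Int.emod_eq_emod_iff_emod_sub_eq_zero).2 (Int.emod_eq_zero_of_dvd h3)
    rw [Int.emod_eq_of_lt (by positivity) (by exact_mod_cast hr')] at h4
    rw [← hr] at h4
    exact_mod_cast h4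
  · intro h
    exfalso
    apply h
    rw [Finset.mem_range]
    have : (r0 : ℤ) < d := by rw [hr]; exact h1
    exact_mod_cast this

lemma sum_dvd (d H : ℕ) (hd : 0 < d) (hH : d ∣ H) (n : ℤ) :
    ∑ h ∈ range H, (if (d : ℤ) ∣ n + h then (1 : ℝ) else 0) = (H : ℝ) / d := by
  obtain ⟨H', rfl⟩ := hH
  rw [sum_split d H' hd, Finset.sum_comm]
  have h1 : ∀ j ∈ range H', ∑ r ∈ range d,
      (if (d : ℤ) ∣ n + ((d * j + r : ℕ) : ℤ) then (1 : ℝ) else 0) = 1 := by
    intro j _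
    refine Eq.trans ?_ (sum_dvd_one d hd (n + d * j))
    refine Finset.sum_congr rfl fun r _ => ?_
    push_cast
    rw [add_assoc]
  rw [Finset.sum_congr rfl h1]
  have : (d : ℝ) ≠ 0 := by positivity
  rw [Finset.sum_const, card_range, nsmul_eq_mul, mul_one]
  push_cast
  field_simp

/-! ### the exponential averages -/

/-- correlations -/
noncomputable def cc (M : Mean) (x : ℤ → ℝ) (d : ℤ) : ℝ := M.E (fun n => x n * x (n + d))

/-- the exponential average of length `H` -/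
noncomputable def SS (x : ℤ → ℝ) (H : ℕ) (θ : ℝ) (n : ℤ) : ℂ :=
  ((1 / (H : ℝ) : ℝ) : ℂ) * ∑ h ∈ range H, ee (h * θ) * (x (n + h) : ℂ)

/-- the exponential average over the multiples of `q` -/
noncomputable def GG (x : ℤ → ℝ) (q H : ℕ) (θ : ℝ) (n : ℤ) : ℂ :=
  (((q : ℝ) / (H : ℝ) : ℝ) : ℂ) *
    ∑ h ∈ range H, (if (q : ℤ) ∣ n + h then ee (h * θ) * (x (n + h) : ℂ) else 0)

lemma ee_mul_conj_re (s t a b : ℝ) :
    ((ee s * (a : ℂ)) * (starRingEnd ℂ) (ee t * (b : ℂ))).re =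
      Real.cos (2 * Real.pi * (s - t)) * (a * b) := by
  rw [map_mul, conj_ee, Complex.conj_ofReal]
  have : ee s * (a : ℂ) * (ee (-t) * (b : ℂ)) = ((a * b : ℝ) : ℂ) * ee (s - t) := by
    rw [sub_eq_add_neg, ee_add]
    push_cast
    ring
  rw [this, Complex.re_ofReal_mul, ee_re]
  ring

lemma normSq_SS (x : ℤ → ℝ) (H : ℕ) (θ : ℝ) (n : ℤ) :
    Complex.normSq (SS x H θ n) = (1 / (H : ℝ) ^ 2) * ∑ h ∈ range H, ∑ k ∈ range H,
      Real.cos (2 * Real.pi * (((h : ℝ) - (k : ℝ)) * θ)) * (x (n + h) * x (n + k)) := by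
  unfold SS
  rw [Complex.normSq_mul, Complex.normSq_ofReal, normSq_sum_eq]
  congr 1
  · ring
  · refine Finset.sum_congr rfl fun h _ => Finset.sum_congr rfl fun k _ => ?_
    rw [ee_mul_conj_re, sub_mul]

lemma normSq_GG (x : ℤ → ℝ) (q H : ℕ) (θ : ℝ) (n : ℤ) :
    Complex.normSq (GG x q H θ n) = ((q : ℝ) / (H : ℝ)) ^ 2 * ∑ h ∈ range H, ∑ k ∈ range H,
      Real.cos (2 * Real.pi * (((h : ℝ) - (k : ℝ)) * θ)) *
        (if (q : ℤ) ∣ n + h ∧ (q : ℤ) ∣ n + k then x (n + h) * x (n + k) else 0) := by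
  unfold GG
  rw [Complex.normSq_mul, Complex.normSq_ofReal, normSq_sum_eq]
  congr 1
  · ring
  · refine Finset.sum_congr rfl fun h _ => Finset.sum_congr rfl fun k _ => ?_
    by_cases h1 : (q : ℤ) ∣ n + h
    · by_cases h2 : (q : ℤ) ∣ n + k
      · rw [if_pos h1, if_pos h2, if_pos ⟨h1, h2⟩, ee_mul_conj_re, sub_mul]
      · rw [if_neg h2, if_neg (not_and_of_not_right _ h2)]
        simp
    · rw [if_neg h1, if_neg (not_and_of_not_left _ h1)]
      simp

lemma corr_eq (M : Mean) {x : ℤ → ℝ} (hx : Bdd x) (h k : ℤ) :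
    M.E (fun n => x (n + h) * x (n + k)) = cc M x (h - k) := by
  unfold cc
  rw [← M.shift k (fun n => x n * x (n + (h - k))) (hx.mul (hx.comp _))]
  congr 1
  funext n
  have : n + k + (h - k) = n + h := by ring
  rw [this, mul_comm]

lemma QQ_cc (M : Mean) {x : ℤ → ℝ} (hx : Bdd x) (H : ℕ) (θ : ℝ) :
    QQ (cc M x) H θ = M.E (fun n => Complex.normSq (SS x H θ n)) := by
  simp only [normSq_SS]
  have hb : ∀ h k : ℕ, Bdd (fun n : ℤ =>
      Real.cos (2 * Real.pi * (((h : ℝ) - (k : ℝ)) * θ)) * (x (n + h) * x (n + k))) :=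
    fun h k => Bdd.const_mul _ ((hx.comp _).mul (hx.comp _))
  rw [M.smul _ _ (Bdd.sum _ _ fun h _ => Bdd.sum _ _ fun k _ => hb h k),
    E_sum M _ _ (fun h _ => Bdd.sum _ _ fun k _ => hb h k)]
  unfold QQ
  congr 1
  refine Finset.sum_congr rfl fun h _ => ?_
  rw [E_sum M _ _ (fun k _ => hb h k)]
  refine Finset.sum_congr rfl fun k _ => ?_
  rw [M.smul _ _ ((hx.comp _).mul (hx.comp _)), corr_eq M hx]

lemma Bdd_normSq_SS {x : ℤ → ℝ} (hx : Bdd x) (H : ℕ) (θ : ℝ) :
    Bdd (fun n => Complex.normSq (SS x H θ n)) := by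
  simp only [normSq_SS]
  exact Bdd.const_mul _ (Bdd.sum _ _ fun h _ => Bdd.sum _ _ fun k _ =>
    Bdd.const_mul _ ((hx.comp _).mul (hx.comp _)))

lemma Bdd_dvd_term {x : ℤ → ℝ} (hx : Bdd x) (q : ℕ) (h k : ℤ) :
    Bdd (fun n => if (q : ℤ) ∣ n + h ∧ (q : ℤ) ∣ n + k then x (n + h) * x (n + k) else 0) := by
  classical
  exact Bdd.ite (F := fun n => x (n + h) * x (n + k)) (G := fun _ => 0)
    ((hx.comp _).mul (hx.comp _)) (Bdd.const 0)
    (fun n => (q : ℤ) ∣ n + h ∧ (q : ℤ) ∣ n + k)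

lemma Bdd_normSq_GG {x : ℤ → ℝ} (hx : Bdd x) (q H : ℕ) (θ : ℝ) :
    Bdd (fun n => Complex.normSq (GG x q H θ n)) := by
  simp only [normSq_GG]
  exact Bdd.const_mul _ (Bdd.sum _ _ fun h _ => Bdd.sum _ _ fun k _ =>
    Bdd.const_mul _ (Bdd_dvd_term hx q h k))

/-- correlations along the multiples of `q` -/
lemma E_dvd_term (M : Mean) {x : ℤ → ℝ} (hx : Bdd x) {q : ℕ} (hq : 0 < q)
    {ε : ℝ} (hε : ε * ε = 1) (hmul : ∀ n : ℤ, 0 < n → x (q * n) = ε * x n)
    {r r' : ℕ} (hr : r < q) (hr' : r' < q) (j j' : ℕ) :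
    M.E (fun n => if (q : ℤ) ∣ n + ((q * j + r : ℕ) : ℤ) ∧ (q : ℤ) ∣ n + ((q * j' + r' : ℕ) : ℤ) then
      x (n + ((q * j + r : ℕ) : ℤ)) * x (n + ((q * j' + r' : ℕ) : ℤ)) else 0) =
      if r = r' then (1 / (q : ℝ)) * cc M x ((j : ℤ) - j') else 0 := by
  have hq' : (0 : ℤ) < q := by exact_mod_cast hq
  by_cases hrr : r = r'
  · subst hrr
    rw [if_pos rfl]
    set d : ℤ := (j : ℤ) - j' with hd
    set F0 : ℤ → ℝ := fun n => x (n + q * d) * x n with hF0
    have hF0b : Bdd F0 := (hx.comp _).mul hx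
    have h1 := M.dil q hq F0 hF0b
    have h2 : M.E (fun n => F0 ((q : ℤ) * n)) = cc M x d := by
      unfold cc
      refine E_congr_gt M (hF0b.comp _) (hx.mul (hx.comp _)) |d| fun n hn => ?_
      have hn0 : 0 < n := lt_of_le_of_lt (abs_nonneg _) hn
      have hn1 : 0 < n + d := by
        have := neg_abs_le d
        linarith
      simp only [hF0]
      rw [← mul_add, hmul _ hn0, hmul _ hn1]
      calc ε * x (n + d) * (ε * x n) = (ε * ε) * (x n * x (n + d)) := by ring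
        _ = _ := by rw [hε, one_mul]
    have h3 : M.E (fun n => if (q : ℤ) ∣ n + ((q * j + r : ℕ) : ℤ) ∧
        (q : ℤ) ∣ n + ((q * j' + r : ℕ) : ℤ) then
        x (n + ((q * j + r : ℕ) : ℤ)) * x (n + ((q * j' + r : ℕ) : ℤ)) else 0) =
        M.E (fun n => if (q : ℤ) ∣ n then F0 n else 0) := by
      rw [← M.shift ((q * j' + r : ℕ) : ℤ) (fun n => if (q : ℤ) ∣ n then F0 n else 0)
        (hF0b.ite (Bdd.const 0) _)]
      congr 1
      funext n
      have e1 : (q : ℤ) ∣ n + ((q * j + r : ℕ) : ℤ) ↔ (q : ℤ) ∣ n + ((q * j' + r : ℕ) : ℤ) := by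
        have : n + ((q * j + r : ℕ) : ℤ) = (n + ((q * j' + r : ℕ) : ℤ)) + q * d := by
          rw [hd]; push_cast; ring
        rw [this]
        exact dvd_add_left (Dvd.intro _ rfl)
      have e2 : n + ((q * j' + r : ℕ) : ℤ) + q * d = n + ((q * j + r : ℕ) : ℤ) := by
        rw [hd]; push_cast; ring
      by_cases h : (q : ℤ) ∣ n + ((q * j' + r : ℕ) : ℤ)
      · rw [if_pos ⟨e1.2 h, h⟩, if_pos h]
        simp only [hF0]
        rw [e2]
      · rw [if_neg (fun hh => h hh.2), if_neg h]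
    rw [h3]
    have hq0 : (q : ℝ) ≠ 0 := by positivity
    rw [h2] at h1
    rw [h1]
    field_simp
  · rw [if_neg hrr]
    have : (fun n : ℤ => if (q : ℤ) ∣ n + ((q * j + r : ℕ) : ℤ) ∧
        (q : ℤ) ∣ n + ((q * j' + r' : ℕ) : ℤ) then
        x (n + ((q * j + r : ℕ) : ℤ)) * x (n + ((q * j' + r' : ℕ) : ℤ)) else 0) =
        fun _ => 0 := by
      funext n
      rw [if_neg]
      rintro ⟨h1, h2⟩
      apply hrr
      have h3 : (q : ℤ) ∣ (r : ℤ) - r' := by
        have h4 := dvd_sub h1 h2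
        have h5 : n + ((q * j + r : ℕ) : ℤ) - (n + ((q * j' + r' : ℕ) : ℤ)) =
            q * ((j : ℤ) - j') + ((r : ℤ) - r') := by push_cast; ring
        rw [h5] at h4
        exact (dvd_add_right (Dvd.intro _ rfl)).1 h4
      have h4 : (r : ℤ) % q = (r' : ℤ) % q :=
        (Int.emod_eq_emod_iff_emod_sub_eq_zero).2 (Int.emod_eq_zero_of_dvd h3)
      rw [Int.emod_eq_of_lt (by positivity) (by exact_mod_cast hr),
        Int.emod_eq_of_lt (by positivity) (by exact_mod_cast hr')] at h4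
      exact_mod_cast h4
    rw [this, E_zero]

lemma E_normSq_GG (M : Mean) {x : ℤ → ℝ} (hx : Bdd x) {q : ℕ} (hq : 0 < q)
    {ε : ℝ} (hε : ε * ε = 1) (hmul : ∀ n : ℤ, 0 < n → x (q * n) = ε * x n)
    {H : ℕ} (hH : 0 < H) (θ : ℝ) :
    M.E (fun n => Complex.normSq (GG x q (q * H) θ n)) = QQ (cc M x) H (q * θ) := by
  simp only [normSq_GG]
  have hb : ∀ h k : ℕ, Bdd (fun n : ℤ =>
      Real.cos (2 * Real.pi * (((h : ℝ) - (k : ℝ)) * θ)) *
        (if (q : ℤ) ∣ n + h ∧ (q : ℤ) ∣ n + k then x (n + h) * x (n + k) else 0)) :=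
    fun h k => Bdd.const_mul _ (Bdd_dvd_term hx q h k)
  rw [M.smul _ _ (Bdd.sum _ _ fun h _ => Bdd.sum _ _ fun k _ => hb h k),
    E_sum M _ _ (fun h _ => Bdd.sum _ _ fun k _ => hb h k)]
  have h1 : ∀ h ∈ range (q * H), M.E (fun n => ∑ k ∈ range (q * H),
      Real.cos (2 * Real.pi * (((h : ℝ) - (k : ℝ)) * θ)) *
        (if (q : ℤ) ∣ n + h ∧ (q : ℤ) ∣ n + k then x (n + h) * x (n + k) else 0)) =
      ∑ k ∈ range (q * H), Real.cos (2 * Real.pi * (((h : ℝ) - (k : ℝ)) * θ)) *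
        M.E (fun n => if (q : ℤ) ∣ n + h ∧ (q : ℤ) ∣ n + k then x (n + h) * x (n + k) else 0) := by
    intro h _
    rw [E_sum M _ _ (fun k _ => hb h k)]
    refine Finset.sum_congr rfl fun k _ => ?_
    rw [M.smul _ _ (Bdd_dvd_term hx q h k)]
  rw [Finset.sum_congr rfl h1, sum_split q H hq]
  have h2 : ∀ r ∈ range q, ∑ j ∈ range H, ∑ k ∈ range (q * H),
      Real.cos (2 * Real.pi * ((((q * j + r : ℕ) : ℝ) - (k : ℝ)) * θ)) *
        M.E (fun n => if (q : ℤ) ∣ n + ((q * j + r : ℕ) : ℤ) ∧ (q : ℤ) ∣ n + k then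
          x (n + ((q * j + r : ℕ) : ℤ)) * x (n + k) else 0) =
      (1 / (q : ℝ)) * ∑ j ∈ range H, ∑ j' ∈ range H,
        Real.cos (2 * Real.pi * (((j : ℝ) - (j' : ℝ)) * (q * θ))) * cc M x ((j : ℤ) - j') := by
    intro r hr
    rw [Finset.mem_range] at hr
    rw [Finset.mul_sum]
    refine Finset.sum_congr rfl fun j _ => ?_
    rw [sum_split q H hq]
    rw [Finset.sum_eq_single r]
    · rw [Finset.mul_sum]
      refine Finset.sum_congr rfl fun j' _ => ?_
      rw [E_dvd_term M hx hq hε hmul hr hr j j', if_pos rfl]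
      have e1 : (((q * j + r : ℕ) : ℝ) - ((q * j' + r : ℕ) : ℝ)) * θ =
          ((j : ℝ) - (j' : ℝ)) * (q * θ) := by push_cast; ring
      rw [e1]
      ring
    · intro r' hr' hne
      rw [Finset.mem_range] at hr'
      refine Finset.sum_eq_zero fun j' _ => ?_
      rw [E_dvd_term M hx hq hε hmul hr hr' j j', if_neg (Ne.symm hne), mul_zero]
    · intro h
      exact absurd (Finset.mem_range.2 hr) h
  rw [Finset.sum_congr rfl h2, Finset.sum_const, card_range, nsmul_eq_mul]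
  unfold QQ
  have hq0 : (q : ℝ) ≠ 0 := by positivity
  have hH0 : (H : ℝ) ≠ 0 := by positivity
  push_cast
  generalize (∑ j ∈ range H, ∑ j' ∈ range H,
        Real.cos (2 * Real.pi * (((j : ℝ) - (j' : ℝ)) * (q * θ))) * cc M x ((j : ℤ) - j')) = S
  field_simp

/-! ### the pointwise Bessel inequality -/

lemma pointwise_bessel {x : ℤ → ℝ} (hx1 : ∀ n, x n ^ 2 ≤ 1) (Q : Finset ℕ)
    (hQ : ∀ q ∈ Q, q.Prime) {H : ℕ} (hH : 0 < H) (hdiv : ∏ q ∈ Q, q ∣ H) (θ : ℝ) (n : ℤ) :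
    ∑ q ∈ Q, Complex.normSq (GG x q H θ n - SS x H θ n) / ((q : ℝ) - 1) ≤ 1 := by
  classical
  have hqH : ∀ q ∈ Q, q ∣ H := fun q hq => (Finset.dvd_prod_of_mem _ hq).trans hdiv
  have hqqH : ∀ q ∈ Q, ∀ q' ∈ Q, q ≠ q' → q * q' ∣ H := by
    intro q hq q' hq' hne
    have hco : q.Coprime q' := (Nat.coprime_primes (hQ q hq) (hQ q' hq')).2 hne
    exact hco.mul_dvd_of_dvd_of_dvd (hqH q hq) (hqH q' hq')
  set v : ℕ → ℕ → ℝ := fun q h => (q : ℝ) * (if (q : ℤ) ∣ n + h then 1 else 0) - 1 with hv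
  set y : ℕ → ℂ := fun h => ee (h * θ) * (x (n + h) : ℂ) with hy
  have hH0 : (0 : ℝ) < H := by exact_mod_cast hH
  have hq1 : ∀ q ∈ Q, (0 : ℝ) < (q : ℝ) - 1 := by
    intro q hq
    have : (1 : ℝ) < q := by exact_mod_cast (hQ q hq).one_lt
    linarith
  have hdiag : ∀ q ∈ Q, ∑ h ∈ range H, v q h * v q h = ((q : ℝ) - 1) * H := by
    intro q hq
    have hq0 : (q : ℝ) ≠ 0 := by
      have := (hQ q hq).pos
      positivity
    have e1 : ∀ h : ℕ, v q h * v q h =
        ((q : ℝ) ^ 2 - 2 * q) * (if (q : ℤ) ∣ n + h then (1 : ℝ) else 0) + 1 := by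
      intro h
      rw [hv]
      simp only
      split_ifs <;> ring
    rw [Finset.sum_congr rfl fun h _ => e1 h, Finset.sum_add_distrib, ← Finset.mul_sum,
      sum_dvd q H (hQ q hq).pos (hqH q hq)]
    rw [Finset.sum_const, card_range, nsmul_eq_mul]
    field_simp
    ring
  have hoff : ∀ q ∈ Q, ∀ q' ∈ Q, q ≠ q' → ∑ h ∈ range H, v q h * v q' h = 0 := by
    intro q hq q' hq' hne
    have hq0 : (q : ℝ) ≠ 0 := by
      have := (hQ q hq).pos
      positivity
    have hq0' : (q' : ℝ) ≠ 0 := by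
      have := (hQ q' hq').pos
      positivity
    have hco : q.Coprime q' := (Nat.coprime_primes (hQ q hq) (hQ q' hq')).2 hne
    have e1 : ∀ h : ℕ, v q h * v q' h =
        ((q : ℝ) * q') * (if ((q * q' : ℕ) : ℤ) ∣ n + h then (1 : ℝ) else 0)
          - (q : ℝ) * (if (q : ℤ) ∣ n + h then (1 : ℝ) else 0)
          - (q' : ℝ) * (if (q' : ℤ) ∣ n + h then (1 : ℝ) else 0) + 1 := by
      intro h
      have h1 : ((q * q' : ℕ) : ℤ) ∣ n + h ↔ (q : ℤ) ∣ n + h ∧ (q' : ℤ) ∣ n + h := by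
        constructor
        · intro h2
          constructor
          · exact (by push_cast; exact Dvd.intro _ rfl : (q : ℤ) ∣ ((q * q' : ℕ) : ℤ)).trans h2
          · exact (by push_cast; exact Dvd.intro_left _ rfl : (q' : ℤ) ∣ ((q * q' : ℕ) : ℤ)).trans h2
        · rintro ⟨h2, h3⟩
          push_cast
          exact (Nat.isCoprime_iff_coprime.2 hco).mul_dvd h2 h3
      rw [hv]
      simp only
      by_cases h2 : (q : ℤ) ∣ n + h <;> by_cases h3 : (q' : ℤ) ∣ n + h
      · rw [if_pos h2, if_pos h3, if_pos (h1.2 ⟨h2, h3⟩)]; ring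
      · rw [if_pos h2, if_neg h3, if_neg (fun h4 => h3 (h1.1 h4).2)]; ring
      · rw [if_neg h2, if_pos h3, if_neg (fun h4 => h2 (h1.1 h4).1)]; ring
      · rw [if_neg h2, if_neg h3, if_neg (fun h4 => h2 (h1.1 h4).1)]; ring
    rw [Finset.sum_congr rfl fun h _ => e1 h, Finset.sum_add_distrib, Finset.sum_sub_distrib,
      Finset.sum_sub_distrib, ← Finset.mul_sum, ← Finset.mul_sum, ← Finset.mul_sum,
      sum_dvd q H (hQ q hq).pos (hqH q hq), sum_dvd q' H (hQ q' hq').pos (hqH q' hq'),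
      sum_dvd (q * q') H (Nat.mul_pos (hQ q hq).pos (hQ q' hq').pos) (hqqH q hq q' hq' hne)]
    rw [Finset.sum_const, card_range, nsmul_eq_mul]
    push_cast
    field_simp
    ring
  have hB := bessel_complex Q (range H) v (fun q => ((q : ℝ) - 1) * H)
    (fun q hq => mul_pos (hq1 q hq) hH0) hdiag hoff y
  have hy1 : ∑ h ∈ range H, Complex.normSq (y h) ≤ H := by
    have : ∀ h ∈ range H, Complex.normSq (y h) ≤ 1 := by
      intro h _
      rw [hy]
      simp only
      rw [Complex.normSq_mul, normSq_ee, one_mul, Complex.normSq_ofReal, ← sq]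
      exact hx1 _
    calc _ ≤ ∑ h ∈ range H, (1 : ℝ) := Finset.sum_le_sum this
      _ = H := by simp
  have hterm : ∀ q ∈ Q, Complex.normSq (GG x q H θ n - SS x H θ n) / ((q : ℝ) - 1) =
      (1 / H) * (Complex.normSq (∑ h ∈ range H, (v q h : ℂ) * y h) / (((q : ℝ) - 1) * H)) := by
    intro q hq
    have e1 : GG x q H θ n - SS x H θ n =
        ((1 / (H : ℝ) : ℝ) : ℂ) * ∑ h ∈ range H, (v q h : ℂ) * y h := by
      unfold GG SS
      have e2 : (((q : ℝ) / (H : ℝ) : ℝ) : ℂ) = ((1 / (H : ℝ) : ℝ) : ℂ) * (q : ℂ) := by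
        push_cast; ring
      rw [e2, mul_assoc, ← mul_sub, Finset.mul_sum, ← Finset.sum_sub_distrib]
      congr 1
      refine Finset.sum_congr rfl fun h _ => ?_
      rw [hv, hy]
      simp only
      split_ifs <;> push_cast <;> ring
    rw [e1, Complex.normSq_mul, Complex.normSq_ofReal]
    have h1 := (hq1 q hq).ne'
    have h2 := hH0.ne'
    field_simp
  rw [Finset.sum_congr rfl hterm, ← Finset.mul_sum]
  calc (1 / (H : ℝ)) * _ ≤ (1 / (H : ℝ)) * H :=
        mul_le_mul_of_nonneg_left (hB.trans hy1) (by positivity)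
    _ = 1 := by field_simp

/-! ### monotonicity -/

lemma normSq_sum_le {ι : Type*} (s : Finset ι) (w : ι → ℂ) :
    Complex.normSq (∑ i ∈ s, w i) ≤ (s.card : ℝ) * ∑ i ∈ s, Complex.normSq (w i) := by
  simp only [Complex.normSq_eq_norm_sq]
  calc ‖∑ i ∈ s, w i‖ ^ 2 ≤ (∑ i ∈ s, ‖w i‖) ^ 2 :=
        pow_le_pow_left₀ (norm_nonneg _) (norm_sum_le _ _) 2
    _ ≤ _ := sq_sum_le_card_mul_sum_sq

lemma QQ_anti (M : Mean) {x : ℤ → ℝ} (hx : Bdd x) {H J : ℕ} (hH : 0 < H) (hJ : 0 < J) (θ : ℝ) :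
    QQ (cc M x) (H * J) θ ≤ QQ (cc M x) H θ := by
  rw [QQ_cc M hx, QQ_cc M hx]
  have hJ0 : (J : ℝ) ≠ 0 := by positivity
  have hH0 : (H : ℝ) ≠ 0 := by positivity
  have h1 : ∀ n : ℤ, SS x (H * J) θ n =
      ((1 / (J : ℝ) : ℝ) : ℂ) * ∑ j ∈ range J, ee ((H * j : ℕ) * θ) * SS x H θ (n + (H * j : ℕ)) := by
    intro n
    unfold SS
    rw [sum_split H J hH, Finset.sum_comm]
    have e1 : ∀ j ∈ range J, ee ((H * j : ℕ) * θ) * (((1 / (H : ℝ) : ℝ) : ℂ) *
        ∑ h ∈ range H, ee (h * θ) * (x (n + (H * j : ℕ) + h) : ℂ)) =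
        ((1 / (H : ℝ) : ℝ) : ℂ) *
          ∑ r ∈ range H, ee ((H * j + r : ℕ) * θ) * (x (n + ((H * j + r : ℕ) : ℤ)) : ℂ) := by
      intro j _
      rw [mul_left_comm]
      congr 1
      rw [Finset.mul_sum]
      refine Finset.sum_congr rfl fun r _ => ?_
      rw [← mul_assoc, ← ee_add]
      congr 2
      · push_cast; ring
      · congr 1
        push_cast; ring
    rw [Finset.sum_congr rfl e1, ← Finset.mul_sum, ← mul_assoc]
    congr 1
    push_cast
    field_simp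
  have h2 : ∀ n : ℤ, Complex.normSq (SS x (H * J) θ n) ≤
      (1 / (J : ℝ)) * ∑ j ∈ range J, Complex.normSq (SS x H θ (n + (H * j : ℕ))) := by
    intro n
    rw [h1 n, Complex.normSq_mul, Complex.normSq_ofReal]
    have h3 := normSq_sum_le (range J)
      (fun j => ee ((H * j : ℕ) * θ) * SS x H θ (n + (H * j : ℕ)))
    simp only [Complex.normSq_mul, normSq_ee, one_mul, card_range] at h3
    calc _ ≤ (1 / (J : ℝ) * (1 / J)) * ((J : ℝ) * ∑ j ∈ range J,
          Complex.normSq (SS x H θ (n + (H * j : ℕ)))) :=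
          mul_le_mul_of_nonneg_left h3 (by positivity)
      _ = _ := by field_simp
  have hb := Bdd_normSq_SS hx H θ
  have hb2 : ∀ j ∈ range J, Bdd (fun n : ℤ => Complex.normSq (SS x H θ (n + (H * j : ℕ)))) :=
    fun j _ => hb.comp _
  refine (E_mono M (Bdd_normSq_SS hx _ θ) (Bdd.const_mul _ (Bdd.sum _ _ hb2)) h2).trans ?_
  rw [M.smul _ _ (Bdd.sum _ _ hb2), E_sum M _ _ hb2]
  have h3 : ∀ j ∈ range J, M.E (fun n : ℤ => Complex.normSq (SS x H θ (n + (H * j : ℕ)))) =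
      M.E (fun n => Complex.normSq (SS x H θ n)) := by
    intro j _
    exact M.shift ((H * j : ℕ) : ℤ) (fun n => Complex.normSq (SS x H θ n)) hb
  rw [Finset.sum_congr rfl h3, Finset.sum_const, card_range, nsmul_eq_mul]
  apply le_of_eq
  field_simp

/-! ### few separated frequencies carry energy -/

lemma sum_QQ_le (M : Mean) {x : ℤ → ℝ} (hx : Bdd x) (hx1 : ∀ n, x n ^ 2 ≤ 1) {H : ℕ} (hH : 0 < H)
    {ι : Type*} (s : Finset ι) (φ : ι → ℝ) {k : ℕ} (hk : 0 < k) (hs : s.card = k)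
    (hsep : ∀ i ∈ s, ∀ j ∈ s, i ≠ j → ∀ m : ℤ, (k : ℝ) / H ≤ |φ i - φ j - m|) :
    ∑ i ∈ s, QQ (cc M x) H (φ i) ≤ 2 := by
  classical
  have hH0 : (0 : ℝ) < H := by exact_mod_cast hH
  have hk0 : (0 : ℝ) < k := by exact_mod_cast hk
  have hrow : ∀ i ∈ s, ∑ j ∈ s, ‖∑ h ∈ range H, ee (-(h * φ i)) *
      (starRingEnd ℂ) (ee (-(h * φ j)))‖ ≤ 2 * H := by
    intro i hi
    have e1 : ∀ j ∈ s, ‖∑ h ∈ range H, ee (-(h * φ i)) * (starRingEnd ℂ) (ee (-(h * φ j)))‖ ≤
        (if j = i then (H : ℝ) else 0) + H / (2 * k) := by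
      intro j hj
      have e2 : ∀ h : ℕ, ee (-(h * φ i)) * (starRingEnd ℂ) (ee (-(h * φ j))) =
          ee (h * (φ j - φ i)) := by
        intro h
        rw [conj_ee, ← ee_add]
        congr 1
        ring
      simp only [e2]
      by_cases hij : j = i
      · subst hij
        rw [if_pos rfl]
        simp only [sub_self, mul_zero, ee_zero]
        rw [Finset.sum_const, card_range, nsmul_eq_mul, mul_one, Complex.norm_natCast]
        have : (0 : ℝ) ≤ H / (2 * k) := by positivity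
        linarith
      · rw [if_neg hij, zero_add]
        refine (geom_bound (D := (k : ℝ) / H) (by positivity) (hsep j hj i hi hij) H).trans ?_
        apply le_of_eq
        field_simp
    refine (Finset.sum_le_sum e1).trans ?_
    rw [Finset.sum_add_distrib, Finset.sum_ite_eq' s i, if_pos hi, Finset.sum_const, hs,
      nsmul_eq_mul]
    have : (k : ℝ) * (H / (2 * k)) = H / 2 := by field_simp
    rw [this]
    linarith
  have hpt : ∀ n : ℤ, ∑ i ∈ s, Complex.normSq (SS x H (φ i) n) ≤ 2 := by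
    intro n
    have hG := gram s (range H) (fun i h => ee (-(h * φ i))) (2 * H) (by positivity) hrow
      (fun h => (x (n + h) : ℂ))
    have e1 : ∑ h ∈ range H, Complex.normSq ((x (n + h) : ℝ) : ℂ) ≤ H := by
      have : ∀ h ∈ range H, Complex.normSq ((x (n + h) : ℝ) : ℂ) ≤ 1 := by
        intro h _
        rw [Complex.normSq_ofReal, ← sq]
        exact hx1 _
      calc _ ≤ ∑ h ∈ range H, (1 : ℝ) := Finset.sum_le_sum this
        _ = H := by simp
    have e2 : ∀ i ∈ s, Complex.normSq (SS x H (φ i) n) = (1 / (H : ℝ)) ^ 2 *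
        Complex.normSq (∑ h ∈ range H, (x (n + h) : ℂ) * (starRingEnd ℂ) (ee (-(h * φ i)))) := by
      intro i _
      unfold SS
      rw [Complex.normSq_mul, Complex.normSq_ofReal, ← sq]
      congr 2
      refine Finset.sum_congr rfl fun h _ => ?_
      rw [conj_ee, neg_neg, mul_comm]
    rw [Finset.sum_congr rfl e2, ← Finset.mul_sum]
    calc (1 / (H : ℝ)) ^ 2 * _ ≤ (1 / (H : ℝ)) ^ 2 * (2 * H * H) := by
          refine mul_le_mul_of_nonneg_left (hG.trans ?_) (by positivity)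
          exact mul_le_mul_of_nonneg_left e1 (by positivity)
      _ = 2 := by field_simp
  have h1 : ∑ i ∈ s, QQ (cc M x) H (φ i) = M.E (fun n => ∑ i ∈ s, Complex.normSq (SS x H (φ i) n)) := by
    rw [E_sum M _ _ (fun i _ => Bdd_normSq_SS hx H (φ i))]
    exact Finset.sum_congr rfl fun i _ => QQ_cc M hx H (φ i)
  rw [h1, ← E_const M 2]
  exact E_mono M (Bdd.sum _ _ fun i _ => Bdd_normSq_SS hx H (φ i)) (Bdd.const 2) hpt

/-! ### many primes -/

lemma exists_primes (C : ℝ) : ∃ Q : Finset ℕ, (∀ q ∈ Q, q.Prime) ∧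
    C < ∑ q ∈ Q, 1 / ((q : ℝ) - 1) := by
  by_contra hcon
  push Not at hcon
  apply Nat.Primes.not_summable_one_div
  refine summable_of_sum_le (c := C) (fun p => by positivity) fun u => ?_
  have h1 := hcon (u.map ⟨fun p : Nat.Primes => (p : ℕ), Subtype.val_injective⟩) (by
    intro q hq
    rw [Finset.mem_map] at hq
    obtain ⟨p, _, rfl⟩ := hq
    exact p.2)
  rw [Finset.sum_map] at h1
  refine le_trans (Finset.sum_le_sum fun p _ => ?_) h1
  have hp : (1 : ℝ) < ((p : ℕ) : ℝ) := by exact_mod_cast p.2.one_lt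
  exact one_div_le_one_div_of_le (by simpa using hp) (by simp)

end LS5

open LS5 in
theorem large_spectrum (M : Mean) {f : ℕ → Bool} (hf : MulSign f) :
    RationalSpectrum (fun d => M.E (fun n => bsg (f n.natAbs) * bsg (f (n + d).natAbs))) := by
  classical
  set x : ℤ → ℝ := fun n => bsg (f n.natAbs) with hxdef
  have hxb : Bdd x := ⟨1, fun n => (abs_bsg _).le⟩
  have hx1 : ∀ n, x n ^ 2 ≤ 1 := fun n => by
    rw [sq]; exact (bsg_mul_self _).le
  have hmul : ∀ q : ℕ, 0 < q → ∀ n : ℤ, 0 < n → x (q * n) = bsg (f q) * x n := by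
    intro q hq n hn
    simp only [hxdef]
    rw [Int.natAbs_mul, Int.natAbs_natCast, hf q n.natAbs hq (Int.natAbs_pos.2 hn.ne'), bsg_beq]
  have hc : (fun d => M.E (fun n => bsg (f n.natAbs) * bsg (f (n + d).natAbs))) = cc M x := rfl
  rw [hc]
  intro δ hδ
  -- the number of frequencies
  obtain ⟨k, hk⟩ := exists_nat_gt (8 / δ)
  have hk0 : 0 < k := by
    have : (0 : ℝ) < k := lt_trans (by positivity) hk
    exact_mod_cast this
  have hk1 : 2 < (k : ℝ) * (δ / 4) := by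
    rw [div_lt_iff₀ hδ] at hk
    linarith
  obtain ⟨Q, hQp, hQs⟩ := exists_primes (4 / δ + k)
  set D : ℕ := ∏ q ∈ Q, q with hD
  have hD0 : 0 < D := Finset.prod_pos fun q hq => (hQp q hq).pos
  refine ⟨k * D, Nat.mul_pos hk0 hD0, ?_⟩
  intro H hH hKH θ hθ
  have hDH : D ∣ H := (Dvd.intro_left k rfl).trans hKH
  obtain ⟨H', rfl⟩ := id hDH
  have hH' : 0 < H' := Nat.pos_of_mul_pos_left hH |> fun _ => by
    rcases Nat.eq_zero_or_pos H' with h | h
    · subst h; simp at hH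
    · exact h
  -- energies
  have hq1 : ∀ q ∈ Q, (0 : ℝ) < (q : ℝ) - 1 := by
    intro q hq
    have : (1 : ℝ) < q := by exact_mod_cast (hQp q hq).one_lt
    linarith
  set Dl : ℕ → ℝ := fun q => M.E (fun n => Complex.normSq (GG x q (D * H') θ n - SS x (D * H') θ n))
    with hDl
  have hGGb := fun q => Bdd_normSq_GG hxb q (D * H') θ
  have hSSb := Bdd_normSq_SS hxb (D * H') θ
  have hbd : ∀ q, Bdd (fun n => Complex.normSq (GG x q (D * H') θ n - SS x (D * H') θ n)) := by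
    intro q
    obtain ⟨C1, h1⟩ := hGGb q
    obtain ⟨C2, h2⟩ := hSSb
    refine ⟨2 * C1 + 2 * C2, fun n => ?_⟩
    have h3 := normSq_sum_le (range 2)
      (fun i => if i = 0 then GG x q (D * H') θ n else - SS x (D * H') θ n)
    simp only [Finset.sum_range_succ, Finset.sum_range_zero, card_range] at h3
    simp only [if_pos, one_ne_zero, if_false, zero_add, Complex.normSq_neg] at h3
    rw [← sub_eq_add_neg] at h3
    rw [abs_of_nonneg (Complex.normSq_nonneg _)]
    have h4 := h1 n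
    have h5 := h2 n
    rw [abs_of_nonneg (Complex.normSq_nonneg _)] at h4 h5
    push_cast at h3
    linarith
  have hDsum : ∑ q ∈ Q, Dl q / ((q : ℝ) - 1) ≤ 1 := by
    have e1 : ∑ q ∈ Q, Dl q / ((q : ℝ) - 1) = M.E (fun n => ∑ q ∈ Q,
        (1 / ((q : ℝ) - 1)) * Complex.normSq (GG x q (D * H') θ n - SS x (D * H') θ n)) := by
      rw [E_sum M _ _ (fun q _ => Bdd.const_mul _ (hbd q))]
      refine Finset.sum_congr rfl fun q _ => ?_
      rw [M.smul _ _ (hbd q)]
      simp only [hDl]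
      ring
    rw [e1]
    refine le_trans ?_ (E_const M 1).le
    refine E_mono M (Bdd.sum _ _ fun q _ => Bdd.const_mul _ (hbd q)) (Bdd.const 1) fun n => ?_
    refine le_trans (le_of_eq ?_) (pointwise_bessel hx1 Q hQp hH hDH θ n)
    refine Finset.sum_congr rfl fun q _ => ?_
    ring
  have hDlnn : ∀ q, 0 ≤ Dl q := fun q => M.nonneg _ (hbd q) fun n => Complex.normSq_nonneg _
  -- good primes
  set good : Finset ℕ := Q.filter (fun q => Dl q ≤ δ / 4) with hgood
  have hgoodcard : k ≤ good.card := by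
    by_contra hlt
    push Not at hlt
    have e1 : ∑ q ∈ Q, 1 / ((q : ℝ) - 1) = ∑ q ∈ good, 1 / ((q : ℝ) - 1) +
        ∑ q ∈ Q.filter (fun q => ¬ Dl q ≤ δ / 4), 1 / ((q : ℝ) - 1) :=
      (Finset.sum_filter_add_sum_filter_not Q _ _).symm
    have e2 : ∑ q ∈ good, 1 / ((q : ℝ) - 1) ≤ k := by
      have : ∀ q ∈ good, 1 / ((q : ℝ) - 1) ≤ 1 := by
        intro q hq
        have hqQ := (Finset.mem_filter.1 hq).1
        have h2 : (2 : ℝ) ≤ q := by exact_mod_cast (hQp q hqQ).two_le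
        rw [div_le_one (hq1 q hqQ)]
        linarith
      calc _ ≤ ∑ q ∈ good, (1 : ℝ) := Finset.sum_le_sum this
        _ = good.card := by simp
        _ ≤ k := by exact_mod_cast hlt.le
    have e3 : ∑ q ∈ Q.filter (fun q => ¬ Dl q ≤ δ / 4), 1 / ((q : ℝ) - 1) ≤ 4 / δ := by
      have e4 : ∑ q ∈ Q.filter (fun q => ¬ Dl q ≤ δ / 4), (δ / 4) * (1 / ((q : ℝ) - 1)) ≤ 1 := by
        refine le_trans ?_ hDsum
        refine le_trans (Finset.sum_le_sum (f := fun q : ℕ => (δ / 4) * (1 / ((q : ℝ) - 1)))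
          (g := fun q : ℕ => Dl q / ((q : ℝ) - 1)) fun q hq => ?_)
          (Finset.sum_le_sum_of_subset_of_nonneg (Finset.filter_subset _ _) fun q hq _ =>
            div_nonneg (hDlnn q) (hq1 q hq).le)
        rw [Finset.mem_filter] at hq
        rw [mul_one_div]
        exact div_le_div_of_nonneg_right (not_le.1 hq.2).le (hq1 q hq.1).le
      rw [← Finset.mul_sum] at e4
      rw [le_div_iff₀ hδ]
      linarith
    linarith
  -- good primes carry energy
  have hgoodE : ∀ q ∈ good, δ / 4 ≤ QQ (cc M x) H' (q * θ) := by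
    intro q hq
    rw [Finset.mem_filter] at hq
    obtain ⟨hqQ, hqD⟩ := hq
    obtain ⟨D', hD'⟩ : q ∣ D := Finset.dvd_prod_of_mem _ hqQ
    have hqpos := (hQp q hqQ).pos
    have hD'0 : 0 < D' := by
      rcases Nat.eq_zero_or_pos D' with h | h
      · subst h; simp at hD'; omega
      · exact h
    have hL : D * H' = q * (H' * D') := by rw [hD']; ring
    have hG : M.E (fun n => Complex.normSq (GG x q (D * H') θ n)) =
        QQ (cc M x) (H' * D') (q * θ) := by
      rw [hL]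
      exact E_normSq_GG M hxb hqpos (bsg_mul_self (f q)) (hmul q hqpos) (Nat.mul_pos hH' hD'0) θ
    have h1 : QQ (cc M x) (D * H') θ ≤
        2 * M.E (fun n => Complex.normSq (GG x q (D * H') θ n)) + 2 * Dl q := by
      rw [QQ_cc M hxb]
      simp only [hDl]
      rw [← M.smul 2 _ (hGGb q), ← M.smul 2 _ (hbd q), ← M.add _ _ ((hGGb q).const_mul 2)
        ((hbd q).const_mul 2)]
      refine E_mono M hSSb (((hGGb q).const_mul 2).add ((hbd q).const_mul 2)) fun n => ?_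
      have h3 := normSq_sum_le (range 2)
        (fun i => if i = 0 then GG x q (D * H') θ n
          else - (GG x q (D * H') θ n - SS x (D * H') θ n))
      simp only [Finset.sum_range_succ, Finset.sum_range_zero, card_range] at h3
      simp only [if_pos, one_ne_zero, if_false, zero_add, Complex.normSq_neg] at h3
      have h4 : GG x q (D * H') θ n + -(GG x q (D * H') θ n - SS x (D * H') θ n) =
          SS x (D * H') θ n := by ring
      rw [h4] at h3
      push_cast at h3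
      linarith
    have h2 := QQ_anti M hxb hH' hD'0 (q * θ)
    rw [hG] at h1
    linarith
  obtain ⟨s, hsg, hscard⟩ := Finset.exists_subset_card_eq hgoodcard
  have hH'0 : (0 : ℝ) < H' := by exact_mod_cast hH'
  -- two close frequencies
  by_cases hsep : ∀ i ∈ s, ∀ j ∈ s, i ≠ j → ∀ m : ℤ,
      (k : ℝ) / H' ≤ |(i : ℝ) * θ - (j : ℝ) * θ - m|
  · exfalso
    have h1 := sum_QQ_le M hxb hx1 hH' s (fun i => (i : ℝ) * θ) hk0 hscard hsep
    have h2 : (k : ℝ) * (δ / 4) ≤ ∑ i ∈ s, QQ (cc M x) H' ((i : ℝ) * θ) := by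
      calc (k : ℝ) * (δ / 4) = ∑ i ∈ s, δ / 4 := by rw [Finset.sum_const, hscard, nsmul_eq_mul]
        _ ≤ _ := Finset.sum_le_sum fun i hi => hgoodE i (hsg hi)
    linarith
  · push Not at hsep
    obtain ⟨i, hi, j, hj, hij, m, hm⟩ := hsep
    have hbound : ∀ a ∈ s, a ≤ D := by
      intro a ha
      have haQ : a ∈ Q := (Finset.mem_filter.1 (hsg ha)).1
      exact Nat.le_of_dvd hD0 (Finset.dvd_prod_of_mem _ haQ)
    have hfin : (k : ℝ) / H' ≤ ((k * D : ℕ) : ℝ) / ((D * H' : ℕ) : ℝ) := by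
      apply le_of_eq
      have : (D : ℝ) ≠ 0 := by positivity
      push_cast
      field_simp
    have hKD : D ≤ k * D := Nat.le_mul_of_pos_left D hk0
    rcases lt_or_gt_of_ne hij with h | h
    · refine ⟨j - i, by omega, ?_, -m, ?_⟩
      · have := hbound j hj
        omega
      · refine le_trans (le_of_eq ?_) (hm.le.trans hfin)
        rw [Nat.cast_sub h.le, ← abs_neg]
        congr 1
        push_cast
        ring
    · refine ⟨i - j, by omega, ?_, m, ?_⟩
      · have := hbound i hi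
        omega
      · refine le_trans (le_of_eq ?_) (hm.le.trans hfin)
        rw [Nat.cast_sub h.le]
        congr 1
        ring

end Pool.Agent.Hhelper89.LehmerFull
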