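import Pool.Agent.Hhelper89.LehmerFull.Defs

/-!
S7: averages along sets of primes in a Hilbert space.
-/

namespace Pool.Agent.Hhelper89.LehmerFull

open Finset Filter Topology
open scoped InnerProductSpace

section hilbert

variable {𝓗 : Type*} [NormedAddCommGroup 𝓗] [InnerProductSpace ℝ 𝓗] (K : 𝓗 →ₗᵢ[ℝ] 𝓗)

lemma inner_iterate (n : ℕ) (x y : 𝓗) : ⟪K^[n] x, K^[n] y⟫_ℝ = ⟪x, y⟫_ℝ := by
  induction n with
  | zero => rfl
  | succ n ih => rw [Function.iterate_succ_apply', Function.iterate_succ_apply',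
      LinearIsometry.inner_map_map, ih]

lemma abs_inner_iterate_eq (u : 𝓗) (α p q : ℕ) :
    |⟪K^[p * α] u, K^[q * α] u⟫_ℝ| = |⟪K^[Nat.dist p q * α] u, u⟫_ℝ| := by
  rcases le_total q p with h | h
  · have h1 : p * α = q * α + (p - q) * α := by rw [← add_mul]; congr 1; omega
    rw [Nat.dist_eq_sub_of_le_right h, h1, Function.iterate_add_apply, inner_iterate]
  · have h1 : q * α = p * α + (q - p) * α := by rw [← add_mul]; congr 1; omega
    rw [Nat.dist_eq_sub_of_le h, h1, Function.iterate_add_apply, inner_iterate, real_inner_comm]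

end hilbert

lemma card_dist_le (P : ℕ) (S : Finset ℕ) (hS : S ⊆ PP P) (d : ℕ) :
    (((S ×ˢ S).filter (fun x => Nat.dist x.1 x.2 = d)).card) ≤
      2 * ((Ioc P (2 * P)).filter (fun n => n.Prime ∧ (n + d).Prime)).card := by
  classical
  set R := (Ioc P (2 * P)).filter (fun n => n.Prime ∧ (n + d).Prime) with hR
  have hsub : (S ×ˢ S).filter (fun x => Nat.dist x.1 x.2 = d) ⊆
      R.image (fun n => (n, n + d)) ∪ R.image (fun n => (n + d, n)) := by
    rintro ⟨p, q⟩ hpq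
    rw [Finset.mem_filter, Finset.mem_product] at hpq
    obtain ⟨⟨hp, hq⟩, hd⟩ := hpq
    simp only at hp hq hd
    obtain ⟨hp1, hp2⟩ := mem_PP.mp (hS hp)
    obtain ⟨hq1, hq2⟩ := mem_PP.mp (hS hq)
    rw [Finset.mem_union]
    rcases le_total p q with h | h
    · left
      rw [Nat.dist_eq_sub_of_le h] at hd
      have e : q = p + d := by omega
      rw [Finset.mem_image]
      refine ⟨p, ?_, by rw [e]⟩
      rw [hR, Finset.mem_filter, Finset.mem_Ioc]
      exact ⟨hp1, hp2, by rw [← e]; exact hq2⟩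
    · right
      rw [Nat.dist_eq_sub_of_le_right h] at hd
      have e : p = q + d := by omega
      rw [Finset.mem_image]
      refine ⟨q, ?_, by rw [e]⟩
      rw [hR, Finset.mem_filter, Finset.mem_Ioc]
      exact ⟨hq1, hq2, by rw [← e]; exact hp2⟩
  calc _ ≤ _ := Finset.card_le_card hsub
    _ ≤ _ := Finset.card_union_le _ _
    _ ≤ R.card + R.card := Nat.add_le_add Finset.card_image_le Finset.card_image_le
    _ = 2 * R.card := by ring

lemma div_log_large (B : ℝ) : ∃ P₁ : ℕ, ∀ P : ℕ, P₁ ≤ P → B ≤ (P : ℝ) / Real.log P := by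
  obtain ⟨n, hn⟩ := exists_nat_ge ((2 * |B|) ^ 2 + 2)
  refine ⟨n, fun P hP => ?_⟩
  have hP' : (2 * |B|) ^ 2 + 2 ≤ (P : ℝ) := hn.trans (by exact_mod_cast hP)
  have hP2 : (2 : ℝ) ≤ P := by nlinarith [sq_nonneg (2 * |B|)]
  have hlog : 0 < Real.log P := Real.log_pos (by linarith)
  have hs : 0 < Real.sqrt P := Real.sqrt_pos.mpr (by linarith)
  have h1 : Real.log P ≤ 2 * Real.sqrt P := by
    have h2 := Real.log_le_sub_one_of_pos hs
    rw [Real.log_sqrt (by linarith)] at h2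
    linarith
  have h3 : 2 * |B| ≤ Real.sqrt P := by
    apply Real.le_sqrt_of_sq_le
    linarith
  rw [le_div_iff₀ hlog]
  calc B * Real.log P ≤ |B| * Real.log P := mul_le_mul_of_nonneg_right (le_abs_self B) hlog.le
    _ ≤ |B| * (2 * Real.sqrt P) := mul_le_mul_of_nonneg_left h1 (abs_nonneg B)
    _ = (2 * |B|) * Real.sqrt P := by ring
    _ ≤ Real.sqrt P * Real.sqrt P := mul_le_mul_of_nonneg_right h3 hs.le
    _ = P := Real.mul_self_sqrt (by linarith)

theorem prime_average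
    (hS : ∃ C : ℝ, 0 < C ∧ ∀ P : ℕ, 2 ≤ P →
      ∑ d ∈ Icc 1 P, ((((Ioc P (2 * P)).filter (fun n => n.Prime ∧ (n + d).Prime)).card : ℝ)) ^ 2 ≤
      C * (P : ℝ) ^ 3 / (Real.log P) ^ 4)
    {𝓗 : Type*} [NormedAddCommGroup 𝓗] [InnerProductSpace ℝ 𝓗]
    (K : 𝓗 →ₗᵢ[ℝ] 𝓗) (u : 𝓗)
    (hW : Tendsto (fun N : ℕ => (1 / (N : ℝ)) * ∑ d ∈ range N, ⟪K^[d] u, u⟫_ℝ ^ 2) atTop (𝓝 0))
    (α : ℕ) (hα : 0 < α) (η : ℝ) (hη : 0 < η) (ε : ℝ) (hε : 0 < ε) :
    ∃ P₁ : ℕ, ∀ P : ℕ, P₁ ≤ P → ∀ S : Finset ℕ, S ⊆ PP P → η * P / Real.log P ≤ (S.card : ℝ) →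
      ‖(1 / (S.card : ℝ)) • ∑ p ∈ S, K^[p * α] u‖ ≤ ε := by
  classical
  obtain ⟨C, hC, hS⟩ := hS
  set c : ℕ → ℝ := fun e => ⟪K^[e] u, u⟫_ℝ with hc
  set M : ℝ := ε ^ 2 * η ^ 2 / 4 with hM
  have hM0 : 0 < M := by positivity
  set δ : ℝ := M ^ 2 / (C * (α + 1)) with hδ
  have hδ0 : 0 < δ := by positivity
  have hδM : C * (α + 1) * δ = M ^ 2 := by
    rw [hδ]
    field_simp
  -- smallness of the mean square
  obtain ⟨N₀, hN₀⟩ : ∃ N₀ : ℕ, ∀ N : ℕ, N₀ ≤ N → (1 / (N : ℝ)) * ∑ d ∈ range N, c d ^ 2 ≤ δ := by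
    have := hW.eventually (ge_mem_nhds hδ0)
    rw [Filter.eventually_atTop] at this
    exact this
  obtain ⟨P₂, hP₂⟩ := div_log_large (2 * ‖u‖ ^ 2 / (ε ^ 2 * η) + 1)
  refine ⟨max (max N₀ P₂) 2, fun P hP S hSP hcard => ?_⟩
  have hPN : N₀ ≤ P := ((le_max_left _ _).trans (le_max_left _ _)).trans hP
  have hPP : P₂ ≤ P := ((le_max_right _ _).trans (le_max_left _ _)).trans hP
  have hP2 : 2 ≤ P := (le_max_right _ _).trans hP
  have hP2' : (2 : ℝ) ≤ P := by exact_mod_cast hP2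
  have hlog : 0 < Real.log P := Real.log_pos (by linarith)
  set L : ℝ := (P : ℝ) / Real.log P with hL
  have hL0 : 0 < L := by positivity
  have hcard' : η * L ≤ (S.card : ℝ) := by
    rw [hL, ← mul_div_assoc]; exact hcard
  have hL1 := hP₂ P hPP
  -- sum of squares of the correlations
  have hsq : ∑ d ∈ Icc 1 P, c (d * α) ^ 2 ≤ (α + 1) * P * δ := by
    have h1 : ∑ d ∈ Icc 1 P, c (d * α) ^ 2 ≤ ∑ e ∈ range (α * P + 1), c e ^ 2 := by
      have h2 : ∑ d ∈ Icc 1 P, c (d * α) ^ 2 = ∑ e ∈ (Icc 1 P).image (fun d => d * α), c e ^ 2 := by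
        rw [Finset.sum_image]
        intro a _ b _ hab
        exact Nat.eq_of_mul_eq_mul_right hα hab
      rw [h2]
      apply Finset.sum_le_sum_of_subset_of_nonneg
      · intro e he
        obtain ⟨d, hd, rfl⟩ := Finset.mem_image.mp he
        rw [Finset.mem_range]
        have := (Finset.mem_Icc.mp hd).2
        have : d * α ≤ P * α := Nat.mul_le_mul_right α this
        rw [mul_comm P α] at this
        omega
      · intro i _ _
        positivity
    have h3 := hN₀ (α * P + 1) (by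
      have : 1 * P ≤ α * P := Nat.mul_le_mul_right P hα
      omega)
    have h4 : (0:ℝ) < ((α * P + 1 : ℕ) : ℝ) := by positivity
    rw [one_div, inv_mul_le_iff₀ h4] at h3
    have h5 : (((α * P + 1 : ℕ) : ℝ)) ≤ (α + 1) * P := by
      push_cast
      nlinarith
    calc _ ≤ _ := h1
      _ ≤ _ := h3
      _ ≤ _ := mul_le_mul_of_nonneg_right h5 hδ0.le
  -- the count of pairs
  set r : ℕ → ℝ := fun d => (((Ioc P (2 * P)).filter (fun n => n.Prime ∧ (n + d).Prime)).card : ℝ)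
    with hr
  have hrS : ∑ d ∈ Icc 1 P, r d ^ 2 ≤ C * (P : ℝ) ^ 3 / (Real.log P) ^ 4 := hS P hP2
  have hCS : (∑ d ∈ Icc 1 P, r d * |c (d * α)|) ^ 2 ≤ (M * L ^ 2) ^ 2 := by
    have h1 := Finset.sum_mul_sq_le_sq_mul_sq (Icc 1 P) r (fun d => |c (d * α)|)
    simp only [sq_abs] at h1
    have h2 : (∑ d ∈ Icc 1 P, r d ^ 2) * ∑ d ∈ Icc 1 P, c (d * α) ^ 2 ≤
        (C * (P : ℝ) ^ 3 / (Real.log P) ^ 4) * ((α + 1) * P * δ) := by
      apply mul_le_mul hrS hsq
      · exact Finset.sum_nonneg fun _ _ => by positivity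
      · positivity
    have h3 : (C * (P : ℝ) ^ 3 / (Real.log P) ^ 4) * ((α + 1) * P * δ) = (M * L ^ 2) ^ 2 := by
      have h4 : (C * (P : ℝ) ^ 3 / (Real.log P) ^ 4) * ((α + 1) * P * δ) =
          (C * (α + 1) * δ) * ((P : ℝ) ^ 4 / (Real.log P) ^ 4) := by ring
      rw [h4, hδM, hL]
      field_simp
    linarith
  have hsum0 : 0 ≤ ∑ d ∈ Icc 1 P, r d * |c (d * α)| :=
    Finset.sum_nonneg fun _ _ => by positivity
  have hCS' : ∑ d ∈ Icc 1 P, r d * |c (d * α)| ≤ M * L ^ 2 :=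
    (sq_le_sq₀ hsum0 (by positivity)).mp hCS
  -- the norm
  set V := ∑ p ∈ S, K^[p * α] u with hV
  have hnorm : ‖V‖ ^ 2 ≤ S.card * ‖u‖ ^ 2 + 2 * ∑ d ∈ Icc 1 P, r d * |c (d * α)| := by
    have h1 : ‖V‖ ^ 2 = ∑ x ∈ S ×ˢ S, ⟪K^[x.1 * α] u, K^[x.2 * α] u⟫_ℝ := by
      rw [← real_inner_self_eq_norm_sq, hV, sum_inner, Finset.sum_product]
      refine Finset.sum_congr rfl fun p _ => ?_
      rw [inner_sum]
    have h2 : ‖V‖ ^ 2 ≤ ∑ x ∈ S ×ˢ S, |c (Nat.dist x.1 x.2 * α)| := by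
      rw [h1]
      refine Finset.sum_le_sum fun x _ => ?_
      exact (le_abs_self _).trans (abs_inner_iterate_eq K u α x.1 x.2).le
    have hmaps : ∀ x ∈ S ×ˢ S, Nat.dist x.1 x.2 ∈ range (P + 1) := by
      rintro ⟨p, q⟩ hx
      rw [Finset.mem_product] at hx
      obtain ⟨hp1, -⟩ := mem_PP.mp (hSP hx.1)
      obtain ⟨hq1, -⟩ := mem_PP.mp (hSP hx.2)
      rw [Finset.mem_range]
      simp only at hp1 hq1
      unfold Nat.dist
      simp only
      omega
    have h3 : ∑ x ∈ S ×ˢ S, |c (Nat.dist x.1 x.2 * α)| =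
        ∑ d ∈ range (P + 1), ∑ x ∈ (S ×ˢ S).filter (fun x => Nat.dist x.1 x.2 = d),
          |c (Nat.dist x.1 x.2 * α)| := (Finset.sum_fiberwise_of_maps_to hmaps _).symm
    have h4 : ∀ d, ∑ x ∈ (S ×ˢ S).filter (fun x => Nat.dist x.1 x.2 = d),
          |c (Nat.dist x.1 x.2 * α)| =
        (((S ×ˢ S).filter (fun x => Nat.dist x.1 x.2 = d)).card : ℝ) * |c (d * α)| := by
      intro d
      rw [Finset.sum_congr rfl (g := fun _ => |c (d * α)|) (fun x hx => by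
        rw [(Finset.mem_filter.mp hx).2]), Finset.sum_const, nsmul_eq_mul]
    have h5 : (((S ×ˢ S).filter (fun x => Nat.dist x.1 x.2 = 0)).card : ℝ) ≤ S.card := by
      have h6 : (S ×ˢ S).filter (fun x => Nat.dist x.1 x.2 = 0) ⊆ S.image (fun p => (p, p)) := by
        rintro ⟨p, q⟩ hx
        rw [Finset.mem_filter, Finset.mem_product] at hx
        have h7 := Nat.eq_of_dist_eq_zero hx.2
        simp only at h7
        rw [Finset.mem_image]
        exact ⟨p, hx.1.1, by rw [h7]⟩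
      exact_mod_cast (Finset.card_le_card h6).trans Finset.card_image_le
    have h8 : |c (0 * α)| = ‖u‖ ^ 2 := by
      rw [zero_mul]
      simp only [hc, Function.iterate_zero, id_eq]
      rw [real_inner_self_eq_norm_sq, abs_of_nonneg (by positivity)]
    rw [h3] at h2
    simp only [h4] at h2
    rw [Finset.range_eq_Ico, Finset.sum_eq_sum_Ico_succ_bot (by omega), h8] at h2
    have h9 : Ico (0 + 1) (P + 1) = Icc 1 P := by
      ext d; simp only [Finset.mem_Ico, Finset.mem_Icc]; omega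
    rw [h9] at h2
    have h10 : ∑ d ∈ Icc 1 P, (((S ×ˢ S).filter (fun x => Nat.dist x.1 x.2 = d)).card : ℝ) *
        |c (d * α)| ≤ 2 * ∑ d ∈ Icc 1 P, r d * |c (d * α)| := by
      rw [Finset.mul_sum]
      refine Finset.sum_le_sum fun d _ => ?_
      rw [← mul_assoc]
      apply mul_le_mul_of_nonneg_right _ (abs_nonneg _)
      have := card_dist_le P S hSP d
      simp only [hr]
      exact_mod_cast this
    have h11 : (((S ×ˢ S).filter (fun x => Nat.dist x.1 x.2 = 0)).card : ℝ) * ‖u‖ ^ 2 ≤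
        S.card * ‖u‖ ^ 2 := mul_le_mul_of_nonneg_right h5 (by positivity)
    linarith
  -- conclusion
  have hScard : (0:ℝ) < S.card := lt_of_lt_of_le (by positivity) hcard'
  have e1 : ‖u‖ ^ 2 ≤ ε ^ 2 / 2 * S.card := by
    have h1 : 2 * ‖u‖ ^ 2 / (ε ^ 2 * η) ≤ L := by linarith
    rw [div_le_iff₀ (by positivity)] at h1
    have h2 : ε ^ 2 / 2 * (η * L) ≤ ε ^ 2 / 2 * S.card :=
      mul_le_mul_of_nonneg_left hcard' (by positivity)
    linarith
  have e2 : 2 * (M * L ^ 2) ≤ ε ^ 2 / 2 * (S.card : ℝ) ^ 2 := by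
    have h1 : (η * L) ^ 2 ≤ (S.card : ℝ) ^ 2 := pow_le_pow_left₀ (by positivity) hcard' 2
    have h2 : 2 * (M * L ^ 2) = ε ^ 2 / 2 * (η * L) ^ 2 := by rw [hM]; ring
    rw [h2]
    exact mul_le_mul_of_nonneg_left h1 (by positivity)
  have e3 : ‖V‖ ^ 2 ≤ (ε * S.card) ^ 2 := by
    have h1 : (S.card : ℝ) * ‖u‖ ^ 2 ≤ S.card * (ε ^ 2 / 2 * S.card) :=
      mul_le_mul_of_nonneg_left e1 hScard.le
    nlinarith
  have e4 : ‖V‖ ≤ ε * S.card := (sq_le_sq₀ (norm_nonneg _) (by positivity)).mp e3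
  rw [norm_smul, Real.norm_of_nonneg (by positivity), one_div, inv_mul_le_iff₀ hScard, mul_comm]
  exact e4

end Pool.Agent.Hhelper89.LehmerFull
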