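import Mathlib
import Pool.Agent.Lib.PrimePairsMoment

/-!
Module S1: the second moment of the number of prime pairs (see `Pool/Agent/Lib/PrimePairs.lean` for
the pointwise bound `card_prime_pairs_le`).
-/

namespace Pool.Agent.Hhelper89.LehmerFull

open Finset

theorem prime_pair_second_moment : ∃ C : ℝ, 0 < C ∧ ∀ P : ℕ, 2 ≤ P →
    ∑ d ∈ Icc 1 P, ((((Ioc P (2 * P)).filter (fun n => n.Prime ∧ (n + d).Prime)).card : ℝ)) ^ 2 ≤
      C * (P : ℝ) ^ 3 / (Real.log P) ^ 4 :=
  Pool.Agent.Lib.PrimePairs.prime_pair_second_moment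

end Pool.Agent.Hhelper89.LehmerFull
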