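import Pool.Agent.Hhelper89.LehmerFull.Defs

/-!
# Wiener type theorem: rational large spectrum and orthogonality to periodic vectors imply
mean square decay of correlations
-/

namespace Pool.Agent.Hhelper89.LehmerFull

open Finset Filter Topology
open Pool.Agent.Hhelper89.Lehmer
open scoped InnerProductSpace

section WienerPair

variable {𝓗 : Type*} [NormedAddCommGroup 𝓗] [InnerProductSpace ℝ 𝓗]

/-- the isometry `e(θ) K` on the complexification `𝓗 ⊕ 𝓗`, as a linear map -/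
noncomputable def rotL (K : 𝓗 →ₗᵢ[ℝ] 𝓗) (θ : ℝ) :
    WithLp 2 (𝓗 × 𝓗) →ₗ[ℝ] WithLp 2 (𝓗 × 𝓗) where
  toFun v := WithLp.toLp 2
    (Real.cos (2 * Real.pi * θ) • K v.fst - Real.sin (2 * Real.pi * θ) • K v.snd,
      Real.sin (2 * Real.pi * θ) • K v.fst + Real.cos (2 * Real.pi * θ) • K v.snd)
  map_add' v w := by
    apply (WithLp.equiv 2 (𝓗 × 𝓗)).injective
    simp only [WithLp.equiv_apply, WithLp.add_fst, WithLp.add_snd, map_add, smul_add,
      WithLp.ofLp_add]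
    ext <;> simp <;> abel
  map_smul' c v := by
    apply (WithLp.equiv 2 (𝓗 × 𝓗)).injective
    simp only [WithLp.equiv_apply, WithLp.smul_fst, WithLp.smul_snd, map_smul,
      WithLp.ofLp_smul, RingHom.id_apply]
    ext
    · simp only [Prod.smul_mk, smul_sub, smul_comm c]
    · simp only [Prod.smul_mk, smul_add, smul_comm c]

lemma rotL_norm (K : 𝓗 →ₗᵢ[ℝ] 𝓗) (θ : ℝ) (v : WithLp 2 (𝓗 × 𝓗)) : ‖rotL K θ v‖ = ‖v‖ := by
  have h1 : ‖rotL K θ v‖ ^ 2 = ‖v‖ ^ 2 := by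
    rw [WithLp.prod_norm_sq_eq_of_L2, WithLp.prod_norm_sq_eq_of_L2]
    have e1 : (rotL K θ v).fst =
        Real.cos (2 * Real.pi * θ) • K v.fst - Real.sin (2 * Real.pi * θ) • K v.snd := rfl
    have e2 : (rotL K θ v).snd =
        Real.sin (2 * Real.pi * θ) • K v.fst + Real.cos (2 * Real.pi * θ) • K v.snd := rfl
    rw [e1, e2, @norm_sub_sq_real, @norm_add_sq_real]
    simp only [norm_smul, mul_pow, LinearIsometry.norm_map, inner_smul_left, inner_smul_right,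
      Real.norm_eq_abs, sq_abs, conj_trivial]
    have := Real.sin_sq_add_cos_sq (2 * Real.pi * θ)
    linear_combination (‖v.fst‖ ^ 2 + ‖v.snd‖ ^ 2) * this
  exact (sq_eq_sq₀ (norm_nonneg _) (norm_nonneg _)).mp h1

/-- the isometry `e(θ) K` on the complexification, as a continuous linear map -/
noncomputable def rot (K : 𝓗 →ₗᵢ[ℝ] 𝓗) (θ : ℝ) :
    WithLp 2 (𝓗 × 𝓗) →L[ℝ] WithLp 2 (𝓗 × 𝓗) :=
  (rotL K θ).mkContinuous 1 (fun v => by rw [rotL_norm, one_mul])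

lemma rot_apply (K : 𝓗 →ₗᵢ[ℝ] 𝓗) (θ : ℝ) (v : WithLp 2 (𝓗 × 𝓗)) :
    rot K θ v = WithLp.toLp 2
    (Real.cos (2 * Real.pi * θ) • K v.fst - Real.sin (2 * Real.pi * θ) • K v.snd,
      Real.sin (2 * Real.pi * θ) • K v.fst + Real.cos (2 * Real.pi * θ) • K v.snd) := rfl

lemma rot_norm_map (K : 𝓗 →ₗᵢ[ℝ] 𝓗) (θ : ℝ) (v : WithLp 2 (𝓗 × 𝓗)) : ‖rot K θ v‖ = ‖v‖ :=
  rotL_norm K θ v

lemma rot_norm_le (K : 𝓗 →ₗᵢ[ℝ] 𝓗) (θ : ℝ) : ‖rot K θ‖ ≤ 1 :=
  LinearMap.mkContinuous_norm_le _ zero_le_one _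

lemma rot_iterate (K : 𝓗 →ₗᵢ[ℝ] 𝓗) (θ : ℝ) (a b : 𝓗) (h : ℕ) :
    (rot K θ)^[h] (WithLp.toLp 2 (a, b)) = WithLp.toLp 2
      (Real.cos (2 * Real.pi * (h * θ)) • K^[h] a - Real.sin (2 * Real.pi * (h * θ)) • K^[h] b,
        Real.sin (2 * Real.pi * (h * θ)) • K^[h] a + Real.cos (2 * Real.pi * (h * θ)) • K^[h] b) := by
  induction h with
  | zero => simp
  | succ h ih =>
    rw [Function.iterate_succ_apply', ih, rot_apply]
    simp only [WithLp.toLp_fst, WithLp.toLp_snd, map_sub, map_add, map_smul,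
      Function.iterate_succ_apply']
    have hc : Real.cos (2 * Real.pi * (((h + 1 : ℕ) : ℝ) * θ)) =
        Real.cos (2 * Real.pi * θ) * Real.cos (2 * Real.pi * (h * θ)) -
          Real.sin (2 * Real.pi * θ) * Real.sin (2 * Real.pi * (h * θ)) := by
      rw [← Real.cos_add]; congr 1; push_cast; ring
    have hs : Real.sin (2 * Real.pi * (((h + 1 : ℕ) : ℝ) * θ)) =
        Real.sin (2 * Real.pi * θ) * Real.cos (2 * Real.pi * (h * θ)) +
          Real.cos (2 * Real.pi * θ) * Real.sin (2 * Real.pi * (h * θ)) := by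
      rw [← Real.sin_add]; congr 1; push_cast; ring
    rw [hc, hs]
    congr 2 <;> module

lemma rot_iterate_zero (K : 𝓗 →ₗᵢ[ℝ] 𝓗) (θ : ℝ) (a : 𝓗) (h : ℕ) :
    (rot K θ)^[h] (WithLp.toLp 2 (a, 0)) = WithLp.toLp 2
      (Real.cos (2 * Real.pi * (h * θ)) • K^[h] a, Real.sin (2 * Real.pi * (h * θ)) • K^[h] a) := by
  rw [rot_iterate]
  have : K^[h] (0 : 𝓗) = 0 := by
    induction h with
    | zero => rfl
    | succ h ih => rw [Function.iterate_succ_apply', ih, map_zero]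
  simp [this]

/-- correlations of the orbit of an isometry -/
lemma corr_eq (K : 𝓗 →ₗᵢ[ℝ] 𝓗) (y : 𝓗) (h k : ℕ) :
    ⟪K^[((h : ℤ) - (k : ℤ)).natAbs] y, y⟫_ℝ = ⟪K^[h] y, K^[k] y⟫_ℝ := by
  have key : ∀ (n : ℕ) (a b : 𝓗), ⟪K^[n] a, K^[n] b⟫_ℝ = ⟪a, b⟫_ℝ := by
    intro n
    induction n with
    | zero => intro a b; rfl
    | succ n ih =>
      intro a b
      rw [Function.iterate_succ_apply', Function.iterate_succ_apply', LinearIsometry.inner_map_map,
        ih]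
  rcases le_total k h with hkh | hkh
  · have e : ((h : ℤ) - (k : ℤ)).natAbs = h - k := by omega
    rw [e]
    conv_rhs => rw [show h = k + (h - k) by omega, Function.iterate_add_apply]
    rw [key]
  · have e : ((h : ℤ) - (k : ℤ)).natAbs = k - h := by omega
    rw [e]
    conv_rhs => rw [show k = h + (k - h) by omega, Function.iterate_add_apply]
    rw [key, real_inner_comm]

/-- the energy as a norm -/
lemma QQ_eq_norm (K : 𝓗 →ₗᵢ[ℝ] 𝓗) (y : 𝓗) (H : ℕ) (θ : ℝ) :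
    QQ (fun d => ⟪K^[d.natAbs] y, y⟫_ℝ) H θ =
      ‖birkhoffAverage ℝ (rot K θ) _root_.id H (WithLp.toLp 2 (y, (0 : 𝓗)))‖ ^ 2 := by
  have hsum : ∑ h ∈ range H, (rot K θ)^[h] (WithLp.toLp 2 (y, (0 : 𝓗))) =
      WithLp.toLp 2 (∑ h ∈ range H, Real.cos (2 * Real.pi * (h * θ)) • K^[h] y,
        ∑ h ∈ range H, Real.sin (2 * Real.pi * (h * θ)) • K^[h] y) := by
    simp_rw [rot_iterate_zero]
    induction H with
    | zero => rfl
    | succ H ih =>
      rw [Finset.sum_range_succ, ih, Finset.sum_range_succ, Finset.sum_range_succ]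
      rfl
  unfold birkhoffAverage birkhoffSum
  simp only [id]
  rw [hsum, norm_smul, mul_pow, WithLp.prod_norm_sq_eq_of_L2]
  simp only [WithLp.toLp_fst, WithLp.toLp_snd]
  rw [← real_inner_self_eq_norm_sq (∑ h ∈ range H, Real.cos (2 * Real.pi * (h * θ)) • K^[h] y),
    ← real_inner_self_eq_norm_sq (∑ h ∈ range H, Real.sin (2 * Real.pi * (h * θ)) • K^[h] y),
    sum_inner, sum_inner]
  simp_rw [inner_sum, real_inner_smul_left, real_inner_smul_right]
  unfold QQ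
  rw [← Finset.sum_add_distrib]
  congr 1
  · rw [Real.norm_eq_abs, sq_abs, inv_pow, one_div]
  · refine Finset.sum_congr rfl (fun h _ => ?_)
    rw [← Finset.sum_add_distrib]
    refine Finset.sum_congr rfl (fun k _ => ?_)
    simp only []
    rw [corr_eq]
    have : Real.cos (2 * Real.pi * (((h : ℝ) - (k : ℝ)) * θ)) =
        Real.cos (2 * Real.pi * (h * θ)) * Real.cos (2 * Real.pi * (k * θ)) +
          Real.sin (2 * Real.pi * (h * θ)) * Real.sin (2 * Real.pi * (k * θ)) := by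
      rw [← Real.cos_sub]; congr 1; ring
    rw [this]; ring

/-- the energy only decreases when the length is replaced by a multiple -/
lemma birkhoff_mul_le {E : Type*} [NormedAddCommGroup E] [NormedSpace ℝ E] (T : E →L[ℝ] E)
    (hT : ∀ v, ‖T v‖ = ‖v‖) (w : E) {H n : ℕ} (hn : 0 < n) :
    ‖birkhoffAverage ℝ T _root_.id (n * H) w‖ ≤ ‖birkhoffAverage ℝ T _root_.id H w‖ := by
  have hiter : ∀ (k : ℕ) (v : E), ‖T^[k] v‖ = ‖v‖ := by
    intro k
    induction k with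
    | zero => intro v; rfl
    | succ k ih => intro v; rw [Function.iterate_succ_apply', hT, ih]
  have hsum : ∀ (k m : ℕ) (v : E), birkhoffSum T _root_.id m (T^[k] v) =
      T^[k] (birkhoffSum T _root_.id m v) := by
    intro k m v
    have hk : ∀ w : E, T^[k] w = (T ^ k) w := by
      clear v
      induction k with
      | zero => intro w; simp
      | succ k ih =>
        intro w
        rw [Function.iterate_succ_apply, ih, pow_succ]; rfl
    unfold birkhoffSum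
    simp only [id]
    rw [hk (∑ x ∈ range m, T^[x] v), map_sum]
    refine Finset.sum_congr rfl (fun j _ => ?_)
    rw [← hk, ← Function.iterate_add_apply, ← Function.iterate_add_apply, add_comm]
  have hmain : ∀ (n : ℕ) (v : E), ‖birkhoffSum T _root_.id (n * H) v‖ ≤
      n * ‖birkhoffSum T _root_.id H v‖ := by
    intro n
    induction n with
    | zero => intro v; simp [birkhoffSum]
    | succ n ih =>
      intro v
      rw [show (n + 1) * H = H + n * H by ring, birkhoffSum_add]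
      refine (norm_add_le _ _).trans ?_
      have h1 := ih (T^[H] v)
      rw [hsum, hiter] at h1
      rw [hsum, hiter] at *
      push_cast
      have h2 := ih v
      linarith
  unfold birkhoffAverage
  rw [norm_smul, norm_smul]
  rcases Nat.eq_zero_or_pos H with hH | hH
  · subst hH; simp
  have h1 := hmain n w
  simp only [norm_inv, Real.norm_natCast]
  push_cast
  have hn' : (0 : ℝ) < n := by exact_mod_cast hn
  have hH' : (0 : ℝ) < H := by exact_mod_cast hH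
  calc ((n : ℝ) * H)⁻¹ * ‖birkhoffSum T _root_.id (n * H) w‖
      ≤ ((n : ℝ) * H)⁻¹ * (n * ‖birkhoffSum T _root_.id H w‖) := by gcongr
    _ = (H : ℝ)⁻¹ * ‖birkhoffSum T _root_.id H w‖ := by field_simp

lemma QQ_mul_le (K : 𝓗 →ₗᵢ[ℝ] 𝓗) (y : 𝓗) {H n : ℕ} (hn : 0 < n) (θ : ℝ) :
    QQ (fun d => ⟪K^[d.natAbs] y, y⟫_ℝ) (n * H) θ ≤ QQ (fun d => ⟪K^[d.natAbs] y, y⟫_ℝ) H θ := by
  rw [QQ_eq_norm, QQ_eq_norm]
  have := birkhoff_mul_le (rot K θ) (rot_norm_map K θ) (WithLp.toLp 2 (y, (0 : 𝓗))) (H := H) hn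
  gcongr

lemma QQ_nonneg (K : 𝓗 →ₗᵢ[ℝ] 𝓗) (y : 𝓗) (H : ℕ) (θ : ℝ) :
    0 ≤ QQ (fun d => ⟪K^[d.natAbs] y, y⟫_ℝ) H θ := by
  rw [QQ_eq_norm]; positivity

lemma inner_iterate_iterate (K : 𝓗 →ₗᵢ[ℝ] 𝓗) (n : ℕ) (a b : 𝓗) :
    ⟪K^[n] a, K^[n] b⟫_ℝ = ⟪a, b⟫_ℝ := by
  induction n generalizing a b with
  | zero => rfl
  | succ n ih =>
    rw [Function.iterate_succ_apply', Function.iterate_succ_apply', LinearIsometry.inner_map_map,
      ih]

lemma norm_iterate (K : 𝓗 →ₗᵢ[ℝ] 𝓗) (n : ℕ) (a : 𝓗) : ‖K^[n] a‖ = ‖a‖ := by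
  induction n with
  | zero => rfl
  | succ n ih => rw [Function.iterate_succ_apply', LinearIsometry.norm_map, ih]

lemma iterate_add_vec (K : 𝓗 →ₗᵢ[ℝ] 𝓗) (n : ℕ) (a b : 𝓗) : K^[n] (a + b) = K^[n] a + K^[n] b := by
  induction n with
  | zero => rfl
  | succ n ih => rw [Function.iterate_succ_apply', Function.iterate_succ_apply',
      Function.iterate_succ_apply', ih, map_add]

lemma inner_iterate_periodic (K : 𝓗 →ₗᵢ[ℝ] 𝓗) (u : 𝓗)
    (hu : ∀ m : ℕ, 0 < m → ∀ v : 𝓗, K^[m] v = v → ⟪u, v⟫_ℝ = 0) (h : ℕ) {m : ℕ} (hm : 0 < m)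
    {v : 𝓗} (hv : K^[m] v = v) : ⟪K^[h] u, v⟫_ℝ = 0 := by
  have hfix : K^[m * h] v = v := Function.IsFixedPt.eq (by
    have : Function.IsFixedPt (K^[m])^[h] v := Function.IsFixedPt.iterate hv h
    rw [← Function.iterate_mul] at this
    exact this)
  have hle : h ≤ m * h := Nat.le_mul_of_pos_left h hm
  have e : v = K^[h] (K^[m * h - h] v) := by
    rw [← Function.iterate_add_apply, show h + (m * h - h) = m * h by omega, hfix]
  rw [e, inner_iterate_iterate]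
  apply hu m hm
  rw [← Function.iterate_add_apply, add_comm, Function.iterate_add_apply, hv]

lemma inner_iterate_closure (K : 𝓗 →ₗᵢ[ℝ] 𝓗) (u r : 𝓗)
    (hu : ∀ m : ℕ, 0 < m → ∀ v : 𝓗, K^[m] v = v → ⟪u, v⟫_ℝ = 0)
    (hr : r ∈ closure {v : 𝓗 | ∃ m : ℕ, 0 < m ∧ K^[m] v = v}) (h : ℕ) :
    ⟪K^[h] u, r⟫_ℝ = 0 := by
  have hcl : IsClosed {v : 𝓗 | ⟪K^[h] u, v⟫_ℝ = 0} :=
    isClosed_eq (by fun_prop) continuous_const
  have hsub : {v : 𝓗 | ∃ m : ℕ, 0 < m ∧ K^[m] v = v} ⊆ {v : 𝓗 | ⟪K^[h] u, v⟫_ℝ = 0} := by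
    rintro v ⟨m, hm, hv⟩
    exact inner_iterate_periodic K u hu h hm hv
  exact closure_minimal hsub hcl hr

lemma inner_iterate_closure' (K : 𝓗 →ₗᵢ[ℝ] 𝓗) (u r : 𝓗)
    (hu : ∀ m : ℕ, 0 < m → ∀ v : 𝓗, K^[m] v = v → ⟪u, v⟫_ℝ = 0)
    (hr : r ∈ closure {v : 𝓗 | ∃ m : ℕ, 0 < m ∧ K^[m] v = v}) (h : ℕ) :
    ⟪u, K^[h] r⟫_ℝ = 0 := by
  have hc : Continuous (K^[h]) := K.continuous.iterate h
  have hcl : IsClosed {v : 𝓗 | ⟪u, K^[h] v⟫_ℝ = 0} :=
    isClosed_eq (by fun_prop) continuous_const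
  have hsub : {v : 𝓗 | ∃ m : ℕ, 0 < m ∧ K^[m] v = v} ⊆ {v : 𝓗 | ⟪u, K^[h] v⟫_ℝ = 0} := by
    rintro v ⟨m, hm, hv⟩
    apply hu m hm
    rw [← Function.iterate_add_apply, add_comm, Function.iterate_add_apply, hv]
  exact closure_minimal hsub hcl hr

lemma QQ_add (c c' : ℤ → ℝ) (H : ℕ) (θ : ℝ) :
    QQ (fun d => c d + c' d) H θ = QQ c H θ + QQ c' H θ := by
  unfold QQ
  rw [← mul_add, ← Finset.sum_add_distrib]
  congr 1
  refine Finset.sum_congr rfl (fun h _ => ?_)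
  rw [← Finset.sum_add_distrib]
  refine Finset.sum_congr rfl (fun k _ => ?_)
  ring

lemma QQ_u_le (K : 𝓗 →ₗᵢ[ℝ] 𝓗) (x u r : 𝓗) (hx : x = u + r)
    (hu : ∀ m : ℕ, 0 < m → ∀ v : 𝓗, K^[m] v = v → ⟪u, v⟫_ℝ = 0)
    (hr : r ∈ closure {v : 𝓗 | ∃ m : ℕ, 0 < m ∧ K^[m] v = v}) (H : ℕ) (θ : ℝ) :
    QQ (fun d => ⟪K^[d.natAbs] u, u⟫_ℝ) H θ ≤ QQ (fun d => ⟪K^[d.natAbs] x, x⟫_ℝ) H θ := by
  have e : (fun d : ℤ => ⟪K^[d.natAbs] x, x⟫_ℝ) =
      fun d : ℤ => ⟪K^[d.natAbs] u, u⟫_ℝ + ⟪K^[d.natAbs] r, r⟫_ℝ := by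
    funext d
    rw [hx, iterate_add_vec, inner_add_left, inner_add_right, inner_add_right,
      inner_iterate_closure K u r hu hr, real_inner_comm u (K^[d.natAbs] r),
      inner_iterate_closure' K u r hu hr]
    ring
  rw [e, QQ_add]
  linarith [QQ_nonneg K r H θ]

lemma rot_add_int (K : 𝓗 →ₗᵢ[ℝ] 𝓗) (θ : ℝ) (z : ℤ) : rot K (θ + z) = rot K θ := by
  ext1 v
  rw [rot_apply, rot_apply]
  have h1 : Real.cos (2 * Real.pi * (θ + z)) = Real.cos (2 * Real.pi * θ) := by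
    rw [show 2 * Real.pi * (θ + z) = 2 * Real.pi * θ + z * (2 * Real.pi) by ring,
      Real.cos_add_int_mul_two_pi]
  have h2 : Real.sin (2 * Real.pi * (θ + z)) = Real.sin (2 * Real.pi * θ) := by
    rw [show 2 * Real.pi * (θ + z) = 2 * Real.pi * θ + z * (2 * Real.pi) by ring,
      Real.sin_add_int_mul_two_pi]
  rw [h1, h2]

lemma rot_approx_term (K : 𝓗 →ₗᵢ[ℝ] 𝓗) (y : 𝓗) (θ θ' : ℝ) (h : ℕ) :
    ‖(rot K θ)^[h] (WithLp.toLp 2 (y, (0 : 𝓗))) - (rot K θ')^[h] (WithLp.toLp 2 (y, (0 : 𝓗)))‖ ≤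
      2 * Real.pi * h * |θ - θ'| * ‖y‖ := by
  rw [rot_iterate_zero, rot_iterate_zero, ← WithLp.toLp_sub]
  apply le_of_sq_le_sq _ (by positivity)
  rw [WithLp.prod_norm_sq_eq_of_L2]
  simp only [WithLp.toLp_fst, WithLp.toLp_snd, Prod.fst_sub, Prod.snd_sub, ← sub_smul, norm_smul,
    norm_iterate, mul_pow, Real.norm_eq_abs, sq_abs]
  rw [← add_mul]
  apply mul_le_mul_of_nonneg_right _ (by positivity)
  set A := 2 * Real.pi * (h * θ) with hA
  set B := 2 * Real.pi * (h * θ') with hB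
  have h1 : (Real.cos A - Real.cos B) ^ 2 + (Real.sin A - Real.sin B) ^ 2 =
      2 - 2 * Real.cos (A - B) := by
    rw [Real.cos_sub]
    have := Real.sin_sq_add_cos_sq A
    have := Real.sin_sq_add_cos_sq B
    nlinarith
  have h2 := Real.one_sub_sq_div_two_le_cos (x := A - B)
  have h3 : (A - B) ^ 2 = 2 ^ 2 * Real.pi ^ 2 * (h : ℝ) ^ 2 * (θ - θ') ^ 2 := by
    rw [hA, hB]; ring
  rw [h1, ← h3]
  linarith

lemma rot_approx (K : 𝓗 →ₗᵢ[ℝ] 𝓗) (y : 𝓗) (θ θ' : ℝ) (H : ℕ) :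
    ‖birkhoffAverage ℝ (rot K θ) _root_.id H (WithLp.toLp 2 (y, (0 : 𝓗))) -
      birkhoffAverage ℝ (rot K θ') _root_.id H (WithLp.toLp 2 (y, (0 : 𝓗)))‖ ≤
      2 * Real.pi * H * |θ - θ'| * ‖y‖ := by
  rcases Nat.eq_zero_or_pos H with hH | hH
  · subst hH; simp [birkhoffAverage, birkhoffSum]
  unfold birkhoffAverage birkhoffSum
  simp only [id]
  rw [← smul_sub, ← Finset.sum_sub_distrib, norm_smul, norm_inv, Real.norm_natCast]
  have hH' : (0 : ℝ) < H := by exact_mod_cast hH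
  have h1 : ‖∑ x ∈ range H, ((rot K θ)^[x] (WithLp.toLp 2 (y, (0 : 𝓗))) -
      (rot K θ')^[x] (WithLp.toLp 2 (y, (0 : 𝓗))))‖ ≤
      H * (2 * Real.pi * H * |θ - θ'| * ‖y‖) := by
    refine (norm_sum_le _ _).trans ?_
    calc _ ≤ ∑ _x ∈ range H, 2 * Real.pi * H * |θ - θ'| * ‖y‖ := by
          refine Finset.sum_le_sum (fun h hh => (rot_approx_term K y θ θ' h).trans ?_)
          have : (h : ℝ) ≤ H := by exact_mod_cast (Finset.mem_range.mp hh).le
          gcongr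
      _ = _ := by rw [Finset.sum_const, Finset.card_range, nsmul_eq_mul]
  calc (H : ℝ)⁻¹ * _ ≤ (H : ℝ)⁻¹ * (H * (2 * Real.pi * H * |θ - θ'| * ‖y‖)) := by gcongr
    _ = _ := by field_simp

lemma tendsto_rational [CompleteSpace 𝓗] (K : 𝓗 →ₗᵢ[ℝ] 𝓗) (u : 𝓗)
    (hu : ∀ m : ℕ, 0 < m → ∀ v : 𝓗, K^[m] v = v → ⟪u, v⟫_ℝ = 0) {m : ℕ} (hm : 0 < m) (k : ℤ) :
    Tendsto (fun H : ℕ => ‖birkhoffAverage ℝ (rot K ((k : ℝ) / m)) _root_.id H
      (WithLp.toLp 2 (u, (0 : 𝓗)))‖) atTop (𝓝 0) := by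
  have h1 := (rot K ((k : ℝ) / m)).tendsto_birkhoffAverage_orthogonalProjection
    (rot_norm_le K _) (WithLp.toLp 2 (u, (0 : 𝓗)))
  have hm' : (m : ℝ) ≠ 0 := by positivity
  have h2 : ((rot K ((k : ℝ) / m)).eqLocus
      (1 : WithLp 2 (𝓗 × 𝓗) →L[ℝ] WithLp 2 (𝓗 × 𝓗))).orthogonalProjectionOnto
      (WithLp.toLp 2 (u, (0 : 𝓗))) = 0 := by
    rw [Submodule.orthogonalProjectionOnto_eq_zero_iff, Submodule.mem_orthogonal]
    intro v hv
    have hv1 : rot K ((k : ℝ) / m) v = v := by simpa using hv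
    have hv2 : (rot K ((k : ℝ) / m))^[m] v = v := Function.IsFixedPt.iterate hv1 m
    have e : v = WithLp.toLp 2 (v.fst, v.snd) := rfl
    rw [e, rot_iterate] at hv2
    have h3 : Real.cos (2 * Real.pi * ((m : ℝ) * ((k : ℝ) / m))) = 1 := by
      rw [show 2 * Real.pi * ((m : ℝ) * ((k : ℝ) / m)) = k * (2 * Real.pi) by field_simp]
      exact Real.cos_int_mul_two_pi k
    have h4 : Real.sin (2 * Real.pi * ((m : ℝ) * ((k : ℝ) / m))) = 0 := by
      rw [show 2 * Real.pi * ((m : ℝ) * ((k : ℝ) / m)) = ((2 * k : ℤ) : ℝ) * Real.pi by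
        push_cast; field_simp]
      exact Real.sin_int_mul_pi _
    rw [h3, h4] at hv2
    have h5 : K^[m] v.fst = v.fst := by
      have := congrArg WithLp.fst hv2
      simpa using this
    rw [WithLp.prod_inner_apply]
    simp only [inner_zero_right, add_zero]
    rw [real_inner_comm]
    exact hu m hm _ h5
  rw [h2] at h1
  simpa using h1.norm

/-- the energy of `u` is uniformly small along multiples -/
lemma uniform_small [CompleteSpace 𝓗] (K : 𝓗 →ₗᵢ[ℝ] 𝓗) (x u r : 𝓗) (hx : x = u + r)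
    (hu : ∀ m : ℕ, 0 < m → ∀ v : 𝓗, K^[m] v = v → ⟪u, v⟫_ℝ = 0)
    (hr : r ∈ closure {v : 𝓗 | ∃ m : ℕ, 0 < m ∧ K^[m] v = v})
    (hQ : RationalSpectrum (fun d => ⟪K^[d.natAbs] x, x⟫_ℝ)) {δ : ℝ} (hδ : 0 < δ) :
    ∃ K₁ : ℕ, 0 < K₁ ∧ ∃ N₁ : ℕ, ∀ n : ℕ, N₁ ≤ n → ∀ θ : ℝ,
      QQ (fun d => ⟪K^[d.natAbs] u, u⟫_ℝ) (K₁ * n) θ < δ := by
  obtain ⟨K₀, hK₀, hQ⟩ := hQ δ hδ
  have hs : 0 < Real.sqrt δ := Real.sqrt_pos.mpr hδ
  -- choose `J`
  obtain ⟨J, hJ⟩ := exists_nat_gt (2 * (2 * Real.pi * K₀ * ‖u‖) / Real.sqrt δ)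
  have hJ0 : (0 : ℝ) < J := lt_of_le_of_lt (by positivity) hJ
  have hJpos : 0 < J := by exact_mod_cast hJ0
  have hJ' : 2 * Real.pi * K₀ * ‖u‖ / J < Real.sqrt δ / 2 := by
    rw [div_lt_iff₀ hs] at hJ
    rw [div_lt_iff₀ hJ0]
    linarith
  -- finitely many rationals
  have hev : ∀ᶠ n : ℕ in atTop, ∀ p ∈ (range (K₀ + 1)) ×ˢ (range (K₀ + 1)), 0 < p.1 →
      ‖birkhoffAverage ℝ (rot K (((p.2 : ℤ) : ℝ) / p.1)) _root_.id (K₀ * n)
        (WithLp.toLp 2 (u, (0 : 𝓗)))‖ < Real.sqrt δ / 2 := by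
    rw [Filter.eventually_all_finset]
    intro p _
    by_cases hp : 0 < p.1
    · have h1 := tendsto_rational K u hu hp (p.2 : ℤ)
      have h2 : Tendsto (fun n : ℕ => K₀ * n) atTop atTop :=
        tendsto_id.const_mul_atTop' hK₀
      have h3 := (h1.comp h2).eventually (gt_mem_nhds (show (0 : ℝ) < Real.sqrt δ / 2 by positivity))
      filter_upwards [h3] with n hn _
      exact hn
    · exact Filter.Eventually.of_forall (fun n h => absurd h hp)
  obtain ⟨N₁, hN₁⟩ := Filter.eventually_atTop.mp hev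
  refine ⟨K₀ * J, Nat.mul_pos hK₀ hJpos, max N₁ 1, fun n hn θ => ?_⟩
  have hn1 : 1 ≤ n := le_trans (le_max_right _ _) hn
  have hnN : N₁ ≤ n := le_trans (le_max_left _ _) hn
  by_contra hcon
  push Not at hcon
  -- the rational close to `θ`
  have hHpos : 0 < K₀ * J * n := by positivity
  obtain ⟨m, hm, hmK, k, hk⟩ := hQ (K₀ * J * n) hHpos ⟨J * n, by ring⟩ θ
    (hcon.trans (QQ_u_le K x u r hx hu hr _ _))
  -- energy at the shorter length
  have h1 : δ ≤ QQ (fun d => ⟪K^[d.natAbs] u, u⟫_ℝ) (K₀ * n) θ := by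
    refine hcon.trans ?_
    have := QQ_mul_le K u (H := K₀ * n) hJpos θ
    rwa [show J * (K₀ * n) = K₀ * J * n by ring] at this
  rw [QQ_eq_norm] at h1
  have h2 : Real.sqrt δ ≤ ‖birkhoffAverage ℝ (rot K θ) _root_.id (K₀ * n)
      (WithLp.toLp 2 (u, (0 : 𝓗)))‖ := Real.sqrt_le_iff.mpr ⟨norm_nonneg _, h1⟩
  -- comparison
  have h3 := rot_approx K u θ ((k : ℝ) / m) (K₀ * n)
  have hm' : (0 : ℝ) < m := by exact_mod_cast hm
  have hm1 : (1 : ℝ) ≤ m := by exact_mod_cast hm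
  have hn' : (0 : ℝ) < n := by exact_mod_cast hn1
  have hK₀' : (0 : ℝ) < K₀ := by exact_mod_cast hK₀
  have h4 : |θ - (k : ℝ) / m| ≤ K₀ / ((K₀ * J * n : ℕ) : ℝ) := by
    have e : θ - (k : ℝ) / m = ((m : ℝ) * θ - k) / m := by field_simp
    rw [e, abs_div, abs_of_pos hm']
    calc |(m : ℝ) * θ - k| / m ≤ |(m : ℝ) * θ - k| / 1 := by gcongr
      _ ≤ _ := by rw [div_one]; exact hk
  have h5 : 2 * Real.pi * ((K₀ * n : ℕ) : ℝ) * |θ - (k : ℝ) / m| * ‖u‖ ≤
      2 * Real.pi * K₀ * ‖u‖ / J := by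
    calc 2 * Real.pi * ((K₀ * n : ℕ) : ℝ) * |θ - (k : ℝ) / m| * ‖u‖
        ≤ 2 * Real.pi * ((K₀ * n : ℕ) : ℝ) * (K₀ / ((K₀ * J * n : ℕ) : ℝ)) * ‖u‖ := by gcongr
      _ = 2 * Real.pi * K₀ * ‖u‖ / J := by push_cast; field_simp
  -- the rational reduced modulo one
  have h6 : ‖birkhoffAverage ℝ (rot K ((k : ℝ) / m)) _root_.id (K₀ * n)
      (WithLp.toLp 2 (u, (0 : 𝓗)))‖ < Real.sqrt δ / 2 := by
    have hmz : (0 : ℤ) < m := by exact_mod_cast hm
    have hk1 : 0 ≤ k % m := Int.emod_nonneg k hmz.ne'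
    have hk2 : k % m < m := Int.emod_lt_of_pos k hmz
    obtain ⟨k', hk'⟩ := Int.eq_ofNat_of_zero_le hk1
    have hk'lt : k' < K₀ + 1 := by
      have : (k' : ℤ) < m := by rw [← hk']; exact hk2
      have : k' < m := by exact_mod_cast this
      omega
    have h7 := hN₁ n hnN (m, k') (by
      rw [Finset.mem_product]
      exact ⟨Finset.mem_range.mpr (Nat.lt_succ_of_le hmK), Finset.mem_range.mpr hk'lt⟩) hm
    have e : (k : ℝ) / m = ((k' : ℤ) : ℝ) / m + ((k / m : ℤ) : ℝ) := by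
      have h8 : (k : ℤ) = k' + m * (k / m) := by
        rw [← hk']
        exact (Int.emod_add_mul_ediv k m).symm
      have h9 : (k : ℝ) = (k' : ℝ) + m * ((k / m : ℤ) : ℝ) := by exact_mod_cast h8
      rw [div_add' _ _ _ hm'.ne', h9]
      push_cast
      congr 1
      ring
    rw [e, rot_add_int]
    exact h7
  have h8 := norm_sub_norm_le (birkhoffAverage ℝ (rot K θ) _root_.id (K₀ * n)
    (WithLp.toLp 2 (u, (0 : 𝓗)))) (birkhoffAverage ℝ (rot K ((k : ℝ) / m)) _root_.id (K₀ * n)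
    (WithLp.toLp 2 (u, (0 : 𝓗))))
  linarith

end WienerPair

section Parseval

open intervalIntegral

lemma integral_cos_int (a : ℤ) :
    ∫ θ in (0 : ℝ)..1, Real.cos (2 * Real.pi * (a * θ)) = if a = 0 then 1 else 0 := by
  by_cases ha : a = 0
  · subst ha; simp
  · rw [if_neg ha]
    have hc : (2 * Real.pi * a : ℝ) ≠ 0 := by
      have : (a : ℝ) ≠ 0 := by exact_mod_cast ha
      positivity
    have e : (fun θ : ℝ => Real.cos (2 * Real.pi * (a * θ))) =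
        fun θ : ℝ => Real.cos ((2 * Real.pi * a) * θ) := by
      funext θ; ring_nf
    rw [e, intervalIntegral.integral_comp_mul_left (fun x => Real.cos x) hc, integral_cos]
    have h1 : Real.sin (2 * Real.pi * a * 1) = 0 := by
      rw [show 2 * Real.pi * (a : ℝ) * 1 = ((2 * a : ℤ) : ℝ) * Real.pi by push_cast; ring]
      exact Real.sin_int_mul_pi _
    rw [h1]
    simp

lemma integral_cos_mul_cos (a b : ℤ) :
    ∫ θ in (0 : ℝ)..1, Real.cos (2 * Real.pi * (a * θ)) * Real.cos (2 * Real.pi * (b * θ)) =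
      (if a = b then 1 / 2 else 0) + (if a = -b then 1 / 2 else 0) := by
  have e : (fun θ : ℝ => Real.cos (2 * Real.pi * (a * θ)) * Real.cos (2 * Real.pi * (b * θ))) =
      fun θ : ℝ => (1 / 2) * Real.cos (2 * Real.pi * ((a - b : ℤ) * θ)) +
        (1 / 2) * Real.cos (2 * Real.pi * ((a + b : ℤ) * θ)) := by
    funext θ
    have h1 : 2 * Real.pi * ((a - b : ℤ) * θ) = 2 * Real.pi * (a * θ) - 2 * Real.pi * (b * θ) := by
      push_cast; ring
    have h2 : 2 * Real.pi * ((a + b : ℤ) * θ) = 2 * Real.pi * (a * θ) + 2 * Real.pi * (b * θ) := by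
      push_cast; ring
    rw [h1, h2, Real.cos_sub, Real.cos_add]
    ring
  rw [e, intervalIntegral.integral_add, intervalIntegral.integral_const_mul,
    intervalIntegral.integral_const_mul, integral_cos_int, integral_cos_int]
  · have h1 : (a - b = 0) ↔ (a = b) := sub_eq_zero
    have h2 : (a + b = 0) ↔ (a = -b) := add_eq_zero_iff_eq_neg
    simp only [h1, h2]
    split_ifs <;> norm_num
  · exact Continuous.intervalIntegrable (by fun_prop) _ _
  · exact Continuous.intervalIntegrable (by fun_prop) _ _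

lemma integral_trig_sq {ι : Type*} (s : Finset ι) (a : ι → ℝ) (n : ι → ℤ) :
    ∫ θ in (0 : ℝ)..1, (∑ p ∈ s, a p * Real.cos (2 * Real.pi * (n p * θ))) ^ 2 =
      ∑ p ∈ s, ∑ q ∈ s, a p * a q *
        ((if n p = n q then 1 / 2 else 0) + (if n p = -n q then 1 / 2 else 0)) := by
  have e : (fun θ : ℝ => (∑ p ∈ s, a p * Real.cos (2 * Real.pi * (n p * θ))) ^ 2) =
      fun θ : ℝ => ∑ p ∈ s, ∑ q ∈ s, (a p * a q) *
        (Real.cos (2 * Real.pi * (n p * θ)) * Real.cos (2 * Real.pi * (n q * θ))) := by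
    funext θ
    rw [sq, Finset.sum_mul_sum]
    refine Finset.sum_congr rfl (fun p _ => Finset.sum_congr rfl (fun q _ => by ring))
  rw [e, intervalIntegral.integral_finsetSum]
  · refine Finset.sum_congr rfl (fun p _ => ?_)
    rw [intervalIntegral.integral_finsetSum]
    · refine Finset.sum_congr rfl (fun q _ => ?_)
      rw [intervalIntegral.integral_const_mul, integral_cos_mul_cos]
    · intro q _
      exact Continuous.intervalIntegrable (by fun_prop) _ _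
  · intro p _
    exact Continuous.intervalIntegrable (by fun_prop) _ _

lemma integral_trig {ι : Type*} (s : Finset ι) (a : ι → ℝ) (n : ι → ℤ) :
    ∫ θ in (0 : ℝ)..1, ∑ p ∈ s, a p * Real.cos (2 * Real.pi * (n p * θ)) =
      ∑ p ∈ s, a p * (if n p = 0 then 1 else 0) := by
  rw [intervalIntegral.integral_finsetSum]
  · refine Finset.sum_congr rfl (fun p _ => ?_)
    rw [intervalIntegral.integral_const_mul, integral_cos_int]
  · intro p _
    exact Continuous.intervalIntegrable (by fun_prop) _ _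

lemma sum_comp_le_of_injOn {ι κ : Type*} [DecidableEq κ] (T : Finset ι) (S : Finset κ) (φ : ι → κ)
    (hφ : Set.InjOn φ T) (hS : ∀ t ∈ T, φ t ∈ S) (g : κ → ℝ) (hg : ∀ s ∈ S, 0 ≤ g s) :
    ∑ t ∈ T, g (φ t) ≤ ∑ s ∈ S, g s := by
  rw [← Finset.sum_image hφ]
  apply Finset.sum_le_sum_of_subset_of_nonneg
  · intro k hk
    obtain ⟨t, ht, rfl⟩ := Finset.mem_image.mp hk
    exact hS t ht
  · intro k hk _
    exact hg k hk

lemma QQ_eq_pairs (c : ℤ → ℝ) (H : ℕ) (θ : ℝ) :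
    QQ c H θ = ∑ p ∈ range H ×ˢ range H, (c ((p.1 : ℤ) - (p.2 : ℤ)) / (H : ℝ) ^ 2) *
      Real.cos (2 * Real.pi * ((((p.1 : ℤ) - (p.2 : ℤ) : ℤ) : ℝ) * θ)) := by
  unfold QQ
  rw [Finset.sum_product, Finset.mul_sum]
  refine Finset.sum_congr rfl (fun h _ => ?_)
  rw [Finset.mul_sum]
  refine Finset.sum_congr rfl (fun k _ => ?_)
  push_cast
  ring

/-- if the energies are at most `δ` then the correlations are small in mean square -/
lemma corr_sq_le (c : ℤ → ℝ) (hc : ∀ d, c (-d) = c d) {N : ℕ} (hN : 0 < N) {δ : ℝ}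
    (h0 : ∀ θ, 0 ≤ QQ c (2 * N) θ) (h1 : ∀ θ, QQ c (2 * N) θ ≤ δ) :
    ∑ d ∈ range N, c d ^ 2 ≤ 16 * δ * c 0 * N := by
  classical
  have hN' : (0 : ℝ) < N := by exact_mod_cast hN
  set H : ℕ := 2 * N with hH
  have hH' : (H : ℝ) = 2 * N := by rw [hH]; push_cast; ring
  set S := range H ×ˢ range H with hS
  set a : ℕ × ℕ → ℝ := fun p => c ((p.1 : ℤ) - (p.2 : ℤ)) / (H : ℝ) ^ 2 with ha
  set n : ℕ × ℕ → ℤ := fun p => (p.1 : ℤ) - (p.2 : ℤ) with hn
  have hQ : ∀ θ, QQ c H θ = ∑ p ∈ S, a p * Real.cos (2 * Real.pi * ((n p : ℝ) * θ)) :=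
    fun θ => QQ_eq_pairs c H θ
  have hcont : Continuous (fun θ => QQ c H θ) := by
    have : (fun θ => QQ c H θ) =
        fun θ => ∑ p ∈ S, a p * Real.cos (2 * Real.pi * ((n p : ℝ) * θ)) := funext hQ
    rw [this]
    fun_prop
  -- upper bound of the second moment
  have hup : ∫ θ in (0 : ℝ)..1, (QQ c H θ) ^ 2 ≤ δ * (c 0 / H) := by
    have h2 : ∫ θ in (0 : ℝ)..1, (QQ c H θ) ^ 2 ≤ ∫ θ in (0 : ℝ)..1, δ * QQ c H θ := by
      apply intervalIntegral.integral_mono_on zero_le_one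
      · exact Continuous.intervalIntegrable (by fun_prop) _ _
      · exact Continuous.intervalIntegrable (by fun_prop) _ _
      · intro θ _
        rw [sq]
        exact mul_le_mul_of_nonneg_right (h1 θ) (h0 θ)
    refine h2.trans (le_of_eq ?_)
    rw [intervalIntegral.integral_const_mul]
    congr 1
    have : (fun θ => QQ c H θ) =
        fun θ => ∑ p ∈ S, a p * Real.cos (2 * Real.pi * ((n p : ℝ) * θ)) := funext hQ
    rw [this, integral_trig, hS, Finset.sum_product]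
    have h3 : ∀ h ∈ range H, ∑ k ∈ range H, a (h, k) * (if n (h, k) = 0 then (1 : ℝ) else 0) =
        c 0 / (H : ℝ) ^ 2 := by
      intro h hh
      rw [Finset.sum_eq_single h]
      · simp [ha, hn]
      · intro k _ hk
        have : n (h, k) ≠ 0 := by simp only [hn]; omega
        rw [if_neg this, mul_zero]
      · intro h4; exact absurd hh h4
    rw [Finset.sum_congr rfl h3, Finset.sum_const, Finset.card_range, nsmul_eq_mul]
    rw [hH']
    field_simp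
  -- lower bound
  have hlow : (N : ℝ) ^ 2 * ((∑ d ∈ range N, c d ^ 2) / (2 * (H : ℝ) ^ 4)) ≤
      ∫ θ in (0 : ℝ)..1, (QQ c H θ) ^ 2 := by
    have : (fun θ => (QQ c H θ) ^ 2) =
        fun θ => (∑ p ∈ S, a p * Real.cos (2 * Real.pi * ((n p : ℝ) * θ))) ^ 2 := by
      funext θ; rw [hQ]
    rw [this, integral_trig_sq]
    set f : ℕ × ℕ → ℕ × ℕ → ℝ := fun p q => a p * a q *
        ((if n p = n q then 1 / 2 else 0) + (if n p = -n q then 1 / 2 else 0)) with hf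
    have hfnn : ∀ p q, 0 ≤ f p q := by
      intro p q
      simp only [hf]
      have e1 : ∀ p, a p = c (n p) / (H : ℝ) ^ 2 := fun p => rfl
      by_cases h3 : n p = n q
      · have : a p = a q := by rw [e1, e1, h3]
        rw [this]
        have : (0 : ℝ) ≤ (if n p = -n q then 1 / 2 else 0) := by split_ifs <;> norm_num
        rw [if_pos h3]
        exact mul_nonneg (mul_self_nonneg _) (by positivity)
      · by_cases h4 : n p = -n q
        · have : a p = a q := by rw [e1, e1, h4, hc]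
          rw [this, if_neg h3, if_pos h4]
          exact mul_nonneg (mul_self_nonneg _) (by positivity)
        · rw [if_neg h3, if_neg h4]; simp
    have hinj : Set.InjOn (fun t : ℕ × ℕ => ((t.1 + t.2, t.2) : ℕ × ℕ))
        ((range N ×ˢ range N : Finset (ℕ × ℕ)) : Set (ℕ × ℕ)) := by
      intro s _ t _ hst
      simp only [Prod.mk.injEq] at hst
      ext <;> omega
    have hmem : ∀ t ∈ range N ×ˢ range N, ((t.1 + t.2, t.2) : ℕ × ℕ) ∈ S := by
      intro t ht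
      simp only [hS, Finset.mem_product, Finset.mem_range] at ht ⊢
      omega
    calc (N : ℝ) ^ 2 * ((∑ d ∈ range N, c d ^ 2) / (2 * (H : ℝ) ^ 4))
        = ∑ t ∈ range N ×ˢ range N, ∑ j ∈ range N, (c (t.1 : ℤ)) ^ 2 / (2 * (H : ℝ) ^ 4) := by
          rw [Finset.sum_product]
          simp only [Finset.sum_const, Finset.card_range, nsmul_eq_mul]
          rw [← Finset.mul_sum, ← Finset.mul_sum, ← Finset.sum_div]
          ring
      _ ≤ ∑ t ∈ range N ×ˢ range N, ∑ j ∈ range N, f (t.1 + t.2, t.2) (t.1 + j, j) := by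
          refine Finset.sum_le_sum (fun t _ => Finset.sum_le_sum (fun j _ => ?_))
          have e2 : n (t.1 + t.2, t.2) = (t.1 : ℤ) := by simp [hn]
          have e3 : n (t.1 + j, j) = (t.1 : ℤ) := by simp [hn]
          have e1 : ∀ p, a p = c (n p) / (H : ℝ) ^ 2 := fun p => rfl
          simp only [hf]
          rw [e1, e1, e2, e3, if_pos rfl]
          have h5 : (0 : ℝ) ≤ (if (t.1 : ℤ) = -(t.1 : ℤ) then 1 / 2 else 0) := by
            split_ifs <;> norm_num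
          have h6 : c (t.1 : ℤ) / (H : ℝ) ^ 2 * (c (t.1 : ℤ) / (H : ℝ) ^ 2) *
              (1 / 2 + if (t.1 : ℤ) = -(t.1 : ℤ) then 1 / 2 else 0) =
              (c (t.1 : ℤ)) ^ 2 / (2 * (H : ℝ) ^ 4) + c (t.1 : ℤ) ^ 2 / (H : ℝ) ^ 4 *
              (if (t.1 : ℤ) = -(t.1 : ℤ) then 1 / 2 else 0) := by
            have : (H : ℝ) ≠ 0 := by rw [hH']; positivity
            field_simp
          rw [h6]
          have : 0 ≤ c (t.1 : ℤ) ^ 2 / (H : ℝ) ^ 4 *
              (if (t.1 : ℤ) = -(t.1 : ℤ) then 1 / 2 else 0) := by positivity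
          linarith
      _ ≤ ∑ t ∈ range N ×ˢ range N, ∑ q ∈ S, f (t.1 + t.2, t.2) q := by
          refine Finset.sum_le_sum (fun t ht => ?_)
          apply sum_comp_le_of_injOn (range N) S (fun j => (t.1 + j, j)) _ _
            (fun q => f (t.1 + t.2, t.2) q) (fun q _ => hfnn _ q)
          · intro i _ j _ hij
            simp only [Prod.mk.injEq] at hij
            exact hij.2
          · intro j hj
            simp only [hS, Finset.mem_product, Finset.mem_range] at ht hj ⊢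
            omega
      _ ≤ ∑ p ∈ S, ∑ q ∈ S, f p q :=
          sum_comp_le_of_injOn (range N ×ˢ range N) S (fun t => (t.1 + t.2, t.2)) hinj hmem
            (fun p => ∑ q ∈ S, f p q) (fun p _ => Finset.sum_nonneg (fun q _ => hfnn p q))
  have h3 := hlow.trans hup
  rw [hH'] at h3
  have h4 : (N : ℝ) ^ 2 * ((∑ d ∈ range N, c d ^ 2) / (2 * (2 * (N : ℝ)) ^ 4)) =
      (∑ d ∈ range N, c d ^ 2) / (32 * (N : ℝ) ^ 2) := by
    field_simp; ring
  have h5 : δ * (c 0 / (2 * (N : ℝ))) = (16 * δ * c 0 * N) / (32 * (N : ℝ) ^ 2) := by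
    field_simp; ring
  rw [h4, h5] at h3
  exact (div_le_div_iff_of_pos_right (by positivity)).mp h3

end Parseval

/-- **Wiener type theorem** -/
theorem wiener {𝓗 : Type*} [NormedAddCommGroup 𝓗] [InnerProductSpace ℝ 𝓗] [CompleteSpace 𝓗]
    (K : 𝓗 →ₗᵢ[ℝ] 𝓗) (x u r : 𝓗) (hx : x = u + r)
    (hu : ∀ m : ℕ, 0 < m → ∀ v : 𝓗, K^[m] v = v → ⟪u, v⟫_ℝ = 0)
    (hr : r ∈ closure {v : 𝓗 | ∃ m : ℕ, 0 < m ∧ K^[m] v = v})
    (hQ : RationalSpectrum (fun d => ⟪K^[d.natAbs] x, x⟫_ℝ)) :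
    Tendsto (fun N : ℕ => (1 / (N : ℝ)) * ∑ d ∈ range N, ⟪K^[d] u, u⟫_ℝ ^ 2) atTop (𝓝 0) := by
  rw [Metric.tendsto_atTop]
  intro ε hε
  set c : ℤ → ℝ := fun d => ⟪K^[d.natAbs] u, u⟫_ℝ with hc
  have hc0 : 0 ≤ c 0 := by simp only [hc]; exact real_inner_self_nonneg
  -- choose `δ`
  obtain ⟨δ, hδ, hδε⟩ : ∃ δ : ℝ, 0 < δ ∧ 32 * δ * c 0 < ε := by
    refine ⟨ε / (32 * (c 0 + 1)), by positivity, ?_⟩
    have : 32 * (ε / (32 * (c 0 + 1))) * c 0 = ε * (c 0 / (c 0 + 1)) := by field_simp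
    rw [this]
    have h1 : c 0 / (c 0 + 1) < 1 := by rw [div_lt_one (by positivity)]; linarith
    nlinarith
  obtain ⟨K₁, hK₁, N₁, hN₁⟩ := uniform_small K x u r hx hu hr hQ hδ
  refine ⟨K₁ * (N₁ + 1) + K₁ + 1, fun N hN => ?_⟩
  -- choose the multiple
  set n : ℕ := N / K₁ + 1 with hn
  have h1 : N < K₁ * n := by
    rw [hn]
    have := Nat.div_add_mod N K₁
    have h2 := Nat.mod_lt N hK₁
    nlinarith
  have h2 : K₁ * n ≤ 2 * N := by
    rw [hn]
    have := Nat.div_mul_le_self N K₁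
    have h3 : K₁ ≤ N := by nlinarith
    nlinarith
  have hnN₁ : N₁ ≤ 2 * n := by
    have h3 : N₁ + 1 ≤ N / K₁ := by
      rw [Nat.le_div_iff_mul_le hK₁]
      nlinarith
    omega
  have hNpos : 0 < N := by omega
  have hpos : 0 < K₁ * n := by positivity
  have hsym : ∀ d : ℤ, c (-d) = c d := by
    intro d; simp only [hc, Int.natAbs_neg]
  have h4 := corr_sq_le c hsym hpos (δ := δ) (fun θ => QQ_nonneg K u _ θ) (fun θ => by
    have := hN₁ (2 * n) hnN₁ θ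
    rw [show K₁ * (2 * n) = 2 * (K₁ * n) by ring] at this
    exact this.le)
  have h5 : ∑ d ∈ range N, ⟪K^[d] u, u⟫_ℝ ^ 2 ≤ ∑ d ∈ range (K₁ * n), c d ^ 2 := by
    calc ∑ d ∈ range N, ⟪K^[d] u, u⟫_ℝ ^ 2 = ∑ d ∈ range N, c d ^ 2 := by
          refine Finset.sum_congr rfl (fun d _ => ?_)
          simp only [hc, Int.natAbs_natCast]
      _ ≤ _ := Finset.sum_le_sum_of_subset_of_nonneg
          (Finset.range_subset_range.mpr h1.le) (fun _ _ _ => sq_nonneg _)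
  have hN' : (0 : ℝ) < N := by exact_mod_cast hNpos
  have h6 : ((K₁ * n : ℕ) : ℝ) ≤ 2 * N := by exact_mod_cast h2
  have h7 : 0 ≤ (1 / (N : ℝ)) * ∑ d ∈ range N, ⟪K^[d] u, u⟫_ℝ ^ 2 :=
    mul_nonneg (by positivity) (Finset.sum_nonneg (fun _ _ => sq_nonneg _))
  rw [Real.dist_eq, sub_zero, abs_of_nonneg h7]
  calc (1 / (N : ℝ)) * ∑ d ∈ range N, ⟪K^[d] u, u⟫_ℝ ^ 2
      ≤ (1 / (N : ℝ)) * (16 * δ * c 0 * ((K₁ * n : ℕ) : ℝ)) := by
        gcongr
        exact h5.trans h4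
    _ ≤ (1 / (N : ℝ)) * (16 * δ * c 0 * (2 * N)) := by gcongr
    _ = 32 * δ * c 0 := by field_simp; ring
    _ < ε := hδε

end Pool.Agent.Hhelper89.LehmerFull
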