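import Pool.Agent.Hhelper89.LehmerFull.Constraint
import Pool.Agent.Hhelper89.LehmerFull.Sieve
import Pool.Agent.Hhelper89.LehmerFull.Entropy
import Pool.Agent.Hhelper89.LehmerFull.LargeSpectrum
import Pool.Agent.Hhelper89.LehmerFull.Wiener
import Pool.Agent.Hhelper89.LehmerFull.PrimeAverage

/-!
Prime averages of the aperiodic part of the sign observable; existence of a constraint.
-/

namespace Pool.Agent.Hhelper89.LehmerFull

open Finset Filter Topology MeasureTheory
open Pool.Agent.Hhelper89.Lehmer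
open scoped InnerProductSpace ENNReal

variable {M : Mean} {μ : Measure Om} [IsProbabilityMeasure μ]

lemma corr_mean_eq (hM : Realises M μ) (f : ℕ → Bool) (d : ℤ) :
    M.E (fun n => bsg (f n.natAbs) * bsg (f (n + d).natAbs)) =
      ⟪((koop hM).K 1)^[d.natAbs] (xL μ f), xL μ f⟫_ℝ := by
  have h1 : M.E (fun n => bsg (f n.natAbs) * bsg (f (n + d).natAbs)) =
      ∫ u, xx f u * xx f (sh d u) ∂μ := by
    have := integral_hat3 hM (fun x y _ => bsg x * bsg y) (phi f) (fun n => phi f (n + d)) (phi f)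
    rw [show M.E (fun n => bsg (f n.natAbs) * bsg (f (n + d).natAbs)) =
      M.E (fun n => bsg (phi f n) * bsg (phi f (n + d))) from rfl, ← this]
    rfl
  rw [h1, (koop hM).K_iterate, xL, koop_toL, inner_eq' (toL_coe _) (toL_coe _)]
  rcases Int.natAbs_eq d with h | h
  · conv_lhs => rw [h]
    congr 1
    funext u
    rw [mul_comm, mul_one]
  · have h2 := integral_sh hM (d.natAbs : ℤ) ((BM_xx f).mul ((BM_xx f).comp (measurable_sh d)))
    rw [← h2]
    congr 1
    funext u
    rw [sh_sh, show d + (d.natAbs : ℤ) = 0 by omega, sh_zero, mul_one]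

/-- prime averages of the aperiodic part vanish -/
theorem pavg (hM : Realises M μ) {f : ℕ → Bool} (hf : MulSign f) :
    PAvg (koop hM) (xL μ f - (koop hM).R (xL μ f)) := by
  have hit : ∀ (m : ℕ) (v : Lp ℝ 2 μ), ((koop hM).K 1)^[m] v = (koop hM).K m v := by
    intro m v
    rw [(koop hM).K_iterate, mul_one]
  have hQ : RationalSpectrum (fun d => ⟪((koop hM).K 1)^[d.natAbs] (xL μ f), xL μ f⟫_ℝ) := by
    have h1 := large_spectrum M hf
    have h2 : (fun d : ℤ => M.E (fun n => bsg (f n.natAbs) * bsg (f (n + d).natAbs))) =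
        fun d : ℤ => ⟪((koop hM).K 1)^[d.natAbs] (xL μ f), xL μ f⟫_ℝ := by
      funext d
      exact corr_mean_eq hM f d
    rw [h2] at h1
    exact h1
  have hW := wiener ((koop hM).K 1) (xL μ f) (xL μ f - (koop hM).R (xL μ f))
    ((koop hM).R (xL μ f)) (by abel) (fun m hm v hv => (koop hM).inner_sub_R _ hm (by
      rw [hit] at hv; exact hv)) (by
      have := (koop hM).R_mem (xL μ f)
      simp only [hit]
      exact this) hQ
  intro α hα η hη ε hε
  obtain ⟨P₁, hP₁⟩ := prime_average prime_pair_second_moment ((koop hM).K 1)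
    (xL μ f - (koop hM).R (xL μ f)) hW α hα η hη ε hε
  refine ⟨P₁, fun P hP S hS hc => ?_⟩
  have := hP₁ P hP S hS hc
  simp only [hit] at this
  exact this

/-- good primes: many decoupled primes at arbitrarily large scales -/
lemma exists_good_scale (M : Mean) (f : ℕ → Bool) (α β : ℕ) {ε : ℝ} (hε : 0 < ε) (hε1 : ε ≤ 1 / 2)
    (P₀ : ℕ) : ∃ P : ℕ, P₀ ≤ P ∧ ∃ S : Finset ℕ, S ⊆ PP P ∧ (1 / 8) * P / Real.log P ≤ S.card ∧
      ∀ p ∈ S, Decouples M (phi f) α β ε p := by
  classical
  obtain ⟨P₁, hP₁⟩ := eventually_atTop.1 Ent.card_PP_lower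
  obtain ⟨P, hP, h⟩ := entropy_decoupling M (phi f) α β ε hε (max P₀ (max P₁ 2))
  refine ⟨P, (le_max_left _ _).trans hP, (PP P).filter (fun p => Decouples M (phi f) α β ε p),
    Finset.filter_subset _ _, ?_, fun p hp => (Finset.mem_filter.1 hp).2⟩
  have h1 := hP₁ P (((le_max_left _ _).trans (le_max_right _ _)).trans hP)
  have h2 : (1 / 2 : ℝ) * ((PP P).card : ℝ) ≤ (1 - ε) * ((PP P).card : ℝ) :=
    mul_le_mul_of_nonneg_right (by linarith) (Nat.cast_nonneg _)
  have h3 : (1 / 8 : ℝ) * P / Real.log P = (1 / 2) * (P / (4 * Real.log P)) := by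
    rw [mul_div_assoc, ← div_div, div_right_comm]
    ring
  rw [h3]
  have e : (((PP P).filter (fun p => Decouples M (phi f) α β ε p)).card : ℝ) =
    (((PP P).filter (fun p => Decouples M (phi f) α β ε p)).card : ℝ) := rfl
  calc (1 / 2 : ℝ) * (P / (4 * Real.log P)) ≤ (1 / 2) * ((PP P).card : ℝ) :=
        mul_le_mul_of_nonneg_left h1 (by norm_num)
    _ ≤ _ := h2
    _ ≤ _ := by convert h

/-- existence of a constraint -/
theorem exists_constraint (hM : Realises M μ) {f : ℕ → Bool} (hf : MulSign f) {α β : ℕ}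
    (hα : 0 < α) (hβ : 0 < β) {c₀ : Bool}
    (hav : ∀ n : ℕ, 0 < n → ¬ (f n = c₀ ∧ f (n + α) = c₀ ∧ f (n + β) = c₀))
    {W : ℕ} (hW : 0 < W) {ε : ℝ} (hε : 0 < ε) :
    ∃ c : ℤ, IsCoprime c W ∧ ∃ s : Bool, Th hM f α β W c (bsg s) ≤ 2 * tau hM f W + ε := by
  classical
  set ε₁ : ℝ := min (ε / 4) (1 / 2) with hε₁
  have hε₁0 : 0 < ε₁ := lt_min (by positivity) (by norm_num)
  set η : ℝ := 1 / (16 * W) with hη
  have hη0 : 0 < η := by positivity
  obtain ⟨P₁, hP₁⟩ := pavg hM hf α hα η hη0 ε₁ hε₁0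
  obtain ⟨P₂, hP₂⟩ := pavg hM hf β hβ η hη0 ε₁ hε₁0
  obtain ⟨P, hP, S, hSP, hSc, hSD⟩ := exists_good_scale M f α β hε₁0 (min_le_right _ _)
    (max (max P₁ P₂) (max W 2))
  have hPP₁ : P₁ ≤ P := ((le_max_left _ _).trans (le_max_left _ _)).trans hP
  have hPP₂ : P₂ ≤ P := ((le_max_right _ _).trans (le_max_left _ _)).trans hP
  have hPW : W ≤ P := ((le_max_left _ _).trans (le_max_right _ _)).trans hP
  have hP2 : 2 ≤ P := ((le_max_right _ _).trans (le_max_right _ _)).trans hP
  have hlog : 0 < Real.log P := Real.log_pos (by exact_mod_cast hP2)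
  -- pigeonhole
  have hmaps : ∀ p ∈ S, (p % W, f p) ∈ (range W) ×ˢ (Finset.univ : Finset Bool) := by
    intro p _
    rw [Finset.mem_product]
    exact ⟨Finset.mem_range.2 (Nat.mod_lt _ hW), Finset.mem_univ _⟩
  have hne : ((range W) ×ˢ (Finset.univ : Finset Bool)).Nonempty :=
    ⟨(0, true), by rw [Finset.mem_product]; exact ⟨Finset.mem_range.2 hW, Finset.mem_univ _⟩⟩
  have hcard : ((range W) ×ˢ (Finset.univ : Finset Bool)).card • (η * P / Real.log P) ≤
      (S.card : ℝ) := by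
    rw [Finset.card_product, Finset.card_range, Finset.card_univ, Fintype.card_bool, nsmul_eq_mul]
    refine le_trans (le_of_eq ?_) hSc
    rw [hη]
    push_cast
    have hW' : (W : ℝ) ≠ 0 := by positivity
    field_simp
    norm_num
  obtain ⟨⟨c, t⟩, -, hfib⟩ := Finset.exists_le_card_fiber_of_nsmul_le_card_of_maps_to hmaps hne hcard
  set S' := S.filter (fun p => (p % W, f p) = (c, t)) with hS'
  have hS'P : S' ⊆ PP P := (Finset.filter_subset _ _).trans hSP
  have hS'0 : 0 < S'.card := by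
    have : (0 : ℝ) < S'.card := lt_of_lt_of_le (by positivity) hfib
    exact_mod_cast this
  have hmem : ∀ p ∈ S', p % W = c ∧ f p = t := by
    intro p hp
    have := (Finset.mem_filter.1 hp).2
    exact ⟨congrArg Prod.fst this, congrArg Prod.snd this⟩
  refine ⟨c, ?_, (t == c₀), ?_⟩
  · obtain ⟨p, hp⟩ := Finset.card_pos.1 hS'0
    have h1 := mem_PP.1 (hS'P hp)
    have h2 : Nat.Coprime p W := by
      rw [Nat.Prime.coprime_iff_not_dvd h1.2]
      intro h
      have := Nat.le_of_dvd hW h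
      omega
    rw [Nat.isCoprime_iff_coprime]
    have h3 := (hmem p hp).1
    rw [← h3]
    unfold Nat.Coprime
    rw [← Nat.gcd_rec, Nat.gcd_comm]
    exact h2
  · have h1 := constraint_avg hM hf hav (W := W) (c := c) (s := (t == c₀)) hS'0
      (ε := ε₁) (ε' := ε₁) ?_ (hP₁ P hPP₁ S' hS'P hfib) (hP₂ P hPP₂ S' hS'P hfib)
    · have : ε₁ ≤ ε / 4 := min_le_left _ _
      linarith
    · intro p hp
      have h1 := mem_PP.1 (hS'P hp)
      have h2 := hmem p hp
      refine ⟨h1.2.pos, hSD p (Finset.filter_subset _ _ hp), by rw [h2.2], ?_⟩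
      rw [← h2.1]
      have := Nat.div_add_mod p W
      exact ⟨(p / W : ℕ), by
        have h3 : ((W * (p / W) + p % W : ℕ) : ℤ) = p := by exact_mod_cast this
        push_cast at h3 ⊢
        linarith⟩

end Pool.Agent.Hhelper89.LehmerFull
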