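import Pool.Agent.Hhelper89.LehmerFull.Theta

/-!
The constraint coming from decoupled primes.
-/

namespace Pool.Agent.Hhelper89.LehmerFull

open Finset Filter Topology MeasureTheory
open Pool.Agent.Hhelper89.Lehmer
open scoped InnerProductSpace ENNReal

variable {M : Mean} {μ : Measure Om} [IsProbabilityMeasure μ]

/-- the sign function on `ℤ` -/
def phi (f : ℕ → Bool) (n : ℤ) : Bool := f n.natAbs

lemma hat_phi_sh (f : ℕ → Bool) (h : ℤ) (u : Om) :
    hat (phi f) (sh h u) = hat (fun n => phi f (n + h)) u := hat_sh _ _ _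

lemma xx_eq (f : ℕ → Bool) (u : Om) : xx f u = bsg (hat (phi f) u) := rfl

/-- the law of the triple at scale `p` is the twisted law at scale one -/
theorem decoupled (hM : Realises M μ) {f : ℕ → Bool} (hf : MulSign f) {α β p : ℕ} {ε : ℝ}
    (hp : 0 < p) (hD : Decouples M (phi f) α β ε p) (F : Bool → Bool → Bool → ℝ)
    (hF : ∀ x y z, |F x y z| ≤ 1) :
    |∫ u, F (hat (phi f) u) (hat (phi f) (sh ((p * α : ℕ) : ℤ) u))
        (hat (phi f) (sh ((p * β : ℕ) : ℤ) u)) ∂μ -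
      ∫ u, F (f p == hat (phi f) u) (f p == hat (phi f) (sh (α : ℤ) u))
        (f p == hat (phi f) (sh (β : ℤ) u)) ∂μ| ≤ ε := by
  have hb : ∀ φ ψ χ : ℤ → Bool, Bdd (fun n => F (φ n) (ψ n) (χ n)) := fun φ ψ χ =>
    ⟨1, fun n => hF _ _ _⟩
  simp only [hat_phi_sh]
  rw [integral_hat3 hM F (phi f) (fun n => phi f (n + ((p * α : ℕ) : ℤ)))
    (fun n => phi f (n + ((p * β : ℕ) : ℤ)))]
  rw [integral_hat3 hM (fun x y z => F (f p == x) (f p == y) (f p == z)) (phi f)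
    (fun n => phi f (n + α)) (fun n => phi f (n + β))]
  have h1 := hD F hF
  have hB : Bdd (fun n : ℤ => F (phi f n) (phi f (n + ((p * α : ℕ) : ℤ)))
    (phi f (n + ((p * β : ℕ) : ℤ)))) := hb _ _ _
  have hB2 : Bdd (fun n : ℤ => if (p : ℤ) ∣ n then F (phi f n) (phi f (n + ((p * α : ℕ) : ℤ)))
    (phi f (n + ((p * β : ℕ) : ℤ))) else 0) := hB.ite (Bdd.const 0) _
  have h2 : (fun n : ℤ => F (phi f n) (phi f (n + ((p * α : ℕ) : ℤ)))
      (phi f (n + ((p * β : ℕ) : ℤ))) * ((if (p : ℤ) ∣ n then (p : ℝ) else 0) - 1)) =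
      fun n : ℤ => (p : ℝ) * (if (p : ℤ) ∣ n then F (phi f n) (phi f (n + ((p * α : ℕ) : ℤ)))
        (phi f (n + ((p * β : ℕ) : ℤ))) else 0) - F (phi f n) (phi f (n + ((p * α : ℕ) : ℤ)))
        (phi f (n + ((p * β : ℕ) : ℤ))) := by
    funext n
    by_cases h : (p : ℤ) ∣ n
    · simp only [h, if_true]; ring
    · simp only [h, if_false]; ring
  rw [h2, M.E_sub (hB2.const_mul _) hB, M.smul _ _ hB2, ← M.dil p hp _ hB] at h1
  have h3 : M.E (fun n : ℤ => F (phi f ((p : ℤ) * n)) (phi f ((p : ℤ) * n + ((p * α : ℕ) : ℤ)))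
      (phi f ((p : ℤ) * n + ((p * β : ℕ) : ℤ)))) =
      M.E (fun n => F (f p == phi f n) (f p == phi f (n + α)) (f p == phi f (n + β))) := by
    apply M.congr _ _ (hb _ _ _) (hb _ _ _)
    intro n hn
    have key : ∀ e : ℕ, phi f ((p : ℤ) * n + ((p * e : ℕ) : ℤ)) = (f p == phi f (n + e)) := by
      intro e
      unfold phi
      have h4 : (p : ℤ) * n + ((p * e : ℕ) : ℤ) = (p : ℤ) * (n + e) := by push_cast; ring
      rw [h4, Int.natAbs_mul, Int.natAbs_natCast, hf p _ hp (by omega)]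
    have key0 : phi f ((p : ℤ) * n) = (f p == phi f n) := by
      have := key 0
      simpa using this
    rw [key, key, key0]
  rw [h3] at h1
  rw [abs_sub_comm]
  exact h1

/-- the avoided colour at scale one -/
theorem avoid_one (hM : Realises M μ) {f : ℕ → Bool} {α β : ℕ} {c₀ : Bool}
    (hav : ∀ n : ℕ, 0 < n → ¬ (f n = c₀ ∧ f (n + α) = c₀ ∧ f (n + β) = c₀)) :
    ∫ u, (if hat (phi f) u = c₀ ∧ hat (phi f) (sh (α : ℤ) u) = c₀ ∧
      hat (phi f) (sh (β : ℤ) u) = c₀ then (1 : ℝ) else 0) ∂μ = 0 := by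
  simp only [hat_phi_sh]
  rw [integral_hat3 hM (fun x y z => if x = c₀ ∧ y = c₀ ∧ z = c₀ then (1 : ℝ) else 0) (phi f)
    (fun n => phi f (n + α)) (fun n => phi f (n + β))]
  rw [M.congr _ (fun _ => 0) _ (Bdd.const 0), M.E_zero]
  · intro n hn
    rw [if_neg]
    rintro ⟨h1, h2, h3⟩
    apply hav n.natAbs (by omega)
    unfold phi at h1 h2 h3
    refine ⟨h1, ?_, ?_⟩
    · rw [show n.natAbs + α = (n + α).natAbs by omega]; exact h2
    · rw [show n.natAbs + β = (n + β).natAbs by omega]; exact h3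
  · refine ⟨1, fun n => ?_⟩
    dsimp only
    split_ifs <;> simp

/-- the avoided colour at scale `p` -/
theorem avoid_p (hM : Realises M μ) {f : ℕ → Bool} (hf : MulSign f) {α β p : ℕ} {ε : ℝ}
    {c₀ : Bool} (hav : ∀ n : ℕ, 0 < n → ¬ (f n = c₀ ∧ f (n + α) = c₀ ∧ f (n + β) = c₀))
    (hp : 0 < p) (hD : Decouples M (phi f) α β ε p) {s : Bool} (hs : s = (f p == c₀)) :
    ∫ u, (if hat (phi f) u = s ∧ hat (phi f) (sh ((p * α : ℕ) : ℤ) u) = s ∧
      hat (phi f) (sh ((p * β : ℕ) : ℤ) u) = s then (1 : ℝ) else 0) ∂μ ≤ ε := by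
  have h1 := decoupled hM hf hp hD (fun x y z => if x = s ∧ y = s ∧ z = s then (1 : ℝ) else 0)
    (fun x y z => by split_ifs <;> simp)
  have h2 : ∫ u, (if (f p == hat (phi f) u) = s ∧ (f p == hat (phi f) (sh (α : ℤ) u)) = s ∧
      (f p == hat (phi f) (sh (β : ℤ) u)) = s then (1 : ℝ) else 0) ∂μ = 0 := by
    refine Eq.trans ?_ (avoid_one hM hav)
    congr 1
    funext u
    have h3 : ∀ x : Bool, (f p == x) = s ↔ x = c₀ := by
      intro x
      rw [hs]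
      cases f p <;> cases x <;> cases c₀ <;> simp
    exact if_congr (by rw [h3, h3, h3]) rfl rfl
  rw [h2, sub_zero] at h1
  exact (le_abs_self _).trans h1

/-- the weight -/
noncomputable def ww (hM : Realises M μ) (f : ℕ → Bool) (α β W : ℕ) (c : ℤ) (s : ℝ) (u : Om) : ℝ :=
  (1 + s * xx f u) / 2 * ((1 + s * yy hM f α β W c u / 2) / 2) * s

lemma BM_ww (hM : Realises M μ) (f : ℕ → Bool) (α β W : ℕ) (c : ℤ) (s : ℝ) :
    BM (ww hM f α β W c s) := by
  have h1 : BM (fun u => (1 + s * xx f u) * (1 / 2)) :=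
    ((BM.const 1).add ((BM_xx f).const_mul s)).mul (BM.const _)
  have h2 : BM (fun u => (1 + s * yy hM f α β W c u * (1 / 2)) * (1 / 2)) :=
    ((BM.const 1).add (((BM_yy hM f α β W c).const_mul s).mul (BM.const _))).mul (BM.const _)
  have h4 := (h1.mul h2).mul (BM.const s)
  have : ww hM f α β W c s = fun u => (1 + s * xx f u) * (1 / 2) *
      ((1 + s * yy hM f α β W c u * (1 / 2)) * (1 / 2)) * s := by
    funext u
    unfold ww
    ring
  rw [this]
  exact h4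

lemma ww_bounds (hM : Realises M μ) (f : ℕ → Bool) (α β W : ℕ) (c : ℤ) (s : Bool) (u : Om) :
    0 ≤ ww hM f α β W c (bsg s) u * bsg s ∧ ww hM f α β W c (bsg s) u * bsg s ≤ 1 ∧
    (hat (phi f) u ≠ s → ww hM f α β W c (bsg s) u = 0) := by
  have hy := abs_le.1 (abs_yy_le hM f α β W c u)
  have hss : bsg s * bsg s = 1 := bsg_mul_self s
  have e1 : ww hM f α β W c (bsg s) u * bsg s =
      (1 + bsg s * xx f u) / 2 * ((1 + bsg s * yy hM f α β W c u / 2) / 2) := by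
    unfold ww
    linear_combination ((1 + bsg s * xx f u) / 2 *
      ((1 + bsg s * yy hM f α β W c u / 2) / 2)) * hss
  have e2 : 0 ≤ (1 + bsg s * yy hM f α β W c u / 2) / 2 ∧
      (1 + bsg s * yy hM f α β W c u / 2) / 2 ≤ 1 := by
    cases s
    · simp only [bsg]
      simp only [Bool.false_eq_true, if_false]
      constructor <;> linarith [hy.1, hy.2]
    · simp only [bsg]
      simp only [if_true]
      constructor <;> linarith [hy.1, hy.2]
  have e3 : 0 ≤ (1 + bsg s * xx f u) / 2 ∧ (1 + bsg s * xx f u) / 2 ≤ 1 := by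
    rw [xx_eq]
    cases s <;> cases hat (phi f) u <;> simp [bsg]
  refine ⟨by rw [e1]; exact mul_nonneg e3.1 e2.1, ?_, ?_⟩
  · rw [e1]
    calc _ ≤ 1 * 1 := mul_le_mul e3.2 e2.2 e2.1 zero_le_one
      _ = 1 := one_mul 1
  · intro hne
    have : (1 + bsg s * xx f u) / 2 = 0 := by
      rw [xx_eq]
      revert hne
      cases s <;> cases hat (phi f) u <;> simp [bsg]
    unfold ww
    rw [this]
    ring

lemma abs_ww_le (hM : Realises M μ) (f : ℕ → Bool) (α β W : ℕ) (c : ℤ) (s : Bool) (u : Om) :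
    |ww hM f α β W c (bsg s) u| ≤ 1 := by
  obtain ⟨h1, h2, -⟩ := ww_bounds hM f α β W c s u
  have h3 : |ww hM f α β W c (bsg s) u * bsg s| ≤ 1 := abs_le.2 ⟨by linarith, h2⟩
  rwa [abs_mul, abs_bsg, mul_one] at h3

/-- the constraint for one decoupled prime -/
lemma constraint_one (hM : Realises M μ) {f : ℕ → Bool} (hf : MulSign f) {α β p : ℕ} {ε : ℝ}
    {c₀ : Bool} (hav : ∀ n : ℕ, 0 < n → ¬ (f n = c₀ ∧ f (n + α) = c₀ ∧ f (n + β) = c₀))
    (hp : 0 < p) (hD : Decouples M (phi f) α β ε p) {s : Bool} (hs : s = (f p == c₀))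
    (W : ℕ) (c : ℤ) :
    ∫ u, ww hM f α β W c (bsg s) u * (xx f (sh ((p * α : ℕ) : ℤ) u) + xx f (sh ((p * β : ℕ) : ℤ) u))
      ∂μ ≤ 2 * ε := by
  have h1 := avoid_p hM hf hav hp hD hs
  have hB : BM (fun u => if hat (phi f) u = s ∧ hat (phi f) (sh ((p * α : ℕ) : ℤ) u) = s ∧
      hat (phi f) (sh ((p * β : ℕ) : ℤ) u) = s then (1 : ℝ) else 0) := by
    refine ⟨?_, 1, fun u => ?_⟩
    · have hm : Measurable (fun u => (hat (phi f) u, hat (phi f) (sh ((p * α : ℕ) : ℤ) u),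
          hat (phi f) (sh ((p * β : ℕ) : ℤ) u))) :=
        (measurable_hat _).prodMk (((measurable_hat _).comp (measurable_sh _)).prodMk
          ((measurable_hat _).comp (measurable_sh _)))
      exact (measurable_of_countable (fun t : Bool × Bool × Bool =>
        if t.1 = s ∧ t.2.1 = s ∧ t.2.2 = s then (1 : ℝ) else 0)).comp hm
    · dsimp only
      split_ifs <;> simp
  have h2 : ∫ u, ww hM f α β W c (bsg s) u *
      (xx f (sh ((p * α : ℕ) : ℤ) u) + xx f (sh ((p * β : ℕ) : ℤ) u)) ∂μ ≤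
      ∫ u, 2 * (if hat (phi f) u = s ∧ hat (phi f) (sh ((p * α : ℕ) : ℤ) u) = s ∧
      hat (phi f) (sh ((p * β : ℕ) : ℤ) u) = s then (1 : ℝ) else 0) ∂μ := by
    apply integral_mono
    · exact ((BM_ww hM f α β W c (bsg s)).mul (((BM_xx f).comp (measurable_sh _)).add
        ((BM_xx f).comp (measurable_sh _)))).integrable
    · exact (hB.const_mul 2).integrable
    · intro u
      dsimp only
      obtain ⟨b1, b2, b3⟩ := ww_bounds hM f α β W c s u
      by_cases hx : hat (phi f) u = s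
      · -- sign analysis
        have hs1 : bsg s * bsg s = 1 := bsg_mul_self s
        have e : ww hM f α β W c (bsg s) u *
            (xx f (sh ((p * α : ℕ) : ℤ) u) + xx f (sh ((p * β : ℕ) : ℤ) u)) =
            (ww hM f α β W c (bsg s) u * bsg s) *
            (bsg s * xx f (sh ((p * α : ℕ) : ℤ) u) + bsg s * xx f (sh ((p * β : ℕ) : ℤ) u)) := by
          linear_combination (-(ww hM f α β W c (bsg s) u *
            (xx f (sh ((p * α : ℕ) : ℤ) u) + xx f (sh ((p * β : ℕ) : ℤ) u)))) * hs1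
        rw [e]
        set w := ww hM f α β W c (bsg s) u * bsg s
        rw [xx_eq, xx_eq]
        by_cases h1 : hat (phi f) (sh ((p * α : ℕ) : ℤ) u) = s
        · by_cases h2 : hat (phi f) (sh ((p * β : ℕ) : ℤ) u) = s
          · rw [if_pos ⟨hx, h1, h2⟩, h1, h2, hs1]
            linarith
          · rw [if_neg (fun h => h2 h.2.2), h1, hs1]
            have h3 : bsg s * bsg (hat (phi f) (sh ((p * β : ℕ) : ℤ) u)) = -1 := by
              revert h2
              cases s <;> cases hat (phi f) (sh ((p * β : ℕ) : ℤ) u) <;> simp [bsg]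
            rw [h3]
            linarith
        · rw [if_neg (fun h => h1 h.2.1)]
          have h3 : bsg s * bsg (hat (phi f) (sh ((p * α : ℕ) : ℤ) u)) = -1 := by
            revert h1
            cases s <;> cases hat (phi f) (sh ((p * α : ℕ) : ℤ) u) <;> simp [bsg]
          have h4 : bsg s * bsg (hat (phi f) (sh ((p * β : ℕ) : ℤ) u)) ≤ 1 := by
            cases s <;> cases hat (phi f) (sh ((p * β : ℕ) : ℤ) u) <;> simp [bsg]
          rw [h3]
          nlinarith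
      · rw [b3 hx, zero_mul]
        split_ifs <;> norm_num
  rw [integral_const_mul] at h2
  linarith

/-- prime averages of a vector tend to zero, uniformly over large sets of primes -/
def PAvg {𝓗 : Type*} [NormedAddCommGroup 𝓗] [InnerProductSpace ℝ 𝓗] (A : ZAct 𝓗) (u : 𝓗) : Prop :=
  ∀ α : ℕ, 0 < α → ∀ η : ℝ, 0 < η → ∀ ε : ℝ, 0 < ε → ∃ P₁ : ℕ, ∀ P : ℕ, P₁ ≤ P →
    ∀ S : Finset ℕ, S ⊆ PP P → η * P / Real.log P ≤ (S.card : ℝ) →
      ‖(1 / (S.card : ℝ)) • ∑ p ∈ S, A.K ((p * α : ℕ) : ℤ) u‖ ≤ ε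

/-- the distance from `R` to `r_W` -/
noncomputable def tau (hM : Realises M μ) (f : ℕ → Bool) (W : ℕ) : ℝ :=
  ‖(koop hM).R (xL μ f) - (koop hM).P W (xL μ f)‖

lemma Th_eq_inner (hM : Realises M μ) (f : ℕ → Bool) (α β W : ℕ) (c : ℤ) (s : ℝ) :
    Th hM f α β W c s = ⟪toL μ _ (BM_ww hM f α β W c s),
      (koop hM).K (c * α) ((koop hM).P W (xL μ f)) +
      (koop hM).K (c * β) ((koop hM).P W (xL μ f))⟫_ℝ := by
  rw [← toL_rr, koop_toL, koop_toL, ← toL_add, inner_eq' (toL_coe _) (toL_coe _)]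
  unfold Th
  congr 1
  funext u
  unfold thF GG ww yy
  ring

/-- lower bound for one average -/
lemma avg_lower (hM : Realises M μ) (f : ℕ → Bool) {α W : ℕ} {c : ℤ} {S : Finset ℕ}
    (hS : 0 < S.card) (hcS : ∀ p ∈ S, (W : ℤ) ∣ p - c) {w : Lp ℝ 2 μ} (hw : ‖w‖ ≤ 1) {ε' : ℝ}
    (hu : ‖(1 / (S.card : ℝ)) • ∑ p ∈ S, (koop hM).K ((p * α : ℕ) : ℤ)
      (xL μ f - (koop hM).R (xL μ f))‖ ≤ ε') :
    ⟪w, (koop hM).K (c * α) ((koop hM).P W (xL μ f))⟫_ℝ - ε' - tau hM f W ≤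
      (1 / (S.card : ℝ)) * ∑ p ∈ S, ⟪w, (koop hM).K ((p * α : ℕ) : ℤ) (xL μ f)⟫_ℝ := by
  set A := koop hM with hA
  set x := xL μ f with hx
  have hS' : (0 : ℝ) < S.card := by exact_mod_cast hS
  have h1 : ∀ p ∈ S, A.K ((p * α : ℕ) : ℤ) x = A.K ((p * α : ℕ) : ℤ) (x - A.R x) +
      A.K ((p * α : ℕ) : ℤ) (A.R x - A.P W x) + A.K (c * α) (A.P W x) := by
    intro p hp
    have h2 : A.K ((p * α : ℕ) : ℤ) (A.P W x) = A.K (c * α) (A.P W x) := by
      obtain ⟨k, hk⟩ := hcS p hp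
      have h3 : ((p * α : ℕ) : ℤ) = c * α + (k * α) * W := by
        push_cast
        have : (p : ℤ) = c + W * k := by linarith
        rw [this]; ring
      rw [h3, A.add, A.K_mul_of_mem (A.K_P W x)]
    rw [← h2, ← map_add, ← map_add]
    congr 1
    abel
  have h2 : (1 / (S.card : ℝ)) * ∑ p ∈ S, ⟪w, A.K ((p * α : ℕ) : ℤ) x⟫_ℝ =
      ⟪w, (1 / (S.card : ℝ)) • ∑ p ∈ S, A.K ((p * α : ℕ) : ℤ) (x - A.R x)⟫_ℝ +
      (1 / (S.card : ℝ)) * ∑ p ∈ S, ⟪w, A.K ((p * α : ℕ) : ℤ) (A.R x - A.P W x)⟫_ℝ +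
      ⟪w, A.K (c * α) (A.P W x)⟫_ℝ := by
    rw [real_inner_smul_right, inner_sum]
    rw [Finset.sum_congr rfl (fun p hp => by rw [h1 p hp, inner_add_right, inner_add_right])]
    rw [Finset.sum_add_distrib, Finset.sum_add_distrib, Finset.sum_const, nsmul_eq_mul]
    field_simp
  rw [h2]
  have h3 : -ε' ≤ ⟪w, (1 / (S.card : ℝ)) • ∑ p ∈ S, A.K ((p * α : ℕ) : ℤ) (x - A.R x)⟫_ℝ := by
    have h4 := abs_real_inner_le_norm w
      ((1 / (S.card : ℝ)) • ∑ p ∈ S, A.K ((p * α : ℕ) : ℤ) (x - A.R x))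
    have h5 : ‖w‖ * ‖(1 / (S.card : ℝ)) • ∑ p ∈ S, A.K ((p * α : ℕ) : ℤ) (x - A.R x)‖ ≤ 1 * ε' :=
      mul_le_mul hw hu (norm_nonneg _) zero_le_one
    rw [one_mul] at h5
    exact (abs_le.1 (h4.trans h5)).1
  have h4 : -(tau hM f W) ≤
      (1 / (S.card : ℝ)) * ∑ p ∈ S, ⟪w, A.K ((p * α : ℕ) : ℤ) (A.R x - A.P W x)⟫_ℝ := by
    have h5 : ∀ p ∈ S, -(tau hM f W) ≤ ⟪w, A.K ((p * α : ℕ) : ℤ) (A.R x - A.P W x)⟫_ℝ := by
      intro p _
      have h6 := abs_real_inner_le_norm w (A.K ((p * α : ℕ) : ℤ) (A.R x - A.P W x))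
      rw [LinearIsometry.norm_map] at h6
      have h7 : ‖w‖ * ‖A.R x - A.P W x‖ ≤ 1 * tau hM f W :=
        mul_le_mul hw le_rfl (norm_nonneg _) zero_le_one
      rw [one_mul] at h7
      exact (abs_le.1 (h6.trans h7)).1
    have h6 := Finset.sum_le_sum h5
    rw [Finset.sum_const, nsmul_eq_mul] at h6
    rw [one_div, ← div_eq_inv_mul, le_div_iff₀ hS']
    linarith
  linarith

/-- the averaged constraint -/
lemma constraint_avg (hM : Realises M μ) {f : ℕ → Bool} (hf : MulSign f) {α β : ℕ} {ε ε' : ℝ}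
    {c₀ : Bool} (hav : ∀ n : ℕ, 0 < n → ¬ (f n = c₀ ∧ f (n + α) = c₀ ∧ f (n + β) = c₀))
    {W : ℕ} {c : ℤ} {s : Bool} {S : Finset ℕ} (hS : 0 < S.card)
    (hSp : ∀ p ∈ S, 0 < p ∧ Decouples M (phi f) α β ε p ∧ s = (f p == c₀) ∧ (W : ℤ) ∣ p - c)
    (hu1 : ‖(1 / (S.card : ℝ)) • ∑ p ∈ S, (koop hM).K ((p * α : ℕ) : ℤ)
      (xL μ f - (koop hM).R (xL μ f))‖ ≤ ε')
    (hu2 : ‖(1 / (S.card : ℝ)) • ∑ p ∈ S, (koop hM).K ((p * β : ℕ) : ℤ)
      (xL μ f - (koop hM).R (xL μ f))‖ ≤ ε') :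
    Th hM f α β W c (bsg s) ≤ 2 * tau hM f W + 2 * ε + 2 * ε' := by
  have hS' : (0 : ℝ) < S.card := by exact_mod_cast hS
  set w := toL μ _ (BM_ww hM f α β W c (bsg s)) with hw
  have hw1 : ‖w‖ ≤ 1 := by
    have h1 : ‖w‖ ^ 2 ≤ 1 := by
      rw [hw, norm_sq_eq (toL_coe _)]
      have h2 : ∫ u, ww hM f α β W c (bsg s) u ^ 2 ∂μ ≤ ∫ _u, (1 : ℝ) ∂μ := by
        apply integral_mono ((BM_ww hM f α β W c (bsg s)).pow 2).integrable (BM.const 1).integrable
        intro u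
        have := abs_ww_le hM f α β W c s u
        dsimp only
        rw [← sq_abs]
        nlinarith [abs_nonneg (ww hM f α β W c (bsg s) u)]
      simpa using h2
    have := norm_nonneg w
    nlinarith
  have a1 := avg_lower hM f hS (fun p hp => (hSp p hp).2.2.2) hw1 hu1
  have a2 := avg_lower hM f hS (fun p hp => (hSp p hp).2.2.2) hw1 hu2
  have h3 : ∀ p ∈ S, ⟪w, (koop hM).K ((p * α : ℕ) : ℤ) (xL μ f)⟫_ℝ +
      ⟪w, (koop hM).K ((p * β : ℕ) : ℤ) (xL μ f)⟫_ℝ ≤ 2 * ε := by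
    intro p hp
    obtain ⟨hp0, hD, hs, -⟩ := hSp p hp
    have := constraint_one hM hf hav hp0 hD hs W c
    rw [← inner_add_right, xL, koop_toL, koop_toL, ← toL_add, hw, inner_eq' (toL_coe _) (toL_coe _)]
    exact this
  have h4 := Finset.sum_le_sum h3
  rw [Finset.sum_const, nsmul_eq_mul, Finset.sum_add_distrib] at h4
  have h5 : (1 / (S.card : ℝ)) * (∑ p ∈ S, ⟪w, (koop hM).K ((p * α : ℕ) : ℤ) (xL μ f)⟫_ℝ +
      ∑ p ∈ S, ⟪w, (koop hM).K ((p * β : ℕ) : ℤ) (xL μ f)⟫_ℝ) ≤ 2 * ε := by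
    rw [one_div, ← div_eq_inv_mul, div_le_iff₀ hS']
    linarith
  rw [mul_add] at h5
  rw [Th_eq_inner, inner_add_right]
  linarith

end Pool.Agent.Hhelper89.LehmerFull
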