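import Pool.Agent.Hhelper89.LehmerFull.Mean
import Pool.Agent.Hhelper89.Lehmer.Defs
import Pool.Agent.Hhelper89.Lehmer.Density

/-!
Common definitions for the proof of Lehmer's conjecture.
-/

namespace Pool.Agent.Hhelper89.LehmerFull

open Finset Filter Topology
open Pool.Agent.Hhelper89.Lehmer

/-- the real sign of a Boolean (`true` is `+`) -/
def bsg (b : Bool) : ℝ := if b then 1 else -1

lemma bsg_mul_self (b : Bool) : bsg b * bsg b = 1 := by cases b <;> simp [bsg]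

lemma abs_bsg (b : Bool) : |bsg b| = 1 := by cases b <;> simp [bsg]

lemma bsg_beq (a b : Bool) : bsg (a == b) = bsg a * bsg b := by
  cases a <;> cases b <;> simp [bsg]

/-- the primes in `(P, 2P]` -/
def PP (P : ℕ) : Finset ℕ := (Ioc P (2 * P)).filter Nat.Prime

lemma mem_PP {P p : ℕ} : p ∈ PP P ↔ (P < p ∧ p ≤ 2 * P) ∧ p.Prime := by
  simp [PP]

/-- `p` decouples: the triple `(X n, X (n + pα), X (n + pβ))` is almost uncorrelated with the
divisibility of `n` by `p`. -/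
def Decouples (M : Mean) (X : ℤ → Bool) (α β : ℕ) (ε : ℝ) (p : ℕ) : Prop :=
  ∀ F : Bool → Bool → Bool → ℝ, (∀ x y z, |F x y z| ≤ 1) →
    |M.E (fun n => F (X n) (X (n + (p * α : ℕ))) (X (n + (p * β : ℕ))) *
      ((if (p : ℤ) ∣ n then (p : ℝ) else 0) - 1))| ≤ ε

/-- the energy of the average of length `H` at frequency `θ`, in terms of the correlations -/
noncomputable def QQ (c : ℤ → ℝ) (H : ℕ) (θ : ℝ) : ℝ :=
  (1 / (H : ℝ) ^ 2) * ∑ h ∈ range H, ∑ k ∈ range H,
    Real.cos (2 * Real.pi * (((h : ℝ) - (k : ℝ)) * θ)) * c ((h : ℤ) - (k : ℤ))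

/-- the large spectrum of the correlation sequence `c` is close to rationals with bounded
denominators -/
def RationalSpectrum (c : ℤ → ℝ) : Prop :=
  ∀ δ : ℝ, 0 < δ → ∃ K : ℕ, 0 < K ∧ ∀ H : ℕ, 0 < H → K ∣ H → ∀ θ : ℝ, δ ≤ QQ c H θ →
    ∃ m : ℕ, 0 < m ∧ m ≤ K ∧ ∃ k : ℤ, |(m : ℝ) * θ - k| ≤ K / H

/-- a completely multiplicative sign function which on integers prime to `p` only depends on the
residue class modulo a power of `p` -/
def LocalSign (p : ℕ) (F : ℕ → Bool) : Prop :=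
  MulSign F ∧ ∃ e : ℕ, ∀ m n : ℕ, ¬ p ∣ m → m ≡ n [MOD p ^ e] → F m = F n

end Pool.Agent.Hhelper89.LehmerFull
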