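import Pool.Agent.Hhelper89.LehmerFull.Defs
import Pool.Agent.Lib.PNT

/-!
The dichotomy (D): a function of (unit class modulo `W`, sign) which is invariant under all pairs
carrying a divergent prime sum is constant, unless `f` pretends to be a real character.
-/

namespace Pool.Agent.Hhelper89.LehmerFull

open Finset Filter Topology
open Pool.Agent.Hhelper89.Lehmer

/-- Dirichlet, strong form: the sum of `1 / q` over the primes `q ≡ e [MOD W]` diverges. -/
theorem not_summable_AP {W : ℕ} (hW : 0 < W) {e : ℕ} (he : e.Coprime W) :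
    ¬ Summable (Set.indicator {q : ℕ | q.Prime ∧ (W : ℤ) ∣ q - e} (fun q : ℕ => 1 / (q : ℝ))) := by
  have : NeZero W := ⟨hW.ne'⟩
  intro hs
  have hu : IsUnit (e : ZMod W) := (ZMod.isUnit_iff_coprime e W).2 he
  set A : ℕ → Prop := fun p => p.Prime ∧ (p : ZMod W) = (e : ZMod W) with hA
  have hiff : ∀ q : ℕ, A q ↔ (q.Prime ∧ (W : ℤ) ∣ q - e) := by
    intro q
    have h1 : ((q : ZMod W) = (e : ZMod W)) ↔ (W : ℤ) ∣ q - e := by
      rw [eq_comm, ZMod.natCast_eq_natCast_iff, Nat.modEq_iff_dvd]
    simp only [hA, h1]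
  have hinf : (Set.ofPred A).Infinite := Nat.infinite_setOfPred_prime_and_eq_mod hu
  have hnth := Pool.Agent.Lib.PNT.nth_prime_AP hu
  set g : ℕ → ℕ := fun n => Nat.nth A n with hg
  have hmono : StrictMono g := Nat.nth_strictMono hinf
  have hmem : ∀ n, A (g n) := fun n => Nat.nth_mem_of_infinite hinf n
  have h1 : Summable (fun n => 1 / (g n : ℝ)) := by
    have h2 := hs.comp_injective hmono.injective
    refine h2.congr fun n => ?_
    simp only [Function.comp]
    rw [Set.indicator_of_mem]
    exact (hiff _).1 (hmem n)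
  have hpos : ∀ n, (0 : ℝ) < g n := fun n => by exact_mod_cast (hmem n).1.pos
  have h2 : Summable (fun k : ℕ => (2 : ℝ) ^ k * (1 / (g (2 ^ k) : ℝ))) := by
    rw [summable_condensed_iff_of_nonneg (f := fun n => 1 / (g n : ℝ))]
    · exact h1
    · intro n; exact (div_pos one_pos (hpos n)).le
    · intro m n _ hmn
      exact one_div_le_one_div_of_le (hpos m) (by exact_mod_cast hmono.monotone hmn)
  have h3 : Tendsto (fun k : ℕ => (g (2 ^ k) : ℝ) / (((2 ^ k : ℕ) : ℝ) * Real.log ((2 ^ k : ℕ) : ℝ)))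
      atTop (𝓝 (W.totient : ℝ)) :=
    hnth.comp (tendsto_pow_atTop_atTop_of_one_lt (by norm_num))
  have h4 : ∀ᶠ k : ℕ in atTop, 1 / (((W.totient : ℝ) + 1) * k) ≤ 2 ^ k * (1 / (g (2 ^ k) : ℝ)) := by
    filter_upwards [h3.eventually_lt_const (lt_add_one (W.totient : ℝ)), eventually_gt_atTop 0]
      with k hk hk0
    have hk0' : (0 : ℝ) < k := by exact_mod_cast hk0
    have hl : Real.log ((2 ^ k : ℕ) : ℝ) = k * Real.log 2 := by
      push_cast; rw [Real.log_pow]
    have hl2 : 0 < Real.log 2 := Real.log_pos (by norm_num)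
    have hl1 : Real.log 2 ≤ 1 := by
      have := Real.log_le_sub_one_of_pos (show (0 : ℝ) < 2 by norm_num)
      linarith
    rw [hl, div_lt_iff₀ (by positivity)] at hk
    push_cast at hk
    have hφ : (0 : ℝ) < (W.totient : ℝ) + 1 := by positivity
    rw [mul_one_div, div_le_div_iff₀ (by positivity) (hpos _)]
    have h5 : ((W.totient : ℝ) + 1) * ((2 : ℝ) ^ k * (k * Real.log 2)) ≤
        ((W.totient : ℝ) + 1) * ((2 : ℝ) ^ k * (k * 1)) := by
      gcongr
    nlinarith [hk, h5]
  have h5 : Summable (fun k : ℕ => 1 / (((W.totient : ℝ) + 1) * k)) := by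
    refine summable_of_isBigO_nat h2 ?_
    refine Asymptotics.IsBigO.of_bound 1 ?_
    filter_upwards [h4] with k hk
    rw [one_mul, Real.norm_of_nonneg (by positivity), Real.norm_of_nonneg (by
      have := hpos (2 ^ k); positivity)]
    exact hk
  have h6 : Summable (fun k : ℕ => 1 / (k : ℝ)) := by
    have h7 := h5.mul_left ((W.totient : ℝ) + 1)
    refine h7.congr fun k => ?_
    have hφ : (W.totient : ℝ) + 1 ≠ 0 := by positivity
    rw [one_div, mul_inv, ← mul_assoc, mul_inv_cancel₀ hφ, one_mul, one_div]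
  exact Real.not_summable_one_div_natCast h6

namespace Dichotomy

/-- `(e, t)` stabilises `Θ` -/
def St (W : ℕ) (Θ : ℤ → Bool → ℝ) (e : ℤ) (t : Bool) : Prop :=
  ∀ (c c' : ℤ) (s : Bool), (W : ℤ) ∣ c - e * c' → Θ c s = Θ c' (s == t)

lemma St.congr {W : ℕ} {Θ : ℤ → Bool → ℝ} {e e' : ℤ} {t : Bool} (h : St W Θ e t)
    (hee : (W : ℤ) ∣ e - e') : St W Θ e' t := by
  intro c c' s hc
  apply h c c' s
  have : c - e * c' = (c - e' * c') - (e - e') * c' := by ring
  rw [this]
  exact dvd_sub hc (hee.mul_right c')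

lemma St.mul {W : ℕ} {Θ : ℤ → Bool → ℝ} {e e' : ℤ} {t t' : Bool} (h : St W Θ e t)
    (h' : St W Θ e' t') : St W Θ (e * e') (t == t') := by
  intro c c' s hc
  have h1 := h c (e' * c') s (by rw [← mul_assoc]; exact hc)
  have h2 := h' (e' * c') c' (s == t) (by simp)
  rw [h1, h2]
  congr 1
  cases s <;> cases t <;> cases t' <;> rfl

lemma exists_inv {W : ℕ} {c : ℤ} (hc : IsCoprime c W) :
    ∃ d : ℤ, IsCoprime d W ∧ (W : ℤ) ∣ c * d - 1 := by
  obtain ⟨u, v, huv⟩ := hc
  refine ⟨u, ⟨c, v, by linarith⟩, ⟨-v, by linarith⟩⟩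

end Dichotomy

open Dichotomy in
/-- If `f` is not pretentious to a real character mod `W`, then a function of (unit class, sign)
invariant under all (class, sign) pairs that carry a divergent prime sum is constant. -/
theorem dichotomy {f : ℕ → Bool} (hf : MulSign f) {W : ℕ} (hW : 0 < W)
    (hnp : ∀ χ : ℕ → Bool, (∀ m n : ℕ, m ≡ n [MOD W] → χ m = χ n) →
      (∀ m n : ℕ, m.Coprime W → n.Coprime W → χ (m * n) = (χ m == χ n)) →
      ¬ Summable (fun p : ℕ => if p.Prime ∧ ¬ p ∣ W ∧ f p ≠ χ p then (1 : ℝ) / p else 0))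
    (Θ : ℤ → Bool → ℝ)
    (hper : ∀ (c c' : ℤ) (s : Bool), (W : ℤ) ∣ c - c' → Θ c s = Θ c' s)
    (hinv : ∀ (c c' e : ℤ) (s t : Bool), (W : ℤ) ∣ c - e * c' →
      ¬ Summable (Set.indicator {q : ℕ | q.Prime ∧ (W : ℤ) ∣ q - e ∧ f q = t}
        (fun q : ℕ => 1 / (q : ℝ))) → Θ c s = Θ c' (s == t)) :
    ∀ c c' : ℤ, IsCoprime c W → IsCoprime c' W → ∀ s s' : Bool, Θ c s = Θ c' s' := by
  have _hf := hf
  have _hper := hper
  have hWz : (0 : ℤ) < W := by exact_mod_cast hW
  -- a divergent sum gives a stabiliser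
  have hst : ∀ (e : ℤ) (t : Bool),
      ¬ Summable (Set.indicator {q : ℕ | q.Prime ∧ (W : ℤ) ∣ q - e ∧ f q = t}
        (fun q : ℕ => 1 / (q : ℝ))) → St W Θ e t := fun e t h c c' s hc => hinv c c' e s t hc h
  -- every unit class has a stabiliser
  have hex : ∀ e : ℤ, IsCoprime e W → ∃ t, St W Θ e t := by
    intro e he
    by_contra hno
    push Not at hno
    have h1 : ∀ t, Summable (Set.indicator {q : ℕ | q.Prime ∧ (W : ℤ) ∣ q - e ∧ f q = t}
        (fun q : ℕ => 1 / (q : ℝ))) := by
      intro t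
      by_contra h
      exact hno t (hst e t h)
    set e' : ℕ := (e % W).toNat with he'
    have h2 : ((e' : ℕ) : ℤ) = e % W := Int.toNat_of_nonneg (Int.emod_nonneg _ hWz.ne')
    have h3 : (W : ℤ) ∣ e' - e := by
      rw [h2]
      exact Int.ModEq.dvd (Int.mod_modEq e W).symm
    have h4 : e'.Coprime W := by
      rw [← Nat.isCoprime_iff_coprime]
      obtain ⟨k, hk⟩ := h3
      have : (e' : ℤ) = e + W * k := by linarith
      rw [this]
      exact IsCoprime.add_mul_left_left he k
    apply not_summable_AP hW h4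
    have h5 := (h1 true).add (h1 false)
    refine h5.congr fun q => ?_
    have h6 : ((W : ℤ) ∣ (q : ℤ) - e') ↔ ((W : ℤ) ∣ (q : ℤ) - e) := by
      have : (q : ℤ) - e' = (q - e) - (e' - e) := by ring
      rw [this]
      exact (dvd_sub_left h3)
    classical
    simp only [Set.indicator_apply, Set.mem_ofPred_eq, h6]
    by_cases hq : q.Prime
    · by_cases hd : (W : ℤ) ∣ (q : ℤ) - e
      · rcases Bool.eq_false_or_eq_true (f q) with hfq | hfq <;> simp [hq, hd, hfq]
      · simp [hd]
    · simp [hq]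
  by_cases hA : St W Θ 1 false
  · -- everything stabilises
    have hall : ∀ e : ℤ, IsCoprime e W → ∀ t, St W Θ e t := by
      intro e he t
      obtain ⟨t0, h0⟩ := hex e he
      by_cases htt : t = t0
      · rw [htt]; exact h0
      · have h1 := h0.mul hA
        rw [mul_one] at h1
        have h2 : ∀ x y : Bool, ¬ x = y → (y == false) = x := by decide
        rw [h2 t t0 htt] at h1
        exact h1
    intro c c' hc hc' s s'
    obtain ⟨d, hd, hd1⟩ := exists_inv hc'
    have h1 := hall (c * d) (hc.mul_left hd) (s == s') c c' s (by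
      have : c - c * d * c' = -(c * (c' * d - 1)) := by ring
      rw [this]
      exact (hd1.mul_left c).neg_right)
    rw [h1]
    congr 1
    cases s <;> cases s' <;> rfl
  · exfalso
    -- exactly one sign
    have huniq : ∀ e : ℤ, IsCoprime e W → ∀ t, St W Θ e t → ¬ St W Θ e (!t) := by
      intro e he t h1 h2
      obtain ⟨d, hd, hd1⟩ := exists_inv he
      obtain ⟨t', h3⟩ := hex d hd
      have h4 := (h1.mul h3).congr hd1
      have h5 := (h2.mul h3).congr hd1
      apply hA
      have h6 : ∀ x y : Bool, (x == y) = false ∨ ((!x) == y) = false := by decide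
      rcases h6 t t' with h7 | h7
      · rw [h7] at h4; exact h4
      · rw [h7] at h5; exact h5
    classical
    set χ : ℕ → Bool := fun n => decide (St W Θ (n : ℤ) true) with hχ
    have hχiff : ∀ n : ℕ, χ n = true ↔ St W Θ (n : ℤ) true := fun n => by simp [hχ]
    have hχval : ∀ (n : ℕ), n.Coprime W → ∀ t, St W Θ (n : ℤ) t → χ n = t := by
      intro n hn t ht
      have hn' : IsCoprime (n : ℤ) W := Nat.isCoprime_iff_coprime.2 hn
      cases t with
      | true => exact (hχiff n).2 ht
      | false =>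
        rw [Bool.eq_false_iff]
        intro h
        exact huniq n hn' false ht ((hχiff n).1 h)
    have hper' : ∀ m n : ℕ, m ≡ n [MOD W] → χ m = χ n := by
      intro m n hmn
      have h1 : (W : ℤ) ∣ (n : ℤ) - m := Nat.modEq_iff_dvd.1 hmn
      have h2 : (W : ℤ) ∣ (m : ℤ) - n := Nat.modEq_iff_dvd.1 hmn.symm
      rw [Bool.eq_iff_iff, hχiff, hχiff]
      exact ⟨fun h => h.congr h2, fun h => h.congr h1⟩
    have hmul : ∀ m n : ℕ, m.Coprime W → n.Coprime W → χ (m * n) = (χ m == χ n) := by
      intro m n hm hn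
      obtain ⟨t, ht⟩ := hex m (Nat.isCoprime_iff_coprime.2 hm)
      obtain ⟨u, hu⟩ := hex n (Nat.isCoprime_iff_coprime.2 hn)
      rw [hχval m hm t ht, hχval n hn u hu]
      apply hχval _ (hm.mul_left hn)
      push_cast
      exact ht.mul hu
    apply hnp χ hper' hmul
    have hsum : ∀ e ∈ (range W).filter (fun e => e.Coprime W),
        Summable (Set.indicator {q : ℕ | q.Prime ∧ (W : ℤ) ∣ q - (e : ℤ) ∧ f q = !(χ e)}
          (fun q : ℕ => 1 / (q : ℝ))) := by
      intro e he
      rw [mem_filter] at he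
      by_contra h
      have h1 := hst (e : ℤ) (!(χ e)) h
      have h2 := hχval e he.2 _ h1
      revert h2
      cases χ e <;> simp
    refine Summable.of_nonneg_of_le (fun q => ?_) (fun q => ?_) (summable_sum hsum)
    · split_ifs
      · positivity
      · exact le_rfl
    · have hnn : ∀ e ∈ (range W).filter (fun e => e.Coprime W), (0 : ℝ) ≤
          Set.indicator {q : ℕ | q.Prime ∧ (W : ℤ) ∣ q - (e : ℤ) ∧ f q = !(χ e)}
            (fun q : ℕ => 1 / (q : ℝ)) q := by
        intro e _
        apply Set.indicator_nonneg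
        intro x _
        positivity
      split_ifs with h
      · obtain ⟨hq, hqW, hfq⟩ := h
        have hco : (q % W).Coprime W := by
          rw [Nat.Coprime, ← Nat.gcd_rec, Nat.gcd_comm]
          exact (Nat.Prime.coprime_iff_not_dvd hq).2 hqW
        have hmem : q % W ∈ (range W).filter (fun e => e.Coprime W) := by
          rw [mem_filter, mem_range]
          exact ⟨Nat.mod_lt _ hW, hco⟩
        refine le_trans (le_of_eq ?_) (Finset.single_le_sum hnn hmem)
        rw [Set.indicator_of_mem]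
        refine ⟨hq, ?_, ?_⟩
        · push_cast
          exact Int.dvd_self_sub_emod
        · rw [← hper' q (q % W) (Nat.mod_modEq q W).symm]
          have h2 : ∀ x y : Bool, x ≠ y → x = !y := by decide
          exact h2 _ _ hfq
      · exact Finset.sum_nonneg hnn

end Pool.Agent.Hhelper89.LehmerFull
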