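import Mathlib

/-!
Ramanujan-type arithmetic for Lehmer's conjecture: averages over units and the three-term sum
of the normalised Möbius function.
-/

set_option linter.unusedVariables false

namespace Pool.Agent.Hhelper89.LehmerFull

open Finset

/-- `κ(n) = μ(n)/φ(n)` -/
noncomputable def kap (n : ℕ) : ℝ := (ArithmeticFunction.moebius n : ℝ) / (Nat.totient n : ℝ)

lemma kap_of_not_squarefree {n : ℕ} (h : ¬ Squarefree n) : kap n = 0 := by
  simp [kap, ArithmeticFunction.moebius_eq_zero_of_not_squarefree h]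

lemma mem_of_squarefree {n p : ℕ} (hn : n ≠ 0) : p ∈ n.primeFactors ↔ p.Prime ∧ p ∣ n := by
  simp [Nat.mem_primeFactors, hn]

lemma totient_formula (n : ℕ) :
    (Nat.totient n : ℝ) = n * ∏ p ∈ n.primeFactors, (1 - (p : ℝ)⁻¹) := by
  have := Nat.totient_eq_mul_prod_factors n
  have h2 := congrArg (fun x : ℚ => (x : ℝ)) this
  simpa using h2

lemma moebius_squarefree {n : ℕ} (hn : Squarefree n) :
    (ArithmeticFunction.moebius n : ℝ) = ∏ _p ∈ n.primeFactors, (-1 : ℝ) := by
  have h1 : ArithmeticFunction.moebius (∏ p ∈ n.primeFactors, p) =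
      ∏ p ∈ n.primeFactors, ArithmeticFunction.moebius p :=
    ArithmeticFunction.isMultiplicative_moebius.map_prod_of_prime _
      (fun p hp => Nat.prime_of_mem_primeFactors hp)
  rw [Nat.prod_primeFactors_of_squarefree hn] at h1
  rw [h1]
  push_cast
  refine Finset.prod_congr rfl fun p hp => ?_
  rw [ArithmeticFunction.moebius_apply_prime (Nat.prime_of_mem_primeFactors hp)]
  simp

lemma squarefree_prod_primes {T : Finset ℕ} (hT : ∀ p ∈ T, p.Prime) :
    Squarefree (∏ p ∈ T, p) := by
  refine Finset.squarefree_prod_of_pairwise_isCoprime ?_ fun p hp => (hT p hp).squarefree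
  intro p hp q hq hpq
  exact Nat.coprime_iff_isRelPrime.1 ((Nat.coprime_primes (hT p hp) (hT q hq)).2 hpq)

lemma sum_moebius (n : ℕ) :
    (∑ e ∈ n.divisors, (ArithmeticFunction.moebius e : ℝ)) = if n = 1 then 1 else 0 := by
  have h1 := congrArg (fun f => f n) ArithmeticFunction.moebius_mul_coe_zeta
  simp only [ArithmeticFunction.coe_mul_zeta_apply, ArithmeticFunction.one_apply] at h1
  have h2 := congrArg (fun x : ℤ => (x : ℝ)) h1
  push_cast at h2
  exact h2

/-- the inner sum -/
lemma inner_sum {W m : ℕ} (hW : 0 < W) (hm : m ∣ W) :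
    ∑ e ∈ W.divisors, (if m ∣ e then (ArithmeticFunction.moebius e : ℝ) * ((W : ℝ) / e) else 0) =
      (Nat.totient W : ℝ) * kap m := by
  have hm0 : m ≠ 0 := fun h => by subst h; exact hW.ne' (Nat.eq_zero_of_zero_dvd hm)
  by_cases hsq : Squarefree m
  · have hsub : m.primeFactors ⊆ W.primeFactors := Nat.primeFactors_mono hm hW.ne'
    have h1 : ∑ e ∈ W.divisors, (if m ∣ e then (ArithmeticFunction.moebius e : ℝ) * ((W : ℝ) / e)
        else 0) = ∑ e ∈ W.divisors.filter Squarefree,
          (if m ∣ e then (ArithmeticFunction.moebius e : ℝ) * ((W : ℝ) / e) else 0) := by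
      rw [Finset.sum_filter]
      refine Finset.sum_congr rfl fun e _ => ?_
      by_cases he : Squarefree e
      · simp [he]
      · simp [he, ArithmeticFunction.moebius_eq_zero_of_not_squarefree he]
    have h2 : ∑ e ∈ W.divisors.filter Squarefree,
          (if m ∣ e then (ArithmeticFunction.moebius e : ℝ) * ((W : ℝ) / e) else 0) =
        ∑ T ∈ W.primeFactors.powerset, (W : ℝ) *
          ((∏ p ∈ T, (-(p : ℝ)⁻¹)) * ∏ p ∈ W.primeFactors \ T, (if p ∣ m then (0 : ℝ) else 1)) := by
      symm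
      refine Finset.sum_bij' (fun T _ => ∏ p ∈ T, p) (fun e _ => e.primeFactors) ?_ ?_ ?_ ?_ ?_
      · intro T hT
        have hT' := Finset.mem_powerset.1 hT
        have hprime : ∀ p ∈ T, p.Prime := fun p hp => Nat.prime_of_mem_primeFactors (hT' hp)
        rw [Finset.mem_filter, Nat.mem_divisors]
        refine ⟨⟨?_, hW.ne'⟩, ?_⟩
        · exact (Finset.prod_dvd_prod_of_subset _ _ _ hT').trans (Nat.prod_primeFactors_dvd W)
        · exact squarefree_prod_primes hprime
      · intro e he
        rw [Finset.mem_filter, Nat.mem_divisors] at he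
        exact Finset.mem_powerset.2 (Nat.primeFactors_mono he.1.1 he.1.2)
      · intro T hT
        have hT' := Finset.mem_powerset.1 hT
        have hprime : ∀ p ∈ T, p.Prime := fun p hp => Nat.prime_of_mem_primeFactors (hT' hp)
        exact Nat.primeFactors_prod hprime
      · intro e he
        rw [Finset.mem_filter] at he
        exact Nat.prod_primeFactors_of_squarefree he.2
      · intro T hT
        have hT' := Finset.mem_powerset.1 hT
        have hprime : ∀ p ∈ T, p.Prime := fun p hp => Nat.prime_of_mem_primeFactors (hT' hp)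
        have hpf : (∏ p ∈ T, p).primeFactors = T := Nat.primeFactors_prod hprime
        have hsqT : Squarefree (∏ p ∈ T, p) := squarefree_prod_primes hprime
        have hdvd : m ∣ (∏ p ∈ T, p) ↔ m.primeFactors ⊆ T := by
          constructor
          · intro h
            rw [← hpf]
            exact Nat.primeFactors_mono h hsqT.ne_zero
          · intro h
            rw [← Nat.prod_primeFactors_of_squarefree hsq]
            exact Finset.prod_dvd_prod_of_subset _ _ _ h
        by_cases hmT : m.primeFactors ⊆ T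
        · rw [if_pos (hdvd.2 hmT), moebius_squarefree hsqT, hpf]
          have h3 : ∏ p ∈ W.primeFactors \ T, (if p ∣ m then (0 : ℝ) else 1) = 1 := by
            refine Finset.prod_eq_one fun p hp => ?_
            rw [Finset.mem_sdiff] at hp
            have hpm : ¬ p ∣ m := fun h => hp.2 (hmT
              (Nat.mem_primeFactors.2 ⟨Nat.prime_of_mem_primeFactors hp.1, h, hm0⟩))
            simp [hpm]
          rw [h3, mul_one]
          have h4 : (∏ p ∈ T, (-(p : ℝ)⁻¹)) = (∏ _p ∈ T, (-1 : ℝ)) * (∏ p ∈ T, (p : ℝ))⁻¹ := by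
            rw [← Finset.prod_inv_distrib, ← Finset.prod_mul_distrib]
            refine Finset.prod_congr rfl fun p _ => ?_
            ring
          rw [h4]
          push_cast
          ring
        · rw [if_neg (fun h => hmT (hdvd.1 h))]
          have h3 : ∏ p ∈ W.primeFactors \ T, (if p ∣ m then (0 : ℝ) else 1) = 0 := by
            obtain ⟨p, hp1, hp2⟩ := Finset.not_subset.1 hmT
            refine Finset.prod_eq_zero (Finset.mem_sdiff.2 ⟨hsub hp1, hp2⟩) ?_
            simp [Nat.dvd_of_mem_primeFactors hp1]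
          rw [h3]
          ring
    rw [h1, h2, ← Finset.mul_sum, ← Finset.prod_add]
    rw [kap, totient_formula W, totient_formula m, moebius_squarefree hsq]
    have h5 : (m : ℝ) = ∏ p ∈ m.primeFactors, (p : ℝ) := by
      conv_lhs => rw [← Nat.prod_primeFactors_of_squarefree hsq]
      push_cast
      rfl
    have h6 : (∏ _p ∈ m.primeFactors, (-1 : ℝ)) / ((m : ℝ) * ∏ p ∈ m.primeFactors, (1 - (p : ℝ)⁻¹))
        = ∏ p ∈ W.primeFactors, (if p ∣ m then (-1 : ℝ) / ((p : ℝ) * (1 - (p : ℝ)⁻¹)) else 1) := by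
      rw [h5, ← Finset.prod_mul_distrib, ← Finset.prod_div_distrib]
      rw [← Finset.prod_filter]
      refine Finset.prod_congr ?_ fun p _ => rfl
      ext p
      simp only [Finset.mem_filter, Nat.mem_primeFactors]
      constructor
      · rintro ⟨h1, h2, h3⟩
        exact ⟨⟨h1, h2.trans hm, hW.ne'⟩, h2⟩
      · rintro ⟨⟨h1, h2, h3⟩, h4⟩
        exact ⟨h1, h4, hm0⟩
    rw [h6, mul_assoc, ← Finset.prod_mul_distrib]
    congr 1
    refine Finset.prod_congr rfl fun p hp => ?_
    have hp1 : (1 : ℝ) < p := by exact_mod_cast (Nat.prime_of_mem_primeFactors hp).one_lt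
    have hp2 : (1 : ℝ) - (p : ℝ)⁻¹ ≠ 0 := by
      have : (p : ℝ)⁻¹ < 1 := inv_lt_one_of_one_lt₀ hp1
      linarith
    have hp3 : (p : ℝ) ≠ 0 := by linarith
    by_cases hpm : p ∣ m
    · simp only [hpm, if_true, add_zero]
      have hp4 : (p : ℝ) * (1 - (p : ℝ)⁻¹) ≠ 0 := mul_ne_zero hp3 hp2
      rw [eq_comm, mul_div_assoc', div_eq_iff hp4]
      field_simp
    · simp only [hpm, if_false]
      ring
  · rw [kap_of_not_squarefree hsq, mul_zero]
    refine Finset.sum_eq_zero fun e _ => ?_
    by_cases he : m ∣ e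
    · have : ¬ Squarefree e := fun h => hsq (h.squarefree_of_dvd he)
      simp [he, ArithmeticFunction.moebius_eq_zero_of_not_squarefree this]
    · simp [he]

/-- average over the units -/
theorem unit_average {W : ℕ} (hW : 0 < W) (h : ℕ) (ρ : ℕ → ℝ) (V v : ℕ → ℝ)
    (hV : ∀ d : ℕ, d ∣ W → V d = ∑ N ∈ d.divisors, v N)
    (hρ : ∀ e : ℕ, e ∣ W → ∑ c ∈ range (W / e), ρ (c * e) = ((W / e : ℕ) : ℝ) * V (Nat.gcd (e * h) W)) :
    ∑ c ∈ (range W).filter (fun c => c.Coprime W), ρ c =
      (Nat.totient W : ℝ) * ∑ N ∈ W.divisors, v N * kap (N / Nat.gcd N h) := by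
  classical
  -- step 1: Möbius
  have s1 : ∑ c ∈ (range W).filter (fun c => c.Coprime W), ρ c =
      ∑ e ∈ W.divisors, (ArithmeticFunction.moebius e : ℝ) *
        ∑ c ∈ (range W).filter (fun c => e ∣ c), ρ c := by
    have : ∀ c ∈ range W, (if c.Coprime W then ρ c else 0) =
        ∑ e ∈ W.divisors, (ArithmeticFunction.moebius e : ℝ) * (if e ∣ c then ρ c else 0) := by
      intro c _
      have h1 : ∑ e ∈ W.divisors, (ArithmeticFunction.moebius e : ℝ) * (if e ∣ c then ρ c else 0) =
          (∑ e ∈ (Nat.gcd c W).divisors, (ArithmeticFunction.moebius e : ℝ)) * ρ c := by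
        rw [Finset.sum_mul]
        have hsub : (Nat.gcd c W).divisors ⊆ W.divisors :=
          Nat.divisors_subset_of_dvd hW.ne' (Nat.gcd_dvd_right c W)
        rw [← Finset.sum_subset hsub]
        · refine Finset.sum_congr rfl fun e he => ?_
          have : e ∣ c := (Nat.dvd_of_mem_divisors he).trans (Nat.gcd_dvd_left c W)
          simp [this]
        · intro e he1 he2
          have : ¬ e ∣ c := by
            intro hec
            apply he2
            rw [Nat.mem_divisors]
            exact ⟨Nat.dvd_gcd hec (Nat.dvd_of_mem_divisors he1), Nat.gcd_ne_zero_right hW.ne'⟩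
          simp [this]
      rw [h1]
      have h2 : (∑ e ∈ (Nat.gcd c W).divisors, (ArithmeticFunction.moebius e : ℝ)) =
          if Nat.gcd c W = 1 then 1 else 0 := by
        exact sum_moebius _
      rw [h2]
      by_cases hc : c.Coprime W
      · rw [if_pos hc, if_pos hc, one_mul]
      · rw [if_neg hc, if_neg hc, zero_mul]
    rw [Finset.sum_filter, Finset.sum_congr rfl this, Finset.sum_comm]
    refine Finset.sum_congr rfl fun e _ => ?_
    rw [← Finset.mul_sum, Finset.sum_filter]
  -- step 2: the multiples of e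
  have s2 : ∀ e ∈ W.divisors, ∑ c ∈ (range W).filter (fun c => e ∣ c), ρ c =
      ((W / e : ℕ) : ℝ) * ∑ N ∈ (Nat.gcd (e * h) W).divisors, v N := by
    intro e he
    have heW := Nat.dvd_of_mem_divisors he
    have he0 : 0 < e := Nat.pos_of_mem_divisors he
    rw [← hV _ (Nat.gcd_dvd_right _ _), ← hρ e heW]
    symm
    refine Finset.sum_bij' (fun c _ => c * e) (fun c _ => c / e) ?_ ?_ ?_ ?_ ?_
    · intro c hc
      rw [Finset.mem_range] at hc
      rw [Finset.mem_filter, Finset.mem_range]
      exact ⟨(Nat.lt_div_iff_mul_lt_of_dvd he0.ne' heW).1 hc, Dvd.intro_left c rfl⟩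
    · intro c hc
      rw [Finset.mem_filter, Finset.mem_range] at hc
      rw [Finset.mem_range]
      exact Nat.div_lt_div_of_lt_of_dvd heW hc.1
    · intro c _
      exact Nat.mul_div_cancel c he0
    · intro c hc
      rw [Finset.mem_filter] at hc
      exact Nat.div_mul_cancel hc.2
    · intro c _
      rfl
  rw [s1, Finset.sum_congr rfl fun e he => by rw [s2 e he]]
  -- step 3: exchange
  have s3 : ∀ e ∈ W.divisors, (ArithmeticFunction.moebius e : ℝ) * (((W / e : ℕ) : ℝ) *
      ∑ N ∈ (Nat.gcd (e * h) W).divisors, v N) =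
      ∑ N ∈ W.divisors, v N * (if N / Nat.gcd N h ∣ e then
        (ArithmeticFunction.moebius e : ℝ) * ((W : ℝ) / e) else 0) := by
    intro e he
    have heW := Nat.dvd_of_mem_divisors he
    have he0 : 0 < e := Nat.pos_of_mem_divisors he
    have hsub : (Nat.gcd (e * h) W).divisors ⊆ W.divisors :=
      Nat.divisors_subset_of_dvd hW.ne' (Nat.gcd_dvd_right _ W)
    have key : ∀ N ∈ W.divisors, (N ∈ (Nat.gcd (e * h) W).divisors ↔ N / Nat.gcd N h ∣ e) := by
      intro N hN
      have hNW := Nat.dvd_of_mem_divisors hN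
      have hN0 : 0 < N := Nat.pos_of_mem_divisors hN
      have hg : 0 < Nat.gcd N h := Nat.gcd_pos_of_pos_left _ hN0
      rw [Nat.mem_divisors]
      constructor
      · rintro ⟨h1, _⟩
        have h2 : N ∣ e * h := h1.trans (Nat.gcd_dvd_left _ _)
        have hc : (N / Nat.gcd N h).Coprime (h / Nat.gcd N h) := Nat.coprime_div_gcd_div_gcd hg
        refine hc.dvd_of_dvd_mul_right ?_
        have h3 : N / Nat.gcd N h ∣ e * h / Nat.gcd N h :=
          Nat.div_dvd_div (Nat.gcd_dvd_left _ _) h2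
        rwa [Nat.mul_div_assoc _ (Nat.gcd_dvd_right N h)] at h3
      · intro h1
        refine ⟨Nat.dvd_gcd ?_ hNW, Nat.gcd_ne_zero_right hW.ne'⟩
        calc N = N / Nat.gcd N h * Nat.gcd N h := (Nat.div_mul_cancel (Nat.gcd_dvd_left _ _)).symm
          _ ∣ e * h := Nat.mul_dvd_mul h1 (Nat.gcd_dvd_right _ _)
    have e1 : ∑ N ∈ (Nat.gcd (e * h) W).divisors, v N =
        ∑ N ∈ W.divisors, if N / Nat.gcd N h ∣ e then v N else 0 := by
      rw [← Finset.sum_filter]
      refine Finset.sum_congr ?_ fun _ _ => rfl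
      ext N
      rw [Finset.mem_filter]
      constructor
      · intro hN
        exact ⟨hsub hN, (key N (hsub hN)).1 hN⟩
      · rintro ⟨hN1, hN2⟩
        exact (key N hN1).2 hN2
    rw [e1, ← mul_assoc, Finset.mul_sum]
    refine Finset.sum_congr rfl fun N _ => ?_
    rw [Nat.cast_div heW (by exact_mod_cast he0.ne')]
    split_ifs <;> ring
  rw [Finset.sum_congr rfl s3, Finset.sum_comm, Finset.mul_sum]
  refine Finset.sum_congr rfl fun N hN => ?_
  have hNW := Nat.dvd_of_mem_divisors hN
  rw [← Finset.mul_sum, inner_sum hW ((Nat.div_dvd_of_dvd (Nat.gcd_dvd_left N h)).trans hNW)]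
  ring

/-! ### values of `kap` -/

lemma kap_one : kap 1 = 1 := by simp [kap]

lemma kap_two : kap 2 = -1 := by
  rw [kap, ArithmeticFunction.moebius_apply_prime Nat.prime_two]
  norm_num

lemma kap_three : kap 3 = -(1 / 2) := by
  rw [kap, ArithmeticFunction.moebius_apply_prime Nat.prime_three, Nat.totient_prime Nat.prime_three]
  norm_num

lemma kap_nine : kap 9 = 0 := by
  refine kap_of_not_squarefree fun h => ?_
  have := h 3 ⟨1, by norm_num⟩
  rw [Nat.isUnit_iff] at this
  omega

lemma kap_six : kap 6 = 1 / 2 := by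
  have h : ArithmeticFunction.moebius 6 = 1 := by
    have := ArithmeticFunction.isMultiplicative_moebius.map_mul_of_coprime
      (show Nat.Coprime 2 3 by decide)
    rw [ArithmeticFunction.moebius_apply_prime Nat.prime_two,
      ArithmeticFunction.moebius_apply_prime Nat.prime_three] at this
    norm_num at this
    exact this
  have h2 : Nat.totient 6 = 2 := by decide
  rw [kap, h, h2]
  norm_num

lemma kap_two_mul {n : ℕ} (hn : Odd n) : kap (2 * n) = - kap n := by
  have hc : Nat.Coprime 2 n := Nat.coprime_two_left.2 hn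
  rw [kap, kap, ArithmeticFunction.isMultiplicative_moebius.map_mul_of_coprime hc,
    ArithmeticFunction.moebius_apply_prime Nat.prime_two, Nat.totient_mul hc]
  norm_num
  ring

/-- a squarefree number is a divisor of `6` or has a prime factor at least `5` -/
lemma dvd_six_or {n : ℕ} (hn : Squarefree n) : n ∣ 6 ∨ ∃ p : ℕ, p.Prime ∧ 5 ≤ p ∧ p ∣ n := by
  by_cases h : ∃ p : ℕ, p.Prime ∧ 5 ≤ p ∧ p ∣ n
  · exact Or.inr h
  · left
    push Not at h
    rw [← Nat.prod_primeFactors_of_squarefree hn]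
    have h1 : n.primeFactors ⊆ {2, 3} := by
      intro p hp
      rw [Nat.mem_primeFactors] at hp
      have h2 : p < 5 := by
        by_contra h3
        exact h p hp.1 (not_lt.1 h3) hp.2.1
      have h3 := hp.1.two_le
      interval_cases p
      · simp
      · simp
      · exact absurd hp.1 (by decide)
    have h2 : ∏ p ∈ ({2, 3} : Finset ℕ), p = 6 := by decide
    rw [← h2]
    exact Finset.prod_dvd_prod_of_subset _ _ _ h1

/-- the lower bound `κ(n) ≥ -1/4` for `n ≠ 2, 3`, strict for `n ≠ 5` -/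
lemma kap_lower {n : ℕ} (h2 : n ≠ 2) (h3 : n ≠ 3) : -(1 / 4) ≤ kap n ∧ (n ≠ 5 → -(1 / 4) < kap n) := by
  by_cases hsq : Squarefree n
  · rcases dvd_six_or hsq with h | ⟨p, hp, hp5, hpn⟩
    · have : n ∈ Nat.divisors 6 := Nat.mem_divisors.2 ⟨h, by norm_num⟩
      have h6 : Nat.divisors 6 = {1, 2, 3, 6} := by decide
      rw [h6] at this
      simp only [Finset.mem_insert, Finset.mem_singleton] at this
      rcases this with rfl | rfl | rfl | rfl
      · rw [kap_one]; norm_num
      · exact absurd rfl h2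
      · exact absurd rfl h3
      · rw [kap_six]; norm_num
    · have h4 : p - 1 ∣ n.totient := by
        rw [← Nat.totient_prime hp]
        exact Nat.totient_dvd_of_dvd hpn
      have hn0 : 0 < n := Nat.pos_of_ne_zero hsq.ne_zero
      have h5 : p - 1 ≤ n.totient := Nat.le_of_dvd (Nat.totient_pos.2 hn0) h4
      have h6 : 4 ≤ n.totient := by omega
      have h6' : (4 : ℝ) ≤ n.totient := by exact_mod_cast h6
      have hmu : (-1 : ℝ) ≤ (ArithmeticFunction.moebius n : ℝ) := by
        rcases ArithmeticFunction.moebius_eq_or n with h | h | h <;> rw [h] <;> norm_num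
      have hpos : (0 : ℝ) < n.totient := by linarith
      constructor
      · rw [kap, le_div_iff₀ hpos]
        linarith
      · intro hn5
        -- totient > 4 or the Möbius function is not -1
        by_cases h7 : n.totient = 4
        · -- then p = 5, n = 5 * m with φ(m) = 1
          have hp5' : p = 5 := by omega
          subst hp5'
          obtain ⟨m, rfl⟩ := hpn
          have hc : Nat.Coprime 5 m := by
            rw [Nat.squarefree_mul_iff] at hsq
            exact hsq.1
          rw [Nat.totient_mul hc, Nat.totient_prime hp] at h7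
          have h8 : m.totient = 1 := by omega
          rcases Nat.totient_eq_one_iff.1 h8 with rfl | rfl
          · exact absurd rfl hn5
          · have h9 : kap (5 * 2) = 1 / 4 := by
              rw [mul_comm, kap_two_mul (by decide), kap,
                ArithmeticFunction.moebius_apply_prime hp, Nat.totient_prime hp]
              norm_num
            rw [h9]
            norm_num
        · have h8 : 5 ≤ n.totient := by omega
          have h8' : (5 : ℝ) ≤ n.totient := by exact_mod_cast h8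
          rw [kap, lt_div_iff₀ hpos]
          linarith
  · rw [kap_of_not_squarefree hsq]
    norm_num

lemma kap_lower' {n : ℕ} (h2 : n ≠ 2) : -(1 / 2) ≤ kap n := by
  by_cases h3 : n = 3
  · rw [h3, kap_three]
  · have := (kap_lower h2 h3).1
    linarith

/-- `N / gcd(N, x)` -/
def ordr (N x : ℕ) : ℕ := N / Nat.gcd N x

lemma ordr_mul {N x : ℕ} : ordr N x * Nat.gcd N x = N := Nat.div_mul_cancel (Nat.gcd_dvd_left _ _)

/-- two orders equal forces `N` to be that order -/
lemma eq_of_ordr_eq {N x y : ℕ} (hN : 0 < N) (hxy : x.Coprime y) (h : ordr N x = ordr N y) :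
    N = ordr N x := by
  have h1 : ordr N x * Nat.gcd N x = N := ordr_mul
  have h2 : ordr N y * Nat.gcd N y = N := ordr_mul
  have h3 : 0 < ordr N x := by
    rcases Nat.eq_zero_or_pos (ordr N x) with h | h
    · rw [h, zero_mul] at h1; omega
    · exact h
  have h4 : Nat.gcd N x = Nat.gcd N y := by
    apply Nat.eq_of_mul_eq_mul_left h3
    rw [h1, h, h2]
  have h5 : Nat.Coprime (Nat.gcd N x) (Nat.gcd N y) :=
    Nat.Coprime.coprime_dvd_left (Nat.gcd_dvd_right _ _)
      (Nat.Coprime.coprime_dvd_right (Nat.gcd_dvd_right _ _) hxy)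
  rw [← h4, Nat.coprime_self] at h5
  rw [h5, mul_one] at h1
  exact h1.symm

/-- one order `3` and two others -/
lemma one_three {N x y z : ℕ} (hN : 0 < N) (hyz : y.Coprime z) (hx : ordr N x = 3)
    (hy2 : ordr N y ≠ 2) (hz2 : ordr N z ≠ 2) (hy3 : ordr N y ≠ 3) (hz3 : ordr N z ≠ 3) :
    0 < 1 + (kap (ordr N x) + kap (ordr N y) + kap (ordr N z)) := by
  rw [hx, kap_three]
  have hy := kap_lower hy2 hy3
  have hz := kap_lower hz2 hz3
  by_cases h5 : ordr N y = 5 ∧ ordr N z = 5
  · exfalso
    have h1 := eq_of_ordr_eq hN hyz (h5.1.trans h5.2.symm)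
    rw [h5.1] at h1
    have h2 : ordr N x * Nat.gcd N x = N := ordr_mul
    rw [hx, h1] at h2
    omega
  · rcases not_and_or.1 h5 with h | h
    · have := hy.2 h
      linarith [hz.1]
    · have := hz.2 h
      linarith [hy.1]

/-- two orders `3` -/
lemma two_three {N x y z : ℕ} (hN : 0 < N) (hxy : x.Coprime y) (hx : ordr N x = 3)
    (hy : ordr N y = 3) (hex : N ≠ 3 ∨ 3 ∣ x * y * z) :
    0 < 1 + (kap (ordr N x) + kap (ordr N y) + kap (ordr N z)) := by
  have h1 := eq_of_ordr_eq hN hxy (hx.trans hy.symm)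
  rw [hx] at h1
  subst h1
  have h3 : 3 ∣ x * y * z := by
    rcases hex with h | h
    · exact absurd rfl h
    · exact h
  have hx3 : ¬ 3 ∣ x := by
    intro h
    rw [ordr, Nat.gcd_eq_left h] at hx
    norm_num at hx
  have hy3 : ¬ 3 ∣ y := by
    intro h
    rw [ordr, Nat.gcd_eq_left h] at hy
    norm_num at hy
  have hz3 : 3 ∣ z := by
    rcases (Nat.prime_three.dvd_mul).1 h3 with h | h
    · rcases (Nat.prime_three.dvd_mul).1 h with h | h
      · exact absurd h hx3
      · exact absurd h hy3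
    · exact h
  have hz : ordr 3 z = 1 := by rw [ordr, Nat.gcd_eq_left hz3]
  rw [hx, hy, hz, kap_three, kap_one]
  norm_num

/-- no order equal to `2` gives positivity -/
lemma pos_of_no_two {N x y z : ℕ} (hN : 0 < N) (hxy : x.Coprime y) (hxz : x.Coprime z)
    (hyz : y.Coprime z) (hx : ordr N x ≠ 2) (hy : ordr N y ≠ 2) (hz : ordr N z ≠ 2)
    (hex : N ≠ 3 ∨ 3 ∣ x * y * z) :
    0 < 1 + (kap (ordr N x) + kap (ordr N y) + kap (ordr N z)) := by
  by_cases hx3 : ordr N x = 3
  · by_cases hy3 : ordr N y = 3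
    · exact two_three hN hxy hx3 hy3 hex
    · by_cases hz3 : ordr N z = 3
      · have := two_three (z := y) hN hxz hx3 hz3 (by rw [mul_right_comm]; exact hex)
        linarith
      · exact one_three hN hyz hx3 hy hz hy3 hz3
  · by_cases hy3 : ordr N y = 3
    · by_cases hz3 : ordr N z = 3
      · have := two_three (z := x) hN hyz hy3 hz3
          (by rw [mul_comm, ← mul_assoc]; exact hex)
        linarith
      · have := one_three hN hxz hy3 hx hz hx3 hz3
        linarith
    · by_cases hz3 : ordr N z = 3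
      · have := one_three hN hxy hz3 hx hy hx3 hy3
        linarith
      · have h1 := (kap_lower hx hx3).1
        have h2 := (kap_lower hy hy3).1
        have h3 := (kap_lower hz hz3).1
        linarith

/-- an order equal to `2` gives zero -/
lemma zero_of_two {N x y z : ℕ} (hN : 0 < N) (hxy : x.Coprime y) (hxz : x.Coprime z)
    (hyz : y.Coprime z) (hx : ordr N x = 2) (heven : 2 ∣ x * y * z) :
    1 + (kap (ordr N x) + kap (ordr N y) + kap (ordr N z)) = 0 := by
  have h1 : ordr N x * Nat.gcd N x = N := ordr_mul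
  rw [hx] at h1
  set g := Nat.gcd N x with hg
  have hgx : g ∣ x := Nat.gcd_dvd_right _ _
  have hg0 : 0 < g := Nat.gcd_pos_of_pos_left _ hN
  have hcy : Nat.Coprime g y := hxy.coprime_dvd_left hgx
  have hcz : Nat.Coprime g z := hxz.coprime_dvd_left hgx
  have hNy : Nat.gcd N y = Nat.gcd 2 y := by
    rw [← h1]; exact Nat.Coprime.gcd_mul_right_cancel 2 hcy
  have hNz : Nat.gcd N z = Nat.gcd 2 z := by
    rw [← h1]; exact Nat.Coprime.gcd_mul_right_cancel 2 hcz
  rw [hx, kap_two]
  suffices h : kap (ordr N y) + kap (ordr N z) = 0 by linarith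
  by_cases hx2 : 2 ∣ x
  · -- g is even
    have hg2 : 2 ∣ g := Nat.dvd_gcd ⟨g, h1.symm⟩ hx2
    have hy2 : ¬ 2 ∣ y := fun h => by
      have := Nat.dvd_gcd hx2 h
      rw [hxy] at this; omega
    have hz2 : ¬ 2 ∣ z := fun h => by
      have := Nat.dvd_gcd hx2 h
      rw [hxz] at this; omega
    have hgy : Nat.gcd 2 y = 1 := (Nat.Prime.coprime_iff_not_dvd Nat.prime_two).2 hy2
    have hgz : Nat.gcd 2 z = 1 := (Nat.Prime.coprime_iff_not_dvd Nat.prime_two).2 hz2
    have hns : ¬ Squarefree N := by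
      intro hs
      obtain ⟨k, hk⟩ := hg2
      have := hs 2 ⟨k, by rw [← h1, hk]; ring⟩
      rw [Nat.isUnit_iff] at this
      omega
    rw [ordr, ordr, hNy, hNz, hgy, hgz, Nat.div_one, kap_of_not_squarefree hns]
    norm_num
  · have hgodd : Odd g := by
      rw [← Nat.not_even_iff_odd, even_iff_two_dvd]
      exact fun h => hx2 (h.trans hgx)
    have key : ∀ y z : ℕ, 2 ∣ y → ¬ 2 ∣ z → Nat.gcd N y = Nat.gcd 2 y → Nat.gcd N z = Nat.gcd 2 z →
        kap (ordr N y) + kap (ordr N z) = 0 := by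
      intro y z hy2 hz2 hNy hNz
      have hgy : Nat.gcd 2 y = 2 := Nat.gcd_eq_left hy2
      have hgz : Nat.gcd 2 z = 1 := (Nat.Prime.coprime_iff_not_dvd Nat.prime_two).2 hz2
      rw [ordr, ordr, hNy, hNz, hgy, hgz, Nat.div_one, ← h1,
        Nat.mul_div_cancel_left g (by norm_num), kap_two_mul hgodd]
      ring
    have hyz2 : ¬ (2 ∣ y ∧ 2 ∣ z) := fun h => by
      have := Nat.dvd_gcd h.1 h.2
      rw [hyz] at this; omega
    rcases (Nat.prime_two.dvd_mul).1 heven with h | h
    · rcases (Nat.prime_two.dvd_mul).1 h with h | h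
      · exact absurd h hx2
      · exact key y z h (fun hz => hyz2 ⟨h, hz⟩) hNy hNz
    · have := key z y h (fun hy => hyz2 ⟨hy, h⟩) hNz hNy
      linarith

/-- the three-term sum -/
noncomputable def sig (α β : ℕ) (N : ℕ) : ℝ :=
  kap (N / Nat.gcd N α) + kap (N / Nat.gcd N β) + kap (N / Nat.gcd N (β - α))

lemma sig_eq (α β N : ℕ) : sig α β N = kap (ordr N α) + kap (ordr N β) + kap (ordr N (β - α)) := rfl

lemma coprime_diff {α β : ℕ} (hαβ : α < β) (hco : α.Coprime β) :
    α.Coprime (β - α) ∧ β.Coprime (β - α) := by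
  obtain ⟨k, rfl⟩ := Nat.exists_eq_add_of_lt hαβ
  have h1 : α + k + 1 - α = k + 1 := by omega
  rw [h1]
  have h2 : α + k + 1 = (k + 1) + α := by ring
  rw [h2] at hco ⊢
  have h3 : α.Coprime (k + 1) := by
    exact Nat.coprime_add_self_right.1 hco
  refine ⟨h3, ?_⟩
  have h4 : ((k + 1) + α).Coprime (k + 1) := by
    rw [Nat.coprime_self_add_left]
    exact h3
  exact h4

lemma two_dvd_prod (α β : ℕ) (hαβ : α < β) : 2 ∣ α * β * (β - α) := by
  by_cases h1 : 2 ∣ α
  · exact Dvd.dvd.mul_right (Dvd.dvd.mul_right h1 _) _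
  · by_cases h2 : 2 ∣ β
    · exact Dvd.dvd.mul_right (Dvd.dvd.mul_left h2 _) _
    · have h3 : 2 ∣ β - α := by omega
      exact Dvd.dvd.mul_left h3 _

theorem sig_nonneg {α β : ℕ} (hα : 0 < α) (hαβ : α < β) (hco : α.Coprime β) {N : ℕ} (hN : 0 < N)
    (hex : N ≠ 3 ∨ 3 ∣ α * β * (β - α)) : 0 ≤ 1 + sig α β N := by
  obtain ⟨h1, h2⟩ := coprime_diff hαβ hco
  have heven := two_dvd_prod α β hαβ
  rw [sig_eq]
  by_cases ha : ordr N α = 2
  · exact (zero_of_two hN hco h1 h2 ha heven).ge
  · by_cases hb : ordr N β = 2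
    · have := zero_of_two hN hco.symm h2 h1 hb (by rw [mul_comm β α]; exact heven)
      linarith
    · by_cases hc : ordr N (β - α) = 2
      · have := zero_of_two hN h1.symm h2.symm hco hc
          (by rw [mul_comm (β - α) α, mul_right_comm]; exact heven)
        linarith
      · exact (pos_of_no_two hN hco h1 h2 ha hb hc hex).le

theorem sig_pos_of_odd {α β : ℕ} (hα : 0 < α) (hαβ : α < β) (hco : α.Coprime β) {N : ℕ}
    (hN : Odd N) (hex : N ≠ 3 ∨ 3 ∣ α * β * (β - α)) : 0 < 1 + sig α β N := by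
  obtain ⟨h1, h2⟩ := coprime_diff hαβ hco
  have hN0 : 0 < N := hN.pos
  have key : ∀ x, ordr N x ≠ 2 := by
    intro x hx
    have h3 : ordr N x * Nat.gcd N x = N := ordr_mul
    rw [hx] at h3
    rw [← h3] at hN
    exact (Nat.not_odd_iff_even.2 (even_two_mul _)) hN
  rw [sig_eq]
  exact pos_of_no_two hN0 hco h1 h2 (key _) (key _) (key _) hex

theorem sig_pos_of_large {α β : ℕ} (hα : 0 < α) (hαβ : α < β) (hco : α.Coprime β) {N : ℕ}
    (hN : 2 * β < N) (hex : N ≠ 3 ∨ 3 ∣ α * β * (β - α)) : 0 < 1 + sig α β N := by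
  obtain ⟨h1, h2⟩ := coprime_diff hαβ hco
  have hN0 : 0 < N := by omega
  have key : ∀ x, 0 < x → x ≤ β → ordr N x ≠ 2 := by
    intro x hx0 hxβ hx
    have h3 : ordr N x * Nat.gcd N x = N := ordr_mul
    rw [hx] at h3
    have h4 : Nat.gcd N x ≤ x := Nat.le_of_dvd hx0 (Nat.gcd_dvd_right _ _)
    omega
  rw [sig_eq]
  exact pos_of_no_two hN0 hco h1 h2 (key _ hα hαβ.le) (key _ (by omega) le_rfl)
    (key _ (by omega) (by omega)) hex

lemma ordr_three_mul {N x : ℕ} (hN : 0 < N) :
    N / Nat.gcd N (3 * x) = if 3 ∣ N then (N / 3) / Nat.gcd (N / 3) x else N / Nat.gcd N x := by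
  by_cases h : 3 ∣ N
  · rw [if_pos h]
    obtain ⟨M, rfl⟩ := h
    rw [Nat.gcd_mul_left, Nat.mul_div_mul_left _ _ (by norm_num : 0 < 3),
      Nat.mul_div_cancel_left M (by norm_num : 0 < 3)]
  · rw [if_neg h]
    have hc : Nat.Coprime N 3 := ((Nat.Prime.coprime_iff_not_dvd Nat.prime_three).2 h).symm
    have h1 : Nat.gcd N (3 * x) = Nat.gcd N x := by
      apply Nat.dvd_antisymm
      · refine Nat.dvd_gcd (Nat.gcd_dvd_left _ _) ?_
        have h2 : Nat.Coprime (Nat.gcd N (3 * x)) 3 := hc.coprime_dvd_left (Nat.gcd_dvd_left _ _)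
        exact h2.dvd_of_dvd_mul_left (Nat.gcd_dvd_right _ _)
      · exact Nat.gcd_dvd_gcd_of_dvd_right _ (Dvd.intro_left 3 rfl)
    rw [h1]

/-- scaling by three -/
theorem sig_three_mul {α β : ℕ} (hα : 0 < α) (hαβ : α < β) {N : ℕ} (hN : 0 < N) :
    sig (3 * α) (3 * β) N = if 3 ∣ N then sig α β (N / 3) else sig α β N := by
  have h1 : 3 * β - 3 * α = 3 * (β - α) := by omega
  rw [sig, h1, ordr_three_mul hN, ordr_three_mul hN, ordr_three_mul hN]
  split_ifs <;> rfl

lemma not_dvd_three {α β : ℕ} (h3 : ¬ 3 ∣ α * β * (β - α)) :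
    ¬ 3 ∣ α ∧ ¬ 3 ∣ β ∧ ¬ 3 ∣ (β - α) := by
  refine ⟨fun h => h3 ?_, fun h => h3 ?_, fun h => h3 ?_⟩
  · exact Dvd.dvd.mul_right (Dvd.dvd.mul_right h _) _
  · exact Dvd.dvd.mul_right (Dvd.dvd.mul_left h _) _
  · exact Dvd.dvd.mul_left h _

theorem sig_three {α β : ℕ} (hα : 0 < α) (hαβ : α < β) (h3 : ¬ 3 ∣ α * β * (β - α)) :
    sig α β 3 = - (3 / 2) := by
  obtain ⟨h1, h2, h4⟩ := not_dvd_three h3
  have key : ∀ x, ¬ 3 ∣ x → 3 / Nat.gcd 3 x = 3 := by
    intro x hx
    have : Nat.gcd 3 x = 1 := (Nat.Prime.coprime_iff_not_dvd Nat.prime_three).2 hx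
    rw [this]
  rw [sig, key _ h1, key _ h2, key _ h4, kap_three]
  norm_num

theorem sig_nine {α β : ℕ} (hα : 0 < α) (hαβ : α < β) (h3 : ¬ 3 ∣ α * β * (β - α)) :
    sig α β 9 = 0 := by
  obtain ⟨h1, h2, h4⟩ := not_dvd_three h3
  have key : ∀ x, ¬ 3 ∣ x → 9 / Nat.gcd 9 x = 9 := by
    intro x hx
    have h5 : Nat.Coprime 3 x := (Nat.Prime.coprime_iff_not_dvd Nat.prime_three).2 hx
    have : Nat.Coprime (3 ^ 2) x := Nat.Coprime.pow_left 2 h5
    norm_num at this
    rw [this]
  rw [sig, key _ h1, key _ h2, key _ h4, kap_nine]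
  norm_num

theorem sig_one {α β : ℕ} : sig α β 1 = 3 := by
  rw [sig]
  simp [kap_one]
  norm_num

end Pool.Agent.Hhelper89.LehmerFull
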