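import Pool.Agent.Hhelper89.LehmerFull.Constraint
import Pool.Agent.Hhelper89.LehmerFull.Ramanujan

/-!
The energy inequality, and the vanishing of the almost periodic part.
-/

namespace Pool.Agent.Hhelper89.LehmerFull

open Finset Filter Topology MeasureTheory
open Pool.Agent.Hhelper89.Lehmer
open scoped InnerProductSpace ENNReal

variable {M : Mean} {μ : Measure Om} [IsProbabilityMeasure μ]

/-- the correlations of `r_W` -/
noncomputable def rho (hM : Realises M μ) (f : ℕ → Bool) (W h c : ℕ) : ℝ :=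
  ⟪(koop hM).K ((c : ℤ) * h) ((koop hM).P W (xL μ f)), (koop hM).P W (xL μ f)⟫_ℝ

lemma Th_sum (hM : Realises M μ) (f : ℕ → Bool) {α β : ℕ} (hαβ : α ≤ β) (W c : ℕ) :
    Th hM f α β W c 1 + Th hM f α β W c (-1) =
      (1 / 2) * (rho hM f W α c + rho hM f W β c) +
      (1 / 2) * ((koop hM).V (xL μ f) W + rho hM f W (β - α) c) := by
  set A := koop hM with hA
  set x := xL μ f with hx
  set y := toL μ _ (BM_yy hM f α β W c) with hy
  have hye : y = A.K ((c : ℤ) * α) (A.P W x) + A.K ((c : ℤ) * β) (A.P W x) := by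
    rw [hy, hx, hA, ← toL_rr, koop_toL, koop_toL, ← toL_add]
    rfl
  have h1 : Th hM f α β W c 1 + Th hM f α β W c (-1) =
      (1 / 2) * ⟪x, y⟫_ℝ + (1 / 4) * ‖y‖ ^ 2 := by
    rw [hx, xL, hy, inner_eq' (toL_coe _) (toL_coe _), norm_sq_eq (toL_coe _)]
    unfold Th
    rw [← integral_add (BM_thF hM f α β W c 1).integrable (BM_thF hM f α β W c (-1)).integrable,
      ← integral_const_mul, ← integral_const_mul, ← integral_add]
    · congr 1
      funext u
      unfold thF
      exact GG_add _ _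
    · exact (((BM_xx f).mul (BM_yy hM f α β W c)).const_mul _).integrable
    · exact (((BM_yy hM f α β W c).pow 2).const_mul _).integrable
  have h2 : ∀ e : ℕ, ⟪x, A.K ((c : ℤ) * e) (A.P W x)⟫_ℝ = rho hM f W e c := by
    intro e
    rw [← A.inner_P x (A.K_mem_fix (A.P_mem W x) _), real_inner_comm]
    rfl
  have h3 : ⟪A.K ((c : ℤ) * α) (A.P W x), A.K ((c : ℤ) * β) (A.P W x)⟫_ℝ =
      rho hM f W (β - α) c := by
    rw [A.inner_K, ← A.add, real_inner_comm]
    unfold rho
    congr 3
    push_cast [hαβ]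
    ring
  have h4 : ‖y‖ ^ 2 = 2 * (A.V x W + rho hM f W (β - α) c) := by
    rw [hye, norm_add_sq_real, LinearIsometry.norm_map, LinearIsometry.norm_map, h3]
    unfold ZAct.V
    ring
  rw [h1, h4, hye, inner_add_right, h2, h2]
  ring

/-- the energy inequality -/
theorem energy (hM : Realises M μ) (f : ℕ → Bool) {α β : ℕ} (hαβ : α ≤ β) {W : ℕ} (hW : 0 < W)
    {t : ℝ} (h : ∀ c : ℕ, c.Coprime W → ∀ s : Bool, Th hM f α β W c (bsg s) ≤ 2 * t) :
    ∑ N ∈ W.divisors, (koop hM).v (xL μ f) N * (1 + sig α β N) ≤ 8 * t := by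
  classical
  have h1 : ∀ c ∈ (range W).filter (fun c => c.Coprime W),
      (koop hM).V (xL μ f) W + rho hM f W α c + rho hM f W β c + rho hM f W (β - α) c ≤ 8 * t := by
    intro c hc
    have h2 := h c (Finset.mem_filter.1 hc).2 true
    have h3 := h c (Finset.mem_filter.1 hc).2 false
    have h4 := Th_sum hM f hαβ W c
    simp only [bsg, if_true, Bool.false_eq_true, if_false] at h2 h3
    linarith
  have h2 := Finset.sum_le_sum h1
  have hcard : ((range W).filter (fun c => c.Coprime W)).card = Nat.totient W := by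
    rw [Nat.totient_eq_card_coprime]
    congr 1
    ext c
    simp [Nat.coprime_comm]
  rw [Finset.sum_const, nsmul_eq_mul, hcard, Finset.sum_add_distrib, Finset.sum_add_distrib,
    Finset.sum_add_distrib, Finset.sum_const, nsmul_eq_mul, hcard] at h2
  have h3 : ∀ e : ℕ, ∑ c ∈ (range W).filter (fun c => c.Coprime W), rho hM f W e c =
      (Nat.totient W : ℝ) * ∑ N ∈ W.divisors, (koop hM).v (xL μ f) N * kap (N / Nat.gcd N e) := by
    intro e
    apply unit_average hW e (fun c => rho hM f W e c) ((koop hM).V (xL μ f))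
    · intro d hd
      exact (koop hM).V_eq_sum _ (Nat.pos_of_dvd_of_pos hd hW)
    · intro d hd
      exact (koop hM).sum_K_P (xL μ f) hW hd
  rw [h3, h3, h3, (koop hM).V_eq_sum (xL μ f) hW] at h2
  have hφ : (0 : ℝ) < Nat.totient W := by exact_mod_cast Nat.totient_pos.2 hW
  have h4 : (Nat.totient W : ℝ) * ∑ N ∈ W.divisors, (koop hM).v (xL μ f) N * (1 + sig α β N) =
      (Nat.totient W : ℝ) * ∑ N ∈ W.divisors, (koop hM).v (xL μ f) N +
      (Nat.totient W : ℝ) * ∑ N ∈ W.divisors, (koop hM).v (xL μ f) N * kap (N / Nat.gcd N α) +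
      (Nat.totient W : ℝ) * ∑ N ∈ W.divisors, (koop hM).v (xL μ f) N * kap (N / Nat.gcd N β) +
      (Nat.totient W : ℝ) * ∑ N ∈ W.divisors, (koop hM).v (xL μ f) N * kap (N / Nat.gcd N (β - α)) := by
    rw [← mul_add, ← mul_add, ← mul_add, ← Finset.sum_add_distrib, ← Finset.sum_add_distrib,
      ← Finset.sum_add_distrib]
    congr 1
    refine Finset.sum_congr rfl fun N _ => ?_
    unfold sig
    ring
  rw [← h4] at h2
  exact le_of_mul_le_mul_left h2 hφ

lemma tendsto_tau (hM : Realises M μ) (f : ℕ → Bool) :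
    Tendsto (fun i : ℕ => tau hM f i.factorial) atTop (𝓝 0) := by
  have h := (koop hM).tendsto_R (xL μ f)
  have h2 := tendsto_iff_norm_sub_tendsto_zero.1 h
  refine h2.congr fun i => ?_
  unfold tau
  rw [norm_sub_rev]

lemma sum_P_ae (hM : Realises M μ) (f : ℕ → Bool) (s : Finset (ℕ × ℕ)) (w : ℕ × ℕ → ℝ)
    (d : ℕ × ℕ → ℕ) :
    ((∑ p ∈ s, w p • (koop hM).P (d p) (xL μ f) : Lp ℝ 2 μ) : Om → ℝ) =ᵐ[μ]
      fun u => ∑ p ∈ s, w p * rr hM f (d p) u := by
  classical
  induction s using Finset.induction_on with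
  | empty =>
    simp only [Finset.sum_empty]
    exact Lp.coeFn_zero ℝ 2 μ
  | insert a s ha ih =>
    simp only [Finset.sum_insert ha]
    refine (Lp.coeFn_add _ _).trans ?_
    filter_upwards [ih, Lp.coeFn_smul (w a) ((koop hM).P (d a) (xL μ f)), rr_ae hM f (d a)]
      with u h1 h2 h3
    rw [Pi.add_apply, h1, h2, Pi.smul_apply, h3, smul_eq_mul]

/-- halving: if order `2N` is absent then so is order `N`, for `N` even -/
theorem v_halve (hM : Realises M μ) {f : ℕ → Bool} (hf : MulSign f) {N : ℕ} (hN : 0 < N)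
    (hev : 2 ∣ N) (h : (koop hM).v (xL μ f) (2 * N) = 0) : (koop hM).v (xL μ f) N = 0 := by
  classical
  set A := koop hM with hA
  set x := xL μ f with hx
  have h2N : 0 < 2 * N := by omega
  have h1 : A.Pi x (2 * N) = 0 := by
    have := A.norm_Pi_sq x h2N
    rw [h] at this
    exact norm_eq_zero.1 (pow_eq_zero_iff (two_ne_zero) |>.1 this)
  -- rewrite the sum
  have h2 : A.Pi x (2 * N) = ∑ p ∈ N.divisorsAntidiagonal,
      (ArithmeticFunction.moebius p.1 : ℝ) • A.P (2 * p.2) x := by
    unfold ZAct.Pi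
    symm
    have hinj : ∀ p ∈ N.divisorsAntidiagonal, ∀ q ∈ N.divisorsAntidiagonal,
        (p.1, 2 * p.2) = (q.1, 2 * q.2) → p = q := by
      rintro ⟨a, b⟩ _ ⟨c, d⟩ _ hpq
      simp only [Prod.mk.injEq] at hpq
      ext <;> simp only <;> omega
    have himg : N.divisorsAntidiagonal.image (fun p => (p.1, 2 * p.2)) ⊆
        (2 * N).divisorsAntidiagonal := by
      intro p hp
      rw [Finset.mem_image] at hp
      obtain ⟨⟨a, b⟩, hab, rfl⟩ := hp
      rw [Nat.mem_divisorsAntidiagonal] at hab ⊢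
      refine ⟨?_, h2N.ne'⟩
      have := hab.1
      simp only at this ⊢
      rw [← this]; ring
    rw [← Finset.sum_subset himg]
    · rw [Finset.sum_image (fun p hp q hq hpq => hinj p hp q hq hpq)]
    · rintro ⟨a, b⟩ hab hnot
      rw [Nat.mem_divisorsAntidiagonal] at hab
      have hab1 : a * b = 2 * N := hab.1
      have hmu : ArithmeticFunction.moebius a = 0 := by
        apply ArithmeticFunction.moebius_eq_zero_of_not_squarefree
        intro hsq
        by_cases hb : 2 ∣ b
        · obtain ⟨b', rfl⟩ := hb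
          apply hnot
          rw [Finset.mem_image]
          refine ⟨(a, b'), ?_, rfl⟩
          rw [Nat.mem_divisorsAntidiagonal]
          refine ⟨?_, hN.ne'⟩
          have : 2 * (a * b') = 2 * N := by rw [← hab1]; ring
          simp only
          omega
        · obtain ⟨k, rfl⟩ := hev
          have h4 : 2 * 2 ∣ a := by
            have h5 : 2 * 2 ∣ a * b := by rw [hab1]; exact ⟨k, by ring⟩
            have h6 : Nat.Coprime (2 * 2) b := by
              have : Nat.Coprime 2 b := (Nat.Prime.coprime_iff_not_dvd Nat.prime_two).2 hb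
              exact Nat.Coprime.mul_left this this
            exact h6.dvd_of_dvd_mul_right h5
          have := hsq 2 h4
          simp at this
      simp [hmu]
  rw [h2] at h1
  -- a.e. function
  have h3 : ∀ᵐ u ∂μ, ∑ p ∈ N.divisorsAntidiagonal,
      (ArithmeticFunction.moebius p.1 : ℝ) * rr hM f (2 * p.2) u = 0 := by
    have h5 := sum_P_ae hM f N.divisorsAntidiagonal
      (fun p => (ArithmeticFunction.moebius p.1 : ℝ)) (fun p => 2 * p.2)
    have h6 : (∑ p ∈ N.divisorsAntidiagonal, (ArithmeticFunction.moebius p.1 : ℝ) •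
      (koop hM).P (2 * p.2) (xL μ f)) = 0 := h1
    rw [h6] at h5
    filter_upwards [h5, Lp.coeFn_zero ℝ 2 μ] with u h6 h7
    rw [← h6, h7]
    rfl
  have h4 : ∀ᵐ u ∂μ, ∑ p ∈ N.divisorsAntidiagonal,
      (ArithmeticFunction.moebius p.1 : ℝ) * rr hM f p.2 u = 0 := by
    have h5 := ae_dl hM two_pos h3
    have h6 : ∀ᵐ u ∂μ, ∀ p ∈ N.divisorsAntidiagonal,
        rr hM f (2 * p.2) (dl 2 u) = bsg (f 2) * rr hM f p.2 u := by
      rw [Finset.eventually_all]
      intro p _
      exact rr_dl hM hf two_pos p.2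
    filter_upwards [h5, h6] with u h7 h8
    have h9 : ∑ p ∈ N.divisorsAntidiagonal,
        (ArithmeticFunction.moebius p.1 : ℝ) * rr hM f (2 * p.2) (dl 2 u) =
        bsg (f 2) * ∑ p ∈ N.divisorsAntidiagonal,
        (ArithmeticFunction.moebius p.1 : ℝ) * rr hM f p.2 u := by
      rw [Finset.mul_sum]
      refine Finset.sum_congr rfl fun p hp => ?_
      rw [h8 p hp]
      ring
    rw [h9] at h7
    rcases mul_eq_zero.1 h7 with h10 | h10
    · have := abs_bsg (f 2)
      rw [h10, abs_zero] at this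
      exact absurd this (by norm_num)
    · exact h10
  have h5 : A.Pi x N = 0 := by
    apply Lp.ext
    have h6 := sum_P_ae hM f N.divisorsAntidiagonal
      (fun p => (ArithmeticFunction.moebius p.1 : ℝ)) (fun p => p.2)
    refine EventuallyEq.trans (show (A.Pi x N : Om → ℝ) =ᵐ[μ] _ from h6) ?_
    refine EventuallyEq.trans ?_ (Lp.coeFn_zero ℝ 2 μ).symm
    filter_upwards [h4] with u hu
    rw [hu]
    rfl
  have h6 := A.norm_Pi_sq x hN
  rw [h5, norm_zero] at h6
  simpa using h6.symm

/-- vanishing of all energies from the energy inequalities -/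
theorem v_zero (hM : Realises M μ) {f : ℕ → Bool} (hf : MulSign f) {α β : ℕ} (hα : 0 < α)
    (hαβ : α < β) (hco : α.Coprime β)
    (h1 : ∀ i : ℕ, ∑ N ∈ (i.factorial).divisors, (koop hM).v (xL μ f) N * (1 + sig α β N) ≤
      8 * tau hM f i.factorial)
    (h3 : ¬ 3 ∣ α * β * (β - α) → ∀ i : ℕ, ∑ N ∈ (i.factorial).divisors,
      (koop hM).v (xL μ f) N * (1 + sig (3 * α) (3 * β) N) ≤ 8 * tau hM f i.factorial)
    {N : ℕ} (hN : 0 < N) : (koop hM).v (xL μ f) N = 0 := by
  classical
  set v := (koop hM).v (xL μ f) with hv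
  have hv0 : ∀ N : ℕ, 0 < N → 0 ≤ v N := fun N hN => (koop hM).v_nonneg _ hN
  have ht := (tendsto_tau hM f).const_mul (8 : ℝ)
  rw [mul_zero] at ht
  -- general principle
  have gen : ∀ (s : ℕ → ℝ) (F : Finset ℕ), (∀ N ∈ F, 0 < N) →
      (∀ N, 0 < N → N ∉ F → 0 ≤ 1 + s N) →
      (∀ i : ℕ, ∑ N ∈ (i.factorial).divisors, v N * (1 + s N) ≤ 8 * tau hM f i.factorial) →
      ∑ N ∈ F, v N * (1 + s N) ≤ 0 := by
    intro s F hF hs hi
    refine ge_of_tendsto ht ?_
    filter_upwards [eventually_ge_atTop (F.sup id)] with i hi2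
    refine le_trans ?_ (hi i)
    apply Finset.sum_le_sum_of_subset_of_nonneg
    · intro N hNF
      rw [Nat.mem_divisors]
      refine ⟨Nat.dvd_factorial (hF N hNF) ((Finset.le_sup (f := id) hNF).trans hi2),
        (Nat.factorial_pos i).ne'⟩
    · intro N hN hNF
      have hN0 : 0 < N := Nat.pos_of_mem_divisors hN
      exact mul_nonneg (hv0 N hN0) (hs N hN0 hNF)
  -- v 3 = 0 in the special case
  have hv3 : ¬ 3 ∣ α * β * (β - α) → v 3 = 0 := by
    intro h
    have hs1 : ∀ N : ℕ, 0 < N → N ∉ ({3, 9} : Finset ℕ) → 0 ≤ 1 + sig α β N := by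
      intro N hN hN2
      exact sig_nonneg hα hαβ hco hN (Or.inl (fun h => hN2 (by simp [h])))
    have hs2 : ∀ N : ℕ, 0 < N → N ∉ ({3, 9} : Finset ℕ) → 0 ≤ 1 + sig (3 * α) (3 * β) N := by
      intro N hN hN2
      rw [sig_three_mul hα hαβ hN]
      split_ifs with hd
      · obtain ⟨k, rfl⟩ := hd
        rw [Nat.mul_div_cancel_left k (by norm_num)]
        apply sig_nonneg hα hαβ hco (by omega)
        left
        rintro rfl
        exact hN2 (by simp)
      · exact sig_nonneg hα hαβ hco hN (Or.inl (fun h => hN2 (by simp [h])))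
    have e1 := gen (sig α β) {3, 9} (by simp) hs1 h1
    have e2 := gen (sig (3 * α) (3 * β)) {3, 9} (by simp) hs2 (h3 h)
    rw [Finset.sum_pair (by norm_num)] at e1 e2
    rw [sig_three hα hαβ h, sig_nine hα hαβ h] at e1
    rw [sig_three_mul hα hαβ (by norm_num), sig_three_mul hα hαβ (by norm_num)] at e2
    norm_num at e2
    rw [sig_one, sig_three hα hαβ h] at e2
    have := hv0 3 (by norm_num)
    have := hv0 9 (by norm_num)
    linarith
  -- positivity kills
  have key : ∀ N : ℕ, 0 < N → (N ≠ 3 ∨ 3 ∣ α * β * (β - α)) → 0 < 1 + sig α β N → v N = 0 := by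
    intro N hN hex hpos
    by_cases h3d : 3 ∣ α * β * (β - α)
    · have e := gen (sig α β) {N} (by simpa using hN)
        (fun N' hN' _ => sig_nonneg hα hαβ hco hN' (Or.inr h3d)) h1
      rw [Finset.sum_singleton] at e
      have := hv0 N hN
      nlinarith
    · have hN3 : N ≠ 3 := hex.resolve_right h3d
      have e := gen (sig α β) {3, N} (by simpa using hN)
        (fun N' hN' h' => sig_nonneg hα hαβ hco hN' (Or.inl (fun h => h' (by simp [h])))) h1
      rw [Finset.sum_pair hN3.symm, hv3 h3d, zero_mul, zero_add] at e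
      have := hv0 N hN
      nlinarith
  -- odd orders
  have hodd : ∀ N : ℕ, Odd N → v N = 0 := by
    intro N hN'
    have hN0 : 0 < N := hN'.pos
    by_cases h3d : N ≠ 3 ∨ 3 ∣ α * β * (β - α)
    · exact key N hN0 h3d (sig_pos_of_odd hα hαβ hco hN' h3d)
    · push Not at h3d
      rw [h3d.1]
      exact hv3 h3d.2
  have hlarge : ∀ N : ℕ, 2 * β < N → v N = 0 := by
    intro N hN'
    by_cases h3d : N ≠ 3 ∨ 3 ∣ α * β * (β - α)
    · exact key N (by omega) h3d (sig_pos_of_large hα hαβ hco hN' h3d)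
    · push Not at h3d
      rw [h3d.1]
      exact hv3 h3d.2
  rcases Nat.even_or_odd N with hev | hod
  · -- descend from 2^k N
    have hdesc : ∀ k : ℕ, ∀ N : ℕ, 0 < N → 2 ∣ N → v (2 ^ k * N) = 0 → v N = 0 := by
      intro k
      induction k with
      | zero => intro N _ _ h; simpa using h
      | succ k ih =>
        intro N hN hd h
        apply v_halve hM hf hN hd
        apply ih (2 * N) (by omega) (Dvd.intro _ rfl)
        rw [show 2 ^ k * (2 * N) = 2 ^ (k + 1) * N by ring]
        exact h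
    apply hdesc (2 * β) N hN hev.two_dvd
    apply hlarge
    calc 2 * β < 2 ^ (2 * β) := Nat.lt_two_pow_self
      _ ≤ 2 ^ (2 * β) * N := Nat.le_mul_of_pos_right _ hN
  · exact hodd N hod

end Pool.Agent.Hhelper89.LehmerFull
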