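import Pool.Agent.Hhelper89.LehmerFull.Mean

/-!
Shannon entropy of finite-valued functions on `ℤ` with respect to a shift-invariant mean.
-/

namespace Pool.Agent.Hhelper89.LehmerFull
namespace Ent

open Finset Filter Topology

variable (M : Mean)

lemma E_zero : M.E (fun _ => 0) = 0 := by
  have := M.smul 0 (fun _ => 1) (Bdd.const 1)
  simpa using this

lemma E_const (c : ℝ) : M.E (fun _ => c) = c := by
  have := M.smul c (fun _ => 1) (Bdd.const 1)
  simpa [M.one] using this

lemma E_sum {ι : Type*} (s : Finset ι) (F : ι → ℤ → ℝ) (hF : ∀ i ∈ s, Bdd (F i)) :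
    M.E (fun n => ∑ i ∈ s, F i n) = ∑ i ∈ s, M.E (F i) := by
  classical
  induction s using Finset.induction_on with
  | empty => simpa using E_zero M
  | insert a s ha ih =>
    simp only [Finset.sum_insert ha]
    rw [M.add _ _ (hF a (Finset.mem_insert_self a s))
      (Bdd.sum s F fun i hi => hF i (Finset.mem_insert_of_mem hi)),
      ih fun i hi => hF i (Finset.mem_insert_of_mem hi)]

lemma E_mono (F G : ℤ → ℝ) (hF : Bdd F) (hG : Bdd G) (h : ∀ n, F n ≤ G n) : M.E F ≤ M.E G := by
  have h1 := M.nonneg (fun n => G n - F n) (hG.sub hF) (fun n => sub_nonneg.2 (h n))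
  have h2 := M.add (fun n => G n - F n) F (hG.sub hF) hF
  simp only [sub_add_cancel] at h2
  rw [h2]
  linarith

lemma bdd_comp {S : Type*} [Finite S] (f : ℤ → S) (φ : S → ℝ) : Bdd (fun n => φ (f n)) := by
  cases nonempty_fintype S
  refine ⟨∑ s, |φ s|, fun n => ?_⟩
  exact Finset.single_le_sum (f := fun s => |φ s|) (fun _ _ => abs_nonneg _) (Finset.mem_univ (f n))

open Classical in
/-- the probability that `f = s` -/
noncomputable def pr {S : Type*} (f : ℤ → S) (s : S) : ℝ := M.E (fun n => if f n = s then 1 else 0)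

open Classical in
lemma pr_bdd {S : Type*} (f : ℤ → S) (s : S) : Bdd (fun n => if f n = s then (1 : ℝ) else 0) :=
  (Bdd.const 1).ite (Bdd.const 0) _

open Classical in
lemma pr_nonneg {S : Type*} (f : ℤ → S) (s : S) : 0 ≤ pr M f s :=
  M.nonneg _ (pr_bdd f s) (fun n => by split_ifs <;> norm_num)

open Classical in
/-- expectation of a function of `f` -/
lemma E_comp {S : Type*} [Fintype S] (f : ℤ → S) (φ : S → ℝ) :
    M.E (fun n => φ (f n)) = ∑ s, pr M f s * φ s := by
  have h1 : (fun n => φ (f n)) = fun n => ∑ s, φ s * (if f n = s then 1 else 0) := by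
    funext n
    simp
  rw [h1, E_sum M _ _ (fun s _ => (pr_bdd f s).const_mul _)]
  refine Finset.sum_congr rfl fun s _ => ?_
  rw [M.smul _ _ (pr_bdd f s), mul_comm]
  rfl

lemma pr_sum {S : Type*} [Fintype S] (f : ℤ → S) : ∑ s, pr M f s = 1 := by
  have := E_comp M f (fun _ => 1)
  simpa [M.one] using this.symm

open Classical in
lemma pr_le_of_imp {S T : Type*} (f : ℤ → S) (g : ℤ → T) (s : S) (t : T)
    (h : ∀ n, f n = s → g n = t) : pr M f s ≤ pr M g t := by
  refine E_mono M _ _ (pr_bdd f s) (pr_bdd g t) (fun n => ?_)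
  by_cases h1 : f n = s
  · rw [if_pos h1, if_pos (h n h1)]
  · rw [if_neg h1]
    split_ifs <;> norm_num

open Classical in
lemma pr_eq_of_iff {S T : Type*} (f : ℤ → S) (g : ℤ → T) (s : S) (t : T)
    (h : ∀ n, f n = s ↔ g n = t) : pr M f s = pr M g t :=
  le_antisymm (pr_le_of_imp M f g s t fun n => (h n).1) (pr_le_of_imp M g f t s fun n => (h n).2)

open Classical in
lemma pr_shift {S : Type*} (f : ℤ → S) (h : ℤ) (s : S) : pr M (fun n => f (n + h)) s = pr M f s :=
  M.shift h _ (pr_bdd f s)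

open Classical in
/-- marginals -/
lemma pr_marg {A B : Type*} [Fintype A] (f : ℤ → A) (g : ℤ → B) (b : B) :
    ∑ a, pr M (fun n => (f n, g n)) (a, b) = pr M g b := by
  unfold pr
  rw [← E_sum M _ _ (fun a _ => (pr_bdd (fun n => (f n, g n)) (a, b)))]
  congr 1
  funext n
  simp only [Prod.mk.injEq]
  by_cases h : g n = b
  · simp [h]
  · simp [h]

/-- Shannon entropy -/
noncomputable def Hn {S : Type*} [Fintype S] (f : ℤ → S) : ℝ := ∑ s, Real.negMulLog (pr M f s)

lemma Hn_eq {S : Type*} [Fintype S] (f : ℤ → S) :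
    Hn M f = - M.E (fun n => Real.log (pr M f (f n))) := by
  rw [E_comp M f (fun s => Real.log (pr M f s)), Hn, ← Finset.sum_neg_distrib]
  refine Finset.sum_congr rfl fun s _ => ?_
  rw [Real.negMulLog]
  ring

lemma Hn_shift {S : Type*} [Fintype S] (f : ℤ → S) (h : ℤ) : Hn M (fun n => f (n + h)) = Hn M f := by
  unfold Hn
  simp only [pr_shift]

lemma Hn_nonneg {S : Type*} [Fintype S] (f : ℤ → S) : 0 ≤ Hn M f := by
  unfold Hn
  refine Finset.sum_nonneg fun s _ => Real.negMulLog_nonneg (pr_nonneg M f s) ?_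
  rw [← pr_sum M f]
  exact Finset.single_le_sum (f := fun s => pr M f s) (fun s _ => pr_nonneg M f s) (Finset.mem_univ s)

lemma log_term (p q : ℝ) (hp : 0 ≤ p) (hq : 0 ≤ q) (h : q = 0 → p = 0) :
    p * (Real.log q - Real.log p) ≤ q - p := by
  rcases hp.eq_or_lt with h0 | h0
  · rw [← h0]; simpa using hq
  · have hq0 : 0 < q := by
      rcases hq.eq_or_lt with h1 | h1
      · exact absurd (h h1.symm) h0.ne'
      · exact h1
    have h2 : Real.log (q / p) ≤ q / p - 1 := Real.log_le_sub_one_of_pos (div_pos hq0 h0)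
    rw [Real.log_div hq0.ne' h0.ne'] at h2
    calc p * (Real.log q - Real.log p) ≤ p * (q / p - 1) := mul_le_mul_of_nonneg_left h2 hp
      _ = q - p := by field_simp

/-- Gibbs inequality -/
lemma gibbs {S : Type*} [Fintype S] (f : ℤ → S) (q : S → ℝ) (hq : ∀ s, 0 ≤ q s)
    (h : ∀ s, q s = 0 → pr M f s = 0) (hs : ∑ s, q s ≤ 1) :
    M.E (fun n => Real.log (q (f n))) + Hn M f ≤ 0 := by
  rw [E_comp M f (fun s => Real.log (q s)), Hn, ← Finset.sum_add_distrib]
  calc ∑ s, (pr M f s * Real.log (q s) + Real.negMulLog (pr M f s))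
      ≤ ∑ s, (q s - pr M f s) := by
        refine Finset.sum_le_sum fun s _ => ?_
        have := log_term (pr M f s) (q s) (pr_nonneg M f s) (hq s) (h s)
        rw [Real.negMulLog]
        linarith
    _ = ∑ s, q s - 1 := by rw [Finset.sum_sub_distrib, pr_sum]
    _ ≤ 0 := by linarith

lemma Hn_le_log_card {S : Type*} [Fintype S] [Nonempty S] (f : ℤ → S) :
    Hn M f ≤ Real.log (Fintype.card S) := by
  have hc : (0 : ℝ) < Fintype.card S := by exact_mod_cast Fintype.card_pos
  have := gibbs M f (fun _ => 1 / (Fintype.card S : ℝ)) (fun _ => by positivity)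
    (fun s hs => by
      exfalso
      have : (0 : ℝ) < 1 / (Fintype.card S : ℝ) := by positivity
      exact this.ne' hs)
    (by rw [Finset.sum_const, Finset.card_univ, nsmul_eq_mul, mul_one_div, div_self hc.ne'])
  rw [E_const, one_div, Real.log_inv] at this
  linarith

/-- a function determined by another one has smaller entropy -/
lemma Hn_le_of_det {S T : Type*} [Fintype S] [Fintype T] (f : ℤ → S) (g : ℤ → T)
    (h : ∀ m n, f m = f n → g m = g n) : Hn M g ≤ Hn M f := by
  classical
  obtain ⟨φ, hφ⟩ : ∃ φ : S → T, ∀ n, g n = φ (f n) := by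
    refine ⟨fun s => if hs : ∃ n, f n = s then g hs.choose else g 0, fun n => ?_⟩
    have hs : ∃ m, f m = f n := ⟨n, rfl⟩
    simp only [dif_pos hs]
    exact h _ _ hs.choose_spec.symm
  rw [Hn_eq, Hn_eq]
  have e1 : (fun n => Real.log (pr M g (g n))) = fun n => (fun s => Real.log (pr M g (φ s))) (f n) := by
    funext n
    simp only [hφ]
  rw [e1, E_comp M f (fun s => Real.log (pr M g (φ s))), E_comp M f (fun s => Real.log (pr M f s))]
  apply neg_le_neg
  refine Finset.sum_le_sum fun s _ => ?_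
  have h1 : pr M f s ≤ pr M g (φ s) := pr_le_of_imp M f g s (φ s) (fun n hn => by rw [hφ, hn])
  rcases (pr_nonneg M f s).eq_or_lt with h0 | h0
  · rw [← h0]; simp
  · exact mul_le_mul_of_nonneg_left (Real.log_le_log h0 h1) h0.le

lemma Hn_eq_of_det {S T : Type*} [Fintype S] [Fintype T] (f : ℤ → S) (g : ℤ → T)
    (h : ∀ m n, f m = f n ↔ g m = g n) : Hn M g = Hn M f :=
  le_antisymm (Hn_le_of_det M f g fun m n => (h m n).1) (Hn_le_of_det M g f fun m n => (h m n).2)

/-- strong subadditivity -/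
lemma Hn_submod {A B C : Type*} [Fintype A] [Fintype B] [Fintype C] (f : ℤ → A) (g : ℤ → B)
    (h : ℤ → C) :
    Hn M (fun n => (f n, g n, h n)) + Hn M h ≤ Hn M (fun n => (f n, h n)) + Hn M (fun n => (g n, h n)) := by
  classical
  set P : A × B × C → ℝ := pr M (fun n => (f n, g n, h n)) with hP
  set Pac : A × C → ℝ := pr M (fun n => (f n, h n)) with hPac
  set Pbc : B × C → ℝ := pr M (fun n => (g n, h n)) with hPbc
  set Pc : C → ℝ := pr M h with hPc
  have n0 : ∀ t, 0 ≤ P t := pr_nonneg M _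
  have n1 : ∀ t, 0 ≤ Pac t := pr_nonneg M _
  have n2 : ∀ t, 0 ≤ Pbc t := pr_nonneg M _
  have n3 : ∀ t, 0 ≤ Pc t := pr_nonneg M _
  have le1 : ∀ a b c, P (a, b, c) ≤ Pac (a, c) := fun a b c =>
    pr_le_of_imp M _ _ _ _ (fun n hn => by simp only [Prod.mk.injEq] at hn ⊢; exact ⟨hn.1, hn.2.2⟩)
  have le2 : ∀ a b c, P (a, b, c) ≤ Pbc (b, c) := fun a b c =>
    pr_le_of_imp M _ _ _ _ (fun n hn => by simp only [Prod.mk.injEq] at hn ⊢; exact hn.2)
  have le3 : ∀ a b c, P (a, b, c) ≤ Pc c := fun a b c =>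
    pr_le_of_imp M _ _ _ _ (fun n hn => by simp only [Prod.mk.injEq] at hn ⊢; exact hn.2.2)
  let q : A × B × C → ℝ := fun t => Pac (t.1, t.2.2) * Pbc (t.2.1, t.2.2) / Pc t.2.2
  have hqsum : ∑ t, q t ≤ 1 := by
    have e1 : ∑ t, q t = ∑ c, Pc c * Pc c / Pc c := by
      rw [Fintype.sum_prod_type]
      simp only [Fintype.sum_prod_type]
      rw [Finset.sum_congr rfl (fun a _ => Finset.sum_comm), Finset.sum_comm]
      refine Finset.sum_congr rfl fun c _ => ?_
      have h1 : ∑ a, Pac (a, c) = Pc c := pr_marg M f h c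
      have h2 : ∑ b, Pbc (b, c) = Pc c := pr_marg M g h c
      calc ∑ a, ∑ b, q (a, b, c) = ((∑ a, Pac (a, c)) * (∑ b, Pbc (b, c))) / Pc c := by
            rw [Finset.sum_mul_sum, Finset.sum_div]
            refine Finset.sum_congr rfl fun a _ => ?_
            rw [Finset.sum_div]
        _ = _ := by rw [h1, h2]
    rw [e1]
    calc ∑ c, Pc c * Pc c / Pc c = ∑ c, Pc c := by
          refine Finset.sum_congr rfl fun c _ => ?_
          rcases eq_or_ne (Pc c) 0 with h0 | h0
          · rw [h0]; simp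
          · field_simp
      _ = 1 := pr_sum M h
      _ ≤ 1 := le_rfl
  have key := gibbs M (fun n => (f n, g n, h n)) q
    (fun t => div_nonneg (mul_nonneg (n1 _) (n2 _)) (n3 _))
    (fun t ht => by
      obtain ⟨a, b, c⟩ := t
      by_contra hne
      have hpos : 0 < P (a, b, c) := lt_of_le_of_ne (n0 _) (Ne.symm hne)
      have h1 := hpos.trans_le (le1 a b c)
      have h2 := hpos.trans_le (le2 a b c)
      have h3 := hpos.trans_le (le3 a b c)
      have : 0 < q (a, b, c) := div_pos (mul_pos h1 h2) h3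
      exact this.ne' ht) hqsum
  have e2 : M.E (fun n => Real.log (q (f n, g n, h n))) =
      - Hn M (fun n => (f n, h n)) - Hn M (fun n => (g n, h n)) + Hn M h := by
    rw [Hn_eq M (fun n => (f n, h n)), Hn_eq M (fun n => (g n, h n)), Hn_eq M h]
    simp only [neg_neg, sub_neg_eq_add]
    rw [E_comp M (fun n => (f n, g n, h n)) (fun t => Real.log (q t))]
    have a1 : M.E (fun n => Real.log (pr M (fun n => (f n, h n)) (f n, h n))) =
        ∑ t, P t * Real.log (Pac (t.1, t.2.2)) :=
      E_comp M (fun n => (f n, g n, h n)) (fun t => Real.log (Pac (t.1, t.2.2)))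
    have a2 : M.E (fun n => Real.log (pr M (fun n => (g n, h n)) (g n, h n))) =
        ∑ t, P t * Real.log (Pbc (t.2.1, t.2.2)) :=
      E_comp M (fun n => (f n, g n, h n)) (fun t => Real.log (Pbc (t.2.1, t.2.2)))
    have a3 : M.E (fun n => Real.log (pr M h (h n))) =
        ∑ t, P t * Real.log (Pc t.2.2) :=
      E_comp M (fun n => (f n, g n, h n)) (fun t => Real.log (Pc t.2.2))
    rw [a1, a2, a3, ← sub_eq_add_neg, ← Finset.sum_add_distrib, ← Finset.sum_sub_distrib]
    refine Finset.sum_congr rfl fun t _ => ?_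
    obtain ⟨a, b, c⟩ := t
    rcases (n0 (a, b, c)).eq_or_lt with h0 | h0
    · rw [← h0]
      have : pr M (fun n => (f n, g n, h n)) (a, b, c) = 0 := h0.symm
      rw [this]; ring
    · have h1 := h0.trans_le (le1 a b c)
      have h2 := h0.trans_le (le2 a b c)
      have h3 := h0.trans_le (le3 a b c)
      simp only [q]
      rw [Real.log_div (mul_pos h1 h2).ne' h3.ne', Real.log_mul h1.ne' h2.ne']
      change P (a, b, c) * _ = _
      ring
  rw [e2] at key
  linarith

end Ent
end Pool.Agent.Hhelper89.LehmerFull
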