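import Pool.Agent.Hhelper89.LehmerFull.EntBase
import Pool.Agent.Hhelper89.LehmerFull.Defs

/-!
Words of a sign sequence, residues modulo the primes in `(P, 2P]`, and the two entropy
inequalities behind the entropy decrement argument.
-/

namespace Pool.Agent.Hhelper89.LehmerFull
namespace Ent

open Finset Filter Topology

/-- index type: the primes in `(P, 2P]` -/
abbrev Ix (P : ℕ) : Type := {p : ℕ // p ∈ PP P}

lemma Ix_prime {P : ℕ} (p : Ix P) : (p : ℕ).Prime := (mem_PP.1 p.2).2

lemma Ix_gt {P : ℕ} (p : Ix P) : P < (p : ℕ) := (mem_PP.1 p.2).1.1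

lemma Ix_le {P : ℕ} (p : Ix P) : (p : ℕ) ≤ 2 * P := (mem_PP.1 p.2).1.2

instance neZeroIx (P : ℕ) (p : Ix P) : NeZero (p : ℕ) := ⟨(Ix_prime p).ne_zero⟩

/-- residue vectors -/
abbrev BB (P : ℕ) : Type := (p : Ix P) → ZMod (p : ℕ)

/-- the residues of `n` -/
def YY (P : ℕ) (n : ℤ) : BB P := fun p => (n : ZMod (p : ℕ))

/-- the word of length `L` at `n` -/
def Wd (X : ℤ → Bool) (L : ℕ) (n : ℤ) : Fin L → Bool := fun j => X (n + (j : ℕ))

lemma YY_add (P : ℕ) (m n : ℤ) : YY P (m + n) = YY P m + YY P n := by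
  funext p
  simp [YY]

lemma YY_surj (P : ℕ) (y : BB P) : ∃ n : ℤ, YY P n = y := by
  classical
  obtain ⟨k, hk⟩ := Nat.chineseRemainderOfFinset (fun p : Ix P => (y p).val) (fun p : Ix P => (p : ℕ))
    Finset.univ (fun p _ => (Ix_prime p).ne_zero) (by
      intro p _ q _ hpq
      refine (Nat.coprime_primes (Ix_prime p) (Ix_prime q)).2 ?_
      intro h
      exact hpq (Subtype.ext h))
  refine ⟨(k : ℤ), ?_⟩
  funext p
  have := hk p (Finset.mem_univ p)
  have h1 := (ZMod.natCast_eq_natCast_iff k (y p).val (p : ℕ)).2 this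
  simp only [YY]
  rw [Int.cast_natCast, h1, ZMod.natCast_zmod_val]

variable (M : Mean)

lemma pr_YY (P : ℕ) (y : BB P) : pr M (YY P) y = 1 / (Fintype.card (BB P) : ℝ) := by
  have h1 : ∀ y y' : BB P, pr M (YY P) y = pr M (YY P) y' := by
    intro y y'
    obtain ⟨h, hh⟩ := YY_surj P (y' - y)
    rw [← pr_shift M (YY P) h y']
    refine pr_eq_of_iff M _ _ _ _ (fun n => ?_)
    rw [YY_add, hh]
    constructor
    · intro e; rw [e]; abel
    · intro e
      rw [eq_sub_of_add_eq e, sub_sub_cancel]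
  have h2 := pr_sum M (YY P)
  rw [Finset.sum_congr rfl (fun z _ => h1 z y), Finset.sum_const, Finset.card_univ, nsmul_eq_mul] at h2
  have hc : (Fintype.card (BB P) : ℝ) ≠ 0 := by
    have : 0 < Fintype.card (BB P) := Fintype.card_pos
    positivity
  rw [eq_div_iff hc, mul_comm]
  exact h2

lemma Hn_YY (P : ℕ) : Hn M (YY P) = Real.log (Fintype.card (BB P)) := by
  rw [Hn_eq]
  simp only [pr_YY]
  rw [E_const, one_div, Real.log_inv, neg_neg]

lemma card_BB (P : ℕ) : Fintype.card (BB P) = ∏ p : Ix P, (p : ℕ) := by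
  rw [Fintype.card_pi]
  exact Finset.prod_congr rfl fun p _ => ZMod.card _

lemma card_BB_le (P : ℕ) : Fintype.card (BB P) ≤ 4 ^ (2 * P) := by
  rw [card_BB]
  calc ∏ p : Ix P, (p : ℕ) = ∏ p ∈ PP P, p := Finset.prod_coe_sort (PP P) (fun p => p)
    _ ≤ primorial (2 * P) := by
        unfold primorial
        refine Finset.prod_le_prod_of_subset_of_one_le' ?_ ?_
        · intro p hp
          rw [mem_PP] at hp
          rw [Finset.mem_filter, Finset.mem_range]
          exact ⟨by omega, hp.2⟩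
        · intro p hp _
          rw [Finset.mem_filter] at hp
          exact hp.2.one_lt.le
    _ ≤ 4 ^ (2 * P) := primorial_le_four_pow _

lemma log_card_BB_le (P : ℕ) : Real.log (Fintype.card (BB P)) ≤ 2 * P * Real.log 4 := by
  have h1 : (Fintype.card (BB P) : ℝ) ≤ (4 : ℝ) ^ (2 * P) := by exact_mod_cast card_BB_le P
  have h2 : (0 : ℝ) < Fintype.card (BB P) := by exact_mod_cast Fintype.card_pos
  calc Real.log (Fintype.card (BB P)) ≤ Real.log ((4 : ℝ) ^ (2 * P)) := Real.log_le_log h2 h1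
    _ = 2 * P * Real.log 4 := by rw [Real.log_pow]; push_cast; ring

/-- entropy of words -/
noncomputable def hW (X : ℤ → Bool) (L : ℕ) : ℝ := Hn M (Wd X L)

/-- joint entropy of words and residues -/
noncomputable def hWY (X : ℤ → Bool) (L P : ℕ) : ℝ := Hn M (fun n => (Wd X L n, YY P n))

/-- mutual information -/
noncomputable def mI (X : ℤ → Bool) (L P : ℕ) : ℝ :=
  hW M X L + Real.log (Fintype.card (BB P)) - hWY M X L P

lemma hW_nonneg (X : ℤ → Bool) (L : ℕ) : 0 ≤ hW M X L := Hn_nonneg M _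

lemma word_step (X : ℤ → Bool) (L P k : ℕ) :
    hWY M X ((k + 1) * L) P + Real.log (Fintype.card (BB P)) ≤ hWY M X (k * L) P + hWY M X L P := by
  have h1 := Hn_submod M (Wd X (k * L)) (fun n => Wd X L (n + (k * L : ℕ))) (YY P)
  have h2 : hWY M X ((k + 1) * L) P ≤
      Hn M (fun n => (Wd X (k * L) n, Wd X L (n + (k * L : ℕ)), YY P n)) := by
    refine Hn_le_of_det M _ _ (fun m n h => ?_)
    simp only [Prod.mk.injEq] at h ⊢
    refine ⟨?_, h.2.2⟩
    funext j
    by_cases hj : (j : ℕ) < k * L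
    · exact congrFun h.1 ⟨j, hj⟩
    · have hj2 : (j : ℕ) - k * L < L := by
        have := j.2
        have e : (k + 1) * L = k * L + L := by ring
        omega
      have := congrFun h.2.1 ⟨(j : ℕ) - k * L, hj2⟩
      simp only [Wd] at this ⊢
      have e : ∀ m : ℤ, m + ((k * L : ℕ) : ℤ) + (((j : ℕ) - k * L : ℕ) : ℤ) = m + ((j : ℕ) : ℤ) := by
        intro m
        rw [not_lt] at hj
        rw [Nat.cast_sub hj]
        ring
      rw [e, e] at this
      exact this
  have h3 : Hn M (fun n => (Wd X L (n + (k * L : ℕ)), YY P n)) ≤ hWY M X L P := by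
    rw [hWY, ← Hn_shift M (fun n => (Wd X L n, YY P n)) ((k * L : ℕ) : ℤ)]
    refine Hn_le_of_det M _ _ (fun m n h => ?_)
    simp only [Prod.mk.injEq] at h ⊢
    refine ⟨h.1, ?_⟩
    have := h.2
    rw [YY_add, YY_add] at this
    exact add_right_cancel this
  have h4 : Hn M (fun n => (Wd X (k * L) n, YY P n)) = hWY M X (k * L) P := rfl
  rw [← Hn_YY M P]
  linarith

lemma word_sub (X : ℤ → Bool) (L P k : ℕ) :
    hW M X (k * L) ≤ Real.log (Fintype.card (BB P)) + k * (hW M X L - mI M X L P) := by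
  have h0 : hW M X (k * L) ≤ hWY M X (k * L) P :=
    Hn_le_of_det M _ _ (fun m n h => by simp only [Prod.mk.injEq] at h; exact h.1)
  have h1 : ∀ k : ℕ, hWY M X (k * L) P ≤ Real.log (Fintype.card (BB P)) +
      k * (hWY M X L P - Real.log (Fintype.card (BB P))) := by
    intro k
    induction k with
    | zero =>
      have : hWY M X (0 * L) P ≤ Hn M (YY P) := by
        refine Hn_le_of_det M _ _ (fun m n h => ?_)
        simp only [Prod.mk.injEq]
        refine ⟨?_, h⟩
        funext j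
        exact absurd j.2 (by simp)
      rw [Hn_YY] at this
      simpa using this
    | succ k ih =>
      have := word_step M X L P k
      push_cast
      linarith
  have h2 := h1 k
  unfold mI
  have e : hW M X L - (hW M X L + Real.log (Fintype.card (BB P)) - hWY M X L P) =
    hWY M X L P - Real.log (Fintype.card (BB P)) := by ring
  rw [e]
  linarith

/-! ### the local observables -/

/-- reading a word -/
def acc {L : ℕ} (x : Fin L → Bool) (k : ℕ) : Bool := if h : k < L then x ⟨k, h⟩ else false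

lemma acc_Wd (X : ℤ → Bool) {L k : ℕ} (h : k < L) (n : ℤ) : acc (Wd X L n) k = X (n + (k : ℕ)) := by
  rw [acc, dif_pos h]
  rfl

/-- the indicator of a sign pattern -/
def pat (t : Bool × Bool × Bool) (u v w : Bool) : ℝ := if (u, v, w) = t then 1 else 0

lemma pat_abs_le (t : Bool × Bool × Bool) (u v w : Bool) : |pat t u v w| ≤ 1 := by
  unfold pat
  split_ifs <;> simp

/-- the local observable -/
noncomputable def zp (α β P : ℕ) (t : Bool × Bool × Bool) {L : ℕ} (x : Fin L → Bool) (p : ℕ)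
    (u : ZMod p) : ℝ :=
  (1 / (P : ℝ)) * ∑ j ∈ range P, pat t (acc x j) (acc x (j + p * α)) (acc x (j + p * β)) *
    ((if u + (j : ZMod p) = 0 then (p : ℝ) else 0) - 1)

lemma zp_sum (α β P : ℕ) (t : Bool × Bool × Bool) {L : ℕ} (x : Fin L → Bool) (p : ℕ) [NeZero p] :
    ∑ u : ZMod p, zp α β P t x p u = 0 := by
  unfold zp
  rw [← Finset.mul_sum, Finset.sum_comm]
  have : ∀ j ∈ range P, ∑ u : ZMod p, pat t (acc x j) (acc x (j + p * α)) (acc x (j + p * β)) *
      ((if u + (j : ZMod p) = 0 then (p : ℝ) else 0) - 1) = 0 := by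
    intro j _
    rw [← Finset.mul_sum, Finset.sum_sub_distrib]
    have e : ∑ u : ZMod p, (if u + (j : ZMod p) = 0 then (p : ℝ) else 0) = p := by
      rw [Finset.sum_eq_single (-(j : ZMod p))]
      · simp
      · intro u _ hu
        rw [if_neg]
        intro h
        exact hu (eq_neg_of_add_eq_zero_left h)
      · intro h
        exact absurd (Finset.mem_univ _) h
    rw [e]
    simp [ZMod.card]
  rw [Finset.sum_congr rfl this]
  simp

lemma zp_abs (α β P : ℕ) (hP : 0 < P) (t : Bool × Bool × Bool) {L : ℕ} (x : Fin L → Bool) (p : ℕ)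
    (hp : P < p) (hp2 : p ≤ 2 * P) (u : ZMod p) : |zp α β P t x p u| ≤ 3 := by
  have hP' : (0 : ℝ) < P := by exact_mod_cast hP
  unfold zp
  rw [abs_mul, abs_of_pos (by positivity : (0 : ℝ) < 1 / (P : ℝ))]
  have h1 : |∑ j ∈ range P, pat t (acc x j) (acc x (j + p * α)) (acc x (j + p * β)) *
      ((if u + (j : ZMod p) = 0 then (p : ℝ) else 0) - 1)| ≤
      ∑ j ∈ range P, ((if u + (j : ZMod p) = 0 then (p : ℝ) else 0) + 1) := by
    refine (Finset.abs_sum_le_sum_abs _ _).trans (Finset.sum_le_sum fun j _ => ?_)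
    rw [abs_mul]
    calc _ ≤ 1 * |(if u + (j : ZMod p) = 0 then (p : ℝ) else 0) - 1| :=
          mul_le_mul_of_nonneg_right (pat_abs_le _ _ _ _) (abs_nonneg _)
      _ ≤ (if u + (j : ZMod p) = 0 then (p : ℝ) else 0) + 1 := by
          rw [one_mul]
          have : (0 : ℝ) ≤ if u + (j : ZMod p) = 0 then (p : ℝ) else 0 := by
            split_ifs
            · exact Nat.cast_nonneg _
            · exact le_rfl
          rw [abs_le]
          constructor <;> linarith
  have h2 : ∑ j ∈ range P, (if u + (j : ZMod p) = 0 then (p : ℝ) else 0) ≤ p := by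
    rw [← Finset.sum_filter, Finset.sum_const, nsmul_eq_mul]
    have hc : ((range P).filter (fun j : ℕ => u + (j : ZMod p) = 0)).card ≤ 1 := by
      rw [Finset.card_le_one]
      intro a ha b hb
      rw [Finset.mem_filter, Finset.mem_range] at ha hb
      have : (a : ZMod p) = (b : ZMod p) := add_left_cancel (ha.2.trans hb.2.symm)
      rw [ZMod.natCast_eq_natCast_iff] at this
      exact Nat.ModEq.eq_of_lt_of_lt this (by omega) (by omega)
    calc ((((range P).filter (fun j : ℕ => u + (j : ZMod p) = 0)).card : ℕ) : ℝ) * p ≤ 1 * p := by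
          refine mul_le_mul_of_nonneg_right ?_ (Nat.cast_nonneg _)
          exact_mod_cast hc
      _ = p := one_mul _
  rw [Finset.sum_add_distrib] at h1
  simp only [Finset.sum_const, Finset.card_range, nsmul_eq_mul, mul_one] at h1
  have h3 : (p : ℝ) ≤ 2 * P := by exact_mod_cast hp2
  rw [one_div, inv_mul_le_iff₀ hP']
  linarith

/-- the discrepancy at `p` -/
noncomputable def DD (X : ℤ → Bool) (α β : ℕ) (t : Bool × Bool × Bool) (p : ℕ) : ℝ :=
  M.E (fun n => pat t (X n) (X (n + (p * α : ℕ))) (X (n + (p * β : ℕ))) *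
      ((if (p : ℤ) ∣ n then (p : ℝ) else 0) - 1))

lemma bdd_pat (X : ℤ → Bool) (α β : ℕ) (F : Bool → Bool → Bool → ℝ) (p : ℕ) :
    Bdd (fun n => F (X n) (X (n + (p * α : ℕ))) (X (n + (p * β : ℕ))) *
      ((if (p : ℤ) ∣ n then (p : ℝ) else 0) - 1)) := by
  refine Bdd.mul ?_ (((Bdd.const (p : ℝ)).ite (Bdd.const 0) _).sub (Bdd.const 1))
  exact bdd_comp (S := Bool × Bool × Bool) (fun n => (X n, X (n + (p * α : ℕ)), X (n + (p * β : ℕ))))
    (fun s => F s.1 s.2.1 s.2.2)

lemma zp_E (X : ℤ → Bool) (α β P : ℕ) (hP : 0 < P) (t : Bool × Bool × Bool) {L : ℕ} (p : ℕ)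
    (hp2 : p ≤ 2 * P) (hL : P + 2 * P * α + 2 * P * β ≤ L) :
    M.E (fun n => zp α β P t (Wd X L n) p (n : ZMod p)) = DD M X α β t p := by
  have hP' : (P : ℝ) ≠ 0 := by positivity
  have e1 : (fun n : ℤ => zp α β P t (Wd X L n) p (n : ZMod p)) =
      fun n => (1 / (P : ℝ)) * ∑ j ∈ range P,
        (fun n : ℤ => pat t (X n) (X (n + (p * α : ℕ))) (X (n + (p * β : ℕ))) *
          ((if (p : ℤ) ∣ n then (p : ℝ) else 0) - 1)) (n + (j : ℕ)) := by
    funext n
    unfold zp
    congr 1
    refine Finset.sum_congr rfl fun j hj => ?_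
    rw [Finset.mem_range] at hj
    have g1 : p * α ≤ 2 * P * α := Nat.mul_le_mul_right _ hp2
    have g2 : p * β ≤ 2 * P * β := Nat.mul_le_mul_right _ hp2
    rw [acc_Wd X (by omega), acc_Wd X (by omega), acc_Wd X (by omega)]
    have e2 : ∀ k : ℕ, n + ((j + k : ℕ) : ℤ) = n + (j : ℕ) + (k : ℕ) := by
      intro k; push_cast; ring
    have e3 : ((n : ZMod p) + (j : ZMod p) = 0) ↔ ((p : ℤ) ∣ n + (j : ℕ)) := by
      rw [← ZMod.intCast_zmod_eq_zero_iff_dvd]
      push_cast
      rfl
    simp only [e2, e3]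
  rw [e1, M.smul _ _ (Bdd.sum _ _ fun j _ => (bdd_pat X α β (pat t) p).comp _),
    E_sum M _ _ (fun j _ => (bdd_pat X α β (pat t) p).comp _)]
  have e2 : ∀ j ∈ range P, M.E (fun n => (fun n : ℤ => pat t (X n) (X (n + (p * α : ℕ)))
      (X (n + (p * β : ℕ))) * ((if (p : ℤ) ∣ n then (p : ℝ) else 0) - 1)) (n + (j : ℕ))) =
      DD M X α β t p := fun j _ => M.shift (j : ℕ) _ (bdd_pat X α β (pat t) p)
  rw [Finset.sum_congr rfl e2, Finset.sum_const, Finset.card_range, nsmul_eq_mul]
  field_simp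

/-! ### exponential moments -/

lemma exp_le_quad {x : ℝ} (hx : |x| ≤ 1) : Real.exp x ≤ 1 + x + x ^ 2 := by
  have := Real.abs_exp_sub_one_sub_id_le hx
  have := (abs_le.1 this).2
  linarith

lemma mgf_one (α β P : ℕ) (hP : 0 < P) (t : Bool × Bool × Bool) {L : ℕ} (x : Fin L → Bool) (p : ℕ)
    [NeZero p] (hp : P < p) (hp2 : p ≤ 2 * P) (s : ℝ) (hs : |s| ≤ 1 / 3) :
    ∑ u : ZMod p, Real.exp (s * zp α β P t x p u) ≤ p * Real.exp (9 * s ^ 2) := by
  have h1 : ∀ u : ZMod p, Real.exp (s * zp α β P t x p u) ≤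
      1 + s * zp α β P t x p u + 9 * s ^ 2 := by
    intro u
    have hz := zp_abs α β P hP t x p hp hp2 u
    have h2 : |s * zp α β P t x p u| ≤ 1 := by
      rw [abs_mul]
      calc |s| * |zp α β P t x p u| ≤ (1 / 3) * 3 :=
            mul_le_mul hs hz (abs_nonneg _) (by norm_num)
        _ = 1 := by norm_num
    refine (exp_le_quad h2).trans ?_
    have h3 : (s * zp α β P t x p u) ^ 2 ≤ 9 * s ^ 2 := by
      rw [mul_pow]
      have : zp α β P t x p u ^ 2 ≤ 9 := by
        rw [← sq_abs]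
        nlinarith [abs_nonneg (zp α β P t x p u)]
      nlinarith [sq_nonneg s]
    linarith
  calc ∑ u : ZMod p, Real.exp (s * zp α β P t x p u)
      ≤ ∑ u : ZMod p, (1 + s * zp α β P t x p u + 9 * s ^ 2) := Finset.sum_le_sum fun u _ => h1 u
    _ = p * (1 + 9 * s ^ 2) := by
        rw [Finset.sum_add_distrib, Finset.sum_add_distrib, ← Finset.mul_sum, zp_sum]
        simp only [Finset.sum_const, Finset.card_univ, ZMod.card, nsmul_eq_mul, mul_one, mul_zero,
          add_zero]
        ring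
    _ ≤ p * Real.exp (9 * s ^ 2) := by
        refine mul_le_mul_of_nonneg_left ?_ (Nat.cast_nonneg _)
        have := Real.add_one_le_exp (9 * s ^ 2)
        linarith

lemma mgf (α β P : ℕ) (hP : 0 < P) (t : Bool × Bool × Bool) {L : ℕ} (x : Fin L → Bool)
    (l : ℝ) (hl : 0 ≤ l) (hl2 : l ≤ 1 / 3) (s : Ix P → ℝ) (hs : ∀ p, |s p| ≤ 1) :
    ∑ y : BB P, Real.exp (l * ∑ p : Ix P, s p * zp α β P t x (p : ℕ) (y p)) ≤
      (Fintype.card (BB P) : ℝ) * Real.exp (9 * l ^ 2 * (PP P).card) := by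
  have e1 : ∀ y : BB P, Real.exp (l * ∑ p : Ix P, s p * zp α β P t x (p : ℕ) (y p)) =
      ∏ p : Ix P, Real.exp ((l * s p) * zp α β P t x (p : ℕ) (y p)) := by
    intro y
    rw [Finset.mul_sum, Real.exp_sum]
    exact Finset.prod_congr rfl fun p _ => by rw [mul_assoc]
  simp only [e1]
  have e2 : ∑ y : BB P, ∏ p : Ix P, Real.exp ((l * s p) * zp α β P t x (p : ℕ) (y p)) =
      ∏ p : Ix P, ∑ u : ZMod (p : ℕ), Real.exp ((l * s p) * zp α β P t x (p : ℕ) u) := by
    rw [Finset.prod_univ_sum]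
    rw [Fintype.piFinset_univ]
  rw [e2]
  calc ∏ p : Ix P, ∑ u : ZMod (p : ℕ), Real.exp ((l * s p) * zp α β P t x (p : ℕ) u)
      ≤ ∏ p : Ix P, ((p : ℕ) : ℝ) * Real.exp (9 * l ^ 2) := by
        refine Finset.prod_le_prod (fun p _ => Finset.sum_nonneg fun u _ => (Real.exp_pos _).le)
          (fun p _ => ?_)
        have hsp := hs p
        have h1 : |l * s p| ≤ l := by
          rw [abs_mul, abs_of_nonneg hl]
          exact mul_le_of_le_one_right hl hsp
        refine (mgf_one α β P hP t x (p : ℕ) (Ix_gt p) (Ix_le p) (l * s p) (h1.trans hl2)).trans ?_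
        refine mul_le_mul_of_nonneg_left (Real.exp_le_exp.2 ?_) (Nat.cast_nonneg _)
        have : (l * s p) ^ 2 ≤ l ^ 2 := by
          rw [← sq_abs (l * s p)]
          exact pow_le_pow_left₀ (abs_nonneg _) h1 2
        linarith
    _ = (Fintype.card (BB P) : ℝ) * Real.exp (9 * l ^ 2 * (PP P).card) := by
        rw [Finset.prod_mul_distrib, Finset.prod_const, card_BB, ← Real.exp_nat_mul]
        have : (Finset.univ : Finset (Ix P)).card = (PP P).card := by
          rw [Finset.card_univ, Fintype.card_coe]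
        rw [this]
        push_cast
        congr 2
        ring

/-- the Donsker-Varadhan step -/
lemma info_bound (X : ℤ → Bool) (α β P : ℕ) (hP : 0 < P) (t : Bool × Bool × Bool) {L : ℕ}
    (hL : P + 2 * P * α + 2 * P * β ≤ L)
    (l : ℝ) (hl : 0 ≤ l) (hl2 : l ≤ 1 / 3) (s : Ix P → ℝ) (hs : ∀ p, |s p| ≤ 1) :
    l * ∑ p : Ix P, s p * DD M X α β t (p : ℕ) ≤ 9 * l ^ 2 * (PP P).card + mI M X L P := by
  classical
  let G : (Fin L → Bool) × BB P → ℝ := fun z => l * ∑ p : Ix P, s p * zp α β P t z.1 (p : ℕ) (z.2 p)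
  have hG : M.E (fun n => G (Wd X L n, YY P n)) = l * ∑ p : Ix P, s p * DD M X α β t (p : ℕ) := by
    have hb : ∀ p : Ix P, Bdd (fun n => zp α β P t (Wd X L n) (p : ℕ) (YY P n p)) := fun p =>
      bdd_comp (S := (Fin L → Bool) × BB P) (fun n => (Wd X L n, YY P n))
        (fun z => zp α β P t z.1 (p : ℕ) (z.2 p))
    simp only [G]
    rw [M.smul _ _ (Bdd.sum _ _ fun p _ => (hb p).const_mul _),
      E_sum M _ _ (fun p _ => (hb p).const_mul _)]
    congr 1
    refine Finset.sum_congr rfl fun p _ => ?_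
    rw [M.smul _ _ (hb p)]
    congr 1
    exact zp_E M X α β P hP t (p : ℕ) (Ix_le p) hL
  set c : ℝ := (Fintype.card (BB P) : ℝ) with hc
  have hc0 : 0 < c := by rw [hc]; exact_mod_cast Fintype.card_pos
  set K : ℝ := 9 * l ^ 2 * (PP P).card with hK
  let q : (Fin L → Bool) × BB P → ℝ := fun z => pr M (Wd X L) z.1 * (Real.exp (G z) / (c * Real.exp K))
  have n0 : ∀ x, 0 ≤ pr M (Wd X L) x := pr_nonneg M _
  have le1 : ∀ x y, pr M (fun n => (Wd X L n, YY P n)) (x, y) ≤ pr M (Wd X L) x := fun x y =>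
    pr_le_of_imp M _ _ _ _ (fun n hn => by simp only [Prod.mk.injEq] at hn; exact hn.1)
  have hq0 : ∀ z, 0 ≤ q z := fun z => mul_nonneg (n0 _) (by positivity)
  have hqs : ∑ z, q z ≤ 1 := by
    rw [Fintype.sum_prod_type]
    calc ∑ x, ∑ y, q (x, y) ≤ ∑ x, pr M (Wd X L) x := by
          refine Finset.sum_le_sum fun x _ => ?_
          simp only [q]
          rw [← Finset.mul_sum, ← Finset.sum_div]
          have h1 := mgf α β P hP t x l hl hl2 s hs
          have h2 : (∑ y : BB P, Real.exp (G (x, y))) / (c * Real.exp K) ≤ 1 := by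
            rw [div_le_one (by positivity)]
            exact h1
          exact mul_le_of_le_one_right (n0 x) h2
      _ = 1 := pr_sum M _
  have key := gibbs M (fun n => (Wd X L n, YY P n)) q hq0 (fun z hz => by
      obtain ⟨x, y⟩ := z
      by_contra hne
      have hpos : 0 < pr M (fun n => (Wd X L n, YY P n)) (x, y) :=
        lt_of_le_of_ne (pr_nonneg M _ _) (Ne.symm hne)
      have h1 := hpos.trans_le (le1 x y)
      have : 0 < q (x, y) := mul_pos h1 (by positivity)
      exact this.ne' hz) hqs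
  have e1 : M.E (fun n => Real.log (q (Wd X L n, YY P n))) =
      - hW M X L + M.E (fun n => G (Wd X L n, YY P n)) - (Real.log c + K) := by
    rw [hW, Hn_eq, neg_neg, E_comp M (fun n => (Wd X L n, YY P n)) (fun z => Real.log (q z)),
      E_comp M (fun n => (Wd X L n, YY P n)) G]
    have a1 : M.E (fun n => Real.log (pr M (Wd X L) (Wd X L n))) =
        ∑ z, pr M (fun n => (Wd X L n, YY P n)) z * Real.log (pr M (Wd X L) z.1) :=
      E_comp M (fun n => (Wd X L n, YY P n)) (fun z => Real.log (pr M (Wd X L) z.1))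
    have a2 : Real.log c + K = ∑ z, pr M (fun n => (Wd X L n, YY P n)) z * (Real.log c + K) := by
      rw [← Finset.sum_mul, pr_sum, one_mul]
    rw [a1, a2, ← Finset.sum_add_distrib, ← Finset.sum_sub_distrib]
    refine Finset.sum_congr rfl fun z _ => ?_
    obtain ⟨x, y⟩ := z
    rcases (pr_nonneg M (fun n => (Wd X L n, YY P n)) (x, y)).eq_or_lt with h0 | h0
    · rw [← h0]; ring
    · have h1 := h0.trans_le (le1 x y)
      simp only [q]
      rw [Real.log_mul h1.ne' (by positivity), Real.log_div (Real.exp_pos _).ne' (by positivity),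
        Real.log_mul hc0.ne' (Real.exp_pos _).ne', Real.log_exp, Real.log_exp]
      ring
  rw [e1, hG] at key
  have e2 : Hn M (fun n => (Wd X L n, YY P n)) = hWY M X L P := rfl
  rw [e2] at key
  unfold mI
  linarith

end Ent
end Pool.Agent.Hhelper89.LehmerFull
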