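import Pool.Agent.Hhelper89.LehmerFull.Avg

/-!
If the almost periodic part vanishes, an avoided colour forces periodicity, a contradiction.
-/

namespace Pool.Agent.Hhelper89.LehmerFull

open Finset Filter Topology MeasureTheory
open Pool.Agent.Hhelper89.Lehmer
open scoped InnerProductSpace ENNReal

variable {M : Mean} {μ : Measure Om} [IsProbabilityMeasure μ]

/-- the correlation -/
noncomputable def CC (μ : Measure Om) (f : ℕ → Bool) (h : ℤ) : ℝ := ∫ u, xx f u * xx f (sh h u) ∂μ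

lemma CC_eq_inner (hM : Realises M μ) (f : ℕ → Bool) (h : ℤ) :
    CC μ f h = ⟪xL μ f, (koop hM).K h (xL μ f)⟫_ℝ := by
  rw [xL, koop_toL, inner_eq' (toL_coe _) (toL_coe _)]
  rfl

lemma CC_pair (hM : Realises M μ) (f : ℕ → Bool) (h k : ℤ) :
    ∫ u, xx f (sh h u) * xx f (sh k u) ∂μ = CC μ f (k - h) := by
  have h2 := integral_sh hM h ((BM_xx f).mul ((BM_xx f).comp (measurable_sh (k - h))))
  unfold CC
  rw [← h2]
  congr 1
  funext u
  rw [sh_sh, show k - h + h = k by ring]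

lemma CC_zero_of (hM : Realises M μ) {f : ℕ → Bool} (hf : MulSign f) {α β γ : ℕ}
    (hγ : 0 < γ) (hR : (koop hM).R (xL μ f) = 0)
    (h : ∀ ε : ℝ, ∀ p : ℕ, 0 < p → Decouples M (phi f) α β ε p →
      |CC μ f ((p * γ : ℕ) : ℤ) - CC μ f γ| ≤ ε) : CC μ f γ = 0 := by
  rw [← abs_nonpos_iff]
  apply le_of_forall_pos_le_add
  intro ε hε
  set ε₁ : ℝ := min (ε / 4) (1 / 2) with hε₁
  have hε₁0 : 0 < ε₁ := lt_min (by positivity) (by norm_num)
  have hε₁' : ε₁ ≤ ε / 4 := min_le_left _ _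
  obtain ⟨P₁, hP₁⟩ := pavg hM hf γ hγ (1 / 8) (by norm_num) ε₁ hε₁0
  obtain ⟨P, hP, S, hSP, hSc, hSD⟩ := exists_good_scale M f α β hε₁0 (min_le_right _ _) (max P₁ 2)
  have h1 := hP₁ P ((le_max_left _ _).trans hP) S hSP hSc
  rw [hR, sub_zero] at h1
  have hlog : 0 < Real.log P := Real.log_pos (by
    have : 2 ≤ P := (le_max_right _ _).trans hP
    exact_mod_cast this)
  have hP0 : (0 : ℝ) < P := by
    have : 2 ≤ P := (le_max_right _ _).trans hP
    positivity
  have hS0 : (0 : ℝ) < S.card := lt_of_lt_of_le (by positivity) hSc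
  have h2 : |(1 / (S.card : ℝ)) * ∑ p ∈ S, CC μ f ((p * γ : ℕ) : ℤ)| ≤ ε₁ := by
    have h3 : (1 / (S.card : ℝ)) * ∑ p ∈ S, CC μ f ((p * γ : ℕ) : ℤ) =
        ⟪xL μ f, (1 / (S.card : ℝ)) • ∑ p ∈ S, (koop hM).K ((p * γ : ℕ) : ℤ) (xL μ f)⟫_ℝ := by
      rw [real_inner_smul_right, inner_sum]
      congr 1
      exact Finset.sum_congr rfl fun p _ => CC_eq_inner hM f _
    rw [h3]
    refine (abs_real_inner_le_norm _ _).trans ?_
    rw [norm_xL, one_mul]
    exact h1
  have h3 : |(1 / (S.card : ℝ)) * ∑ p ∈ S, CC μ f ((p * γ : ℕ) : ℤ) - CC μ f γ| ≤ ε₁ := by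
    have h4 : (1 / (S.card : ℝ)) * ∑ p ∈ S, CC μ f ((p * γ : ℕ) : ℤ) - CC μ f γ =
        (1 / (S.card : ℝ)) * ∑ p ∈ S, (CC μ f ((p * γ : ℕ) : ℤ) - CC μ f γ) := by
      rw [Finset.sum_sub_distrib, Finset.sum_const, nsmul_eq_mul]
      field_simp
    rw [h4, abs_mul, abs_of_pos (by positivity : 0 < 1 / (S.card : ℝ)), one_div,
      inv_mul_le_iff₀ hS0]
    refine (Finset.abs_sum_le_sum_abs _ _).trans ?_
    have h5 : ∀ p ∈ S, |CC μ f ((p * γ : ℕ) : ℤ) - CC μ f γ| ≤ ε₁ := fun p hp =>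
      h ε₁ p (mem_PP.1 (hSP hp)).2.pos (hSD p hp)
    have h6 := Finset.sum_le_sum h5
    rwa [Finset.sum_const, nsmul_eq_mul] at h6
  have h4 : CC μ f γ = (1 / (S.card : ℝ)) * ∑ p ∈ S, CC μ f ((p * γ : ℕ) : ℤ) -
      ((1 / (S.card : ℝ)) * ∑ p ∈ S, CC μ f ((p * γ : ℕ) : ℤ) - CC μ f γ) := by ring
  rw [h4]
  refine (abs_sub _ _).trans ?_
  linarith

/-! ### periodicity -/

/-- the step on states -/
def step (β : ℕ) (G : Bool → Bool → Bool) (α : ℕ) (s : Fin β → Bool) (i : Fin β) : Bool :=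
  if h : (i : ℕ) + 1 < β then s ⟨i + 1, h⟩ else
    if h2 : 0 < β ∧ α < β then G (s ⟨0, h2.1⟩) (s ⟨α, h2.2⟩) else false

lemma step_injective {α β : ℕ} (hα : 0 < α) (hαβ : α < β) (G : Bool → Bool → Bool)
    (hG : ∀ x x' y, G x y = G x' y → x = x') : Function.Injective (step β G α) := by
  intro s t hst
  have h1 : ∀ i : ℕ, ∀ hi : i + 1 < β, s ⟨i + 1, hi⟩ = t ⟨i + 1, hi⟩ := by
    intro i hi
    have := congrFun hst ⟨i, by omega⟩
    unfold step at this
    simp only [hi, dif_pos] at this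
    exact this
  have h2 : s ⟨0, by omega⟩ = t ⟨0, by omega⟩ := by
    have h3 := congrFun hst ⟨β - 1, by omega⟩
    unfold step at h3
    have h4 : ¬ (β - 1 + 1 < β) := by omega
    simp only [h4, dif_neg, not_false_eq_true] at h3
    have h5 : 0 < β ∧ α < β := ⟨by omega, hαβ⟩
    simp only [h5, and_self, dif_pos] at h3
    obtain ⟨k, rfl⟩ : ∃ k, α = k + 1 := ⟨α - 1, by omega⟩
    rw [h1 k hαβ] at h3
    exact hG _ _ _ h3
  funext i
  rcases i with ⟨i, hi⟩
  rcases i with _ | i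
  · exact h2
  · exact h1 i hi

lemma exists_period {α β : ℕ} (hα : 0 < α) (hαβ : α < β) (G : Bool → Bool → Bool)
    (hG : ∀ x x' y, G x y = G x' y → x = x') :
    ∃ m : ℕ, 0 < m ∧ ∀ a : ℕ → Bool, (∀ n, a (n + β) = G (a n) (a (n + α))) → a m = a 0 := by
  have hinj := step_injective hα hαβ G hG
  set e : Equiv.Perm (Fin β → Bool) := Equiv.ofBijective _ (Finite.injective_iff_bijective.1 hinj)
    with he
  refine ⟨orderOf e, orderOf_pos e, fun a ha => ?_⟩
  have hβ : 0 < β := by omega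
  have h1 : ∀ n : ℕ, (e ^ n) (fun i : Fin β => a i) = fun i : Fin β => a (n + i) := by
    intro n
    induction n with
    | zero => funext i; simp
    | succ n ih =>
      rw [pow_succ', Equiv.Perm.mul_apply, ih]
      funext i
      rw [he]
      simp only [Equiv.ofBijective_apply]
      unfold step
      by_cases h : (i : ℕ) + 1 < β
      · rw [dif_pos h]
        show a (n + ((i : ℕ) + 1)) = a (n + 1 + (i : ℕ))
        rw [show n + ((i : ℕ) + 1) = n + 1 + (i : ℕ) by omega]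
      · rw [dif_neg h, dif_pos ⟨hβ, hαβ⟩]
        have h2 : n + 1 + (i : ℕ) = n + β := by
          have := i.2
          omega
        rw [h2, ha]
        simp
  have h2 := h1 (orderOf e)
  rw [pow_orderOf_eq_one] at h2
  have h3 := congrFun h2 ⟨0, hβ⟩
  simpa using h3.symm

/-- the almost periodic part cannot vanish -/
theorem R_ne_zero (hM : Realises M μ) {f : ℕ → Bool} (hf : MulSign f) {α β : ℕ}
    (hα : 0 < α) (hαβ : α < β) {c₀ : Bool}
    (hav : ∀ n : ℕ, 0 < n → ¬ (f n = c₀ ∧ f (n + α) = c₀ ∧ f (n + β) = c₀)) :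
    (koop hM).R (xL μ f) ≠ 0 := by
  intro hR
  have hbb : ∀ x y : Bool, |bsg x * bsg y| ≤ 1 := fun x y => by
    rw [abs_mul, abs_bsg, abs_bsg, one_mul]
  -- pair correlations
  have c1 : CC μ f α = 0 := by
    apply CC_zero_of hM hf (α := α) (β := β) hα hR
    intro ε p hp hD
    have := decoupled hM hf hp hD (fun x y _ => bsg x * bsg y) (fun x y _ => hbb x y)
    simp only [bsg_beq] at this
    have e1 : CC μ f α = ∫ u, bsg (f p) * bsg (hat (phi f) u) *
        (bsg (f p) * bsg (hat (phi f) (sh (α : ℤ) u))) ∂μ := by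
      refine integral_congr_ae (Eventually.of_forall fun u => ?_)
      show xx f u * xx f (sh (α : ℤ) u) = _
      rw [xx_eq, xx_eq]
      linear_combination (-(bsg (hat (phi f) u) * bsg (hat (phi f) (sh (α : ℤ) u)))) *
        (bsg_mul_self (f p))
    rw [e1]
    exact this
  have c2 : CC μ f β = 0 := by
    apply CC_zero_of hM hf (α := α) (β := β) (by omega) hR
    intro ε p hp hD
    have := decoupled hM hf hp hD (fun x _ z => bsg x * bsg z) (fun x _ z => hbb x z)
    simp only [bsg_beq] at this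
    have e1 : CC μ f β = ∫ u, bsg (f p) * bsg (hat (phi f) u) *
        (bsg (f p) * bsg (hat (phi f) (sh (β : ℤ) u))) ∂μ := by
      refine integral_congr_ae (Eventually.of_forall fun u => ?_)
      show xx f u * xx f (sh (β : ℤ) u) = _
      rw [xx_eq, xx_eq]
      linear_combination (-(bsg (hat (phi f) u) * bsg (hat (phi f) (sh (β : ℤ) u)))) *
        (bsg_mul_self (f p))
    rw [e1]
    exact this
  have c3 : CC μ f (β - α : ℕ) = 0 := by
    apply CC_zero_of hM hf (α := α) (β := β) (by omega) hR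
    intro ε p hp hD
    have := decoupled hM hf hp hD (fun _ y z => bsg y * bsg z) (fun _ y z => hbb y z)
    simp only [bsg_beq] at this
    have e1 := CC_pair hM f ((p * α : ℕ) : ℤ) ((p * β : ℕ) : ℤ)
    have e2 := CC_pair hM f (α : ℤ) (β : ℤ)
    have e3 : ((p * β : ℕ) : ℤ) - ((p * α : ℕ) : ℤ) = ((p * (β - α) : ℕ) : ℤ) := by
      push_cast [hαβ.le]; ring
    have e4 : (β : ℤ) - α = ((β - α : ℕ) : ℤ) := by push_cast [hαβ.le]; ring
    rw [e3] at e1
    rw [e4] at e2
    have e5 : ∫ u, xx f (sh (α : ℤ) u) * xx f (sh (β : ℤ) u) ∂μ =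
        ∫ u, bsg (f p) * bsg (hat (phi f) (sh (α : ℤ) u)) *
        (bsg (f p) * bsg (hat (phi f) (sh (β : ℤ) u))) ∂μ := by
      refine integral_congr_ae (Eventually.of_forall fun u => ?_)
      show xx f (sh (α : ℤ) u) * xx f (sh (β : ℤ) u) = _
      rw [xx_eq, xx_eq]
      linear_combination (-(bsg (hat (phi f) (sh (α : ℤ) u)) *
        bsg (hat (phi f) (sh (β : ℤ) u)))) * (bsg_mul_self (f p))
    rw [← e1, ← e2, e5]
    exact this
  -- the mean
  have c0 : ∫ u, xx f u ∂μ = 0 := by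
    have h1 := (koop hM).inner_sub_R (xL μ f) one_pos (y := toL μ _ (BM.const 1)) (by
      rw [koop_toL])
    rw [hR, sub_zero, xL, inner_eq' (toL_coe _) (toL_coe _)] at h1
    simpa using h1
  have m0 : ∀ h : ℤ, ∫ u, xx f (sh h u) ∂μ = 0 := by
    intro h
    rw [integral_sh hM h (BM_xx f), c0]
  -- the triple correlation
  set c := bsg c₀ with hc
  have hcc : c * c = 1 := bsg_mul_self _
  have hx0 := BM_xx f
  have hxα : BM (fun u => xx f (sh (α : ℤ) u)) := (BM_xx f).comp (measurable_sh _)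
  have hxβ : BM (fun u => xx f (sh (β : ℤ) u)) := (BM_xx f).comp (measurable_sh _)
  have hind := avoid_one hM hav
  have t1 : ∫ u, xx f u * xx f (sh (α : ℤ) u) * xx f (sh (β : ℤ) u) ∂μ = -c := by
    have e1 : ∀ u, (if hat (phi f) u = c₀ ∧ hat (phi f) (sh (α : ℤ) u) = c₀ ∧
        hat (phi f) (sh (β : ℤ) u) = c₀ then (1 : ℝ) else 0) =
        (1 / 8) * (1 + c * xx f u + c * xx f (sh (α : ℤ) u) + c * xx f (sh (β : ℤ) u) +
          xx f u * xx f (sh (α : ℤ) u) + xx f u * xx f (sh (β : ℤ) u) +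
          xx f (sh (α : ℤ) u) * xx f (sh (β : ℤ) u) +
          c * (xx f u * xx f (sh (α : ℤ) u) * xx f (sh (β : ℤ) u))) := by
      intro u
      rw [xx_eq, xx_eq, xx_eq, hc]
      cases c₀ <;> cases hat (phi f) u <;> cases hat (phi f) (sh (α : ℤ) u) <;>
        cases hat (phi f) (sh (β : ℤ) u) <;> simp [bsg] <;> norm_num
    simp only [e1] at hind
    rw [integral_const_mul] at hind
    have i0 := (BM.const 1).integrable (μ := μ)
    have i1 := (hx0.const_mul c).integrable (μ := μ)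
    have i2 := (hxα.const_mul c).integrable (μ := μ)
    have i3 := (hxβ.const_mul c).integrable (μ := μ)
    have i4 := (hx0.mul hxα).integrable (μ := μ)
    have i5 := (hx0.mul hxβ).integrable (μ := μ)
    have i6 := (hxα.mul hxβ).integrable (μ := μ)
    have i7 := (((hx0.mul hxα).mul hxβ).const_mul c).integrable (μ := μ)
    have j1 : Integrable (fun u => 1 + c * xx f u) μ := i0.add i1
    have j2 : Integrable (fun u => 1 + c * xx f u + c * xx f (sh (α : ℤ) u)) μ := j1.add i2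
    have j3 : Integrable (fun u => 1 + c * xx f u + c * xx f (sh (α : ℤ) u) +
      c * xx f (sh (β : ℤ) u)) μ := j2.add i3
    have j4 : Integrable (fun u => 1 + c * xx f u + c * xx f (sh (α : ℤ) u) +
      c * xx f (sh (β : ℤ) u) + xx f u * xx f (sh (α : ℤ) u)) μ := j3.add i4
    have j5 : Integrable (fun u => 1 + c * xx f u + c * xx f (sh (α : ℤ) u) +
      c * xx f (sh (β : ℤ) u) + xx f u * xx f (sh (α : ℤ) u) +
      xx f u * xx f (sh (β : ℤ) u)) μ := j4.add i5
    have j6 : Integrable (fun u => 1 + c * xx f u + c * xx f (sh (α : ℤ) u) +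
      c * xx f (sh (β : ℤ) u) + xx f u * xx f (sh (α : ℤ) u) +
      xx f u * xx f (sh (β : ℤ) u) + xx f (sh (α : ℤ) u) * xx f (sh (β : ℤ) u)) μ := j5.add i6
    rw [integral_add j6 i7, integral_add j5 i6, integral_add j4 i5, integral_add j3 i4,
      integral_add j2 i3, integral_add j1 i2, integral_add i0 i1,
      integral_const_mul, integral_const_mul, integral_const_mul, integral_const_mul, c0, m0, m0,
      CC_pair hM] at hind
    have e4 : (β : ℤ) - α = ((β - α : ℕ) : ℤ) := by push_cast [hαβ.le]; ring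
    have k1 : ∫ u, xx f u * xx f (sh (α : ℤ) u) ∂μ = 0 := c1
    have k2 : ∫ u, xx f u * xx f (sh (β : ℤ) u) ∂μ = 0 := c2
    rw [e4, c3, k1, k2] at hind
    simp only [integral_const, probReal_univ, one_smul, mul_zero, add_zero] at hind
    have h5 : 1 + c * ∫ u, xx f u * xx f (sh (α : ℤ) u) * xx f (sh (β : ℤ) u) ∂μ = 0 := by linarith
    have h6 : c * (1 + c * ∫ u, xx f u * xx f (sh (α : ℤ) u) * xx f (sh (β : ℤ) u) ∂μ) = 0 := by
      rw [h5, mul_zero]
    have h7 : c * (1 + c * ∫ u, xx f u * xx f (sh (α : ℤ) u) * xx f (sh (β : ℤ) u) ∂μ) =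
      c + (c * c) * ∫ u, xx f u * xx f (sh (α : ℤ) u) * xx f (sh (β : ℤ) u) ∂μ := by ring
    rw [h7, hcc] at h6
    linarith
  -- a.e. relation
  have t2 : ∀ᵐ u ∂μ, xx f u * xx f (sh (α : ℤ) u) * xx f (sh (β : ℤ) u) = -c := by
    have hB := (hx0.mul hxα).mul hxβ
    have h1 : ∫ u, (xx f u * xx f (sh (α : ℤ) u) * xx f (sh (β : ℤ) u) + c) ^ 2 ∂μ = 0 := by
      have e : (fun u => (xx f u * xx f (sh (α : ℤ) u) * xx f (sh (β : ℤ) u) + c) ^ 2) =
          fun u => (2 * c) * (xx f u * xx f (sh (α : ℤ) u) * xx f (sh (β : ℤ) u)) + 2 := by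
        funext u
        have h2 := xx_sq f u
        have h3 := xx_sq f (sh (α : ℤ) u)
        have h4 := xx_sq f (sh (β : ℤ) u)
        have h5 : (xx f u * xx f (sh (α : ℤ) u) * xx f (sh (β : ℤ) u)) *
          (xx f u * xx f (sh (α : ℤ) u) * xx f (sh (β : ℤ) u)) = 1 := by
          have : (xx f u * xx f (sh (α : ℤ) u) * xx f (sh (β : ℤ) u)) *
            (xx f u * xx f (sh (α : ℤ) u) * xx f (sh (β : ℤ) u)) =
            (xx f u * xx f u) * (xx f (sh (α : ℤ) u) * xx f (sh (α : ℤ) u)) *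
            (xx f (sh (β : ℤ) u) * xx f (sh (β : ℤ) u)) := by ring
          rw [this, h2, h3, h4]; norm_num
        linear_combination h5 + hcc
      rw [e, integral_add (hB.const_mul _).integrable (BM.const 2).integrable, integral_const_mul, t1]
      simp only [integral_const, probReal_univ, one_smul]
      linear_combination (-2) * hcc
    have h2 := (integral_eq_zero_iff_of_nonneg (fun u => sq_nonneg
      (xx f u * xx f (sh (α : ℤ) u) * xx f (sh (β : ℤ) u) + c))
      ((hB.add (BM.const c)).pow 2).integrable).1 h1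
    filter_upwards [h2] with u hu
    have : xx f u * xx f (sh (α : ℤ) u) * xx f (sh (β : ℤ) u) + c = 0 := by simpa using hu
    linarith
  -- recurrence for the Boolean sequence
  set G : Bool → Bool → Bool := fun x y => !(c₀ == (x == y)) with hG
  have hGinj : ∀ x x' y, G x y = G x' y → x = x' := by
    intro x x' y
    rw [hG]
    cases c₀ <;> cases x <;> cases x' <;> cases y <;> simp
  obtain ⟨m, hm, hper⟩ := exists_period hα hαβ G hGinj
  have t3 : ∀ᵐ u ∂μ, xx f (sh (m : ℤ) u) = xx f u := by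
    have h1 : ∀ᵐ u ∂μ, ∀ n : ℕ, xx f (sh (n : ℤ) u) * xx f (sh (α : ℤ) (sh (n : ℤ) u)) *
        xx f (sh (β : ℤ) (sh (n : ℤ) u)) = -c := by
      rw [ae_all_iff]
      intro n
      exact ae_sh hM n t2
    filter_upwards [h1] with u hu
    have h2 := hper (fun n => hat (phi f) (sh (n : ℤ) u)) (by
      intro n
      have h3 := hu n
      rw [sh_sh, sh_sh, show (α : ℤ) + n = ((n + α : ℕ) : ℤ) by push_cast; ring,
        show (β : ℤ) + n = ((n + β : ℕ) : ℤ) by push_cast; ring, xx_eq, xx_eq, xx_eq] at h3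
      rw [hG]
      dsimp only
      revert h3
      rw [hc]
      cases c₀ <;> cases hat (phi f) (sh (n : ℤ) u) <;>
        cases hat (phi f) (sh ((n + α : ℕ) : ℤ) u) <;>
        cases hat (phi f) (sh ((n + β : ℕ) : ℤ) u) <;> simp [bsg] <;> norm_num)
    rw [xx_eq, xx_eq, h2]
    congr 2
    rw [Nat.cast_zero, sh_zero]
  have t4 : (koop hM).K m (xL μ f) = xL μ f := by
    rw [xL, koop_toL]
    exact toL_congr _ _ t3
  have t5 := (koop hM).inner_sub_R (xL μ f) hm t4
  rw [hR, sub_zero, real_inner_self_eq_norm_sq, norm_xL] at t5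
  norm_num at t5

end Pool.Agent.Hhelper89.LehmerFull
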