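import Pool.Agent.Hhelper89.LehmerFull.Defs

/-!
Projections on the periodic vectors of a unitary action of `ℤ` on a real Hilbert space.
-/

namespace Pool.Agent.Hhelper89.LehmerFull

open Finset Filter Topology
open scoped InnerProductSpace

/-- a unitary action of `ℤ` -/
structure ZAct (𝓗 : Type*) [NormedAddCommGroup 𝓗] [InnerProductSpace ℝ 𝓗] where
  /-- the operators -/
  K : ℤ → 𝓗 →ₗᵢ[ℝ] 𝓗
  zero : ∀ x, K 0 x = x
  add : ∀ h k x, K (h + k) x = K h (K k x)

namespace ZAct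

variable {𝓗 : Type*} [NormedAddCommGroup 𝓗] [InnerProductSpace ℝ 𝓗]

section basic

variable (A : ZAct 𝓗)

lemma K_neg (h : ℤ) (x : 𝓗) : A.K (-h) (A.K h x) = x := by
  rw [← A.add, neg_add_cancel, A.zero]

lemma K_neg' (h : ℤ) (x : 𝓗) : A.K h (A.K (-h) x) = x := by
  rw [← A.add, add_neg_cancel, A.zero]

lemma K_comm (h k : ℤ) (x : 𝓗) : A.K h (A.K k x) = A.K k (A.K h x) := by
  rw [← A.add, add_comm, A.add]

lemma inner_K (h : ℤ) (x y : 𝓗) : ⟪A.K h x, y⟫_ℝ = ⟪x, A.K (-h) y⟫_ℝ := by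
  rw [← (A.K h).inner_map_map x (A.K (-h) y), K_neg']

lemma K_iterate (d : ℤ) (n : ℕ) (x : 𝓗) : (A.K d)^[n] x = A.K (n * d) x := by
  induction n with
  | zero => simp [A.zero]
  | succ n ih =>
    rw [Function.iterate_succ_apply', ih, ← A.add]
    congr 2
    push_cast
    ring

/-- vectors of period `d` -/
noncomputable def fix (d : ℕ) : Submodule ℝ 𝓗 :=
  (A.K d).toContinuousLinearMap.eqLocus (1 : 𝓗 →L[ℝ] 𝓗)

lemma mem_fix {d : ℕ} {x : 𝓗} : x ∈ A.fix d ↔ A.K d x = x := Iff.rfl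

lemma K_mul_of_mem {d : ℤ} {x : 𝓗} (hx : A.K d x = x) (n : ℤ) : A.K (n * d) x = x := by
  have hneg : A.K (-d) x = x := by
    conv_lhs => rw [← hx]
    exact A.K_neg d x
  rcases Int.eq_nat_or_neg n with ⟨k, rfl | rfl⟩
  · rw [← A.K_iterate]
    exact Function.iterate_fixed hx k
  · have : (-(k : ℤ)) * d = (k : ℤ) * (-d) := by ring
    rw [this, ← A.K_iterate]
    exact Function.iterate_fixed hneg k

lemma fix_mono {d e : ℕ} (h : d ∣ e) : A.fix d ≤ A.fix e := by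
  intro x hx
  obtain ⟨k, rfl⟩ := h
  rw [mem_fix] at hx ⊢
  have := A.K_mul_of_mem hx k
  push_cast
  rwa [mul_comm]

lemma mem_fix_gcd {d e : ℕ} {x : 𝓗} (hd : x ∈ A.fix d) (he : x ∈ A.fix e) :
    x ∈ A.fix (Nat.gcd d e) := by
  rw [mem_fix] at *
  rw [Nat.gcd_eq_gcd_ab, A.add, mul_comm (e : ℤ), A.K_mul_of_mem he, mul_comm (d : ℤ),
    A.K_mul_of_mem hd]

lemma K_mem_fix {d : ℕ} {x : 𝓗} (hx : x ∈ A.fix d) (h : ℤ) : A.K h x ∈ A.fix d := by
  rw [mem_fix] at *
  rw [K_comm, hx]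

end basic

variable [CompleteSpace 𝓗] (A : ZAct 𝓗)

instance (d : ℕ) : CompleteSpace (A.fix d) := by unfold fix; infer_instance

/-- the projection on the vectors of period `d` -/
noncomputable def P (d : ℕ) (x : 𝓗) : 𝓗 := (A.fix d).starProjection x

lemma P_mem (d : ℕ) (x : 𝓗) : A.P d x ∈ A.fix d := Submodule.starProjection_apply_mem _ _

lemma K_P (d : ℕ) (x : 𝓗) : A.K d (A.P d x) = A.P d x := A.P_mem d x

lemma P_eq_of {d : ℕ} {x v : 𝓗} (hv : v ∈ A.fix d) (h : ∀ y ∈ A.fix d, ⟪x - v, y⟫_ℝ = 0) :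
    A.P d x = v := (Submodule.eq_starProjection_of_mem_of_inner_eq_zero hv h)

lemma inner_sub_P {d : ℕ} (x : 𝓗) {y : 𝓗} (hy : y ∈ A.fix d) : ⟪x - A.P d x, y⟫_ℝ = 0 :=
  Submodule.starProjection_inner_eq_zero _ _ hy

lemma inner_P {d : ℕ} (x : 𝓗) {y : 𝓗} (hy : y ∈ A.fix d) : ⟪A.P d x, y⟫_ℝ = ⟪x, y⟫_ℝ := by
  have := A.inner_sub_P x hy
  rw [inner_sub_left] at this
  linarith

lemma P_of_mem {d : ℕ} {x : 𝓗} (hx : x ∈ A.fix d) : A.P d x = x :=
  A.P_eq_of hx (fun y _ => by simp)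

lemma norm_P_le (d : ℕ) (x : 𝓗) : ‖A.P d x‖ ≤ ‖x‖ := Submodule.norm_starProjection_apply_le _ _

lemma P_symm (d : ℕ) (x y : 𝓗) : ⟪A.P d x, y⟫_ℝ = ⟪x, A.P d y⟫_ℝ :=
  Submodule.inner_starProjection_left_eq_right _ _ _

lemma K_P_comm (d : ℕ) (h : ℤ) (x : 𝓗) : A.K h (A.P d x) = A.P d (A.K h x) := by
  symm
  apply A.P_eq_of (A.K_mem_fix (A.P_mem d x) h)
  intro y hy
  rw [← map_sub, A.inner_K]
  exact A.inner_sub_P x (A.K_mem_fix hy _)

lemma P_P (d e : ℕ) (x : 𝓗) : A.P d (A.P e x) = A.P (Nat.gcd d e) x := by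
  symm
  apply A.P_eq_of
  · apply A.mem_fix_gcd (A.P_mem _ _)
    rw [mem_fix, K_P_comm, K_P]
  · intro y hy
    have hd : y ∈ A.fix d := A.fix_mono (Nat.gcd_dvd_left d e) hy
    have he : y ∈ A.fix e := A.fix_mono (Nat.gcd_dvd_right d e) hy
    rw [inner_sub_left, A.inner_P _ hd, A.inner_P _ he, sub_self]

/-- the energy of period `d` -/
noncomputable def V (x : 𝓗) (d : ℕ) : ℝ := ‖A.P d x‖ ^ 2

lemma inner_P_P (x : 𝓗) (d e : ℕ) : ⟪A.P d x, A.P e x⟫_ℝ = A.V x (Nat.gcd d e) := by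
  rw [A.P_symm, A.P_P]
  have : A.P (Nat.gcd d e) x = A.P (Nat.gcd d e) (A.P (Nat.gcd d e) x) := by
    rw [A.P_P, Nat.gcd_self]
  rw [this, ← A.P_symm, real_inner_self_eq_norm_sq]
  rfl

lemma inner_P_self (x : 𝓗) (d : ℕ) : ⟪x, A.P d x⟫_ℝ = A.V x d := by
  have := A.inner_P x (A.P_mem d x)
  rw [← this, real_inner_self_eq_norm_sq]
  rfl

lemma norm_P_sub_sq (x : 𝓗) {d e : ℕ} (h : d ∣ e) :
    ‖A.P e x - A.P d x‖ ^ 2 = A.V x e - A.V x d := by
  rw [norm_sub_sq_real, A.inner_P_P, Nat.gcd_eq_right h]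
  unfold V
  ring

lemma V_mono (x : 𝓗) {d e : ℕ} (h : d ∣ e) : A.V x d ≤ A.V x e := by
  have := A.norm_P_sub_sq x h
  have h2 := sq_nonneg ‖A.P e x - A.P d x‖
  linarith

lemma V_nonneg (x : 𝓗) (d : ℕ) : 0 ≤ A.V x d := sq_nonneg _

lemma V_le (x : 𝓗) (d : ℕ) : A.V x d ≤ ‖x‖ ^ 2 :=
  pow_le_pow_left₀ (norm_nonneg _) (A.norm_P_le d x) 2

/-- the mean ergodic theorem -/
theorem tendsto_avg (d : ℕ) (x : 𝓗) :
    Tendsto (fun N : ℕ => (N : ℝ)⁻¹ • ∑ n ∈ range N, A.K (n * d) x) atTop (𝓝 (A.P d x)) := by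
  have h := ContinuousLinearMap.tendsto_birkhoffAverage_orthogonalProjection
    (A.K d).toContinuousLinearMap (LinearIsometry.norm_toContinuousLinearMap_le _) x
  have h2 : (fun N => birkhoffAverage ℝ (A.K d).toContinuousLinearMap _root_.id N x) =
      fun N : ℕ => (N : ℝ)⁻¹ • ∑ n ∈ range N, A.K (n * d) x := by
    funext N
    unfold birkhoffAverage birkhoffSum
    congr 1
    refine Finset.sum_congr rfl fun n _ => ?_
    simp only [id]
    exact A.K_iterate d n x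
  rw [h2] at h
  exact h

/-! ### the limit of the projections -/

lemma V_factorial_mono (x : 𝓗) : Monotone (fun i : ℕ => A.V x (i.factorial)) := by
  intro i j hij
  exact A.V_mono x (Nat.factorial_dvd_factorial hij)

lemma cauchy_P (x : 𝓗) : CauchySeq (fun i : ℕ => A.P i.factorial x) := by
  have hb : BddAbove (Set.range fun i : ℕ => A.V x i.factorial) :=
    ⟨‖x‖ ^ 2, by rintro _ ⟨i, rfl⟩; exact A.V_le x _⟩
  have hc : CauchySeq (fun i : ℕ => A.V x i.factorial) :=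
    (tendsto_atTop_ciSup (A.V_factorial_mono x) hb).cauchySeq
  rw [Metric.cauchySeq_iff'] at hc ⊢
  intro ε hε
  obtain ⟨N, hN⟩ := hc (ε ^ 2) (by positivity)
  refine ⟨N, fun n hn => ?_⟩
  have h1 := hN n hn
  have h2 := A.norm_P_sub_sq x (Nat.factorial_dvd_factorial hn)
  rw [dist_eq_norm]
  rw [Real.dist_eq] at h1
  have h3 := lt_of_le_of_lt (le_abs_self _) h1
  rw [← h2] at h3
  exact lt_of_pow_lt_pow_left₀ 2 hε.le h3

/-- the projection on the closure of the periodic vectors -/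
noncomputable def R (x : 𝓗) : 𝓗 := lim ((atTop : Filter ℕ).map (fun i : ℕ => A.P i.factorial x))

lemma tendsto_R (x : 𝓗) : Tendsto (fun i : ℕ => A.P i.factorial x) atTop (𝓝 (A.R x)) :=
  tendsto_nhds_limUnder (cauchySeq_tendsto_of_complete (A.cauchy_P x))

lemma R_mem (x : 𝓗) : A.R x ∈ closure {v : 𝓗 | ∃ m : ℕ, 0 < m ∧ A.K m v = v} := by
  refine mem_closure_of_tendsto (A.tendsto_R x) (Filter.Eventually.of_forall fun i => ?_)
  exact ⟨i.factorial, Nat.factorial_pos i, A.K_P _ _⟩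

lemma inner_sub_R (x : 𝓗) {m : ℕ} (hm : 0 < m) {y : 𝓗} (hy : A.K m y = y) :
    ⟪x - A.R x, y⟫_ℝ = 0 := by
  have h1 : Tendsto (fun i : ℕ => ⟪x - A.P i.factorial x, y⟫_ℝ) atTop (𝓝 ⟪x - A.R x, y⟫_ℝ) :=
    (tendsto_const_nhds.sub (A.tendsto_R x)).inner tendsto_const_nhds
  refine tendsto_nhds_unique h1 ?_
  refine tendsto_const_nhds.congr' ?_
  filter_upwards [eventually_ge_atTop m] with i hi
  refine (A.inner_sub_P x ?_).symm
  exact A.fix_mono (Nat.dvd_factorial hm hi) hy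

/-- Bessel for the increments of the projections at different primes -/
lemma sum_V_le (x : 𝓗) (W : ℕ) (Q : Finset ℕ) (hQ : ∀ q ∈ Q, q.Prime) :
    ∑ q ∈ Q, (A.V x (q * W) - A.V x W) ≤ ‖x‖ ^ 2 := by
  classical
  set S := ∑ q ∈ Q, (A.V x (q * W) - A.V x W) with hS
  set y := ∑ q ∈ Q, (A.P (q * W) x - A.P W x) with hy
  have h1 : ⟪x, y⟫_ℝ = S := by
    rw [hy, inner_sum, hS]
    refine Finset.sum_congr rfl fun q _ => ?_
    rw [inner_sub_right, A.inner_P_self, A.inner_P_self]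
  have h2 : ‖y‖ ^ 2 = S := by
    rw [← real_inner_self_eq_norm_sq, hy, sum_inner, hS]
    refine Finset.sum_congr rfl fun q hq => ?_
    rw [inner_sum, Finset.sum_eq_single q]
    · rw [real_inner_self_eq_norm_sq, A.norm_P_sub_sq x (Dvd.intro_left q rfl)]
    · intro q' hq' hne
      have hco : Nat.Coprime q q' := (Nat.coprime_primes (hQ q hq) (hQ q' hq')).2 hne.symm
      rw [inner_sub_left, inner_sub_right, inner_sub_right, A.inner_P_P, A.inner_P_P, A.inner_P_P,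
        A.inner_P_P, Nat.gcd_mul_right, hco, Nat.gcd_eq_right (Dvd.intro_left q rfl : W ∣ q * W),
        Nat.gcd_eq_left (Dvd.intro_left q' rfl : W ∣ q' * W), Nat.gcd_self, one_mul]
      ring
    · intro h; exact absurd hq h
  have h3 : S ≤ ‖x‖ * ‖y‖ := by rw [← h1]; exact real_inner_le_norm x y
  have h4 : 0 ≤ ‖y‖ := norm_nonneg _
  rcases h4.eq_or_lt with h5 | h5
  · rw [← h2, ← h5]
    nlinarith [sq_nonneg ‖x‖]
  · have h6 : ‖y‖ ≤ ‖x‖ := by
      rw [← h2, pow_two] at h3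
      exact le_of_mul_le_mul_right h3 h5
    rw [← h2]
    exact pow_le_pow_left₀ h4 h6 2

/-! ### sums over multiples of a divisor of the period -/

lemma sum_K_P (x : 𝓗) {W e h : ℕ} (hW : 0 < W) (he : e ∣ W) :
    ∑ c ∈ range (W / e), ⟪A.K (((c * e : ℕ) : ℤ) * h) (A.P W x), A.P W x⟫_ℝ =
      ((W / e : ℕ) : ℝ) * A.V x (Nat.gcd (e * h) W) := by
  obtain ⟨m, rfl⟩ := he
  have he0 : 0 < e := Nat.pos_of_mul_pos_right hW
  have hm0 : 0 < m := Nat.pos_of_mul_pos_left hW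
  rw [Nat.mul_div_cancel_left m he0]
  set y := A.P (e * m) x with hy
  have hym : A.K ((e * m : ℕ) : ℤ) y = y := A.K_P _ x
  set B := (m : ℝ)⁻¹ • ∑ c ∈ range m, A.K (((c * e : ℕ) : ℤ) * h) y with hB
  have hmR : (m : ℝ) ≠ 0 := by positivity
  have hBP : A.P (e * h) y = B := by
    apply A.P_eq_of
    · rw [mem_fix, hB, map_smul, map_sum]
      congr 1
      have h1 : ∀ c : ℕ, A.K ((e * h : ℕ) : ℤ) (A.K (((c * e : ℕ) : ℤ) * h) y) =
          A.K ((((c + 1) * e : ℕ) : ℤ) * h) y := by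
        intro c
        rw [← A.add]
        congr 2
        push_cast
        ring
      simp only [h1]
      have h2 := Finset.sum_range_succ (fun c => A.K (((c * e : ℕ) : ℤ) * h) y) m
      have h3 := Finset.sum_range_succ' (fun c => A.K (((c * e : ℕ) : ℤ) * h) y) m
      have h4 : A.K (((m * e : ℕ) : ℤ) * h) y = y := by
        have := A.K_mul_of_mem hym h
        rw [show ((m * e : ℕ) : ℤ) * h = (h : ℤ) * ((e * m : ℕ) : ℤ) by push_cast; ring]
        exact this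
      have h5 : A.K (((0 * e : ℕ) : ℤ) * h) y = y := by
        simp [A.zero]
      rw [h4] at h2
      rw [h5] at h3
      have := h3.symm.trans h2
      exact add_right_cancel this
    · intro z hz
      rw [inner_sub_left, hB, real_inner_smul_left, sum_inner]
      have : ∀ c ∈ range m, ⟪A.K (((c * e : ℕ) : ℤ) * h) y, z⟫_ℝ = ⟪y, z⟫_ℝ := by
        intro c _
        rw [A.inner_K]
        have := A.K_mul_of_mem ((A.mem_fix).1 hz) (-(c : ℤ))
        rw [show -(((c * e : ℕ) : ℤ) * h) = -(c : ℤ) * ((e * h : ℕ) : ℤ) by push_cast; ring, this]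
      rw [Finset.sum_congr rfl this, Finset.sum_const, Finset.card_range, nsmul_eq_mul]
      field_simp
      ring
  have h6 : ⟪B, y⟫_ℝ = A.V x (Nat.gcd (e * h) (e * m)) := by
    rw [← hBP, hy, A.P_P, A.inner_P_P]
    congr 1
    exact Nat.gcd_eq_left (Nat.gcd_dvd_right _ _)
  rw [← h6, hB, real_inner_smul_left, sum_inner]
  field_simp

/-! ### energies of exact orders -/

/-- the energy of exact order `N` -/
noncomputable def v (x : 𝓗) (N : ℕ) : ℝ :=
  ∑ p ∈ N.divisorsAntidiagonal, (ArithmeticFunction.moebius p.1 : ℝ) * A.V x p.2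

lemma V_eq_sum (x : 𝓗) {d : ℕ} (hd : 0 < d) : A.V x d = ∑ N ∈ d.divisors, A.v x N := by
  have h := (ArithmeticFunction.sum_eq_iff_sum_mul_moebius_eq (f := A.v x) (g := A.V x)).2
    (fun n _ => rfl)
  exact (h d hd).symm

/-- the component of exact order `N` -/
noncomputable def Pi (x : 𝓗) (N : ℕ) : 𝓗 :=
  ∑ p ∈ N.divisorsAntidiagonal, (ArithmeticFunction.moebius p.1 : ℝ) • A.P p.2 x

lemma inner_Pi (x : 𝓗) {N e : ℕ} (hN : 0 < N) (he : e ∣ N) :
    ⟪A.Pi x N, A.P e x⟫_ℝ = if e = N then A.v x N else 0 := by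
  classical
  have he0 : 0 < e := Nat.pos_of_dvd_of_pos he hN
  unfold Pi
  rw [sum_inner]
  simp only [real_inner_smul_left, A.inner_P_P]
  -- V (gcd d e) = sum over k ∣ d, k ∣ e
  have h1 : ∀ p ∈ N.divisorsAntidiagonal, A.V x (Nat.gcd p.2 e) =
      ∑ k ∈ e.divisors, if k ∣ p.2 then A.v x k else 0 := by
    intro p hp
    have hp2 : p.2 ∣ N := by
      rw [Nat.mem_divisorsAntidiagonal] at hp
      exact Dvd.intro_left _ hp.1
    have hp0 : 0 < p.2 := Nat.pos_of_dvd_of_pos hp2 hN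
    rw [A.V_eq_sum x (Nat.gcd_pos_of_pos_left _ hp0), ← Finset.sum_filter]
    apply Finset.sum_congr _ (fun _ _ => rfl)
    ext k
    simp only [Nat.mem_divisors, Finset.mem_filter]
    constructor
    · rintro ⟨h, _⟩
      exact ⟨⟨h.trans (Nat.gcd_dvd_right _ _), he0.ne'⟩, h.trans (Nat.gcd_dvd_left _ _)⟩
    · rintro ⟨⟨h, _⟩, h'⟩
      exact ⟨Nat.dvd_gcd h' h, (Nat.gcd_pos_of_pos_left _ hp0).ne'⟩
  rw [Finset.sum_congr rfl (fun p hp => by rw [h1 p hp, Finset.mul_sum])]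
  rw [Finset.sum_comm]
  -- for fixed k : ∑_{p} μ(p.1) [k ∣ p.2] v k = v k * [k = N]
  have h2 : ∀ k ∈ e.divisors, ∑ p ∈ N.divisorsAntidiagonal,
      (ArithmeticFunction.moebius p.1 : ℝ) * (if k ∣ p.2 then A.v x k else 0) =
      if k = N then A.v x N else 0 := by
    intro k hk
    have hkN : k ∣ N := (Nat.dvd_of_mem_divisors hk).trans he
    obtain ⟨m, rfl⟩ := hkN
    have hk0 : 0 < k := Nat.pos_of_mul_pos_right hN
    have hm0 : 0 < m := Nat.pos_of_mul_pos_left hN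
    have h3 : ∑ p ∈ (k * m).divisorsAntidiagonal,
        (ArithmeticFunction.moebius p.1 : ℝ) * (if k ∣ p.2 then A.v x k else 0) =
        ∑ i ∈ m.divisors, (ArithmeticFunction.moebius i : ℝ) * A.v x k := by
      rw [Nat.sum_divisorsAntidiagonal (f := fun i j =>
        (ArithmeticFunction.moebius i : ℝ) * (if k ∣ j then A.v x k else 0))]
      have h4 : ∀ i ∈ (k * m).divisors, (ArithmeticFunction.moebius i : ℝ) *
          (if k ∣ (k * m) / i then A.v x k else 0) =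
          if i ∣ m then (ArithmeticFunction.moebius i : ℝ) * A.v x k else 0 := by
        intro i hi
        have hik : i ∣ k * m := Nat.dvd_of_mem_divisors hi
        have h5 : k ∣ (k * m) / i ↔ i ∣ m := by
          obtain ⟨j, hj⟩ := hik
          have hi0 : 0 < i := Nat.pos_of_mem_divisors hi
          rw [hj, Nat.mul_div_cancel_left j hi0]
          constructor
          · rintro ⟨l, rfl⟩
            have : k * m = k * (i * l) := by rw [hj]; ring
            exact ⟨l, Nat.eq_of_mul_eq_mul_left hk0 this⟩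
          · rintro ⟨l, rfl⟩
            have : i * j = i * (k * l) := by rw [← hj]; ring
            exact ⟨l, Nat.eq_of_mul_eq_mul_left hi0 this⟩
        by_cases h6 : i ∣ m
        · rw [if_pos (h5.2 h6), if_pos h6]
        · rw [if_neg (fun h => h6 (h5.1 h)), if_neg h6, mul_zero]
      rw [Finset.sum_congr rfl h4, ← Finset.sum_filter]
      apply Finset.sum_congr _ (fun _ _ => rfl)
      ext i
      simp only [Nat.mem_divisors, Finset.mem_filter]
      constructor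
      · rintro ⟨⟨_, _⟩, h⟩
        exact ⟨h, hm0.ne'⟩
      · rintro ⟨h, _⟩
        exact ⟨⟨h.mul_left k, hN.ne'⟩, h⟩
    rw [h3, ← Finset.sum_mul]
    have h7 : ∑ i ∈ m.divisors, (ArithmeticFunction.moebius i : ℝ) = if m = 1 then 1 else 0 := by
      have := ArithmeticFunction.coe_moebius_mul_coe_zeta (R := ℝ)
      have h8 := congrArg (fun g : ArithmeticFunction ℝ => g m) this
      simp only [ArithmeticFunction.coe_mul_zeta_apply, ArithmeticFunction.one_apply] at h8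
      rw [← h8]
      exact Finset.sum_congr rfl fun i _ => rfl
    rw [h7]
    by_cases hm1 : m = 1
    · subst hm1; simp
    · rw [if_neg hm1, zero_mul, if_neg]
      intro h
      apply hm1
      have : k * 1 = k * m := by rw [mul_one]; exact h
      exact (Nat.eq_of_mul_eq_mul_left hk0 this).symm
  rw [Finset.sum_congr rfl h2]
  by_cases heN : e = N
  · rw [if_pos heN]
    subst heN
    rw [Finset.sum_ite_eq' e.divisors e, if_pos (Nat.mem_divisors_self e he0.ne')]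
  · rw [if_neg heN]
    apply Finset.sum_eq_zero
    intro k hk
    rw [if_neg]
    rintro rfl
    exact heN (Nat.dvd_antisymm he (Nat.dvd_of_mem_divisors hk))

lemma norm_Pi_sq (x : 𝓗) {N : ℕ} (hN : 0 < N) : ‖A.Pi x N‖ ^ 2 = A.v x N := by
  classical
  rw [← real_inner_self_eq_norm_sq]
  conv_lhs => arg 3; unfold Pi
  rw [inner_sum]
  rw [Finset.sum_eq_single (1, N)]
  · rw [real_inner_smul_right, A.inner_Pi x hN dvd_rfl]
    simp
  · rintro ⟨i, j⟩ hp hne
    rw [real_inner_smul_right]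
    have hp' := Nat.mem_divisorsAntidiagonal.1 hp
    rw [A.inner_Pi x hN (Dvd.intro_left _ hp'.1), if_neg, mul_zero]
    intro hj
    apply hne
    simp only at hj hp'
    subst hj
    have : i = 1 := by
      have h1 : i * j = 1 * j := by rw [one_mul]; exact hp'.1
      exact Nat.eq_of_mul_eq_mul_right (Nat.pos_of_ne_zero hp'.2) h1
    rw [this]
  · intro h
    exact absurd (Nat.mem_divisorsAntidiagonal.2 ⟨one_mul N, hN.ne'⟩) h

lemma v_nonneg (x : 𝓗) {N : ℕ} (hN : 0 < N) : 0 ≤ A.v x N := by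
  rw [← A.norm_Pi_sq x hN]; positivity

end ZAct

end Pool.Agent.Hhelper89.LehmerFull
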