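import Pool.Agent.Hhelper89.LehmerFull.System
import Pool.Agent.Hhelper89.LehmerFull.Proj

/-!
The Koopman action on `L²(μ)`, the sign observable and its projections on the functions of a given
period; their behaviour under dilations.
-/

namespace Pool.Agent.Hhelper89.LehmerFull

open Finset Filter Topology MeasureTheory
open Pool.Agent.Hhelper89.Lehmer
open scoped InnerProductSpace ENNReal

/-- Bessel's inequality for orthogonal vectors -/
lemma bessel_orth {𝓗 : Type*} [NormedAddCommGroup 𝓗] [InnerProductSpace ℝ 𝓗] {ι : Type*}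
    (Q : Finset ι) (y : ι → 𝓗) (c : ι → ℝ) (hc : ∀ i ∈ Q, 0 < c i)
    (ho : ∀ i ∈ Q, ∀ j ∈ Q, i ≠ j → ⟪y i, y j⟫_ℝ = 0) (hn : ∀ i ∈ Q, ⟪y i, y i⟫_ℝ = c i) (F : 𝓗) :
    ∑ i ∈ Q, ⟪F, y i⟫_ℝ ^ 2 / c i ≤ ‖F‖ ^ 2 := by
  classical
  set z := ∑ i ∈ Q, (⟪F, y i⟫_ℝ / c i) • y i with hz
  have h1 : ⟪F, z⟫_ℝ = ∑ i ∈ Q, ⟪F, y i⟫_ℝ ^ 2 / c i := by
    rw [hz, inner_sum]
    refine Finset.sum_congr rfl fun i _ => ?_
    rw [real_inner_smul_right]
    ring
  have h2 : ⟪z, z⟫_ℝ = ∑ i ∈ Q, ⟪F, y i⟫_ℝ ^ 2 / c i := by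
    conv_lhs => rw [hz]
    rw [sum_inner]
    refine Finset.sum_congr rfl fun i hi => ?_
    rw [real_inner_smul_left, inner_sum, Finset.sum_eq_single i]
    · rw [real_inner_smul_right, hn i hi]
      have := (hc i hi).ne'
      field_simp
    · intro j hj hne
      rw [real_inner_smul_right, ho i hi j hj hne.symm, mul_zero]
    · intro h; exact absurd hi h
  have h3 : 0 ≤ ⟪F - z, F - z⟫_ℝ := real_inner_self_nonneg
  rw [inner_sub_left, inner_sub_right, inner_sub_right, real_inner_comm F z, h1, h2,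
    real_inner_self_eq_norm_sq] at h3
  linarith

variable {M : Mean} {μ : Measure Om} [IsProbabilityMeasure μ]

/-- the Koopman action -/
noncomputable def koop (hM : Realises M μ) : ZAct (Lp ℝ 2 μ) where
  K h := Lp.compMeasurePreservingₗᵢ ℝ (sh h) (measurePreserving_sh hM h)
  zero x := by
    apply Lp.ext
    have h1 := Lp.coeFn_compMeasurePreserving x (measurePreserving_sh hM 0)
    refine EventuallyEq.trans h1 ?_
    have : sh 0 = id := by funext u; exact sh_zero u
    rw [this]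
    rfl
  add h k x := by
    apply Lp.ext
    have h1 := Lp.coeFn_compMeasurePreserving x (measurePreserving_sh hM (h + k))
    have h2 := Lp.coeFn_compMeasurePreserving x (measurePreserving_sh hM k)
    have h3 := Lp.coeFn_compMeasurePreserving (Lp.compMeasurePreserving (sh k)
      (measurePreserving_sh hM k) x) (measurePreserving_sh hM h)
    refine EventuallyEq.trans h1 (EventuallyEq.trans ?_ h3.symm)
    have h4 := (measurePreserving_sh hM h).quasiMeasurePreserving.ae_eq_comp h2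
    refine EventuallyEq.trans ?_ h4.symm
    refine Eventually.of_forall fun u => ?_
    simp only [Function.comp]
    rw [sh_sh, add_comm]

lemma koop_coe (hM : Realises M μ) (h : ℤ) (g : Lp ℝ 2 μ) :
    ((koop hM).K h g : Om → ℝ) =ᵐ[μ] fun u => g (sh h u) :=
  Lp.coeFn_compMeasurePreserving g (measurePreserving_sh hM h)

/-- bounded measurable functions -/
def BM (g : Om → ℝ) : Prop := Measurable g ∧ ∃ C : ℝ, ∀ u, |g u| ≤ C

lemma BM.const (c : ℝ) : BM (fun _ => c) := ⟨measurable_const, |c|, fun _ => le_rfl⟩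

lemma BM.add {g h : Om → ℝ} (hg : BM g) (hh : BM h) : BM (fun u => g u + h u) := by
  obtain ⟨h1, C, hC⟩ := hg
  obtain ⟨h2, D, hD⟩ := hh
  exact ⟨h1.add h2, C + D, fun u => (abs_add_le _ _).trans (add_le_add (hC u) (hD u))⟩

lemma BM.neg {g : Om → ℝ} (hg : BM g) : BM (fun u => - g u) := by
  obtain ⟨h1, C, hC⟩ := hg
  exact ⟨h1.neg, C, fun u => by rw [abs_neg]; exact hC u⟩

lemma BM.sub {g h : Om → ℝ} (hg : BM g) (hh : BM h) : BM (fun u => g u - h u) := by
  simpa [sub_eq_add_neg] using hg.add hh.neg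

lemma BM.mul {g h : Om → ℝ} (hg : BM g) (hh : BM h) : BM (fun u => g u * h u) := by
  obtain ⟨h1, C, hC⟩ := hg
  obtain ⟨h2, D, hD⟩ := hh
  refine ⟨h1.mul h2, C * D, fun u => ?_⟩
  rw [abs_mul]
  exact mul_le_mul (hC u) (hD u) (abs_nonneg _) ((abs_nonneg _).trans (hC u))

lemma BM.const_mul (c : ℝ) {g : Om → ℝ} (hg : BM g) : BM (fun u => c * g u) := (BM.const c).mul hg

lemma BM.pow {g : Om → ℝ} (hg : BM g) (n : ℕ) : BM (fun u => g u ^ n) := by
  obtain ⟨h1, C, hC⟩ := hg
  refine ⟨h1.pow_const n, C ^ n, fun u => ?_⟩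
  rw [abs_pow]
  exact pow_le_pow_left₀ (abs_nonneg _) (hC u) n

lemma BM.comp {g : Om → ℝ} (hg : BM g) {φ : Om → Om} (hφ : Measurable φ) : BM (fun u => g (φ u)) :=
  ⟨hg.1.comp hφ, hg.2.imp fun _ h u => h _⟩

lemma BM.sum {ι : Type*} (s : Finset ι) (g : ι → Om → ℝ) (hg : ∀ i ∈ s, BM (g i)) :
    BM (fun u => ∑ i ∈ s, g i u) := by
  classical
  induction s using Finset.induction_on with
  | empty => simpa using BM.const 0
  | insert a s ha ih =>
    simp only [Finset.sum_insert ha]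
    exact (hg a (Finset.mem_insert_self a s)).add
      (ih fun i hi => hg i (Finset.mem_insert_of_mem hi))

lemma BM.memLp {g : Om → ℝ} (hg : BM g) (p : ℝ≥0∞) : MemLp g p μ := by
  obtain ⟨h1, C, hC⟩ := hg
  exact MemLp.of_bound h1.aestronglyMeasurable C (Eventually.of_forall hC)

lemma BM.integrable {g : Om → ℝ} (hg : BM g) : Integrable g μ := memLp_one_iff_integrable.1 (hg.memLp 1)

/-- the class in `L²` -/
noncomputable def toL (μ : Measure Om) [IsProbabilityMeasure μ] (g : Om → ℝ) (hg : BM g) :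
    Lp ℝ 2 μ := (hg.memLp (μ := μ) 2).toLp g

lemma toL_coe {g : Om → ℝ} (hg : BM g) : (toL μ g hg : Om → ℝ) =ᵐ[μ] g := MemLp.coeFn_toLp _

lemma inner_eq (g h : Lp ℝ 2 μ) : ⟪g, h⟫_ℝ = ∫ u, g u * h u ∂μ := by
  rw [L2.inner_def]
  congr 1
  funext u
  simp [mul_comm]

lemma inner_eq' {g h : Lp ℝ 2 μ} {g' h' : Om → ℝ} (hg : (g : Om → ℝ) =ᵐ[μ] g')
    (hh : (h : Om → ℝ) =ᵐ[μ] h') : ⟪g, h⟫_ℝ = ∫ u, g' u * h' u ∂μ := by
  rw [inner_eq]
  apply integral_congr_ae
  filter_upwards [hg, hh] with u h1 h2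
  rw [h1, h2]

lemma norm_sq_eq {g : Lp ℝ 2 μ} {g' : Om → ℝ} (hg : (g : Om → ℝ) =ᵐ[μ] g') :
    ‖g‖ ^ 2 = ∫ u, g' u ^ 2 ∂μ := by
  rw [← real_inner_self_eq_norm_sq, inner_eq' hg hg]
  congr 1
  funext u
  ring

lemma integral_sh (hM : Realises M μ) (h : ℤ) {g : Om → ℝ} (hg : BM g) :
    ∫ u, g (sh h u) ∂μ = ∫ u, g u ∂μ := by
  have h1 := measurePreserving_sh (μ := μ) hM h
  conv_rhs => rw [← h1.map_eq]
  rw [integral_map h1.measurable.aemeasurable]
  rw [h1.map_eq]
  exact hg.1.aestronglyMeasurable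

lemma ae_sh (hM : Realises M μ) (h : ℤ) {p : Om → Prop} (hp : ∀ᵐ u ∂μ, p u) :
    ∀ᵐ u ∂μ, p (sh h u) :=
  (measurePreserving_sh hM h).quasiMeasurePreserving.ae hp

lemma quasi_dl (hM : Realises M μ) {q : ℕ} (hq : 0 < q) :
    Measure.QuasiMeasurePreserving (dl q) μ μ := by
  refine ⟨measurable_dl q, ?_⟩
  rw [map_dl hM hq]
  exact (Measure.smul_absolutelyContinuous).trans Measure.absolutelyContinuous_restrict

lemma ae_dl (hM : Realises M μ) {q : ℕ} (hq : 0 < q) {p : Om → Prop} (hp : ∀ᵐ u ∂μ, p u) :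
    ∀ᵐ u ∂μ, p (dl q u) := (quasi_dl hM hq).ae hp

/-- the indicator of the multiples of `q` -/
noncomputable def ind (q : ℕ) : Om → ℝ := (cyl (mult q)).indicator 1

lemma BM_ind (q : ℕ) : BM (ind q) := by
  refine ⟨measurable_one.indicator (measurableSet_cyl _), 1, fun u => ?_⟩
  unfold ind
  by_cases h : u ∈ cyl (mult q)
  · simp [h]
  · simp [h]

lemma integral_dl (hM : Realises M μ) {q : ℕ} (hq : 0 < q) {g : Om → ℝ} (hg : BM g) :
    ∫ u, g (dl q u) ∂μ = ∫ u, g u * (q * ind q u) ∂μ := by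
  have h0 : ∫ u, g (dl q u) ∂μ = ∫ u, g u ∂(μ.map (dl q)) :=
    (integral_map (measurable_dl q).aemeasurable hg.1.aestronglyMeasurable).symm
  rw [h0, map_dl hM hq, integral_smul_measure]
  have h1 : (fun u => g u * (q * ind q u)) = fun u => (q : ℝ) * (cyl (mult q)).indicator g u := by
    funext u
    unfold ind
    by_cases h : u ∈ cyl (mult q)
    · simp [h]; ring
    · simp [h]
  rw [h1, integral_const_mul, integral_indicator (measurableSet_cyl _)]
  simp

lemma integral_dl_nonneg_le (hM : Realises M μ) {q : ℕ} (hq : 0 < q) {g : Om → ℝ} (hg : BM g)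
    (h0 : ∀ u, 0 ≤ g u) : ∫ u, g (dl q u) ∂μ ≤ q * ∫ u, g u ∂μ := by
  rw [integral_dl hM hq hg, ← integral_const_mul]
  apply integral_mono (hg.mul ((BM_ind q).const_mul _)).integrable (hg.const_mul _).integrable
  intro u
  show g u * (q * ind q u) ≤ q * g u
  have h1 : ind q u ≤ 1 := by
    unfold ind
    by_cases h : u ∈ cyl (mult q)
    · simp [h]
    · simp [h]
  have h2 : (0 : ℝ) ≤ q := Nat.cast_nonneg _
  have h3 := mul_le_mul_of_nonneg_left h1 (mul_nonneg h2 (h0 u))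
  nlinarith

lemma integral_ind (hM : Realises M μ) {q : ℕ} (hq : 0 < q) : ∫ u, ind q u ∂μ = 1 / q := by
  have h := integral_dl hM hq (BM.const 1)
  simp only [one_mul] at h
  rw [integral_const_mul] at h
  have hq' : (q : ℝ) ≠ 0 := by positivity
  rw [integral_const, probReal_univ, one_smul] at h
  field_simp
  linarith

lemma ind_mul_ind {q r : ℕ} (h : q.Coprime r) (u : Om) : ind q u * ind r u = ind (q * r) u := by
  have h1 : cyl (mult (q * r)) = cyl (mult q) ∩ cyl (mult r) := by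
    rw [cyl_inter]
    congr 1
    ext n
    simp only [mult, Set.mem_ofPred_eq, Set.mem_inter_iff]
    push_cast
    constructor
    · intro h'
      exact ⟨dvd_of_mul_right_dvd h', dvd_of_mul_left_dvd h'⟩
    · rintro ⟨h1, h2⟩
      exact IsCoprime.mul_dvd (Nat.isCoprime_iff_coprime.2 h) h1 h2
  unfold ind
  rw [h1]
  by_cases h2 : u ∈ cyl (mult q) <;> by_cases h3 : u ∈ cyl (mult r) <;> simp [h2, h3]

lemma ind_sq (q : ℕ) (u : Om) : ind q u * ind q u = ind q u := by
  unfold ind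
  by_cases h : u ∈ cyl (mult q) <;> simp [h]

/-- Turán–Kubilius -/
theorem turan_kubilius (hM : Realises M μ) (Q : Finset ℕ) (hQ : ∀ q ∈ Q, q.Prime) {F : Om → ℝ}
    (hF : BM F) :
    ∑ q ∈ Q, (1 / (q : ℝ)) * (∫ u, F (dl q u) ∂μ - ∫ u, F u ∂μ) ^ 2 ≤ ∫ u, F u ^ 2 ∂μ := by
  have hg : ∀ q : ℕ, BM (fun u => q * ind q u - 1) := fun q =>
    ((BM_ind q).const_mul _).sub (BM.const 1)
  have hb := bessel_orth Q (fun q => toL μ _ (hg q)) (fun q => (q : ℝ) - 1) ?_ ?_ ?_ (toL μ F hF)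
  · rw [norm_sq_eq (toL_coe hF)] at hb
    refine le_trans (Finset.sum_le_sum fun q hq => ?_) hb
    have hq1 : (1 : ℝ) < q := by exact_mod_cast (hQ q hq).one_lt
    have h1 : ⟪toL μ F hF, toL μ _ (hg q)⟫_ℝ = ∫ u, F (dl q u) ∂μ - ∫ u, F u ∂μ := by
      rw [inner_eq' (toL_coe hF) (toL_coe (hg q)), integral_dl hM (hQ q hq).pos hF,
        ← integral_sub (hF.mul ((BM_ind q).const_mul _)).integrable hF.integrable]
      congr 1
      funext u
      ring
    rw [h1]
    have h2 : 1 / (q : ℝ) ≤ 1 / ((q : ℝ) - 1) :=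
      one_div_le_one_div_of_le (by linarith) (by linarith)
    calc 1 / (q : ℝ) * (∫ u, F (dl q u) ∂μ - ∫ u, F u ∂μ) ^ 2
        ≤ 1 / ((q : ℝ) - 1) * (∫ u, F (dl q u) ∂μ - ∫ u, F u ∂μ) ^ 2 :=
          mul_le_mul_of_nonneg_right h2 (sq_nonneg _)
      _ = _ := by ring
  · intro q hq
    have hq1 : (1 : ℝ) < q := by exact_mod_cast (hQ q hq).one_lt
    simpa using hq1
  · intro q hq r hr hne
    have hco : Nat.Coprime q r := (Nat.coprime_primes (hQ q hq) (hQ r hr)).2 hne
    rw [inner_eq' (toL_coe (hg q)) (toL_coe (hg r))]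
    have h1 : (fun u => ((q : ℝ) * ind q u - 1) * ((r : ℝ) * ind r u - 1)) =
        fun u => ((q * r : ℕ) : ℝ) * ind (q * r) u - q * ind q u - r * ind r u + 1 := by
      funext u
      rw [← ind_mul_ind hco]
      push_cast
      ring
    rw [h1, integral_add, integral_sub, integral_sub, integral_const_mul, integral_const_mul,
      integral_const_mul, integral_ind hM (Nat.mul_pos (hQ q hq).pos (hQ r hr).pos),
      integral_ind hM (hQ q hq).pos, integral_ind hM (hQ r hr).pos]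
    · have h2 : (q : ℝ) ≠ 0 := by have := (hQ q hq).pos; positivity
      have h3 : (r : ℝ) ≠ 0 := by have := (hQ r hr).pos; positivity
      simp
      field_simp
      ring
    · exact ((BM_ind _).const_mul _).integrable
    · exact ((BM_ind _).const_mul _).integrable
    · exact (((BM_ind _).const_mul _).sub ((BM_ind _).const_mul _)).integrable
    · exact ((BM_ind _).const_mul _).integrable
    · exact ((((BM_ind _).const_mul _).sub ((BM_ind _).const_mul _)).sub
        ((BM_ind _).const_mul _)).integrable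
    · exact (BM.const 1).integrable
  · intro q hq
    rw [inner_eq' (toL_coe (hg q)) (toL_coe (hg q))]
    have h1 : (fun u => ((q : ℝ) * ind q u - 1) * ((q : ℝ) * ind q u - 1)) =
        fun u => ((q : ℝ) ^ 2 - 2 * q) * ind q u + 1 := by
      funext u
      have := ind_sq q u
      linear_combination (q : ℝ) ^ 2 * this
    rw [h1, integral_add ((BM_ind _).const_mul _).integrable (BM.const 1).integrable,
      integral_const_mul, integral_ind hM (hQ q hq).pos]
    have h2 : (q : ℝ) ≠ 0 := by have := (hQ q hq).pos; positivity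
    simp
    field_simp
    ring

end Pool.Agent.Hhelper89.LehmerFull
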