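import Pool.Agent.Hhelper89.LehmerFull.Defs

/-!
Local solvability (S3): for every prime `p`, every local sign `F` at `p` and every non-exceptional
pair `(a,b)` some residue class modulo a power of `p` makes `F n`, `F (n+a)`, `F (n+b)` positive.
-/

namespace Pool.Agent.Hhelper89.LehmerFull

open Finset
open Pool.Agent.Hhelper89.Lehmer

namespace LocalSigns

/-! ### Dependence on the residue -/

lemma F_sq {F : ℕ → Bool} (hF : MulSign F) {t : ℕ} (ht : 0 < t) : F (t * t) = true := by
  rw [hF t t ht ht]; cases F t <;> rfl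

lemma F_pow_odd {F : ℕ → Bool} (hF : MulSign F) {t : ℕ} (ht : 0 < t) {k : ℕ} (hk : Odd k) :
    F (t ^ k) = F t := by
  obtain ⟨j, rfl⟩ := hk
  have e : t ^ (2 * j + 1) = (t ^ j * t ^ j) * t := by ring
  rw [e, hF _ _ (by positivity) ht, F_sq hF (by positivity)]
  cases F t <;> rfl

lemma pos_of_ndvd {p m : ℕ} (h : ¬ p ∣ m) : 0 < m := by
  rcases Nat.eq_zero_or_pos m with rfl | h'
  · exact absurd (dvd_zero _) h
  · exact h'

lemma exists_inv {p m : ℕ} (hp : p.Prime) (hm : ¬ p ∣ m) (e : ℕ) :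
    ∃ m' : ℕ, 0 < m' ∧ m * m' ≡ 1 [MOD p ^ (e + 1)] := by
  have hco : m.Coprime (p ^ (e + 1)) := by
    apply Nat.Coprime.pow_right
    exact ((Nat.Prime.coprime_iff_not_dvd hp).2 hm).symm
  have h1 : 1 < p ^ (e + 1) := Nat.one_lt_pow (by omega) hp.one_lt
  obtain ⟨m', -, hm'⟩ := Nat.exists_mul_mod_eq_one_of_coprime hco h1
  refine ⟨m', ?_, ?_⟩
  · rcases Nat.eq_zero_or_pos m' with rfl | h'
    · simp at hm'
    · exact h'
  · unfold Nat.ModEq
    rw [hm', Nat.mod_eq_of_lt h1]

/-- values at numbers congruent to `1` -/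
lemma dep_of_one {p : ℕ} (hp : p.Prime) {F : ℕ → Bool} (hF : LocalSign p F) (P : ℕ)
    (hP : P ∣ p ^ (P + 1)) (hpP : p ∣ P)
    (h1 : ∀ t : ℕ, 0 < t → t ≡ 1 [MOD P] → F t = true) :
    ∀ m n : ℕ, ¬ p ∣ m → m ≡ n [MOD P] → F m = F n := by
  obtain ⟨hM, e, he⟩ := hF
  intro m n hm hmn
  have hn : ¬ p ∣ n := by
    intro h
    exact hm (((hmn.of_dvd hpP).dvd_iff dvd_rfl).2 h)
  have hm0 := pos_of_ndvd hm
  have hn0 := pos_of_ndvd hn
  obtain ⟨m', hm'0, hm'⟩ := exists_inv hp hm (e + P)
  have e1 : F (m * m') = true := by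
    have : ¬ p ∣ m * m' := by
      intro h
      have h2 : m * m' ≡ 1 [MOD p] := hm'.of_dvd (dvd_pow_self _ (by omega))
      have h3 := (h2.dvd_iff dvd_rfl).1 h
      exact hp.one_lt.ne' (Nat.dvd_one.1 h3)
    rw [he (m * m') 1 this (hm'.of_dvd (pow_dvd_pow _ (by omega)))]
    exact hM.one
  have e2 : F (n * m') = true := by
    apply h1 _ (by positivity)
    have h3 : P ∣ p ^ (e + P + 1) := hP.trans (pow_dvd_pow _ (by omega))
    exact (hmn.symm.mul_right m').trans (hm'.of_dvd h3)
  rw [hM _ _ hm0 hm'0] at e1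
  rw [hM _ _ hn0 hm'0] at e2
  revert e1 e2
  cases F m <;> cases F n <;> cases F m' <;> simp

lemma dep_odd {p : ℕ} (hp : p.Prime) (hp2 : p ≠ 2) {F : ℕ → Bool} (hF : LocalSign p F) :
    ∀ m n : ℕ, ¬ p ∣ m → m ≡ n [MOD p] → F m = F n := by
  apply dep_of_one hp hF p (dvd_pow_self _ (by omega)) dvd_rfl
  intro t ht h1
  obtain ⟨hM, e, he⟩ := hF
  have hodd : Odd (p ^ e) := (hp.odd_of_ne_two hp2).pow
  rw [← F_pow_odd hM ht hodd]
  have h2 : ((p : ℕ) : ℤ) ∣ (t : ℤ) - 1 := by
    have := (Nat.modEq_iff_dvd.1 h1.symm)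
    simpa using this
  have h3 := dvd_sub_pow_of_dvd_sub h2 e
  rw [one_pow] at h3
  have h4 : t ^ (p ^ e) ≡ 1 [MOD p ^ (e + 1)] := by
    apply Nat.ModEq.symm
    rw [Nat.modEq_iff_dvd]
    push_cast
    exact h3
  have h5 : ¬ p ∣ t ^ (p ^ e) := by
    intro h
    have h6 : t ^ (p ^ e) ≡ 1 [MOD p] := h4.of_dvd (dvd_pow_self _ (by omega))
    exact hp.one_lt.ne' (Nat.dvd_one.1 ((h6.dvd_iff dvd_rfl).1 h))
  rw [he _ 1 h5 (h4.of_dvd (pow_dvd_pow _ (by omega)))]
  exact hM.one

lemma exists_sqrt (e : ℕ) : ∀ t : ℤ, (8 : ℤ) ∣ t - 1 → ∃ y : ℤ, Odd y ∧ (2 : ℤ) ^ (e + 3) ∣ y ^ 2 - t := by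
  induction e with
  | zero =>
    intro t ht
    refine ⟨1, odd_one, ?_⟩
    have h8 : (2 : ℤ) ^ (0 + 3) = 8 := by norm_num
    have : (1 : ℤ) ^ 2 - t = -(t - 1) := by ring
    rw [this, h8]
    exact dvd_neg.2 ht
  | succ e ih =>
    intro t ht
    obtain ⟨y, hy, k, hk⟩ := ih t ht
    rcases Int.even_or_odd k with hk2 | hk2
    · obtain ⟨j, rfl⟩ := hk2
      exact ⟨y, hy, j, by rw [hk]; ring⟩
    · refine ⟨y + 2 ^ (e + 2), hy.add_even ?_, ?_⟩
      · exact ⟨2 ^ (e + 1), by ring⟩
      · obtain ⟨j, rfl⟩ := hk2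
        obtain ⟨i, rfl⟩ := hy
        refine ⟨j + i + 1 + 2 ^ e, ?_⟩
        have : (2 * i + 1 + 2 ^ (e + 2)) ^ 2 - t = ((2 * i + 1) ^ 2 - t) + 2 ^ (e + 3) * (2 * i + 1) +
          2 ^ (2 * e + 4) := by ring
        rw [this, hk]
        ring

lemma dep_two {F : ℕ → Bool} (hF : LocalSign 2 F) :
    ∀ m n : ℕ, ¬ 2 ∣ m → m ≡ n [MOD 8] → F m = F n := by
  apply dep_of_one Nat.prime_two hF 8 (by decide) (by norm_num)
  intro t ht h1
  obtain ⟨hM, e, he⟩ := hF
  have h2 : (8 : ℤ) ∣ (t : ℤ) - 1 := by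
    have := (Nat.modEq_iff_dvd.1 h1.symm)
    simpa using this
  obtain ⟨y, hy, hyt⟩ := exists_sqrt e (t : ℤ) h2
  have h3 : t ≡ y.natAbs * y.natAbs [MOD 2 ^ (e + 3)] := by
    rw [Nat.modEq_iff_dvd]
    push_cast
    have : (|y| * |y| : ℤ) = y ^ 2 := by rw [abs_mul_abs_self]; ring
    rw [this]
    exact hyt
  have ht2 : ¬ 2 ∣ t := by
    have := h1.of_dvd (show 2 ∣ 8 by norm_num)
    intro h
    have h6 := (this.dvd_iff dvd_rfl).1 h
    omega
  rw [he t _ ht2 (h3.of_dvd (pow_dvd_pow _ (by omega)))]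
  apply F_sq hM
  have : y ≠ 0 := by rintro rfl; simp at hy
  exact Int.natAbs_pos.2 this

/-- an odd local sign is trivial or the quadratic character on the units -/
lemma triv_or_leg {p : ℕ} [Fact p.Prime] (hp2 : p ≠ 2) {F : ℕ → Bool} (hF : LocalSign p F) :
    (∀ m : ℕ, ¬ p ∣ m → F m = true) ∨
      (∀ m : ℕ, ¬ p ∣ m → (F m = true ↔ quadraticChar (ZMod p) (m : ZMod p) = 1)) := by
  have hp : p.Prime := Fact.out
  have hdep := dep_odd hp hp2 hF
  have hM := hF.1
  have hne : ∀ m : ℕ, ¬ p ∣ m → ((m : ZMod p) ≠ 0) := by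
    intro m hm h
    exact hm ((ZMod.natCast_eq_zero_iff m p).1 h)
  have hsq : ∀ m : ℕ, ¬ p ∣ m → quadraticChar (ZMod p) (m : ZMod p) = 1 → F m = true := by
    intro m hm h1
    rw [quadraticChar_one_iff_isSquare (hne m hm)] at h1
    obtain ⟨y, hy⟩ := h1
    have hy0 : y ≠ 0 := by
      rintro rfl
      exact hne m hm (by rw [hy]; simp)
    have h2 : m ≡ y.val * y.val [MOD p] := by
      rw [← ZMod.natCast_eq_natCast_iff]
      push_cast
      rw [ZMod.natCast_zmod_val, hy]
    rw [hdep m _ hm h2]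
    apply F_sq hM
    rcases Nat.eq_zero_or_pos y.val with h | h
    · exact absurd ((ZMod.val_eq_zero y).1 h) hy0
    · exact h
  by_cases h : ∀ m : ℕ, ¬ p ∣ m → F m = true
  · exact Or.inl h
  · right
    push Not at h
    obtain ⟨c, hc, hFc⟩ := h
    intro m hm
    refine ⟨fun h1 => ?_, hsq m hm⟩
    by_contra h2
    have h3 := (quadraticChar_dichotomy (hne m hm)).resolve_left h2
    have h4 : quadraticChar (ZMod p) (c : ZMod p) = -1 := by
      refine (quadraticChar_dichotomy (hne c hc)).resolve_left ?_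
      intro h5
      exact hFc (hsq c hc h5)
    have h5 : F (m * c) = true := by
      apply hsq
      · intro hd
        rcases (Nat.Prime.dvd_mul hp).1 hd with h | h
        · exact hm h
        · exact hc h
      · push_cast
        rw [map_mul, h3, h4]
        norm_num
    rw [hM m c (pos_of_ndvd hm) (pos_of_ndvd hc), h1] at h5
    apply hFc
    revert h5
    cases F c <;> simp

/-! ### Evaluation on residues -/

/-- evaluation of a local sign on residues: `gd p q s χ K t x = true` forces the value `t` at every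
positive integer congruent to `x` modulo `p ^ (K + c)`, where `q = p ^ (c + 1)`. -/
def gd (p q : ℕ) (s : Bool) (χ : ℕ → Bool) : ℕ → Bool → ℕ → Bool
  | 0, _, _ => false
  | K + 1, t, x => cond (Nat.beq (x % p) 0) (gd p q s χ K (s == t) (x / p)) (χ (x % q) == t)

lemma gd_spec {p : ℕ} (hp : p.Prime) {F : ℕ → Bool} (hM : MulSign F) (c : ℕ)
    (hdep : ∀ m n : ℕ, ¬ p ∣ m → m ≡ n [MOD p ^ (c + 1)] → F m = F n)
    {χ : ℕ → Bool} (hχ : ∀ i, i < p ^ (c + 1) → ¬ p ∣ i → F i = χ i) :
    ∀ (K : ℕ) (t : Bool) (x n : ℕ), gd p (p ^ (c + 1)) (F p) χ K t x = true → 0 < n →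
      n ≡ x [MOD p ^ (K + c)] → F n = t := by
  intro K
  induction K with
  | zero => intro t x n h; simp [gd] at h
  | succ K ih =>
    intro t x n h hn hnx
    have hp0 : 0 < p := hp.pos
    have hnxp : n ≡ x [MOD p] := hnx.of_dvd (dvd_pow_self p (by omega))
    by_cases hx : x % p = 0
    · have hb : Nat.beq (x % p) 0 = true := by rw [hx]; rfl
      have hx' : gd p (p ^ (c + 1)) (F p) χ K (F p == t) (x / p) = true := by
        rw [gd, hb] at h
        exact h
      have hpx : p ∣ x := Nat.dvd_of_mod_eq_zero hx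
      have hpn : p ∣ n := (hnxp.dvd_iff dvd_rfl).2 hpx
      obtain ⟨n', rfl⟩ := hpn
      obtain ⟨x', rfl⟩ := hpx
      have hn' : 0 < n' := Nat.pos_of_mul_pos_left hn
      rw [Nat.mul_div_cancel_left _ hp0] at hx'
      have h1 : n' ≡ x' [MOD p ^ (K + c)] := by
        have e : p ^ (K + 1 + c) = p * p ^ (K + c) := by ring
        rw [e] at hnx
        exact Nat.ModEq.mul_left_cancel' hp0.ne' hnx
      have h2 := ih _ _ _ hx' hn' h1
      rw [hM p n' hp0 hn', h2]
      cases F p <;> cases t <;> rfl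
    · have hb : Nat.beq (x % p) 0 = false :=
        Bool.eq_false_iff.2 fun hh => hx (Nat.eq_of_beq_eq_true hh)
      have hx' : (χ (x % p ^ (c + 1)) == t) = true := by
        rw [gd, hb] at h
        exact h
      have hpx : ¬ p ∣ x := fun hd => hx (Nat.mod_eq_zero_of_dvd hd)
      have hpn : ¬ p ∣ n := fun hd => hpx ((hnxp.dvd_iff dvd_rfl).1 hd)
      have h1 : n ≡ x % p ^ (c + 1) [MOD p ^ (c + 1)] :=
        (hnx.of_dvd (pow_dvd_pow p (by omega))).trans (Nat.mod_modEq _ _).symm
      rw [hdep n _ hpn h1, hχ _ (Nat.mod_lt _ (by positivity)) ?_]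
      · exact beq_iff_eq.1 hx'
      · intro hd
        apply hpx
        have h2 : x ≡ x % p ^ (c + 1) [MOD p] :=
          (Nat.mod_modEq x (p ^ (c + 1))).symm.of_dvd (dvd_pow_self p (by omega))
        exact (h2.dvd_iff dvd_rfl).2 hd

/-! ### Finite verification with bit masks -/

/-- the bit mask of the `i < n` with `G i` -/
def mask (G : ℕ → Bool) : ℕ → ℕ
  | 0 => 0
  | n + 1 => cond (G n) (mask G n ||| 2 ^ n) (mask G n)

lemma testBit_mask (G : ℕ → Bool) (n i : ℕ) (h : (mask G n).testBit i = true) :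
    i < n ∧ G i = true := by
  induction n with
  | zero => simp [mask] at h
  | succ n ih =>
    cases hg : G n with
    | false =>
      rw [mask, hg, cond_false] at h
      exact ⟨(ih h).1.trans (Nat.lt_succ_self n), (ih h).2⟩
    | true =>
      rw [mask, hg, cond_true, Nat.testBit_or, Nat.testBit_two_pow, Bool.or_eq_true,
        decide_eq_true_eq] at h
      rcases h with h | rfl
      · exact ⟨(ih h).1.trans (Nat.lt_succ_self n), (ih h).2⟩
      · exact ⟨Nat.lt_succ_self _, hg⟩

/-- union with the shifts of `SS` by the elements of `T` -/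
def cov (SS T full : ℕ) : ℕ → ℕ → ℕ
  | 0, acc => acc
  | n + 1, acc => cond (Nat.beq acc full) acc
      (cov SS T full n (cond (Nat.beq ((T >>> n) % 2) 1) (acc ||| ((SS >>> n) &&& full)) acc))

lemma testBit_of_beq {T n : ℕ} (h : Nat.beq ((T >>> n) % 2) 1 = true) : T.testBit n = true := by
  rw [Nat.testBit_eq_decide_div_mod_eq, decide_eq_true_eq, ← Nat.shiftRight_eq_div_pow]
  exact Nat.eq_of_beq_eq_true h

lemma cov_sound (SS T full b : ℕ) : ∀ n acc : ℕ, (cov SS T full n acc).testBit b = true →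
    acc.testBit b = true ∨ ∃ m, T.testBit m = true ∧ SS.testBit (m + b) = true := by
  intro n
  induction n with
  | zero => intro acc h; exact Or.inl h
  | succ n ih =>
    intro acc h
    cases h1 : Nat.beq acc full with
    | true => rw [cov, h1, cond_true] at h; exact Or.inl h
    | false =>
      rw [cov, h1, cond_false] at h
      cases h2 : Nat.beq ((T >>> n) % 2) 1 with
      | false => rw [h2, cond_false] at h; exact ih _ h
      | true =>
        rw [h2, cond_true] at h
        rcases ih _ h with h3 | h3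
        · rw [Nat.testBit_or, Nat.testBit_and, Nat.testBit_shiftRight, Bool.or_eq_true,
            Bool.and_eq_true] at h3
          rcases h3 with h3 | h3
          · exact Or.inl h3
          · exact Or.inr ⟨n, testBit_of_beq h2, h3.1⟩
        · exact Or.inr h3

/-- the check for the residues below the counter -/
def chk (SS full M : ℕ) (ex : ℕ → ℕ) : ℕ → Bool
  | 0 => true
  | a + 1 => cond (Nat.beq (cov SS (SS &&& (SS >>> a)) full M (ex a)) full)
      (chk SS full M ex a) false

lemma chk_sound {SS M : ℕ} {ex : ℕ → ℕ} : ∀ N : ℕ, chk SS (2 ^ M - 1) M ex N = true →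
    ∀ a b : ℕ, a < N → b < M → (ex a).testBit b = true ∨
      ∃ m, SS.testBit m = true ∧ SS.testBit (m + a) = true ∧ SS.testBit (m + b) = true := by
  intro N
  induction N with
  | zero => intro _ a b ha; omega
  | succ N ih =>
    intro h a b ha hb
    cases h1 : Nat.beq (cov SS (SS &&& (SS >>> N)) (2 ^ M - 1) M (ex N)) (2 ^ M - 1) with
    | false => rw [chk, h1, cond_false] at h; exact absurd h (by decide)
    | true =>
      rw [chk, h1, cond_true] at h
      rcases Nat.lt_succ_iff_lt_or_eq.1 ha with ha | rfl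
      · exact ih h a b ha hb
      · have h2 := Nat.eq_of_beq_eq_true h1
        have h3 : (cov SS (SS &&& (SS >>> a)) (2 ^ M - 1) M (ex a)).testBit b = true := by
          rw [h2, Nat.testBit_two_pow_sub_one]
          exact decide_eq_true hb
        rcases cov_sound _ _ _ _ _ _ h3 with h4 | ⟨m, h4, h5⟩
        · exact Or.inl h4
        · rw [Nat.testBit_and, Nat.testBit_shiftRight, Bool.and_eq_true] at h4
          exact Or.inr ⟨m, h4.1, by rw [Nat.add_comm]; exact h4.2, h5⟩

/-- the whole check for a set of residues modulo `M` -/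
def chkAll (G : ℕ → Bool) (ex : ℕ → ℕ) (M : ℕ) : Bool :=
  chk (mask (fun i => G (i % M)) (2 * M)) (2 ^ M - 1) M ex M

lemma chkAll_sound {G : ℕ → Bool} {ex : ℕ → ℕ} {M : ℕ} (h : chkAll G ex M = true) :
    ∀ a b : ℕ, a < M → b < M → (ex a).testBit b = true ∨
      ∃ m, G (m % M) = true ∧ G ((m + a) % M) = true ∧ G ((m + b) % M) = true := by
  intro a b ha hb
  rcases chk_sound M h a b ha hb with h1 | ⟨m, h1, h2, h3⟩
  · exact Or.inl h1
  · exact Or.inr ⟨m, (testBit_mask _ _ _ h1).2, (testBit_mask _ _ _ h2).2,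
      (testBit_mask _ _ _ h3).2⟩

/-- exceptional residues -/
def exq (q : ℕ) (u v a b : ℕ) : Bool :=
  cond (Nat.beq (a % q) u) (Nat.beq (b % q) v) (cond (Nat.beq (a % q) v) (Nat.beq (b % q) u) false)

lemma exq_sound {q u v a b : ℕ} (h : exq q u v a b = true) :
    (a % q = u ∧ b % q = v) ∨ (a % q = v ∧ b % q = u) := by
  unfold exq at h
  cases h1 : Nat.beq (a % q) u with
  | true =>
    rw [h1, cond_true] at h
    exact Or.inl ⟨Nat.eq_of_beq_eq_true h1, Nat.eq_of_beq_eq_true h⟩
  | false =>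
    rw [h1, cond_false] at h
    cases h2 : Nat.beq (a % q) v with
    | true =>
      rw [h2, cond_true] at h
      exact Or.inr ⟨Nat.eq_of_beq_eq_true h2, Nat.eq_of_beq_eq_true h⟩
    | false => rw [h2, cond_false] at h; exact absurd h (by decide)

/-- conclusion from a successful check -/
lemma finish {p : ℕ} (hp : p.Prime) {F : ℕ → Bool} (hM : MulSign F) (c K : ℕ)
    (hdep : ∀ m n : ℕ, ¬ p ∣ m → m ≡ n [MOD p ^ (c + 1)] → F m = F n)
    {χ : ℕ → Bool} (hχ : ∀ i, i < p ^ (c + 1) → ¬ p ∣ i → F i = χ i)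
    {ex : ℕ → ℕ} (M q : ℕ) (hMM : M = p ^ (K + c)) (hq : q = p ^ (c + 1))
    (h : chkAll (gd p q (F p) χ K true) ex M = true) (a b : ℕ)
    (hex : (ex (a % M)).testBit (b % M) = false) :
    ∃ k r : ℕ, ∀ n : ℕ, 0 < n → n ≡ r [MOD p ^ k] →
      F n = true ∧ F (n + a) = true ∧ F (n + b) = true := by
  subst hq
  have hM0 : 0 < M := by rw [hMM]; exact pow_pos hp.pos _
  rcases chkAll_sound h (a % M) (b % M) (Nat.mod_lt _ hM0) (Nat.mod_lt _ hM0) with h1 | h1
  · rw [hex] at h1; exact absurd h1 (by decide)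
  · obtain ⟨m, h1, h2, h3⟩ := h1
    refine ⟨K + c, m, fun n hn hnm => ?_⟩
    rw [← hMM] at hnm
    have key : ∀ x y : ℕ, gd p (p ^ (c + 1)) (F p) χ K true (x % M) = true → 0 < y →
        y ≡ x [MOD M] → F y = true := by
      intro x y hx hy hxy
      apply gd_spec hp hM c hdep hχ K true (x % M) y hx hy
      rw [← hMM]
      exact hxy.trans (Nat.mod_modEq _ _).symm
    refine ⟨key m n h1 hn hnm, key _ _ h2 (by omega) ?_, key _ _ h3 (by omega) ?_⟩
    · exact hnm.add (Nat.mod_modEq _ _).symm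
    · exact hnm.add (Nat.mod_modEq _ _).symm

/-! ### Character sums -/

section Large

variable (p : ℕ) [Fact p.Prime]

/-- the quadratic character -/
abbrev chi (x : ZMod p) : ℤ := quadraticChar (ZMod p) x

lemma ringChar_ne (hp2 : p ≠ 2) : ringChar (ZMod p) ≠ 2 := by
  rw [ZMod.ringChar_zmod_n]; exact hp2

lemma chi_sum (hp2 : p ≠ 2) : ∑ x : ZMod p, chi p x = 0 :=
  quadraticChar_sum_zero (ringChar_ne p hp2)

lemma chi_mul_self (x : ZMod p) : chi p x * chi p x = 1 - (if x = 0 then 1 else 0) := by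
  by_cases h : x = 0
  · subst h; simp [chi]
  · rw [if_neg h, ← sq, chi, quadraticChar_sq_one h]; norm_num

lemma sum_ind (c : ZMod p) : ∑ x : ZMod p, (if x = c then (1 : ℤ) else 0) = 1 := by
  rw [Finset.sum_ite_eq' Finset.univ c]; simp

lemma sum_one : ∑ _x : ZMod p, (1 : ℤ) = p := by
  simp [ZMod.card]

lemma chi_sq_sum : ∑ x : ZMod p, chi p x * chi p x = p - 1 := by
  simp_rw [chi_mul_self, Finset.sum_sub_distrib, sum_one, sum_ind]

lemma pair_sum (hp2 : p ≠ 2) {c : ZMod p} (hc : c ≠ 0) :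
    ∑ x : ZMod p, chi p x * chi p (x + c) = -1 := by
  have h1 : ∀ x : ZMod p, chi p x * chi p (x + c) = chi p (1 + c * x⁻¹) - (if x = 0 then 1 else 0) := by
    intro x
    by_cases h : x = 0
    · subst h; simp [chi]
    · have e : x + c = x * (1 + c * x⁻¹) := by field_simp
      have e2 : chi p (x + c) = chi p x * chi p (1 + c * x⁻¹) := by
        rw [e]; exact map_mul _ _ _
      rw [e2, ← mul_assoc, chi_mul_self, if_neg h]; ring
  simp_rw [h1, Finset.sum_sub_distrib, sum_ind]
  let e : ZMod p ≃ ZMod p :=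
    ((Equiv.inv (ZMod p)).trans (Equiv.mulLeft₀ c hc)).trans (Equiv.addLeft 1)
  have h2 : ∑ x : ZMod p, chi p (1 + c * x⁻¹) = ∑ x : ZMod p, chi p x := by
    rw [← Equiv.sum_comp e (fun x => chi p x)]
    rfl
  rw [h2, chi_sum p hp2]; ring

lemma corr_sum (hp2 : p ≠ 2) (n m : ZMod p) :
    ∑ t : ZMod p, chi p (n + t) * chi p (m + t) = p * (if n = m then 1 else 0) - 1 := by
  have h1 : ∑ t : ZMod p, chi p (n + t) * chi p (m + t) =
      ∑ x : ZMod p, chi p x * chi p (x + (m - n)) := by
    rw [← Equiv.sum_comp (Equiv.addLeft n) (fun x => chi p x * chi p (x + (m - n)))]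
    apply Finset.sum_congr rfl
    intro t _
    simp only [Equiv.coe_addLeft]
    congr 2
    ring
  rw [h1]
  by_cases h : n = m
  · subst h
    simp only [sub_self, add_zero, if_true]
    rw [chi_sq_sum]; ring
  · rw [if_neg h, pair_sum p hp2 (sub_ne_zero.2 (Ne.symm h))]; ring

/-- the triple correlation -/
noncomputable def TT (a b : ZMod p) : ℤ := ∑ n : ZMod p, chi p n * chi p (n + a) * chi p (n + b)

lemma TT_comm (a b : ZMod p) : TT p a b = TT p b a := by
  unfold TT
  apply Finset.sum_congr rfl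
  intro n _
  ring

lemma TT_scale {c : ZMod p} (hc : c ≠ 0) (a b : ZMod p) : TT p (c * a) (c * b) = chi p c * TT p a b := by
  unfold TT
  rw [← Equiv.sum_comp (Equiv.mulLeft₀ c hc), Finset.mul_sum]
  apply Finset.sum_congr rfl
  intro n _
  have e0 : (Equiv.mulLeft₀ c hc) n = c * n := rfl
  rw [e0, ← mul_add, ← mul_add]
  have e : ∀ x : ZMod p, chi p (c * x) = chi p c * chi p x := fun x => map_mul _ _ _
  rw [e, e, e]
  have h := chi_mul_self p c
  rw [if_neg hc] at h
  calc chi p c * chi p n * (chi p c * chi p (n + a)) * (chi p c * chi p (n + b))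
      = (chi p c * chi p c) * (chi p c * (chi p n * chi p (n + a) * chi p (n + b))) := by ring
    _ = _ := by rw [h]; ring

lemma TT_sq_scale {c : ZMod p} (hc : c ≠ 0) (a b : ZMod p) :
    TT p (c * a) (c * b) ^ 2 = TT p a b ^ 2 := by
  rw [TT_scale p hc, mul_pow, sq (chi p c), chi_mul_self, if_neg hc]; ring

lemma TT_inv {t : ZMod p} (ht : t ≠ 0) : TT p 1 t ^ 2 = TT p 1 t⁻¹ ^ 2 := by
  rw [TT_comm p 1 t]
  have := TT_sq_scale p ht 1 t⁻¹
  rw [mul_one, mul_inv_cancel₀ ht] at this
  exact this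

lemma TT_neg_one : TT p 1 (-1) = TT p 1 2 := by
  unfold TT
  rw [← Equiv.sum_comp (Equiv.addRight (1 : ZMod p))]
  apply Finset.sum_congr rfl
  intro n _
  simp only [Equiv.coe_addRight]
  have e1 : n + 1 + 1 = n + 2 := by ring
  have e2 : n + 1 + -1 = n := by ring
  rw [e1, e2]; ring

lemma TT_energy (hp2 : p ≠ 2) : ∑ t : ZMod p, TT p 1 t ^ 2 = p * (p - 2) - 1 := by
  set w : ZMod p → ℤ := fun n => chi p n * chi p (n + 1) with hw
  have hw1 : ∑ n, w n = -1 := pair_sum p hp2 one_ne_zero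
  have hw2 : ∑ n, w n * w n = p - 2 := by
    have : ∀ n : ZMod p, w n * w n = 1 - (if n = 0 then 1 else 0) - (if n = -1 then 1 else 0) := by
      intro n
      have e : w n * w n = (chi p n * chi p n) * (chi p (n + 1) * chi p (n + 1)) := by
        simp only [hw]; ring
      rw [e, chi_mul_self, chi_mul_self]
      by_cases h0 : n = 0
      · subst h0
        simp
      · by_cases h1 : n = -1
        · subst h1; simp
        · have h2 : n + 1 ≠ 0 := fun h => h1 (eq_neg_of_add_eq_zero_left h)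
          simp [h0, h1, h2]
    simp_rw [this, Finset.sum_sub_distrib, sum_one, sum_ind]; ring
  have h1 : ∀ t : ZMod p, TT p 1 t ^ 2 =
      ∑ n, ∑ m, (w n * w m) * (chi p (n + t) * chi p (m + t)) := by
    intro t
    unfold TT
    rw [sq, Finset.sum_mul_sum]
    apply Finset.sum_congr rfl
    intro n _
    apply Finset.sum_congr rfl
    intro m _
    simp only [hw]; ring
  simp_rw [h1]
  rw [Finset.sum_comm]
  have h2 : ∀ n : ZMod p, ∑ t : ZMod p, ∑ m, (w n * w m) * (chi p (n + t) * chi p (m + t)) =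
      p * (w n * w n) - w n * ∑ m, w m := by
    intro n
    rw [Finset.sum_comm]
    have h3 : ∀ m : ZMod p, ∑ t : ZMod p, (w n * w m) * (chi p (n + t) * chi p (m + t)) =
        (if n = m then p * (w n * w m) else 0) - w n * w m := by
      intro m
      rw [← Finset.mul_sum, corr_sum p hp2]
      split_ifs <;> ring
    simp_rw [h3, Finset.sum_sub_distrib]
    rw [Finset.sum_ite_eq Finset.univ n, if_pos (Finset.mem_univ _), Finset.mul_sum]
  simp_rw [h2, Finset.sum_sub_distrib]
  rw [← Finset.mul_sum, ← Finset.sum_mul, hw1, hw2]; ring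

lemma two_le_energy (hp2 : p ≠ 2) {t u : ZMod p} (htu : t ≠ u) (h : TT p 1 t ^ 2 = TT p 1 u ^ 2) :
    2 * TT p 1 t ^ 2 ≤ p * (p - 2) - 1 := by
  rw [← TT_energy p hp2]
  have h1 : ∑ x ∈ ({t, u} : Finset (ZMod p)), TT p 1 x ^ 2 ≤ ∑ x : ZMod p, TT p 1 x ^ 2 :=
    Finset.sum_le_sum_of_subset_of_nonneg (Finset.subset_univ _) (fun _ _ _ => sq_nonneg _)
  rw [Finset.sum_pair htu, ← h] at h1
  linarith

lemma TT_bound (hp3 : 3 < p) {t : ZMod p} (ht0 : t ≠ 0) (ht1 : t ≠ 1) :
    2 * TT p 1 t ^ 2 ≤ p * (p - 2) - 1 := by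
  have hp2 : p ≠ 2 := by omega
  by_cases h : t = t⁻¹
  · have h1 : t * t = 1 := by
      nth_rewrite 2 [h]
      exact mul_inv_cancel₀ ht0
    have h2 : t = -1 := (mul_self_eq_one_iff.1 h1).resolve_left ht1
    subst h2
    apply two_le_energy p hp2 (u := 2) _ (by rw [TT_neg_one])
    intro h3
    have h4 : ((3 : ℕ) : ZMod p) = 0 := by
      push_cast
      have : (3 : ZMod p) = 2 - (-1) := by ring
      rw [this, ← h3]; ring
    rw [ZMod.natCast_eq_zero_iff] at h4
    have := Nat.le_of_dvd (by norm_num) h4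
    omega
  · exact two_le_energy p hp2 h (TT_inv p ht0)

lemma chi_cases {x : ZMod p} (hx : x ≠ 0) : chi p x = 1 ∨ chi p x = -1 := quadraticChar_dichotomy hx

lemma chi_le (x : ZMod p) : 0 ≤ 1 + chi p x ∧ 1 + chi p x ≤ 2 := by
  by_cases h : x = 0
  · subst h; simp [chi]
  · rcases chi_cases p h with h | h <;> rw [h] <;> norm_num

lemma exists_pair (hp : 7 ≤ p) {c : ZMod p} (hc : c ≠ 0) :
    ∃ n : ZMod p, chi p n = 1 ∧ chi p (n + c) = 1 := by
  have hp2 : p ≠ 2 := by omega
  by_contra hno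
  push Not at hno
  have h1 : ∑ n : ZMod p, (1 + chi p n) * (1 + chi p (n + c)) = p - 1 := by
    have e : ∀ n : ZMod p, (1 + chi p n) * (1 + chi p (n + c)) =
        1 + chi p n + chi p (n + c) + chi p n * chi p (n + c) := by intro n; ring
    have e2 : ∑ n : ZMod p, chi p (n + c) = 0 := by
      rw [← chi_sum p hp2]
      exact Equiv.sum_comp (Equiv.addRight c) (fun x => chi p x)
    simp_rw [e, Finset.sum_add_distrib]
    rw [sum_one, chi_sum p hp2, pair_sum p hp2 hc, e2]; ring
  have h2 : ∀ n : ZMod p, (1 + chi p n) * (1 + chi p (n + c)) ≤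
      2 * (if n = 0 then 1 else 0) + 2 * (if n = -c then 1 else 0) := by
    intro n
    by_cases h0 : n = 0
    · subst h0
      rw [if_pos rfl, if_neg (by simpa using hc)]
      have := chi_le p (0 + c)
      have : chi p 0 = 0 := by simp [chi]
      rw [this]; linarith
    · by_cases h3 : n = -c
      · subst h3
        rw [if_neg h0, if_pos rfl]
        have := chi_le p (-c)
        have : chi p (-c + c) = 0 := by simp [chi]
        rw [this]; linarith
      · rw [if_neg h0, if_neg h3]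
        have h4 : n + c ≠ 0 := fun h => h3 (eq_neg_of_add_eq_zero_left h)
        rcases chi_cases p h0 with h5 | h5
        · rcases chi_cases p h4 with h6 | h6
          · exact absurd h6 (hno n h5)
          · rw [h6]; norm_num
        · rw [h5]; norm_num
  have h3 := Finset.sum_le_sum (fun n (_ : n ∈ Finset.univ) => h2 n)
  rw [h1, Finset.sum_add_distrib, ← Finset.mul_sum, ← Finset.mul_sum, sum_ind, sum_ind] at h3
  have : (7 : ℤ) ≤ p := by exact_mod_cast hp
  linarith

lemma exists_triple_aux (hp : 53 ≤ p) {a b : ZMod p} (ha : a ≠ 0) (hb : b ≠ 0) (hab : a ≠ b) :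
    ∃ n : ZMod p, chi p n = 1 ∧ chi p (n + a) = 1 ∧ chi p (n + b) = 1 := by
  have hp2 : p ≠ 2 := by omega
  by_contra hno
  push Not at hno
  have shift : ∀ c : ZMod p, ∑ n : ZMod p, chi p (n + c) = 0 := by
    intro c
    rw [← chi_sum p hp2]
    exact Equiv.sum_comp (Equiv.addRight c) (fun x => chi p x)
  have h1 : ∑ n : ZMod p, (1 + chi p n) * (1 + chi p (n + a)) * (1 + chi p (n + b)) =
      p - 3 + TT p a b := by
    have e : ∀ n : ZMod p, (1 + chi p n) * (1 + chi p (n + a)) * (1 + chi p (n + b)) =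
        1 + chi p n + chi p (n + a) + chi p (n + b) + chi p n * chi p (n + a) +
          chi p n * chi p (n + b) + chi p (a + n) * chi p (b + n) +
          chi p n * chi p (n + a) * chi p (n + b) := by
      intro n
      rw [add_comm a n, add_comm b n]; ring
    simp_rw [e, Finset.sum_add_distrib]
    rw [sum_one, chi_sum p hp2, shift, shift, pair_sum p hp2 ha, pair_sum p hp2 hb,
      corr_sum p hp2 a b, if_neg hab, TT]
    ring
  have h2 : ∀ n : ZMod p, (1 + chi p n) * (1 + chi p (n + a)) * (1 + chi p (n + b)) ≤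
      4 * (if n = 0 then 1 else 0) + 4 * (if n = -a then 1 else 0) +
        4 * (if n = -b then 1 else 0) := by
    intro n
    have hc0 : chi p 0 = 0 := by simp [chi]
    by_cases h0 : n = 0
    · subst h0
      rw [if_pos rfl, if_neg (by simpa using ha), if_neg (by simpa using hb), hc0]
      have h3 := chi_le p (0 + a)
      have h4 := chi_le p (0 + b)
      nlinarith [h3.1, h3.2, h4.1, h4.2]
    · by_cases h5 : n = -a
      · subst h5
        have h6 : -a ≠ -b := fun h => hab (neg_injective h)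
        rw [if_neg h0, if_pos rfl, if_neg h6, neg_add_cancel, hc0]
        have h3 := chi_le p (-a)
        have h4 := chi_le p (-a + b)
        nlinarith [h3.1, h3.2, h4.1, h4.2]
      · by_cases h6 : n = -b
        · subst h6
          rw [if_neg h0, if_neg h5, if_pos rfl, neg_add_cancel, hc0]
          have h3 := chi_le p (-b)
          have h4 := chi_le p (-b + a)
          nlinarith [h3.1, h3.2, h4.1, h4.2]
        · rw [if_neg h0, if_neg h5, if_neg h6]
          have h7 : n + a ≠ 0 := fun h => h5 (eq_neg_of_add_eq_zero_left h)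
          have h8 : n + b ≠ 0 := fun h => h6 (eq_neg_of_add_eq_zero_left h)
          rcases chi_cases p h0 with h9 | h9
          · rcases chi_cases p h7 with h10 | h10
            · rcases chi_cases p h8 with h11 | h11
              · exact absurd h11 (hno n h9 h10)
              · rw [h11]; norm_num
            · rw [h10]; norm_num
          · rw [h9]; norm_num
  have h3 := Finset.sum_le_sum (fun n (_ : n ∈ Finset.univ) => h2 n)
  rw [h1, Finset.sum_add_distrib, Finset.sum_add_distrib, ← Finset.mul_sum, ← Finset.mul_sum,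
    ← Finset.mul_sum, sum_ind, sum_ind, sum_ind] at h3
  have h4 : TT p a b ^ 2 = TT p 1 (a⁻¹ * b) ^ 2 := by
    have := TT_sq_scale p ha 1 (a⁻¹ * b)
    rw [mul_one, mul_inv_cancel_left₀ ha] at this
    exact this
  have h5 : 2 * TT p 1 (a⁻¹ * b) ^ 2 ≤ p * (p - 2) - 1 := by
    apply TT_bound p (by omega)
    · exact mul_ne_zero (inv_ne_zero ha) hb
    · intro h
      apply hab
      rw [inv_mul_eq_one₀ ha] at h
      exact h
  rw [← h4] at h5
  have h6 : (53 : ℤ) ≤ p := by exact_mod_cast hp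
  set P : ℤ := (p : ℤ)
  set t : ℤ := TT p a b
  have h7 : P - 15 ≤ -t := by linarith
  have h8 : (P - 15) ^ 2 ≤ t ^ 2 := by nlinarith
  nlinarith

lemma exists_triple (hp : 53 ≤ p) (a b : ZMod p) :
    ∃ n : ZMod p, chi p n = 1 ∧ chi p (n + a) = 1 ∧ chi p (n + b) = 1 := by
  by_cases ha : a = 0
  · subst ha
    by_cases hb : b = 0
    · subst hb
      exact ⟨1, by simp [chi]⟩
    · obtain ⟨n, h1, h2⟩ := exists_pair p (by omega) hb
      exact ⟨n, h1, by rwa [add_zero], h2⟩
  · by_cases hb : b = 0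
    · subst hb
      obtain ⟨n, h1, h2⟩ := exists_pair p (by omega) ha
      exact ⟨n, h1, h2, by rwa [add_zero]⟩
    · by_cases hab : a = b
      · subst hab
        obtain ⟨n, h1, h2⟩ := exists_pair p (by omega) ha
        exact ⟨n, h1, h2, h2⟩
      · exact exists_triple_aux p hp ha hb hab

end Large

/-! ### The finitely many small cases -/

/-- quadratic residues by Euler's criterion -/
def qr (p i : ℕ) : Bool := Nat.beq (i ^ (p / 2) % p) 1

/-- the sign functions on odd residues modulo `8` -/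
def ch2 (u v : Bool) (i : ℕ) : Bool :=
  cond (Nat.beq i 1) true (cond (Nat.beq i 3) u (cond (Nat.beq i 5) v (u == v)))

/-- exceptional residues modulo `3` -/
def ex3 (a b : ℕ) : Bool := exq 3 1 2 a b

/-- exceptional residues modulo `5` -/
def ex5 (a b : ℕ) : Bool := exq 5 1 3 a b || (exq 5 2 3 a b || exq 5 2 4 a b)

/-- exceptional residues modulo `7` -/
def ex7 (a b : ℕ) : Bool := exq 7 1 5 a b || (exq 7 2 3 a b || exq 7 4 6 a b)

theorem check2 : ∀ s u v : Bool,
    chkAll (gd 2 8 s (ch2 u v) 6 true) (fun _ => 0) 256 = true := by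
  decide +kernel

theorem check3t : ∀ s : Bool,
    chkAll (gd 3 3 s (fun _ => true) 3 true) (fun a => mask (ex3 a) 27) 27 = true := by
  decide +kernel

theorem check3 : ∀ s : Bool,
    chkAll (gd 3 3 s (qr 3) 3 true) (fun a => mask (ex3 a) 27) 27 = true := by
  decide +kernel

theorem check5 : ∀ s : Bool,
    chkAll (gd 5 5 s (qr 5) 2 true) (fun a => mask (ex5 a) 25) 25 = true := by
  decide +kernel

theorem check7 : ∀ s : Bool,
    chkAll (gd 7 7 s (qr 7) 2 true) (fun a => mask (ex7 a) 49) 49 = true := by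
  decide +kernel

theorem check11 : ∀ s : Bool, chkAll (gd 11 11 s (qr 11) 2 true) (fun _ => 0) 121 = true := by
  decide +kernel

theorem check13 : ∀ s : Bool, chkAll (gd 13 13 s (qr 13) 2 true) (fun _ => 0) 169 = true := by
  decide +kernel

theorem check17 : ∀ s : Bool, chkAll (gd 17 17 s (qr 17) 2 true) (fun _ => 0) 289 = true := by
  decide +kernel

theorem check19 : ∀ s : Bool, chkAll (gd 19 19 s (qr 19) 1 true) (fun _ => 0) 19 = true := by
  decide +kernel

theorem check23 : ∀ s : Bool, chkAll (gd 23 23 s (qr 23) 1 true) (fun _ => 0) 23 = true := by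
  decide +kernel

theorem check29 : ∀ s : Bool, chkAll (gd 29 29 s (qr 29) 1 true) (fun _ => 0) 29 = true := by
  decide +kernel

theorem check31 : ∀ s : Bool, chkAll (gd 31 31 s (qr 31) 1 true) (fun _ => 0) 31 = true := by
  decide +kernel

theorem check37 : ∀ s : Bool, chkAll (gd 37 37 s (qr 37) 1 true) (fun _ => 0) 37 = true := by
  decide +kernel

theorem check41 : ∀ s : Bool, chkAll (gd 41 41 s (qr 41) 1 true) (fun _ => 0) 41 = true := by
  decide +kernel

theorem check43 : ∀ s : Bool, chkAll (gd 43 43 s (qr 43) 1 true) (fun _ => 0) 43 = true := by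
  decide +kernel

theorem check47 : ∀ s : Bool, chkAll (gd 47 47 s (qr 47) 1 true) (fun _ => 0) 47 = true := by
  decide +kernel

/-! ### Assembly -/

/-- the conclusion -/
def Good (p : ℕ) (F : ℕ → Bool) (a b : ℕ) : Prop :=
  ∃ k r : ℕ, ∀ n : ℕ, 0 < n → n ≡ r [MOD p ^ k] →
    F n = true ∧ F (n + a) = true ∧ F (n + b) = true

lemma exceptional_of_ex3 {a b M : ℕ} (hM : 3 ∣ M) (h : ex3 (a % M) (b % M) = true) :
    Exceptional a b := by
  have h1 := exq_sound h
  rw [Nat.mod_mod_of_dvd _ hM, Nat.mod_mod_of_dvd _ hM] at h1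
  left
  rcases h1 with ⟨h1, h2⟩ | ⟨h1, h2⟩
  · rw [h1, h2]
  · rw [h1, h2]; exact Finset.pair_comm _ _

lemma exceptional_of_ex5 {a b M : ℕ} (hM : 5 ∣ M) (h : ex5 (a % M) (b % M) = true) :
    Exceptional a b := by
  unfold ex5 at h
  rw [Bool.or_eq_true, Bool.or_eq_true] at h
  rcases h with h | h | h
  all_goals
    have h1 := exq_sound h
    rw [Nat.mod_mod_of_dvd _ hM, Nat.mod_mod_of_dvd _ hM] at h1
  · right; left
    rcases h1 with ⟨h1, h2⟩ | ⟨h1, h2⟩
    · rw [h1, h2]
    · rw [h1, h2]; exact Finset.pair_comm _ _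
  · right; right; left
    rcases h1 with ⟨h1, h2⟩ | ⟨h1, h2⟩
    · rw [h1, h2]
    · rw [h1, h2]; exact Finset.pair_comm _ _
  · right; right; right; left
    rcases h1 with ⟨h1, h2⟩ | ⟨h1, h2⟩
    · rw [h1, h2]
    · rw [h1, h2]; exact Finset.pair_comm _ _

lemma exceptional_of_ex7 {a b M : ℕ} (hM : 7 ∣ M) (h : ex7 (a % M) (b % M) = true) :
    Exceptional a b := by
  unfold ex7 at h
  rw [Bool.or_eq_true, Bool.or_eq_true] at h
  rcases h with h | h | h
  all_goals
    have h1 := exq_sound h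
    rw [Nat.mod_mod_of_dvd _ hM, Nat.mod_mod_of_dvd _ hM] at h1
  · right; right; right; right; left
    rcases h1 with ⟨h1, h2⟩ | ⟨h1, h2⟩
    · rw [h1, h2]
    · rw [h1, h2]; exact Finset.pair_comm _ _
  · right; right; right; right; right; left
    rcases h1 with ⟨h1, h2⟩ | ⟨h1, h2⟩
    · rw [h1, h2]
    · rw [h1, h2]; exact Finset.pair_comm _ _
  · right; right; right; right; right; right
    rcases h1 with ⟨h1, h2⟩ | ⟨h1, h2⟩
    · rw [h1, h2]
    · rw [h1, h2]; exact Finset.pair_comm _ _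

lemma testBit_mask_false {G : ℕ → Bool} {n i : ℕ} (h : ¬ G i = true) :
    (mask G n).testBit i = false :=
  Bool.eq_false_iff.2 fun hh => h (testBit_mask G n i hh).2

/-- odd `p`, finite check -/
lemma finish_odd {p : ℕ} (hp : p.Prime) (hp2 : p ≠ 2) {F : ℕ → Bool} (hF : LocalSign p F)
    {χ : ℕ → Bool} (hχ : ∀ i, ¬ p ∣ i → F i = χ i) (K M : ℕ) (hMM : M = p ^ K)
    {ex : ℕ → ℕ} (h : ∀ s : Bool, chkAll (gd p p s χ K true) ex M = true) (a b : ℕ)
    (hex : (ex (a % M)).testBit (b % M) = false) : Good p F a b := by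
  refine finish hp hF.1 0 K ?_ (fun i _ hi => hχ i hi) M p hMM (by ring) (h (F p)) a b hex
  intro m n hm hmn
  rw [zero_add, pow_one] at hmn
  exact dep_odd hp hp2 hF m n hm hmn

lemma good_two {F : ℕ → Bool} (hF : LocalSign 2 F) (a b : ℕ) : Good 2 F a b := by
  refine finish Nat.prime_two hF.1 2 6 ?_ (χ := ch2 (F 3) (F 5)) ?_ 256 8 (by norm_num)
    (by norm_num) (check2 (F 2) (F 3) (F 5)) a b (by simp)
  · intro m n hm hmn
    exact dep_two hF m n hm hmn
  · intro i hi h2
    have hi8 : i < 8 := by simpa using hi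
    interval_cases i
    · exact absurd (dvd_zero 2) h2
    · exact hF.1.one
    · exact absurd (by norm_num) h2
    · rfl
    · exact absurd (by norm_num) h2
    · rfl
    · exact absurd (by norm_num) h2
    · have h15 : F 7 = F 15 := dep_two hF 7 15 (by norm_num) (by decide)
      rw [h15, show 15 = 3 * 5 by norm_num, hF.1 3 5 (by norm_num) (by norm_num)]
      rfl

lemma chi_one_iff {p : ℕ} [Fact p.Prime] {m : ℕ} (hm : ¬ p ∣ m) :
    quadraticChar (ZMod p) (m : ZMod p) = 1 ↔ qr p m = true := by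
  have hp : p.Prime := Fact.out
  have h0 : (m : ZMod p) ≠ 0 := fun h => hm ((ZMod.natCast_eq_zero_iff m p).1 h)
  rw [quadraticChar_one_iff_isSquare h0, ZMod.euler_criterion p h0]
  have h1 : ((m : ZMod p) ^ (p / 2) = 1) ↔ m ^ (p / 2) ≡ 1 [MOD p] := by
    rw [← ZMod.natCast_eq_natCast_iff]
    push_cast
    exact Iff.rfl
  rw [h1, Nat.ModEq, Nat.mod_eq_of_lt hp.one_lt, qr]
  exact ⟨fun h => by rw [h]; rfl, fun h => Nat.eq_of_beq_eq_true h⟩

/-- a class modulo `p` -/
lemma good_of_class {p : ℕ} [Fact p.Prime] {F : ℕ → Bool} {P : ZMod p → Prop}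
    (hP : ∀ m : ℕ, 0 < m → P (m : ZMod p) → F m = true) {a b : ℕ}
    (h : ∃ n : ZMod p, P n ∧ P (n + a) ∧ P (n + b)) : Good p F a b := by
  obtain ⟨n, h1, h2, h3⟩ := h
  refine ⟨1, n.val, fun m hm hmn => ?_⟩
  rw [pow_one, ← ZMod.natCast_eq_natCast_iff, ZMod.natCast_zmod_val] at hmn
  refine ⟨hP m hm (by rw [hmn]; exact h1), hP _ (by omega) ?_, hP _ (by omega) ?_⟩
  · push_cast; rw [hmn]; exact h2
  · push_cast; rw [hmn]; exact h3

lemma good_odd {p : ℕ} (hp : p.Prime) (hp2 : p ≠ 2) {F : ℕ → Bool} (hF : LocalSign p F) {a b : ℕ}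
    (hne : ¬ Exceptional a b) : Good p F a b := by
  have : Fact p.Prime := ⟨hp⟩
  have hne0 : ∀ m : ℕ, (m : ZMod p) ≠ 0 → ¬ p ∣ m := fun m h hd =>
    h ((ZMod.natCast_eq_zero_iff m p).2 hd)
  rcases triv_or_leg hp2 hF with ht | hl
  · by_cases hp3 : p = 3
    · subst hp3
      refine finish_odd hp hp2 hF (χ := fun _ => true) (fun i hi => ht i hi) 3 27 (by norm_num)
        check3t a b (testBit_mask_false fun h => hne (exceptional_of_ex3 (by norm_num) h))
    · have hp5 : 5 ≤ p := by
        have h1 := hp.two_le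
        have h4 : p ≠ 4 := by rintro rfl; exact absurd hp (by norm_num)
        omega
      apply good_of_class (P := fun x : ZMod p => x ≠ 0) (fun m _ h => ht m (hne0 m h))
      by_contra hno
      push Not at hno
      have h1 : (Finset.univ : Finset (ZMod p)) ⊆ {0, -(a : ZMod p), -(b : ZMod p)} := by
        intro x _
        simp only [Finset.mem_insert, Finset.mem_singleton]
        by_cases hx : x = 0
        · exact Or.inl hx
        · right
          by_cases hxa : x + a = 0
          · exact Or.inl (eq_neg_of_add_eq_zero_left hxa)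
          · exact Or.inr (eq_neg_of_add_eq_zero_left (hno x hx hxa))
      have h2 := Finset.card_le_card h1
      rw [Finset.card_univ, ZMod.card] at h2
      have h3 := Finset.card_le_three (a := (0 : ZMod p)) (b := -(a : ZMod p)) (c := -(b : ZMod p))
      omega
  · have hq : ∀ i, ¬ p ∣ i → F i = qr p i := by
      intro i hi
      have h1 := (hl i hi).trans (chi_one_iff hi)
      cases h2 : F i <;> cases h3 : qr p i <;> simp [h2, h3] at h1 <;> rfl
    by_cases h53 : 53 ≤ p
    · apply good_of_class (P := fun x : ZMod p => chi p x = 1) _ (exists_triple p h53 a b)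
      intro m _ h
      have hm : (m : ZMod p) ≠ 0 := by
        intro h0
        rw [h0] at h
        simp [chi] at h
      exact (hl m (hne0 m hm)).2 h
    · push Not at h53
      interval_cases p
      all_goals try (exfalso; revert hp; norm_num; done)
      · exact absurd rfl hp2
      · exact finish_odd hp hp2 hF hq 3 27 (by norm_num) check3 a b
          (testBit_mask_false fun h => hne (exceptional_of_ex3 (by norm_num) h))
      · exact finish_odd hp hp2 hF hq 2 25 (by norm_num) check5 a b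
          (testBit_mask_false fun h => hne (exceptional_of_ex5 (by norm_num) h))
      · exact finish_odd hp hp2 hF hq 2 49 (by norm_num) check7 a b
          (testBit_mask_false fun h => hne (exceptional_of_ex7 (by norm_num) h))
      · exact finish_odd hp hp2 hF hq 2 121 (by norm_num) check11 a b (Nat.zero_testBit _)
      · exact finish_odd hp hp2 hF hq 2 169 (by norm_num) check13 a b (Nat.zero_testBit _)
      · exact finish_odd hp hp2 hF hq 2 289 (by norm_num) check17 a b (Nat.zero_testBit _)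
      · exact finish_odd hp hp2 hF hq 1 19 (by norm_num) check19 a b (Nat.zero_testBit _)
      · exact finish_odd hp hp2 hF hq 1 23 (by norm_num) check23 a b (Nat.zero_testBit _)
      · exact finish_odd hp hp2 hF hq 1 29 (by norm_num) check29 a b (Nat.zero_testBit _)
      · exact finish_odd hp hp2 hF hq 1 31 (by norm_num) check31 a b (Nat.zero_testBit _)
      · exact finish_odd hp hp2 hF hq 1 37 (by norm_num) check37 a b (Nat.zero_testBit _)
      · exact finish_odd hp hp2 hF hq 1 41 (by norm_num) check41 a b (Nat.zero_testBit _)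
      · exact finish_odd hp hp2 hF hq 1 43 (by norm_num) check43 a b (Nat.zero_testBit _)
      · exact finish_odd hp hp2 hF hq 1 47 (by norm_num) check47 a b (Nat.zero_testBit _)

end LocalSigns

/-- **S3.** Local solvability: a local sign takes the value `+` at `n`, `n + a`, `n + b` on a
whole residue class modulo a power of `p`, unless `(a, b)` is exceptional. -/
theorem local_exists {p : ℕ} (hp : p.Prime) {F : ℕ → Bool} (hF : LocalSign p F) {a b : ℕ}
    (ha : 0 < a) (hab : a < b) (hne : ¬ Exceptional a b) :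
    ∃ k r : ℕ, ∀ n : ℕ, 0 < n → n ≡ r [MOD p ^ k] →
      F n = true ∧ F (n + a) = true ∧ F (n + b) = true := by
  have _h := ha.trans hab
  by_cases hp2 : p = 2
  · subst hp2
    exact LocalSigns.good_two hF a b
  · exact LocalSigns.good_odd hp hp2 hF hne

end Pool.Agent.Hhelper89.LehmerFull
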