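import Mathlib

/-!
An elementary sieve: an arithmetic progression contains an element `n` such that `n + h` has
no prime factor in a sparse set of large primes.
-/

namespace Pool.Agent.Hhelper89.LehmerFull
namespace Pret

open Finset

lemma card_dvd_le {p D : ℕ} (hp : p.Prime) (hD : ¬ p ∣ D) (c Q : ℕ) :
    ((range Q).filter (fun t => p ∣ c + D * t)).card ≤ Q / p + 1 := by
  classical
  rcases ((range Q).filter (fun t => p ∣ c + D * t)).eq_empty_or_nonempty with h | ⟨t₀, ht₀⟩
  · rw [h]; simp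
  rw [Finset.mem_filter] at ht₀
  have hsub : (range Q).filter (fun t => p ∣ c + D * t) ⊆ (range Q).filter (· ≡ t₀ [MOD p]) := by
    intro t ht
    rw [Finset.mem_filter] at ht ⊢
    refine ⟨ht.1, ?_⟩
    have h1 : c + D * t ≡ c + D * t₀ [MOD p] :=
      ((Nat.modEq_zero_iff_dvd.2 ht.2)).trans (Nat.modEq_zero_iff_dvd.2 ht₀.2).symm
    have h2 : D * t ≡ D * t₀ [MOD p] := Nat.ModEq.add_left_cancel' c h1
    exact Nat.ModEq.cancel_left_of_coprime ((Nat.Prime.coprime_iff_not_dvd hp).2 hD) h2
  refine (Finset.card_le_card hsub).trans ?_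
  rw [← Nat.count_eq_card_filter_range, Nat.count_modEq_card _ hp.pos]
  split_ifs <;> omega

/-- the tail of a summable series over large numbers -/
lemma tail_le {w : ℕ → ℝ} (hw : Summable w) {ε : ℝ} (hε : 0 < ε) :
    ∃ z : ℕ, ∀ T : Finset ℕ, (∀ p ∈ T, z < p) → ∑ p ∈ T, w p ≤ ε := by
  obtain ⟨s, hs⟩ := summable_iff_vanishing_norm.1 hw ε hε
  refine ⟨s.sup id, fun T hT => ?_⟩
  have hd : Disjoint T s := by
    rw [Finset.disjoint_left]
    intro p hp hps
    exact absurd (hT p hp) (not_lt.2 (Finset.le_sup (f := id) hps))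
  exact (le_abs_self _).trans (hs T hd).le

theorem sieve {B : ℕ → Prop} (hBp : ∀ p, B p → p.Prime)
    (hsum : ∀ (w : ℕ → ℝ), (∀ p, (B p → w p = 1 / p) ∧ (¬ B p → w p = 0)) → Summable w)
    (z : ℕ) (hz : ∀ T : Finset ℕ, (∀ p ∈ T, B p ∧ z < p) → ∑ p ∈ T, (1 : ℝ) / p ≤ 1 / 12)
    {D : ℕ} (hD : 0 < D) (hDB : ∀ p, B p → z < p → ¬ p ∣ D) (r a b : ℕ) :
    ∃ n : ℕ, 0 < n ∧ n ≡ r [MOD D] ∧ ∀ p, B p → z < p → ¬ p ∣ n ∧ ¬ p ∣ n + a ∧ ¬ p ∣ n + b := by
  classical
  have hw : Summable (fun p : ℕ => if B p then (1 : ℝ) / p else 0) :=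
    hsum _ fun p => ⟨fun h => if_pos h, fun h => if_neg h⟩
  have hDpos : (0 : ℝ) < D := by exact_mod_cast hD
  obtain ⟨y, hy⟩ := tail_le hw (ε := 1 / (24 * D)) (by positivity)
  set C : ℕ := r + D + a + b with hC
  set Q : ℕ := 8 * (3 * y + C) with hQ
  set X : ℕ := C + D * Q with hX
  set P : Finset ℕ := (range (X + 1)).filter (fun p => B p ∧ z < p) with hP
  -- the number of elements of `P`
  have hcardP : (P.card : ℝ) ≤ y + X / (24 * D) := by
    have h1 : P ⊆ Icc 1 y ∪ P.filter (fun p => y < p) := by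
      intro p hp
      rw [Finset.mem_union, Finset.mem_Icc, Finset.mem_filter]
      rcases le_or_gt p y with h | h
      · left
        rw [hP, Finset.mem_filter] at hp
        exact ⟨(hBp p hp.2.1).one_lt.le, h⟩
      · right; exact ⟨hp, h⟩
    have h2 : (P.card : ℝ) ≤ (Icc 1 y).card + (P.filter (fun p => y < p)).card := by
      exact_mod_cast (Finset.card_le_card h1).trans (Finset.card_union_le _ _)
    have h3 : ((P.filter (fun p => y < p)).card : ℝ) ≤ X / (24 * D) := by
      have h4 : ∑ p ∈ P.filter (fun p => y < p), (if B p then (1 : ℝ) / p else 0) ≤ 1 / (24 * D) :=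
        hy _ fun p hp => (Finset.mem_filter.1 hp).2
      rcases Nat.eq_zero_or_pos X with hX0 | hXpos
      · have : P.filter (fun p => y < p) = ∅ := by
          rw [Finset.filter_eq_empty_iff]
          intro p hp
          rw [hP, Finset.mem_filter, Finset.mem_range] at hp
          have := (hBp p hp.2.1).pos
          omega
        rw [this]; simp; positivity
      have hXr : (0 : ℝ) < X := by exact_mod_cast hXpos
      have h5 : ((P.filter (fun p => y < p)).card : ℝ) * (1 / X) ≤
          ∑ p ∈ P.filter (fun p => y < p), (if B p then (1 : ℝ) / p else 0) := by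
        rw [← nsmul_eq_mul]
        apply Finset.card_nsmul_le_sum
        intro p hp
        rw [Finset.mem_filter, hP, Finset.mem_filter, Finset.mem_range] at hp
        rw [if_pos hp.1.2.1]
        have hp0 : (0 : ℝ) < p := by exact_mod_cast (hBp p hp.1.2.1).pos
        apply one_div_le_one_div_of_le hp0
        exact_mod_cast Nat.le_of_lt_succ hp.1.1
      have h6 := h5.trans h4
      rw [mul_one_div, div_le_iff₀ hXr] at h6
      calc _ ≤ 1 / (24 * (D : ℝ)) * X := h6
        _ = X / (24 * D) := by ring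
    rw [Nat.card_Icc, Nat.add_sub_cancel] at h2
    linarith
  have hsumP : ∑ p ∈ P, (1 : ℝ) / p ≤ 1 / 12 := hz _ fun p hp => (Finset.mem_filter.1 hp).2
  -- the bad set for one shift
  have hbad : ∀ c : ℕ, (((range Q).filter (fun t => ∃ p ∈ P, p ∣ c + D * t)).card : ℝ) ≤
      Q / 12 + (y + X / (24 * D)) := by
    intro c
    have h1 : (range Q).filter (fun t => ∃ p ∈ P, p ∣ c + D * t) ⊆
        P.biUnion fun p => (range Q).filter (fun t => p ∣ c + D * t) := by
      intro t ht
      rw [Finset.mem_filter] at ht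
      obtain ⟨p, hp, hpd⟩ := ht.2
      rw [Finset.mem_biUnion]
      exact ⟨p, hp, Finset.mem_filter.2 ⟨ht.1, hpd⟩⟩
    have h2 : (((range Q).filter (fun t => ∃ p ∈ P, p ∣ c + D * t)).card : ℝ) ≤
        ∑ p ∈ P, (((range Q).filter (fun t => p ∣ c + D * t)).card : ℝ) := by
      exact_mod_cast (Finset.card_le_card h1).trans Finset.card_biUnion_le
    have h3 : ∑ p ∈ P, (((range Q).filter (fun t => p ∣ c + D * t)).card : ℝ) ≤
        ∑ p ∈ P, ((Q : ℝ) * (1 / p) + 1) := by
      apply Finset.sum_le_sum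
      intro p hp
      rw [hP, Finset.mem_filter] at hp
      have h4 := card_dvd_le (hBp p hp.2.1) (hDB p hp.2.1 hp.2.2) c Q
      calc (((range Q).filter (fun t => p ∣ c + D * t)).card : ℝ) ≤ ((Q / p + 1 : ℕ) : ℝ) := by
            exact_mod_cast h4
        _ = ((Q / p : ℕ) : ℝ) + 1 := by push_cast; ring
        _ ≤ (Q : ℝ) / p + 1 := by
            gcongr
            exact Nat.cast_div_le
        _ = (Q : ℝ) * (1 / p) + 1 := by ring
    rw [Finset.sum_add_distrib, ← Finset.mul_sum, Finset.sum_const, nsmul_eq_mul, mul_one] at h3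
    have h5 : (Q : ℝ) * ∑ p ∈ P, (1 : ℝ) / p ≤ Q * (1 / 12) :=
      mul_le_mul_of_nonneg_left hsumP (Nat.cast_nonneg _)
    linarith
  -- there is a good element
  have hgood : ∃ t ∈ range Q, ∀ p ∈ P, ¬ p ∣ (r + D) + D * t ∧ ¬ p ∣ (r + D + a) + D * t ∧
      ¬ p ∣ (r + D + b) + D * t := by
    by_contra hcon
    have hcov : range Q ⊆ ((range Q).filter (fun t => ∃ p ∈ P, p ∣ (r + D) + D * t) ∪
        (range Q).filter (fun t => ∃ p ∈ P, p ∣ (r + D + a) + D * t)) ∪
        (range Q).filter (fun t => ∃ p ∈ P, p ∣ (r + D + b) + D * t) := by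
      intro t ht
      by_contra hnot
      apply hcon
      refine ⟨t, ht, fun p hp => ⟨fun h => ?_, fun h => ?_, fun h => ?_⟩⟩ <;> apply hnot
      · exact Finset.mem_union_left _ (Finset.mem_union_left _ (Finset.mem_filter.2 ⟨ht, p, hp, h⟩))
      · exact Finset.mem_union_left _ (Finset.mem_union_right _ (Finset.mem_filter.2 ⟨ht, p, hp, h⟩))
      · exact Finset.mem_union_right _ (Finset.mem_filter.2 ⟨ht, p, hp, h⟩)
    have h1 : (Q : ℝ) ≤ ((range Q).filter (fun t => ∃ p ∈ P, p ∣ (r + D) + D * t)).card +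
        ((range Q).filter (fun t => ∃ p ∈ P, p ∣ (r + D + a) + D * t)).card +
        ((range Q).filter (fun t => ∃ p ∈ P, p ∣ (r + D + b) + D * t)).card := by
      have := (Finset.card_le_card hcov).trans ((Finset.card_union_le _ _).trans
        (Nat.add_le_add_right (Finset.card_union_le _ _) _))
      rw [Finset.card_range] at this
      exact_mod_cast this
    have h2 := hbad (r + D)
    have h3 := hbad (r + D + a)
    have h4 := hbad (r + D + b)
    have h5 : (X : ℝ) / (24 * D) ≤ C / 24 + Q / 24 := by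
      rw [hX]
      push_cast
      rw [div_le_iff₀ (by positivity)]
      have hD1 : (1 : ℝ) ≤ D := by exact_mod_cast hD
      have hC0 : (0 : ℝ) ≤ C := Nat.cast_nonneg C
      nlinarith [mul_le_mul_of_nonneg_left hD1 hC0]
    have h6 : (Q : ℝ) = 8 * (3 * y + C) := by rw [hQ]; push_cast; ring
    have hC1 : (1 : ℝ) ≤ C := by
      have : 1 ≤ C := by omega
      exact_mod_cast this
    have hy0 : (0 : ℝ) ≤ y := Nat.cast_nonneg y
    linarith
  obtain ⟨t, ht, hgood⟩ := hgood
  refine ⟨(r + D) + D * t, by omega, ?_, ?_⟩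
  · have h1 : (r + D) + D * t = r + D * (t + 1) := by ring
    rw [h1]
    exact (Nat.modEq_iff_dvd.2 ⟨-((t : ℤ) + 1), by push_cast; ring⟩)
  · intro p hpB hpz
    rw [Finset.mem_range] at ht
    have hDt : D * t ≤ D * Q := Nat.mul_le_mul_left D ht.le
    by_cases hpX : p ≤ X
    · have hpP : p ∈ P := by
        rw [hP, Finset.mem_filter, Finset.mem_range]
        exact ⟨by omega, hpB, hpz⟩
      obtain ⟨h1, h2, h3⟩ := hgood p hpP
      refine ⟨h1, ?_, ?_⟩
      · rwa [show r + D + D * t + a = (r + D + a) + D * t by ring]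
      · rwa [show r + D + D * t + b = (r + D + b) + D * t by ring]
    · refine ⟨fun h => ?_, fun h => ?_, fun h => ?_⟩ <;>
      · have := Nat.le_of_dvd (by omega) h
        omega

end Pret
end Pool.Agent.Hhelper89.LehmerFull
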