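import Pool.Agent.Hhelper89.LehmerFull.PretExt
import Pool.Agent.Hhelper89.LehmerFull.PretCount

/-!
S4: a completely multiplicative sign function which pretends to be a real character takes the
value `+` at `n`, `n + a`, `n + b` for some `n`, for every non-exceptional pair.
-/

namespace Pool.Agent.Hhelper89.LehmerFull

open Finset Filter Topology
open Pool.Agent.Hhelper89.Lehmer

theorem pretentious_case
    (hloc : ∀ (p : ℕ) (F : ℕ → Bool) (a b : ℕ), p.Prime → LocalSign p F → 0 < a → a < b →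
      ¬ Exceptional a b → ∃ k r : ℕ, ∀ n : ℕ, 0 < n → n ≡ r [MOD p ^ k] →
        F n = true ∧ F (n + a) = true ∧ F (n + b) = true)
    {f : ℕ → Bool} (hf : MulSign f) {W : ℕ} (hW : 0 < W) {χ : ℕ → Bool}
    (hper : ∀ m n : ℕ, m ≡ n [MOD W] → χ m = χ n)
    (hmul : ∀ m n : ℕ, m.Coprime W → n.Coprime W → χ (m * n) = (χ m == χ n))
    (hsum : Summable (fun p : ℕ => if p.Prime ∧ ¬ p ∣ W ∧ f p ≠ χ p then (1 : ℝ) / p else 0))
    {a b : ℕ} (ha : 0 < a) (hab : a < b) (hne : ¬ Exceptional a b) :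
    ∃ n : ℕ, 0 < n ∧ f n = true ∧ f (n + a) = true ∧ f (n + b) = true := by
  classical
  obtain ⟨z, hz⟩ := Pret.tail_le hsum (ε := 1 / 12) (by norm_num)
  set B : ℕ → Prop := fun p => p.Prime ∧ ¬ p ∣ W ∧ f p ≠ χ p with hB
  set S : Finset ℕ := W.primeFactors ∪ (range (z + 1)).filter B with hS
  have hSp : ∀ l ∈ S, l.Prime := by
    intro l hl
    rw [hS, Finset.mem_union, Finset.mem_filter] at hl
    rcases hl with h | h
    · exact Nat.prime_of_mem_primeFactors h
    · exact h.2.1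
  have hWS : W.primeFactors ⊆ S := Finset.subset_union_left
  -- local solutions
  have hl : ∀ l : ℕ, ∃ k r : ℕ, l ∈ S → ∀ n : ℕ, 0 < n → n ≡ r [MOD l ^ k] →
      Pret.FF f χ W l n = true ∧ Pret.FF f χ W l (n + a) = true ∧
        Pret.FF f χ W l (n + b) = true := by
    intro l
    by_cases hlS : l ∈ S
    · obtain ⟨k, r, h⟩ := hloc l _ a b (hSp l hlS) (Pret.FF_local hW hper hmul f (hSp l hlS))
        ha hab hne
      exact ⟨k, r, fun _ => h⟩
    · exact ⟨0, 0, fun h => absurd h hlS⟩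
  choose k r hkr using hl
  obtain ⟨r₀, hr₀⟩ := Nat.chineseRemainderOfFinset r (fun l => l ^ k l) S
    (fun l hl => (pow_pos (hSp l hl).pos _).ne') (by
      intro l hl q hq hlq
      exact Nat.coprime_pow_primes _ _ (hSp l hl) (hSp q hq) hlq)
  set D : ℕ := ∏ l ∈ S, l ^ k l with hD
  have hDpos : 0 < D := Finset.prod_pos fun l hl => pow_pos (hSp l hl).pos _
  obtain ⟨n, hn, hnr, hgood⟩ := Pret.sieve (B := B) (fun p hp => hp.1)
    (by
      intro w hw
      convert hsum using 1
      funext p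
      by_cases hp : B p
      · rw [(hw p).1 hp, if_pos hp]
      · rw [(hw p).2 hp, if_neg hp])
    z (by
      intro T hT
      refine le_trans (le_of_eq ?_) (hz T fun p hp => (hT p hp).2)
      apply Finset.sum_congr rfl
      intro p hp
      rw [if_pos (hT p hp).1]) hDpos (by
      intro p hp hpz hpD
      obtain ⟨l, hlS, hpl⟩ := (Prime.dvd_finsetProd_iff hp.1.prime _).1 hpD
      have h1 : p ∣ l := hp.1.dvd_of_dvd_pow hpl
      have h2 : p = l := (Nat.prime_dvd_prime_iff_eq hp.1 (hSp l hlS)).1 h1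
      rw [← h2, hS, Finset.mem_union, Finset.mem_filter, Finset.mem_range] at hlS
      rcases hlS with h | h
      · exact hp.2.1 (Nat.dvd_of_mem_primeFactors h)
      · omega) r₀ a b
  have hmod : ∀ l ∈ S, n ≡ r l [MOD l ^ k l] := fun l hl =>
    (hnr.of_dvd (Finset.dvd_prod_of_mem _ hl)).trans (hr₀ l hl)
  have hsupp : ∀ m : ℕ, (∀ p, B p → z < p → ¬ p ∣ m) → Pret.Supp f χ W S m := by
    intro m hm q hq hqm
    by_cases hqS : q ∈ S
    · exact Or.inl hqS
    · right
      have h1 : ¬ q ∣ W := fun h => hqS (hWS (Nat.mem_primeFactors.2 ⟨hq, h, hW.ne'⟩))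
      refine ⟨h1, ?_⟩
      by_contra h2
      have hqB : B q := ⟨hq, h1, h2⟩
      rcases le_or_gt q z with h3 | h3
      · apply hqS
        rw [hS, Finset.mem_union, Finset.mem_filter, Finset.mem_range]
        exact Or.inr ⟨by omega, hqB⟩
      · exact hm q hqB h3 hqm
  refine ⟨n, hn, ?_, ?_, ?_⟩
  · exact Pret.true_of_FF hW hper hmul hf hSp hWS n hn (hsupp n fun p hp hpz => (hgood p hp hpz).1)
      fun l hl => (hkr l hl n hn (hmod l hl)).1
  · exact Pret.true_of_FF hW hper hmul hf hSp hWS (n + a) (by omega)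
      (hsupp _ fun p hp hpz => (hgood p hp hpz).2.1)
      fun l hl => (hkr l hl n hn (hmod l hl)).2.1
  · exact Pret.true_of_FF hW hper hmul hf hSp hWS (n + b) (by omega)
      (hsupp _ fun p hp hpz => (hgood p hp hpz).2.2)
      fun l hl => (hkr l hl n hn (hmod l hl)).2.2

end Pool.Agent.Hhelper89.LehmerFull
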