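import Pool.Agent.Hhelper89.LehmerFull.Final
import Pool.Agent.Hhelper89.LehmerFull.Energy
import Pool.Agent.Hhelper89.LehmerFull.Dichotomy
import Pool.Agent.Hhelper89.LehmerFull.Pretentious
import Pool.Agent.Hhelper89.LehmerFull.LocalSigns
import Pool.Agent.Hhelper89.Lehmer.Compact

/-!
Lehmer's conjecture: `Ω(a,b)` is finite for every non-exceptional pair.
-/

namespace Pool.Agent.Hhelper89.LehmerFull

open Finset Filter Topology MeasureTheory
open Pool.Agent.Hhelper89.Lehmer
open scoped InnerProductSpace ENNReal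

variable {M : Mean} {μ : Measure Om} [IsProbabilityMeasure μ]

/-- all values of `Θ` are small -/
lemma Th_small (hM : Realises M μ) {f : ℕ → Bool} (hf : MulSign f) {α β : ℕ}
    (hα : 0 < α) (hβ : 0 < β) {c₀ : Bool}
    (hav : ∀ n : ℕ, 0 < n → ¬ (f n = c₀ ∧ f (n + α) = c₀ ∧ f (n + β) = c₀))
    {W : ℕ} (hW : 0 < W)
    (hnp : ∀ χ : ℕ → Bool, (∀ m n : ℕ, m ≡ n [MOD W] → χ m = χ n) →
      (∀ m n : ℕ, m.Coprime W → n.Coprime W → χ (m * n) = (χ m == χ n)) →
      ¬ Summable (fun p : ℕ => if p.Prime ∧ ¬ p ∣ W ∧ f p ≠ χ p then (1 : ℝ) / p else 0)) :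
    ∀ c : ℕ, c.Coprime W → ∀ s : Bool, Th hM f α β W c (bsg s) ≤ 2 * tau hM f W := by
  have hconst := dichotomy hf hW hnp (fun c s => Th hM f α β W c (bsg s))
    (fun c c' s h => Th_congr hM f α β (bsg s) h) (by
      intro c c' e s t hc hdiv
      have hset : {q : ℕ | q.Prime ∧ (W : ℤ) ∣ q - e ∧ bsg (f q) = bsg t} =
          {q : ℕ | q.Prime ∧ (W : ℤ) ∣ q - e ∧ f q = t} := by
        ext q
        simp only [Set.mem_ofPred_eq]
        have : bsg (f q) = bsg t ↔ f q = t := by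
          cases f q <;> cases t <;> simp [bsg] <;> norm_num
        rw [this]
      have := Th_invariant hM hf α β W c c' e (s := bsg s) (t := bsg t)
        (by rw [sq, bsg_mul_self]) hc (by rw [hset]; exact hdiv)
      show Th hM f α β W c (bsg s) = Th hM f α β W c' (bsg (s == t))
      rw [this, bsg_beq])
  intro c hc s
  apply le_of_forall_pos_le_add
  intro ε hε
  obtain ⟨c', hc', s', h⟩ := exists_constraint hM hf hα hβ hav hW hε
  have h2 := hconst c c' (Nat.isCoprime_iff_coprime.2 hc) hc' s s'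
  have h3 : Th hM f α β W c (bsg s) = Th hM f α β W c' (bsg s') := h2
  rw [h3]
  exact h

/-- no completely multiplicative sign function avoids a non-exceptional pair -/
theorem no_sign_function {f : ℕ → Bool} (hf : MulSign f) {a b : ℕ} (ha : 0 < a) (hab : a < b)
    (hne : ¬ Exceptional a b)
    (hav : ∀ r, 0 < r → ¬ (f r = true ∧ f (r + a) = true ∧ f (r + b) = true)) : False := by
  obtain ⟨M⟩ := exists_mean
  obtain ⟨μ, hprob, hM⟩ := exists_measure M
  have hM' : Realises M μ := hM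
  -- f is not pretentious
  have hnp : ∀ W : ℕ, 0 < W → ∀ χ : ℕ → Bool, (∀ m n : ℕ, m ≡ n [MOD W] → χ m = χ n) →
      (∀ m n : ℕ, m.Coprime W → n.Coprime W → χ (m * n) = (χ m == χ n)) →
      ¬ Summable (fun p : ℕ => if p.Prime ∧ ¬ p ∣ W ∧ f p ≠ χ p then (1 : ℝ) / p else 0) := by
    intro W hW χ h1 h2 h3
    obtain ⟨n, hn, hn2⟩ := pretentious_case
      (fun p F a b hp hF ha hab hne => local_exists hp hF ha hab hne) hf hW h1 h2 h3 ha hab hne
    exact hav n hn hn2
  -- avoided colours at divisors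
  have hdiv : ∀ g x y : ℕ, 0 < g → a = g * x → b = g * y →
      ∀ n : ℕ, 0 < n → ¬ (f n = f g ∧ f (n + x) = f g ∧ f (n + y) = f g) := by
    rintro g x y hg hx hy n hn ⟨h1, h2, h3⟩
    apply hav (g * n) (Nat.mul_pos hg hn)
    refine ⟨?_, ?_, ?_⟩
    · rw [hf g n hg hn, h1]; cases f g <;> rfl
    · rw [hx, ← mul_add, hf g (n + x) hg (by omega), h2]; cases f g <;> rfl
    · rw [hy, ← mul_add, hf g (n + y) hg (by omega), h3]; cases f g <;> rfl
  -- reduce by the gcd
  set g := Nat.gcd a b with hg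
  have hg0 : 0 < g := Nat.gcd_pos_of_pos_left _ ha
  obtain ⟨α, hα⟩ : ∃ α, a = g * α := Nat.gcd_dvd_left a b
  obtain ⟨β, hβ⟩ : ∃ β, b = g * β := Nat.gcd_dvd_right a b
  have hco : α.Coprime β := by
    have h1 : a / g = α := by rw [hα]; exact Nat.mul_div_cancel_left α hg0
    have h2 : b / g = β := by rw [hβ]; exact Nat.mul_div_cancel_left β hg0
    have := Nat.coprime_div_gcd_div_gcd (m := a) (n := b) hg0
    rw [← hg, h1, h2] at this
    exact this
  have hα0 : 0 < α := Nat.pos_of_ne_zero (by rintro rfl; simp at hα; omega)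
  have hαβ : α < β := by
    have : g * α < g * β := by rw [← hα, ← hβ]; exact hab
    exact Nat.lt_of_mul_lt_mul_left this
  have hav1 := hdiv g α β hg0 hα hβ
  -- energy inequalities
  have e1 : ∀ i : ℕ, ∑ N ∈ (i.factorial).divisors, (koop hM').v (xL μ f) N * (1 + sig α β N) ≤
      8 * tau hM' f i.factorial := fun i =>
    energy hM' f hαβ.le (Nat.factorial_pos i)
      (Th_small hM' hf hα0 (by omega) hav1 (Nat.factorial_pos i) (hnp _ (Nat.factorial_pos i)))
  have e3 : ¬ 3 ∣ α * β * (β - α) → ∀ i : ℕ, ∑ N ∈ (i.factorial).divisors,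
      (koop hM').v (xL μ f) N * (1 + sig (3 * α) (3 * β) N) ≤ 8 * tau hM' f i.factorial := by
    intro h3 i
    -- 3 divides g
    have h3α : ¬ 3 ∣ α := fun h => h3 ((h.mul_right β).mul_right _)
    have h3β : ¬ 3 ∣ β := fun h => h3 ((h.mul_left α).mul_right _)
    have h3γ : ¬ 3 ∣ (β - α) := fun h => h3 (h.mul_left _)
    have h3g : 3 ∣ g := by
      by_contra h3g
      apply hne
      left
      have hg3 : g % 3 = 1 ∨ g % 3 = 2 := by omega
      have h5 : (α % 3 = 1 ∧ β % 3 = 2) ∨ (α % 3 = 2 ∧ β % 3 = 1) := by omega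
      have ea : a % 3 = (g % 3) * (α % 3) % 3 := by rw [hα, Nat.mul_mod]
      have eb : b % 3 = (g % 3) * (β % 3) % 3 := by rw [hβ, Nat.mul_mod]
      rw [ea, eb]
      rcases hg3 with h6 | h6 <;> rcases h5 with ⟨h7, h8⟩ | ⟨h7, h8⟩ <;> rw [h6, h7, h8] <;> decide
    obtain ⟨g', hg'⟩ := h3g
    have hg'0 : 0 < g' := by omega
    have hav3 := hdiv g' (3 * α) (3 * β) hg'0 (by rw [hα, hg']; ring) (by rw [hβ, hg']; ring)
    exact energy hM' f (by omega) (Nat.factorial_pos i)
      (Th_small hM' hf (by omega) (by omega) hav3 (Nat.factorial_pos i)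
        (hnp _ (Nat.factorial_pos i)))
  have hv : ∀ N : ℕ, 0 < N → (koop hM').v (xL μ f) N = 0 := fun N hN =>
    v_zero hM' hf hα0 hαβ hco e1 e3 hN
  have hP : ∀ i : ℕ, (koop hM').P i.factorial (xL μ f) = 0 := by
    intro i
    have h1 := (koop hM').V_eq_sum (xL μ f) (Nat.factorial_pos i)
    rw [Finset.sum_eq_zero (fun N hN => hv N (Nat.pos_of_mem_divisors hN))] at h1
    unfold ZAct.V at h1
    exact norm_eq_zero.1 (pow_eq_zero_iff (two_ne_zero) |>.1 h1)
  have hR : (koop hM').R (xL μ f) = 0 := by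
    have h1 := (koop hM').tendsto_R (xL μ f)
    simp only [hP] at h1
    exact (tendsto_nhds_unique h1 tendsto_const_nhds)
  exact R_ne_zero hM' hf hα0 hαβ hav1 hR

/-- **Lehmer's conjecture** -/
theorem omega_finite (a b : ℕ) (ha : 0 < a) (hab : a < b) (hne : ¬ Exceptional a b) :
    Omega a b < ⊤ := by
  by_contra hcon
  have htop : Omega a b = ⊤ := by simpa using hcon
  have h : ∀ M, 0 < M → ¬ TripleBound a b M := by
    intro M hM hT
    have hle : Omega a b ≤ (M : ℕ∞) := sInf_le ⟨M, hM, hT, rfl⟩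
    rw [htop, top_le_iff] at hle
    exact absurd hle (by simp)
  obtain ⟨f, hf, hav⟩ := exists_sign a b h
  exact no_sign_function hf ha hab hne hav

end Pool.Agent.Hhelper89.LehmerFull
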