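import Mathlib

/-!
Shift-invariant means on bounded functions `ℤ → ℝ`, concentrated on the positive integers, which
behave under dilations as the logarithmic density.
-/

namespace Pool.Agent.Hhelper89.LehmerFull

open Finset Filter Topology

/-- bounded real functions on `ℤ` -/
def Bdd (F : ℤ → ℝ) : Prop := ∃ C : ℝ, ∀ n, |F n| ≤ C

/-- a logarithmic mean -/
structure Mean where
  /-- the mean value of a (bounded) function -/
  E : (ℤ → ℝ) → ℝ
  add : ∀ F G : ℤ → ℝ, Bdd F → Bdd G → E (fun n => F n + G n) = E F + E G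
  smul : ∀ (c : ℝ) (F : ℤ → ℝ), Bdd F → E (fun n => c * F n) = c * E F
  nonneg : ∀ F : ℤ → ℝ, Bdd F → (∀ n, 0 ≤ F n) → 0 ≤ E F
  one : E (fun _ => 1) = 1
  shift : ∀ (h : ℤ) (F : ℤ → ℝ), Bdd F → E (fun n => F (n + h)) = E F
  dil : ∀ q : ℕ, 0 < q → ∀ F : ℤ → ℝ, Bdd F →
    E (fun n => F ((q : ℤ) * n)) = (q : ℝ) * E (fun n => if (q : ℤ) ∣ n then F n else 0)
  congr : ∀ F G : ℤ → ℝ, Bdd F → Bdd G → (∀ n : ℤ, 0 < n → F n = G n) → E F = E G

lemma Bdd.const (c : ℝ) : Bdd (fun _ => c) := ⟨|c|, fun _ => le_rfl⟩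

lemma Bdd.add {F G : ℤ → ℝ} (hF : Bdd F) (hG : Bdd G) : Bdd (fun n => F n + G n) := by
  obtain ⟨C, hC⟩ := hF
  obtain ⟨D, hD⟩ := hG
  exact ⟨C + D, fun n => (abs_add_le _ _).trans (add_le_add (hC n) (hD n))⟩

lemma Bdd.neg {F : ℤ → ℝ} (hF : Bdd F) : Bdd (fun n => - F n) := by
  obtain ⟨C, hC⟩ := hF
  exact ⟨C, fun n => by rw [abs_neg]; exact hC n⟩

lemma Bdd.sub {F G : ℤ → ℝ} (hF : Bdd F) (hG : Bdd G) : Bdd (fun n => F n - G n) := by
  simpa [sub_eq_add_neg] using hF.add hG.neg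

lemma Bdd.mul {F G : ℤ → ℝ} (hF : Bdd F) (hG : Bdd G) : Bdd (fun n => F n * G n) := by
  obtain ⟨C, hC⟩ := hF
  obtain ⟨D, hD⟩ := hG
  refine ⟨C * D, fun n => ?_⟩
  rw [abs_mul]
  exact mul_le_mul (hC n) (hD n) (abs_nonneg _) ((abs_nonneg _).trans (hC n))

lemma Bdd.const_mul (c : ℝ) {F : ℤ → ℝ} (hF : Bdd F) : Bdd (fun n => c * F n) :=
  (Bdd.const c).mul hF

lemma Bdd.comp {F : ℤ → ℝ} (hF : Bdd F) (φ : ℤ → ℤ) : Bdd (fun n => F (φ n)) := by
  obtain ⟨C, hC⟩ := hF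
  exact ⟨C, fun n => hC _⟩

lemma Bdd.ite {F G : ℤ → ℝ} (hF : Bdd F) (hG : Bdd G) (p : ℤ → Prop) [DecidablePred p] :
    Bdd (fun n => if p n then F n else G n) := by
  obtain ⟨C, hC⟩ := hF
  obtain ⟨D, hD⟩ := hG
  refine ⟨max C D, fun n => ?_⟩
  dsimp only
  split_ifs
  · exact (hC n).trans (le_max_left _ _)
  · exact (hD n).trans (le_max_right _ _)

lemma Bdd.sum {ι : Type*} (s : Finset ι) (F : ι → ℤ → ℝ) (hF : ∀ i ∈ s, Bdd (F i)) :
    Bdd (fun n => ∑ i ∈ s, F i n) := by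
  classical
  induction s using Finset.induction_on with
  | empty => simpa using Bdd.const 0
  | insert a s ha ih =>
    simp only [Finset.sum_insert ha]
    exact (hF a (Finset.mem_insert_self a s)).add
      (ih fun i hi => hF i (Finset.mem_insert_of_mem hi))

/-! ### existence -/

/-- harmonic sum -/
noncomputable def HN (N : ℕ) : ℝ := ∑ n ∈ Icc 1 N, (1 : ℝ) / n

/-- logarithmic sum -/
noncomputable def LS (F : ℤ → ℝ) (N : ℕ) : ℝ := ∑ n ∈ Icc 1 N, F n / n

lemma HN_eq (N : ℕ) : HN N = (harmonic N : ℝ) := by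
  rw [HN, harmonic_eq_sum_Icc]
  push_cast
  exact Finset.sum_congr rfl fun n _ => by rw [one_div]

lemma HN_tendsto : Tendsto HN atTop atTop := by
  have h : ∀ N : ℕ, Real.log (N + 1 : ℝ) ≤ HN N := fun N => by
    rw [HN_eq]; exact_mod_cast log_add_one_le_harmonic N
  refine tendsto_atTop_mono h ?_
  exact Real.tendsto_log_atTop.comp (tendsto_atTop_add_const_right _ _ tendsto_natCast_atTop_atTop)

lemma HN_pos {N : ℕ} (hN : 1 ≤ N) : 0 < HN N := by
  unfold HN
  apply Finset.sum_pos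
  · intro n hn
    have : 1 ≤ n := (Finset.mem_Icc.1 hn).1
    positivity
  · exact ⟨1, Finset.mem_Icc.2 ⟨le_rfl, hN⟩⟩

lemma HN_nonneg (N : ℕ) : 0 ≤ HN N := Finset.sum_nonneg fun n _ => by positivity

lemma LS_abs_le {F : ℤ → ℝ} {C : ℝ} (hC : ∀ n, |F n| ≤ C) (N : ℕ) : |LS F N| ≤ C * HN N := by
  unfold LS HN
  rw [Finset.mul_sum]
  refine (Finset.abs_sum_le_sum_abs _ _).trans (Finset.sum_le_sum fun n hn => ?_)
  rw [abs_div, Nat.abs_cast, mul_one_div]
  exact div_le_div_of_nonneg_right (hC _) (Nat.cast_nonneg _)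

/-- averages -/
noncomputable def AV (F : ℤ → ℝ) (N : ℕ) : ℝ := LS F N / HN N

lemma AV_abs_le {F : ℤ → ℝ} {C : ℝ} (hC : ∀ n, |F n| ≤ C) (N : ℕ) : |AV F N| ≤ C := by
  have hC0 : 0 ≤ C := (abs_nonneg _).trans (hC 0)
  unfold AV
  rcases Nat.eq_zero_or_pos N with rfl | hN
  · simpa [HN] using hC0
  · rw [abs_div, abs_of_pos (HN_pos hN), div_le_iff₀ (HN_pos hN)]
    exact LS_abs_le hC N

/-- the ultrafilter -/
noncomputable def UF : Ultrafilter ℕ := Ultrafilter.of atTop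

lemma UF_le : (UF : Filter ℕ) ≤ atTop := Ultrafilter.of_le atTop

/-- mean along the ultrafilter -/
noncomputable def EE (F : ℤ → ℝ) : ℝ := limUnder (UF : Filter ℕ) (AV F)

lemma EE_tendsto {F : ℤ → ℝ} (hF : Bdd F) : Tendsto (AV F) (UF : Filter ℕ) (𝓝 (EE F)) := by
  obtain ⟨C, hC⟩ := hF
  have h1 : ∀ N, AV F N ∈ Set.Icc (-C) C := fun N => abs_le.1 (AV_abs_le hC N)
  have h2 : IsCompact (Set.Icc (-C) C) := isCompact_Icc
  obtain ⟨x, hx, hx2⟩ := h2.ultrafilter_le_nhds (UF.map (AV F)) (by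
    rw [Ultrafilter.coe_map]
    simp only [le_principal_iff, Filter.mem_map]
    exact Filter.mem_of_superset Filter.univ_mem fun (N : ℕ) _ => h1 N)
  have : Tendsto (AV F) (UF : Filter ℕ) (𝓝 x) := hx2
  exact tendsto_nhds_limUnder ⟨x, this⟩

lemma EE_eq_of_tendsto {F : ℤ → ℝ} (hF : Bdd F) {x : ℝ} (h : Tendsto (AV F) (UF : Filter ℕ) (𝓝 x)) :
    EE F = x := tendsto_nhds_unique (EE_tendsto hF) h

lemma EE_eq_of_bounded_diff {F G : ℤ → ℝ} (hF : Bdd F) (hG : Bdd G) {C : ℝ} (c : ℝ)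
    (h : ∀ N, |LS F N - c * LS G N| ≤ C) : EE F = c * EE G := by
  have h1 : Tendsto (fun N => AV F N - c * AV G N) (UF : Filter ℕ) (𝓝 (EE F - c * EE G)) :=
    (EE_tendsto hF).sub ((EE_tendsto hG).const_mul c)
  have h2 : Tendsto (fun N => AV F N - c * AV G N) (UF : Filter ℕ) (𝓝 0) := by
    refine Tendsto.mono_left ?_ UF_le
    refine squeeze_zero_norm (a := fun N => C / HN N) (fun N => ?_)
      (tendsto_const_nhds.div_atTop HN_tendsto)
    unfold AV
    rw [← mul_div_assoc, ← sub_div, Real.norm_eq_abs, abs_div, abs_of_nonneg (HN_nonneg N)]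
    exact div_le_div_of_nonneg_right (h N) (HN_nonneg N)
  have := tendsto_nhds_unique h1 h2
  linarith

lemma EE_eq_of_bounded_diff' {F G : ℤ → ℝ} (hF : Bdd F) (hG : Bdd G) {C : ℝ}
    (h : ∀ N, |LS F N - LS G N| ≤ C) : EE F = EE G := by
  have := EE_eq_of_bounded_diff hF hG (C := C) 1 (fun N => by simpa using h N)
  simpa using this

lemma EE_add (F G : ℤ → ℝ) (hF : Bdd F) (hG : Bdd G) :
    EE (fun n => F n + G n) = EE F + EE G := by
  apply EE_eq_of_tendsto (hF.add hG)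
  have : AV (fun n => F n + G n) = fun N => AV F N + AV G N := by
    funext N
    unfold AV LS
    rw [← add_div, ← Finset.sum_add_distrib]
    simp only [add_div]
  rw [this]
  exact (EE_tendsto hF).add (EE_tendsto hG)

lemma EE_smul (c : ℝ) (F : ℤ → ℝ) (hF : Bdd F) : EE (fun n => c * F n) = c * EE F := by
  apply EE_eq_of_tendsto (hF.const_mul c)
  have : AV (fun n => c * F n) = fun N => c * AV F N := by
    funext N
    unfold AV LS
    rw [← mul_div_assoc, Finset.mul_sum]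
    simp only [mul_div_assoc]
  rw [this]
  exact (EE_tendsto hF).const_mul c

lemma EE_nonneg (F : ℤ → ℝ) (hF : Bdd F) (h : ∀ n, 0 ≤ F n) : 0 ≤ EE F := by
  refine ge_of_tendsto' (EE_tendsto hF) fun N => ?_
  unfold AV LS
  apply div_nonneg _ (HN_nonneg N)
  exact Finset.sum_nonneg fun n _ => div_nonneg (h _) (Nat.cast_nonneg _)

lemma EE_one : EE (fun _ => 1) = 1 := by
  apply EE_eq_of_tendsto (Bdd.const 1)
  refine Tendsto.mono_left ?_ UF_le
  refine Tendsto.congr' ?_ tendsto_const_nhds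
  filter_upwards [eventually_ge_atTop 1] with N hN
  unfold AV LS
  exact (div_self (HN_pos hN).ne').symm

lemma EE_congr (F G : ℤ → ℝ) (hF : Bdd F) (hG : Bdd G) (h : ∀ n : ℤ, 0 < n → F n = G n) :
    EE F = EE G := by
  apply EE_eq_of_bounded_diff' hF hG (C := 0)
  intro N
  have : LS F N = LS G N := by
    unfold LS
    refine Finset.sum_congr rfl fun n hn => ?_
    rw [h n (by have := (Finset.mem_Icc.1 hn).1; omega)]
  simp [this]

lemma EE_shift_one (F : ℤ → ℝ) (hF : Bdd F) : EE (fun n => F (n + 1)) = EE F := by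
  obtain ⟨C, hC⟩ := id hF
  have hC0 : 0 ≤ C := (abs_nonneg _).trans (hC 0)
  apply EE_eq_of_bounded_diff' (hF.comp _) hF (C := 2 * C)
  intro N
  -- sum_{n≤N} F(n+1)/n - sum_{n≤N} F(n)/n
  have key : ∀ N : ℕ, |LS (fun n => F (n + 1)) N - LS F (N + 1) + F 1| ≤
      C * (1 - 1 / ((N : ℝ) + 1)) := by
    intro N
    induction N with
    | zero => simp [LS]
    | succ N ih =>
      have e1 : LS (fun n => F (n + 1)) (N + 1) = LS (fun n => F (n + 1)) N +
          F ((N : ℤ) + 1 + 1) / ((N : ℝ) + 1) := by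
        unfold LS
        rw [Finset.sum_Icc_succ_top (by omega)]
        push_cast
        rfl
      have e2 : LS F (N + 1 + 1) = LS F (N + 1) + F ((N : ℤ) + 1 + 1) / ((N : ℝ) + 1 + 1) := by
        unfold LS
        rw [Finset.sum_Icc_succ_top (by omega)]
        push_cast
        rfl
      rw [e1, e2]
      have h3 : LS (fun n => F (n + 1)) N + F ((N : ℤ) + 1 + 1) / ((N : ℝ) + 1) -
          (LS F (N + 1) + F ((N : ℤ) + 1 + 1) / ((N : ℝ) + 1 + 1)) + F 1 =
          (LS (fun n => F (n + 1)) N - LS F (N + 1) + F 1) +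
          F ((N : ℤ) + 1 + 1) * (1 / ((N : ℝ) + 1) - 1 / ((N : ℝ) + 1 + 1)) := by ring
      rw [h3]
      have h4 : (0 : ℝ) ≤ 1 / ((N : ℝ) + 1) - 1 / ((N : ℝ) + 1 + 1) := by
        rw [sub_nonneg]
        exact one_div_le_one_div_of_le (by positivity) (by linarith)
      have h5 : |F ((N : ℤ) + 1 + 1) * (1 / ((N : ℝ) + 1) - 1 / ((N : ℝ) + 1 + 1))| ≤
          C * (1 / ((N : ℝ) + 1) - 1 / ((N : ℝ) + 1 + 1)) := by
        rw [abs_mul, abs_of_nonneg h4]
        exact mul_le_mul_of_nonneg_right (hC _) h4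
      calc _ ≤ _ := abs_add_le _ _
        _ ≤ _ := add_le_add ih h5
        _ = _ := by push_cast; ring
  have h1 := key N
  have h2 : LS F (N + 1) = LS F N + F ((N : ℤ) + 1) / ((N : ℝ) + 1) := by
    unfold LS
    rw [Finset.sum_Icc_succ_top (by omega)]
    push_cast
    rfl
  have h3 : LS (fun n => F (n + 1)) N - LS F N =
      (LS (fun n => F (n + 1)) N - LS F (N + 1) + F 1) - F 1 + F ((N : ℤ) + 1) / ((N : ℝ) + 1) := by
    rw [h2]; ring
  rw [h3]
  have h4 : |F ((N : ℤ) + 1) / ((N : ℝ) + 1)| ≤ C * (1 / ((N : ℝ) + 1)) := by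
    rw [abs_div, abs_of_pos (by positivity : (0 : ℝ) < (N : ℝ) + 1), mul_one_div]
    exact div_le_div_of_nonneg_right (hC _) (by positivity)
  have h5 := hC 1
  have h6 := abs_add_le ((LS (fun n => F (n + 1)) N - LS F (N + 1) + F 1) - F 1)
    (F ((N : ℤ) + 1) / ((N : ℝ) + 1))
  have h7 := abs_sub (LS (fun n => F (n + 1)) N - LS F (N + 1) + F 1) (F 1)
  have h8 : C * (1 - 1 / ((N : ℝ) + 1)) + C + C * (1 / ((N : ℝ) + 1)) = 2 * C := by ring
  linarith

lemma EE_shift_nat (h : ℕ) (F : ℤ → ℝ) (hF : Bdd F) : EE (fun n => F (n + h)) = EE F := by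
  induction h with
  | zero => simp
  | succ h ih =>
    rw [← ih, ← EE_shift_one _ (hF.comp (fun n => n + (h : ℤ)))]
    congr 1
    funext n
    push_cast
    ring_nf

lemma EE_shift (h : ℤ) (F : ℤ → ℝ) (hF : Bdd F) : EE (fun n => F (n + h)) = EE F := by
  rcases Int.eq_nat_or_neg h with ⟨k, rfl | rfl⟩
  · exact EE_shift_nat k F hF
  · rw [← EE_shift_nat k _ (hF.comp (fun n => n + -(k : ℤ)))]
    congr 1
    funext n
    ring_nf

lemma EE_dil (q : ℕ) (hq : 0 < q) (F : ℤ → ℝ) (hF : Bdd F) :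
    EE (fun n => F ((q : ℤ) * n)) = (q : ℝ) * EE (fun n => if (q : ℤ) ∣ n then F n else 0) := by
  classical
  obtain ⟨C, hC⟩ := id hF
  have hC0 : 0 ≤ C := (abs_nonneg _).trans (hC 0)
  have hG : Bdd (fun n : ℤ => if (q : ℤ) ∣ n then F n else 0) := hF.ite (Bdd.const 0) _
  -- q * LS G N = LS (F(q ·)) (N / q)
  have key : ∀ N : ℕ, (q : ℝ) * LS (fun n => if (q : ℤ) ∣ n then F n else 0) N =
      LS (fun n => F ((q : ℤ) * n)) (N / q) := by
    intro N
    unfold LS
    rw [Finset.mul_sum]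
    have h1 : ∑ n ∈ Icc 1 N, (q : ℝ) * ((if (q : ℤ) ∣ (n : ℤ) then F n else 0) / n) =
        ∑ n ∈ (Icc 1 N).filter (fun n => q ∣ n), (q : ℝ) * (F n / n) := by
      rw [Finset.sum_filter]
      refine Finset.sum_congr rfl fun n _ => ?_
      by_cases h : q ∣ n
      · rw [if_pos (by exact_mod_cast h), if_pos h]
      · rw [if_neg (by exact_mod_cast h), if_neg h]; simp
    rw [h1]
    symm
    refine Finset.sum_bij (fun m _ => q * m) ?_ ?_ ?_ ?_
    · intro m hm
      rw [Finset.mem_Icc] at hm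
      rw [Finset.mem_filter, Finset.mem_Icc]
      refine ⟨⟨Nat.mul_pos hq hm.1, ?_⟩, Dvd.intro _ rfl⟩
      calc q * m ≤ q * (N / q) := Nat.mul_le_mul_left _ hm.2
        _ ≤ N := Nat.mul_div_le _ _
    · intro m1 _ m2 _ h
      exact Nat.eq_of_mul_eq_mul_left hq h
    · intro n hn
      rw [Finset.mem_filter, Finset.mem_Icc] at hn
      obtain ⟨m, rfl⟩ := hn.2
      refine ⟨m, ?_, rfl⟩
      rw [Finset.mem_Icc]
      refine ⟨Nat.pos_of_ne_zero fun h => by simp [h] at hn, ?_⟩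
      rw [Nat.le_div_iff_mul_le hq, mul_comm]
      exact hn.1.2
    · intro m hm
      rw [Finset.mem_Icc] at hm
      have hm0 : (m : ℝ) ≠ 0 := by
        have : 0 < m := hm.1
        positivity
      have hq0 : (q : ℝ) ≠ 0 := by positivity
      push_cast
      field_simp
  apply EE_eq_of_bounded_diff (hF.comp _) hG (C := C * q)
  intro N
  rw [key]
  unfold LS
  have h2 : ∑ n ∈ Icc 1 N, F ((q : ℤ) * n) / (n : ℝ) - ∑ n ∈ Icc 1 (N / q), F ((q : ℤ) * n) / (n : ℝ) =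
      ∑ n ∈ Ioc (N / q) N, F ((q : ℤ) * n) / (n : ℝ) := by
    rw [sub_eq_iff_eq_add, add_comm]
    have e : Icc 1 N = Icc 1 (N / q) ∪ Ioc (N / q) N := by
      ext n
      simp only [Finset.mem_union, Finset.mem_Icc, Finset.mem_Ioc]
      have h0 := Nat.div_le_self N q
      generalize N / q = k at h0 ⊢
      omega
    rw [e, Finset.sum_union]
    rw [Finset.disjoint_left]
    intro n h1 h2
    rw [Finset.mem_Icc] at h1
    rw [Finset.mem_Ioc] at h2
    generalize N / q = k at h1 h2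
    omega
  rw [h2]
  refine (Finset.abs_sum_le_sum_abs _ _).trans ?_
  -- each term ≤ C / n ≤ C * q / (N+1)?? ; number of terms ≤ N
  have h3 : ∀ n ∈ Ioc (N / q) N, |F ((q : ℤ) * n) / (n : ℝ)| ≤ C * (q / N) := by
    intro n hn
    rw [Finset.mem_Ioc] at hn
    have hn0 : 0 < n := lt_of_le_of_lt (Nat.zero_le _) hn.1
    have hN0 : 0 < N := lt_of_lt_of_le hn0 hn.2
    have hlt : N < q * n := by
      have := Nat.lt_mul_of_div_lt hn.1 hq
      linarith
    rw [abs_div, Nat.abs_cast, div_eq_mul_one_div]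
    refine mul_le_mul (hC _) ?_ (by positivity) hC0
    rw [div_le_div_iff₀ (by exact_mod_cast hn0) (by exact_mod_cast hN0)]
    rw [one_mul]
    exact_mod_cast hlt.le
  refine (Finset.sum_le_sum h3).trans ?_
  rw [Finset.sum_const, Nat.card_Ioc, nsmul_eq_mul]
  rcases Nat.eq_zero_or_pos N with rfl | hN
  · simp; positivity
  · have h4 : ((N - N / q : ℕ) : ℝ) ≤ N := by exact_mod_cast Nat.sub_le _ _
    have hN' : (0 : ℝ) < N := by exact_mod_cast hN
    calc ((N - N / q : ℕ) : ℝ) * (C * (q / N)) ≤ N * (C * (q / N)) :=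
          mul_le_mul_of_nonneg_right h4 (by positivity)
      _ = C * q := by field_simp

/-- existence of a logarithmic mean -/
theorem exists_mean : Nonempty Mean :=
  ⟨{ E := EE
     add := EE_add
     smul := EE_smul
     nonneg := EE_nonneg
     one := EE_one
     shift := EE_shift
     dil := EE_dil
     congr := EE_congr }⟩

end Pool.Agent.Hhelper89.LehmerFull
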