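import Pool.Agent.Hhelper89.LehmerFull.Koop

/-!
The sign observable, its projections on functions of period `d`, and dilations.
-/

namespace Pool.Agent.Hhelper89.LehmerFull

open Finset Filter Topology MeasureTheory
open Pool.Agent.Hhelper89.Lehmer
open scoped InnerProductSpace ENNReal

variable {M : Mean} {μ : Measure Om} [IsProbabilityMeasure μ]

/-- the sign observable -/
noncomputable def xx (f : ℕ → Bool) (u : Om) : ℝ := bsg (hat (fun n => f n.natAbs) u)

lemma xx_sq (f : ℕ → Bool) (u : Om) : xx f u * xx f u = 1 := bsg_mul_self _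

lemma abs_xx (f : ℕ → Bool) (u : Om) : |xx f u| = 1 := abs_bsg _

lemma xx_le (f : ℕ → Bool) (u : Om) : xx f u ≤ 1 := (le_abs_self _).trans (abs_xx f u).le

lemma neg_le_xx (f : ℕ → Bool) (u : Om) : -1 ≤ xx f u := by
  have := neg_abs_le (xx f u); rw [abs_xx] at this; exact this

lemma BM_xx (f : ℕ → Bool) : BM (xx f) := by
  refine ⟨?_, 1, fun u => (abs_xx f u).le⟩
  exact (measurable_of_countable bsg).comp (measurable_hat _)

lemma dens_pos (M : Mean) : M.dens {n : ℤ | 0 < n} = 1 := by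
  unfold Mean.dens
  rw [M.congr _ (fun _ => 1) (Bdd.indicator_one _) (Bdd.const 1), M.one]
  intro n hn
  have : n ∈ {n : ℤ | 0 < n} := hn
  rw [Set.indicator_of_mem this]
  rfl

lemma ae_pos (hM : Realises M μ) : ∀ᵐ u ∂μ, {n : ℤ | 0 < n} ∈ u := by
  have h1 : μ (cyl {n : ℤ | 0 < n}) = 1 := by rw [hM, dens_pos, ENNReal.ofReal_one]
  exact (prob_compl_eq_zero_iff (measurableSet_cyl _)).2 h1

lemma xx_dl (hM : Realises M μ) {f : ℕ → Bool} (hf : MulSign f) {q : ℕ} (hq : 0 < q) :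
    ∀ᵐ u ∂μ, xx f (dl q u) = bsg (f q) * xx f u := by
  filter_upwards [ae_pos hM] with u hu
  unfold xx
  rw [hat_dl, ← bsg_beq]
  congr 1
  rw [hat_eq]
  -- for n in a set of u
  have h1 : {n : ℤ | 0 < n} ∩ {n : ℤ | f n.natAbs = hat (fun n => f n.natAbs) u} ⊆
      {n : ℤ | f ((q : ℤ) * n).natAbs = (f q == hat (fun n => f n.natAbs) u)} := by
    rintro n ⟨h1, h2⟩
    simp only [Set.mem_ofPred_eq] at h1 h2 ⊢
    rw [Int.natAbs_mul, Int.natAbs_natCast, hf q n.natAbs hq (by omega), h2]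
  have h2 : {n : ℤ | f n.natAbs = hat (fun n => f n.natAbs) u} ∈ u := hat_eq.1 rfl
  exact Filter.mem_of_superset (Filter.inter_mem hu h2) h1

/-! ### linearity of `toL` -/

lemma toL_congr {g h : Om → ℝ} (hg : BM g) (hh : BM h) (e : g =ᵐ[μ] h) :
    toL μ g hg = toL μ h hh := by
  apply Lp.ext
  exact (toL_coe hg).trans (e.trans (toL_coe hh).symm)

lemma toL_add {g h : Om → ℝ} (hg : BM g) (hh : BM h) :
    toL μ _ (hg.add hh) = toL μ g hg + toL μ h hh := rfl

lemma toL_smul (c : ℝ) {g : Om → ℝ} (hg : BM g) :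
    toL μ _ (hg.const_mul c) = c • toL μ g hg := rfl

lemma toL_sub {g h : Om → ℝ} (hg : BM g) (hh : BM h) :
    toL μ _ (hg.sub hh) = toL μ g hg - toL μ h hh := by
  have h1 : toL μ _ (hg.sub hh) + toL μ h hh = toL μ g hg := by
    rw [← toL_add]
    exact toL_congr _ _ (Eventually.of_forall fun u => by simp)
  rw [← h1, add_sub_cancel_right]

lemma toL_sum {ι : Type*} (s : Finset ι) (g : ι → Om → ℝ) (hg : ∀ i, BM (g i)) :
    toL μ _ (BM.sum s g fun i _ => hg i) = ∑ i ∈ s, toL μ (g i) (hg i) := by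
  classical
  induction s using Finset.induction_on with
  | empty =>
    simp only [Finset.sum_empty]
    apply Lp.ext
    refine (toL_coe _).trans (EventuallyEq.trans ?_ (Lp.coeFn_zero ℝ 2 μ).symm)
    exact Eventually.of_forall fun u => by simp
  | insert a s ha ih =>
    rw [Finset.sum_insert ha, ← ih, ← toL_add]
    exact toL_congr _ _ (Eventually.of_forall fun u => by simp [Finset.sum_insert ha])

lemma koop_toL (hM : Realises M μ) (h : ℤ) {g : Om → ℝ} (hg : BM g) :
    (koop hM).K h (toL μ g hg) = toL μ _ (hg.comp (measurable_sh h)) := by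
  apply Lp.ext
  refine (koop_coe hM h _).trans (EventuallyEq.trans ?_ (toL_coe _).symm)
  exact ae_sh hM h (toL_coe hg)

/-- the averages -/
noncomputable def avg (f : ℕ → Bool) (d N : ℕ) (u : Om) : ℝ :=
  (N : ℝ)⁻¹ * ∑ n ∈ range N, xx f (sh ((n : ℤ) * d) u)

lemma BM_avg (f : ℕ → Bool) (d N : ℕ) : BM (avg f d N) :=
  (BM.sum _ _ fun n _ => (BM_xx f).comp (measurable_sh _)).const_mul _

lemma abs_avg_le (f : ℕ → Bool) (d N : ℕ) (u : Om) : |avg f d N u| ≤ 1 := by
  unfold avg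
  rcases Nat.eq_zero_or_pos N with rfl | hN
  · simp
  · rw [abs_mul, abs_inv, Nat.abs_cast, inv_mul_le_iff₀ (by exact_mod_cast hN), mul_one]
    refine (Finset.abs_sum_le_sum_abs _ _).trans ?_
    simp [abs_xx]

/-- the class of the sign observable -/
noncomputable def xL (μ : Measure Om) [IsProbabilityMeasure μ] (f : ℕ → Bool) : Lp ℝ 2 μ :=
  toL μ (xx f) (BM_xx f)

lemma norm_xL (f : ℕ → Bool) : ‖xL μ f‖ = 1 := by
  have h : ‖xL μ f‖ ^ 2 = 1 := by
    rw [xL, norm_sq_eq (toL_coe _)]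
    have : (fun u => xx f u ^ 2) = fun _ => (1 : ℝ) := by
      funext u; rw [sq, xx_sq]
    rw [this]; simp
  have h0 := norm_nonneg (xL μ f)
  nlinarith

lemma toL_avg (hM : Realises M μ) (f : ℕ → Bool) (d N : ℕ) :
    toL μ (avg f d N) (BM_avg f d N) =
      (N : ℝ)⁻¹ • ∑ n ∈ range N, (koop hM).K ((n : ℤ) * d) (xL μ f) := by
  have h1 : ∀ n : ℕ, (koop hM).K ((n : ℤ) * d) (xL μ f) =
      toL μ (fun u => xx f (sh ((n : ℤ) * d) u)) ((BM_xx f).comp (measurable_sh _)) := fun n =>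
    koop_toL hM _ (BM_xx f)
  simp only [h1]
  rw [← toL_sum, ← toL_smul]
  rfl

lemma tendsto_toL_avg (hM : Realises M μ) (f : ℕ → Bool) (d : ℕ) :
    Tendsto (fun N => toL μ (avg f d N) (BM_avg f d N)) atTop
      (𝓝 ((koop hM).P d (xL μ f))) := by
  have := (koop hM).tendsto_avg d (xL μ f)
  refine this.congr fun N => ?_
  exact (toL_avg hM f d N).symm

lemma P_le_one (hM : Realises M μ) (f : ℕ → Bool) (d : ℕ) :
    ∀ᵐ u ∂μ, (koop hM).P d (xL μ f) u ≤ 1 := by
  have h1 : (koop hM).P d (xL μ f) ≤ toL μ _ (BM.const 1) := by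
    refine le_of_tendsto' (tendsto_toL_avg hM f d) fun N => ?_
    rw [← Lp.coeFn_le]
    filter_upwards [toL_coe (μ := μ) (BM_avg f d N), toL_coe (μ := μ) (BM.const 1)] with u h1 h2
    rw [h1, h2]
    exact (le_abs_self _).trans (abs_avg_le f d N u)
  rw [← Lp.coeFn_le] at h1
  filter_upwards [h1, toL_coe (μ := μ) (BM.const 1)] with u h1 h2
  rwa [h2] at h1

lemma neg_one_le_P (hM : Realises M μ) (f : ℕ → Bool) (d : ℕ) :
    ∀ᵐ u ∂μ, -1 ≤ (koop hM).P d (xL μ f) u := by
  have h1 : toL μ _ (BM.const (-1)) ≤ (koop hM).P d (xL μ f) := by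
    refine ge_of_tendsto' (tendsto_toL_avg hM f d) fun N => ?_
    rw [← Lp.coeFn_le]
    filter_upwards [toL_coe (μ := μ) (BM_avg f d N), toL_coe (μ := μ) (BM.const (-1))] with u h1 h2
    rw [h1, h2]
    exact (abs_le.1 (abs_avg_le f d N u)).1
  rw [← Lp.coeFn_le] at h1
  filter_upwards [h1, toL_coe (μ := μ) (BM.const (-1))] with u h1 h2
  rwa [h2] at h1

/-- the projection of the sign observable on functions of period `d`, as a function -/
noncomputable def rr (hM : Realises M μ) (f : ℕ → Bool) (d : ℕ) (u : Om) : ℝ :=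
  max (-1) (min 1 ((koop hM).P d (xL μ f) u))

lemma abs_rr_le (hM : Realises M μ) (f : ℕ → Bool) (d : ℕ) (u : Om) : |rr hM f d u| ≤ 1 := by
  unfold rr
  rw [abs_le]
  exact ⟨le_max_left _ _, max_le (by norm_num) (min_le_left _ _)⟩

lemma BM_rr (hM : Realises M μ) (f : ℕ → Bool) (d : ℕ) : BM (rr hM f d) := by
  refine ⟨?_, 1, abs_rr_le hM f d⟩
  exact measurable_const.max (measurable_const.min (Lp.stronglyMeasurable _).measurable)

lemma rr_ae (hM : Realises M μ) (f : ℕ → Bool) (d : ℕ) :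
    ((koop hM).P d (xL μ f) : Om → ℝ) =ᵐ[μ] rr hM f d := by
  filter_upwards [P_le_one hM f d, neg_one_le_P hM f d] with u h1 h2
  unfold rr
  rw [min_eq_right h1, max_eq_right h2]

lemma toL_rr (hM : Realises M μ) (f : ℕ → Bool) (d : ℕ) :
    toL μ (rr hM f d) (BM_rr hM f d) = (koop hM).P d (xL μ f) := by
  apply Lp.ext
  exact (toL_coe _).trans (rr_ae hM f d).symm

lemma rr_sh (hM : Realises M μ) (f : ℕ → Bool) (d : ℕ) (k : ℤ) :
    ∀ᵐ u ∂μ, rr hM f d (sh (k * d) u) = rr hM f d u := by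
  have h1 : (koop hM).K (k * d) (toL μ (rr hM f d) (BM_rr hM f d)) =
      toL μ (rr hM f d) (BM_rr hM f d) := by
    rw [toL_rr]
    exact (koop hM).K_mul_of_mem ((koop hM).K_P d _) k
  have h2 := koop_coe hM (k * d) (toL μ (rr hM f d) (BM_rr hM f d))
  rw [h1] at h2
  filter_upwards [h2, toL_coe (μ := μ) (BM_rr hM f d),
    ae_sh hM (k * d) (toL_coe (μ := μ) (BM_rr hM f d))] with u h2 h3 h4
  rw [← h4, ← h3, h2]

/-- `r_{qd} ∘ D_q = f(q) r_d` -/
theorem rr_dl (hM : Realises M μ) {f : ℕ → Bool} (hf : MulSign f) {q : ℕ} (hq : 0 < q) (d : ℕ) :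
    ∀ᵐ u ∂μ, rr hM f (q * d) (dl q u) = bsg (f q) * rr hM f d u := by
  -- averages
  have h1 : ∀ N : ℕ, ∀ᵐ u ∂μ, avg f (q * d) N (dl q u) = bsg (f q) * avg f d N u := by
    intro N
    have h2 : ∀ᵐ u ∂μ, ∀ n : ℕ, xx f (sh ((n : ℤ) * (q * d : ℕ)) (dl q u)) =
        bsg (f q) * xx f (sh ((n : ℤ) * d) u) := by
      rw [ae_all_iff]
      intro n
      have h3 := ae_sh hM ((n : ℤ) * d) (xx_dl hM hf hq)
      filter_upwards [h3] with u hu
      rw [← hu, dl_sh]
      congr 2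
      push_cast
      ring
    filter_upwards [h2] with u hu
    unfold avg
    simp only [hu]
    rw [← Finset.mul_sum]
    ring
  -- L² convergence
  have hconv : ∀ e : ℕ, Tendsto (fun N => ∫ u, (avg f e N u - rr hM f e u) ^ 2 ∂μ) atTop (𝓝 0) := by
    intro e
    have h2 := tendsto_toL_avg hM f e
    have h3 : Tendsto (fun N => ‖toL μ (avg f e N) (BM_avg f e N) - (koop hM).P e (xL μ f)‖ ^ 2)
        atTop (𝓝 0) := by
      have := (tendsto_iff_norm_sub_tendsto_zero.1 h2).pow 2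
      simpa using this
    refine h3.congr fun N => ?_
    rw [← toL_rr, ← toL_sub (BM_avg f e N) (BM_rr hM f e), norm_sq_eq (toL_coe _)]
  -- bound
  set D : Om → ℝ := fun u => rr hM f (q * d) (dl q u) - bsg (f q) * rr hM f d u with hD
  have hBD : BM D := ((BM_rr hM f (q * d)).comp (measurable_dl q)).sub
    ((BM_rr hM f d).const_mul _)
  have h4 : ∀ N, ∫ u, D u ^ 2 ∂μ ≤ 2 * (q * ∫ u, (avg f (q * d) N u - rr hM f (q * d) u) ^ 2 ∂μ) +
      2 * ∫ u, (avg f d N u - rr hM f d u) ^ 2 ∂μ := by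
    intro N
    have hg : BM (fun u => (avg f (q * d) N u - rr hM f (q * d) u) ^ 2) :=
      ((BM_avg f (q * d) N).sub (BM_rr hM f (q * d))).pow 2
    have hg2 : BM (fun u => (avg f d N u - rr hM f d u) ^ 2) :=
      ((BM_avg f d N).sub (BM_rr hM f d)).pow 2
    have h5 := integral_dl_nonneg_le hM hq hg (fun u => sq_nonneg _)
    have h6 : ∫ u, D u ^ 2 ∂μ ≤ ∫ u, (2 * (avg f (q * d) N (dl q u) - rr hM f (q * d) (dl q u)) ^ 2 +
        2 * (avg f d N u - rr hM f d u) ^ 2) ∂μ := by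
      apply integral_mono_ae (hBD.pow 2).integrable
        (((hg.comp (measurable_dl q)).const_mul 2).add (hg2.const_mul 2)).integrable
      filter_upwards [h1 N] with u hu
      show D u ^ 2 ≤ 2 * (avg f (q * d) N (dl q u) - rr hM f (q * d) (dl q u)) ^ 2 +
        2 * (avg f d N u - rr hM f d u) ^ 2
      rw [hu, hD]
      dsimp only
      have h7 : bsg (f q) * bsg (f q) = 1 := bsg_mul_self _
      have h8 : (avg f d N u - rr hM f d u) ^ 2 =
          (bsg (f q) * avg f d N u - bsg (f q) * rr hM f d u) ^ 2 := by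
        have : (bsg (f q) * avg f d N u - bsg (f q) * rr hM f d u) ^ 2 =
          (bsg (f q) * bsg (f q)) * (avg f d N u - rr hM f d u) ^ 2 := by ring
        rw [this, h7, one_mul]
      rw [h8]
      nlinarith [sq_nonneg ((bsg (f q) * avg f d N u - rr hM f (q * d) (dl q u)) +
        (bsg (f q) * avg f d N u - bsg (f q) * rr hM f d u))]
    rw [integral_add ((hg.comp (measurable_dl q)).const_mul 2).integrable (hg2.const_mul 2).integrable,
      integral_const_mul, integral_const_mul] at h6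
    linarith
  have h5 : ∫ u, D u ^ 2 ∂μ ≤ 0 := by
    have h6 : Tendsto (fun N => 2 * ((q : ℝ) * ∫ u, (avg f (q * d) N u - rr hM f (q * d) u) ^ 2 ∂μ) +
      2 * ∫ u, (avg f d N u - rr hM f d u) ^ 2 ∂μ) atTop (𝓝 0) := by
      have := (((hconv (q * d)).const_mul (q : ℝ)).const_mul 2).add ((hconv d).const_mul 2)
      simpa using this
    exact ge_of_tendsto' h6 h4
  have h6 : ∫ u, D u ^ 2 ∂μ = 0 := le_antisymm h5 (integral_nonneg fun u => sq_nonneg _)
  have h7 := (integral_eq_zero_iff_of_nonneg (fun u => sq_nonneg (D u)) (hBD.pow 2).integrable).1 h6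
  filter_upwards [h7] with u hu
  have : D u = 0 := by simpa using hu
  rw [hD] at this
  linarith

end Pool.Agent.Hhelper89.LehmerFull
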