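import Pool.Agent.Hhelper89.LehmerFull.PretLocal

/-!
The local sign functions attached to a completely multiplicative sign function which agrees with
a real character at all primes outside a finite set.
-/

namespace Pool.Agent.Hhelper89.LehmerFull
namespace Pret

open Finset
open Pool.Agent.Hhelper89.Lehmer

/-- the completely multiplicative extension of a local character with a given sign at `l` -/
noncomputable def ext (l : ℕ) (g : ℕ → Bool) (s : Bool) (n : ℕ) : Bool :=
  g (ordCompl[l] n) == ofZ (zs s ^ (n.factorization l))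

lemma zs_pow_eq_or (s : Bool) (k : ℕ) : zs s ^ k = 1 ∨ zs s ^ k = -1 := by
  induction k with
  | zero => left; simp
  | succ k ih =>
    rw [pow_succ]
    rcases zs_eq_or s with h | h <;> rcases ih with h' | h' <;> rw [h', h] <;> simp

lemma zs_ext (l : ℕ) (g : ℕ → Bool) (s : Bool) (n : ℕ) :
    zs (ext l g s n) = zs (g (ordCompl[l] n)) * zs s ^ (n.factorization l) := by
  unfold ext
  rw [zs_beq, zs_ofZ (zs_pow_eq_or s _)]

lemma ext_mul {l : ℕ} (hl : l.Prime) {g : ℕ → Bool}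
    (hg : ∀ m n : ℕ, ¬ l ∣ m → ¬ l ∣ n → g (m * n) = (g m == g n)) (s : Bool) :
    MulSign (ext l g s) := by
  intro m n hm hn
  apply zs_inj
  rw [zs_beq, zs_ext, zs_ext, zs_ext, Nat.ordCompl_mul, hg _ _ (Nat.not_dvd_ordCompl hl hm.ne')
    (Nat.not_dvd_ordCompl hl hn.ne'), zs_beq, Nat.factorization_mul hm.ne' hn.ne',
    Finsupp.add_apply, pow_add]
  ring

lemma ext_of_not_dvd {l : ℕ} {g : ℕ → Bool} (s : Bool) {n : ℕ} (hn : ¬ l ∣ n) :
    ext l g s n = g n := by
  apply zs_inj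
  rw [zs_ext, Nat.factorization_eq_zero_of_not_dvd hn, pow_zero, pow_zero, Nat.div_one, mul_one]

lemma ext_self {l : ℕ} (hl : l.Prime) {g : ℕ → Bool} (h1 : g 1 = true) (s : Bool) :
    ext l g s l = s := by
  apply zs_inj
  rw [zs_ext, hl.factorization_self, pow_one, pow_one, Nat.div_self hl.pos, h1]
  simp [zs]

lemma ext_local {l : ℕ} (hl : l.Prime) {g : ℕ → Bool}
    (hg : ∀ m n : ℕ, ¬ l ∣ m → ¬ l ∣ n → g (m * n) = (g m == g n)) (s : Bool) (e : ℕ)
    (hper : ∀ m n : ℕ, m ≡ n [MOD l ^ e] → g m = g n) : LocalSign l (ext l g s) := by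
  refine ⟨ext_mul hl hg s, e + 1, ?_⟩
  intro m n hm hmn
  have hn : ¬ l ∣ n := by
    intro h
    exact hm ((hmn.dvd_iff (dvd_pow_self l e.succ_ne_zero)).2 h)
  rw [ext_of_not_dvd s hm, ext_of_not_dvd s hn]
  exact hper m n (hmn.of_dvd (pow_dvd_pow l e.le_succ))

/-- the sign at `l` -/
noncomputable def sg (f χ : ℕ → Bool) (W l : ℕ) : Bool :=
  ofZ (zs (f l) * ∏ q ∈ W.primeFactors.erase l, zs (lc χ W q l))

/-- the local sign function at `l` -/
noncomputable def FF (f χ : ℕ → Bool) (W l : ℕ) : ℕ → Bool := ext l (lc χ W l) (sg f χ W l)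

lemma zs_sg (f χ : ℕ → Bool) (W l : ℕ) :
    zs (sg f χ W l) = zs (f l) * ∏ q ∈ W.primeFactors.erase l, zs (lc χ W q l) := by
  unfold sg
  apply zs_ofZ
  rcases zs_eq_or (f l) with h | h <;>
  rcases prod_zs_eq_or (W.primeFactors.erase l) (fun q => lc χ W q l) with h' | h' <;>
  rw [h, h'] <;> simp

variable {W : ℕ} (hW : 0 < W) {χ : ℕ → Bool}
    (hper : ∀ m n : ℕ, m ≡ n [MOD W] → χ m = χ n)
    (hmul : ∀ m n : ℕ, m.Coprime W → n.Coprime W → χ (m * n) = (χ m == χ n))

include hW hper hmul in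
lemma FF_local (f : ℕ → Bool) {l : ℕ} (hl : l.Prime) : LocalSign l (FF f χ W l) :=
  ext_local hl (fun _ _ hm hn => lc_mul hW hper hmul hl hm hn) _ (W.factorization l)
    fun _ _ h => lc_per hW hper hl h

/-- the set of primes in the decomposition is big enough for `n` -/
def Supp (f χ : ℕ → Bool) (W : ℕ) (S : Finset ℕ) (n : ℕ) : Prop :=
  ∀ q : ℕ, q.Prime → q ∣ n → q ∈ S ∨ (¬ q ∣ W ∧ f q = χ q)

include hW hper hmul in
lemma zs_prime (f : ℕ → Bool) {S : Finset ℕ} (hS : ∀ l ∈ S, l.Prime) (hWS : W.primeFactors ⊆ S)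
    {q : ℕ} (hq : q.Prime) (h : q ∈ S ∨ (¬ q ∣ W ∧ f q = χ q)) :
    zs (f q) = ∏ l ∈ S, zs (FF f χ W l q) := by
  have hne : ∀ l ∈ S, l ≠ q → zs (FF f χ W l q) = zs (lc χ W l q) := by
    intro l hl hlq
    unfold FF
    rw [ext_of_not_dvd]
    intro hd
    exact hlq ((Nat.prime_dvd_prime_iff_eq (hS l hl) hq).1 hd)
  by_cases hqS : q ∈ S
  · rw [← Finset.mul_prod_erase _ _ hqS]
    have h1 : ∏ l ∈ S.erase q, zs (FF f χ W l q) = ∏ l ∈ W.primeFactors.erase q, zs (lc χ W l q) := by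
      rw [Finset.prod_congr rfl fun l hl => hne l (Finset.mem_of_mem_erase hl)
        (Finset.ne_of_mem_erase hl)]
      symm
      apply Finset.prod_subset (Finset.erase_subset_erase q hWS)
      intro l hl hl'
      rw [lc_of_not_dvd hW hper hmul (hS l (Finset.mem_of_mem_erase hl)), zs_true]
      intro hd
      exact hl' (Finset.mem_erase.2 ⟨Finset.ne_of_mem_erase hl, Nat.mem_primeFactors.2
        ⟨hS l (Finset.mem_of_mem_erase hl), hd, hW.ne'⟩⟩)
    rw [h1]
    unfold FF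
    rw [ext_self hq (lc_one hW hper hmul hq), zs_sg]
    rcases prod_zs_eq_or (W.primeFactors.erase q) (fun l => lc χ W l q) with h' | h' <;>
    rw [h'] <;> ring
  · obtain ⟨hqW, hfq⟩ := h.resolve_left hqS
    rw [Finset.prod_congr rfl fun l hl => hne l hl (fun e => hqS (e ▸ hl)), hfq,
      chi_eq_prod hW hper hmul ((Nat.Prime.coprime_iff_not_dvd hq).2 hqW)]
    apply Finset.prod_subset hWS
    intro l hl hl'
    rw [lc_of_not_dvd hW hper hmul (hS l hl), zs_true]
    intro hd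
    exact hl' (Nat.mem_primeFactors.2 ⟨hS l hl, hd, hW.ne'⟩)

lemma MulSign_one {f : ℕ → Bool} (hf : MulSign f) : f 1 = true := by
  have := hf 1 1 one_pos one_pos
  rw [mul_one] at this
  rw [this]
  cases f 1 <;> rfl

include hW hper hmul in
lemma zs_eq_prod {f : ℕ → Bool} (hf : MulSign f) {S : Finset ℕ} (hS : ∀ l ∈ S, l.Prime)
    (hWS : W.primeFactors ⊆ S) (n : ℕ) (hn : 0 < n) (h : Supp f χ W S n) :
    zs (f n) = ∏ l ∈ S, zs (FF f χ W l n) := by
  induction n using induction_on_primes with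
  | zero => exact absurd hn (lt_irrefl 0)
  | one =>
    rw [MulSign_one hf, Finset.prod_congr rfl fun l hl => by
      rw [MulSign_one (FF_local hW hper hmul f (hS l hl)).1]]
    simp [zs]
  | prime_mul p a hp ih =>
    have ha : 0 < a := Nat.pos_of_ne_zero (by rintro rfl; simp at hn)
    rw [hf p a hp.pos ha, zs_beq, Finset.prod_congr rfl fun l hl => by
      rw [(FF_local hW hper hmul f (hS l hl)).1 p a hp.pos ha, zs_beq], Finset.prod_mul_distrib,
      ih ha fun q hq hqa => h q hq (hqa.mul_left p),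
      zs_prime hW hper hmul f hS hWS hp (h p hp (dvd_mul_right p a))]

include hW hper hmul in
lemma true_of_FF {f : ℕ → Bool} (hf : MulSign f) {S : Finset ℕ} (hS : ∀ l ∈ S, l.Prime)
    (hWS : W.primeFactors ⊆ S) (n : ℕ) (hn : 0 < n) (h : Supp f χ W S n)
    (hF : ∀ l ∈ S, FF f χ W l n = true) : f n = true := by
  apply zs_inj
  rw [zs_eq_prod hW hper hmul hf hS hWS n hn h, Finset.prod_congr rfl fun l hl => by rw [hF l hl]]
  simp [zs]

end Pret
end Pool.Agent.Hhelper89.LehmerFull
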