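import Pool.Agent.Hhelper89.LehmerFull.Defs

/-!
Decomposition of a real character into its local components, and the local sign functions
attached to a completely multiplicative sign function which agrees with the character at all
primes outside a finite set.
-/

namespace Pool.Agent.Hhelper89.LehmerFull
namespace Pret

open Finset
open Pool.Agent.Hhelper89.Lehmer

/-- integer sign of a Boolean -/
def zs (b : Bool) : ℤ := if b then 1 else -1

lemma zs_beq (a b : Bool) : zs (a == b) = zs a * zs b := by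
  cases a <;> cases b <;> simp [zs]

lemma zs_sq (b : Bool) : zs b * zs b = 1 := by cases b <;> simp [zs]

lemma zs_inj {a b : Bool} (h : zs a = zs b) : a = b := by
  cases a <;> cases b <;> simp_all [zs]

lemma zs_true : zs true = 1 := rfl

lemma zs_eq_or (b : Bool) : zs b = 1 ∨ zs b = -1 := by cases b <;> simp [zs]

lemma prod_zs_eq_or {ι : Type*} (s : Finset ι) (g : ι → Bool) :
    ∏ i ∈ s, zs (g i) = 1 ∨ ∏ i ∈ s, zs (g i) = -1 := by
  classical
  induction s using Finset.induction_on with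
  | empty => simp
  | insert a s ha ih =>
    rw [Finset.prod_insert ha]
    rcases zs_eq_or (g a) with h | h <;> rcases ih with h' | h' <;> rw [h, h'] <;> simp

/-- the sign with given value -/
noncomputable def ofZ (x : ℤ) : Bool := decide (x = 1)

lemma zs_ofZ {x : ℤ} (h : x = 1 ∨ x = -1) : zs (ofZ x) = x := by
  rcases h with h | h <;> rw [h] <;> simp [ofZ, zs]

/-! ### local components of a character -/

section crt

variable {W : ℕ} (hW : 0 < W)

include hW in
lemma exists_crt {l : ℕ} (hl : l.Prime) (m : ℕ) :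
    ∃ k : ℕ, k ≡ m [MOD ordProj[l] W] ∧ k ≡ 1 [MOD ordCompl[l] W] := by
  have hco : (ordProj[l] W).Coprime (ordCompl[l] W) :=
    (Nat.coprime_ordCompl hl hW.ne').pow_left _
  obtain ⟨k, hk⟩ := Nat.chineseRemainder hco m 1
  exact ⟨k, hk⟩

open Classical in
/-- the integer congruent to `m` modulo the `l`-part of `W` and to `1` modulo the rest -/
noncomputable def crt (W l m : ℕ) : ℕ :=
  if h : ∃ k : ℕ, k ≡ m [MOD ordProj[l] W] ∧ k ≡ 1 [MOD ordCompl[l] W] then h.choose else 0

include hW in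
lemma crt_spec {l : ℕ} (hl : l.Prime) (m : ℕ) :
    crt W l m ≡ m [MOD ordProj[l] W] ∧ crt W l m ≡ 1 [MOD ordCompl[l] W] := by
  have h := exists_crt hW hl m
  unfold crt
  rw [dif_pos h]
  exact h.choose_spec

include hW in
lemma modEq_of_parts {l : ℕ} (hl : l.Prime) {x y : ℕ} (h1 : x ≡ y [MOD ordProj[l] W])
    (h2 : x ≡ y [MOD ordCompl[l] W]) : x ≡ y [MOD W] := by
  have hco : (ordProj[l] W).Coprime (ordCompl[l] W) :=
    (Nat.coprime_ordCompl hl hW.ne').pow_left _
  have := (Nat.modEq_and_modEq_iff_modEq_mul hco).1 ⟨h1, h2⟩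
  rwa [Nat.ordProj_mul_ordCompl_eq_self] at this

include hW in
lemma crt_coprime {l : ℕ} (hl : l.Prime) {m : ℕ} (hm : ¬ l ∣ m) : (crt W l m).Coprime W := by
  obtain ⟨h1, h2⟩ := crt_spec hW hl m
  rw [Nat.coprime_iff_gcd_eq_one]
  by_contra hne
  obtain ⟨r, hr, hr2⟩ := Nat.exists_prime_and_dvd hne
  have hrc : r ∣ crt W l m := hr2.trans (Nat.gcd_dvd_left _ _)
  have hrW : r ∣ W := hr2.trans (Nat.gcd_dvd_right _ _)
  rw [← Nat.ordProj_mul_ordCompl_eq_self W l, hr.dvd_mul] at hrW
  rcases hrW with h | h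
  · have hrl : r ∣ l := hr.dvd_of_dvd_pow h
    have : r = l := (Nat.prime_dvd_prime_iff_eq hr hl).1 hrl
    have h3 : r ∣ m := ((h1.dvd_iff h).1 hrc)
    rw [this] at h3
    exact hm h3
  · have h3 : r ∣ 1 := ((h2.dvd_iff h).1 hrc)
    exact hr.one_lt.ne' (Nat.dvd_one.1 h3)

end crt

variable {W : ℕ} (hW : 0 < W) {χ : ℕ → Bool}
    (hper : ∀ m n : ℕ, m ≡ n [MOD W] → χ m = χ n)
    (hmul : ∀ m n : ℕ, m.Coprime W → n.Coprime W → χ (m * n) = (χ m == χ n))

/-- the local component -/
noncomputable def lc (χ : ℕ → Bool) (W l m : ℕ) : Bool := χ (crt W l m)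

include hW hper in
lemma lc_per {l : ℕ} (hl : l.Prime) {m n : ℕ} (h : m ≡ n [MOD ordProj[l] W]) :
    lc χ W l m = lc χ W l n := by
  obtain ⟨h1, h2⟩ := crt_spec hW hl m
  obtain ⟨h3, h4⟩ := crt_spec hW hl n
  exact hper _ _ (modEq_of_parts hW hl ((h1.trans h).trans h3.symm) (h2.trans h4.symm))

include hW hper hmul in
lemma lc_mul {l : ℕ} (hl : l.Prime) {m n : ℕ} (hm : ¬ l ∣ m) (hn : ¬ l ∣ n) :
    lc χ W l (m * n) = (lc χ W l m == lc χ W l n) := by
  unfold lc
  rw [← hmul _ _ (crt_coprime hW hl hm) (crt_coprime hW hl hn)]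
  obtain ⟨h1, h2⟩ := crt_spec hW hl m
  obtain ⟨h3, h4⟩ := crt_spec hW hl n
  obtain ⟨h5, h6⟩ := crt_spec hW hl (m * n)
  exact hper _ _ (modEq_of_parts hW hl (h5.trans (h1.mul h3).symm)
    (h6.trans (by simpa using (h2.mul h4).symm)))

include hmul in
lemma chi_one : χ 1 = true := by
  have := hmul 1 1 (Nat.coprime_one_left W) (Nat.coprime_one_left W)
  rw [mul_one] at this
  rw [this]
  cases χ 1 <;> rfl

include hW hper hmul in
lemma lc_one {l : ℕ} (hl : l.Prime) : lc χ W l 1 = true := by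
  obtain ⟨h1, h2⟩ := crt_spec hW hl 1
  unfold lc
  rw [hper _ 1 (modEq_of_parts hW hl h1 h2)]
  exact chi_one hmul

include hW hper hmul in
lemma lc_of_not_dvd {l : ℕ} (hl : l.Prime) (h : ¬ l ∣ W) (m : ℕ) : lc χ W l m = true := by
  rw [← lc_one hW hper hmul hl]
  apply lc_per hW hper hl
  rw [Nat.factorization_eq_zero_of_not_dvd h, pow_zero]
  exact Nat.modEq_one

include hmul in
lemma chi_prod {ι : Type*} (s : Finset ι) (g : ι → ℕ) (hg : ∀ i ∈ s, (g i).Coprime W) :
    zs (χ (∏ i ∈ s, g i)) = ∏ i ∈ s, zs (χ (g i)) := by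
  classical
  induction s using Finset.induction_on with
  | empty => simp [chi_one hmul, zs]
  | insert a s ha ih =>
    rw [Finset.prod_insert ha, Finset.prod_insert ha, hmul _ _ (hg a (Finset.mem_insert_self a s))
      (Nat.Coprime.prod_left fun i hi => hg i (Finset.mem_insert_of_mem hi)), zs_beq,
      ih fun i hi => hg i (Finset.mem_insert_of_mem hi)]

lemma prod_modEq_one {ι : Type*} (s : Finset ι) (g : ι → ℕ) (M : ℕ)
    (h : ∀ i ∈ s, g i ≡ 1 [MOD M]) : ∏ i ∈ s, g i ≡ 1 [MOD M] := by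
  classical
  induction s using Finset.induction_on with
  | empty => exact Nat.ModEq.refl _
  | insert a s ha ih =>
    rw [Finset.prod_insert ha]
    exact (h a (Finset.mem_insert_self a s)).mul (ih fun i hi => h i (Finset.mem_insert_of_mem hi))

include hW in
lemma prod_crt_modEq_part (m : ℕ) {p : ℕ} (hp : p ∈ W.primeFactors) :
    ∏ l ∈ W.primeFactors, crt W l m ≡ m [MOD ordProj[p] W] := by
  have hpp := Nat.prime_of_mem_primeFactors hp
  rw [← Finset.mul_prod_erase _ _ hp]
  have h1 := (crt_spec hW hpp m).1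
  have h2 : ∏ l ∈ W.primeFactors.erase p, crt W l m ≡ 1 [MOD ordProj[p] W] := by
    apply prod_modEq_one
    intro l hl
    have hlp : l ≠ p := Finset.ne_of_mem_erase hl
    have hl' := Nat.prime_of_mem_primeFactors (Finset.mem_of_mem_erase hl)
    have h3 := (crt_spec hW hl' m).2
    refine h3.of_dvd ?_
    have hco : (ordProj[p] W).Coprime (ordProj[l] W) :=
      Nat.coprime_pow_primes _ _ hpp hl' hlp.symm
    refine hco.dvd_of_dvd_mul_left ?_
    rw [Nat.ordProj_mul_ordCompl_eq_self]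
    exact Nat.ordProj_dvd W p
  simpa using h1.mul h2

include hW in
lemma prod_crt_modEq (m : ℕ) : ∏ l ∈ W.primeFactors, crt W l m ≡ m [MOD W] := by
  have key : ∀ x y : ℕ, y ≤ x → (∀ p ∈ W.primeFactors, x ≡ y [MOD ordProj[p] W]) →
      x ≡ y [MOD W] := by
    intro x y hyx h
    apply Nat.ModEq.symm
    rw [Nat.modEq_iff_dvd' hyx, Nat.dvd_iff_prime_pow_dvd_dvd]
    intro p k hp hk
    rcases Nat.eq_zero_or_pos k with rfl | hkpos
    · simp
    have hpW : p ∈ W.primeFactors := Nat.mem_primeFactors.2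
      ⟨hp, (dvd_pow_self p hkpos.ne').trans hk, hW.ne'⟩
    have h1 := (Nat.modEq_iff_dvd' hyx).1 (h p hpW).symm
    refine (Nat.pow_dvd_pow p ?_).trans h1
    exact (hp.pow_dvd_iff_le_factorization hW.ne').1 hk
  rcases le_total m (∏ l ∈ W.primeFactors, crt W l m) with h | h
  · exact key _ _ h fun p hp => prod_crt_modEq_part hW m hp
  · exact (key _ _ h fun p hp => (prod_crt_modEq_part hW m hp).symm).symm

include hW hper hmul in
/-- product formula -/
lemma chi_eq_prod {m : ℕ} (hm : m.Coprime W) :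
    zs (χ m) = ∏ l ∈ W.primeFactors, zs (lc χ W l m) := by
  rw [← hper _ _ (prod_crt_modEq hW m)]
  exact chi_prod hmul _ _ fun l hl => crt_coprime hW (Nat.prime_of_mem_primeFactors hl) fun h => by
    have h1 := Nat.dvd_gcd h (Nat.dvd_of_mem_primeFactors hl)
    rw [Nat.coprime_iff_gcd_eq_one.1 hm] at h1
    exact (Nat.prime_of_mem_primeFactors hl).one_lt.ne' (Nat.dvd_one.1 h1)

end Pret
end Pool.Agent.Hhelper89.LehmerFull
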