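import Pool.Agent.Hhelper89.LehmerFull.Defs

/-!
Realisation of a mean on bounded functions on `ℤ` as a probability measure on the space of
ultrafilters of `ℤ`.
-/

namespace Pool.Agent.Hhelper89.LehmerFull

open Finset Filter Topology MeasureTheory
open Pool.Agent.Hhelper89.Lehmer

namespace Mean

variable (M : Mean)

lemma E_const (c : ℝ) : M.E (fun _ => c) = c := by
  have := M.smul c (fun _ => 1) (Bdd.const 1)
  simpa [M.one] using this

lemma E_zero : M.E (fun _ => 0) = 0 := M.E_const 0

lemma E_neg {F : ℤ → ℝ} (hF : Bdd F) : M.E (fun n => - F n) = - M.E F := by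
  have := M.smul (-1) F hF
  simpa using this

lemma E_sub {F G : ℤ → ℝ} (hF : Bdd F) (hG : Bdd G) :
    M.E (fun n => F n - G n) = M.E F - M.E G := by
  have := M.add F (fun n => - G n) hF hG.neg
  rw [M.E_neg hG] at this
  simpa [sub_eq_add_neg] using this

lemma E_mono {F G : ℤ → ℝ} (hF : Bdd F) (hG : Bdd G) (h : ∀ n, F n ≤ G n) : M.E F ≤ M.E G := by
  have := M.nonneg (fun n => G n - F n) (hG.sub hF) (fun n => sub_nonneg.2 (h n))
  rw [M.E_sub hG hF] at this
  linarith

lemma E_abs_le {F : ℤ → ℝ} {C : ℝ} (h : ∀ n, |F n| ≤ C) : |M.E F| ≤ C := by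
  have hF : Bdd F := ⟨C, h⟩
  rw [abs_le]
  constructor
  · have := M.E_mono (Bdd.const (-C)) hF (fun n => (abs_le.1 (h n)).1)
    rwa [M.E_const] at this
  · have := M.E_mono hF (Bdd.const C) (fun n => (abs_le.1 (h n)).2)
    rwa [M.E_const] at this

lemma E_sum {ι : Type*} (s : Finset ι) (F : ι → ℤ → ℝ) (hF : ∀ i ∈ s, Bdd (F i)) :
    M.E (fun n => ∑ i ∈ s, F i n) = ∑ i ∈ s, M.E (F i) := by
  classical
  induction s using Finset.induction_on with
  | empty => simpa using M.E_zero
  | insert a s ha ih =>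
    simp only [Finset.sum_insert ha]
    rw [M.add _ _ (hF a (Finset.mem_insert_self a s))
      (Bdd.sum s F fun i hi => hF i (Finset.mem_insert_of_mem hi)),
      ih fun i hi => hF i (Finset.mem_insert_of_mem hi)]

/-- the density of a set -/
noncomputable def dens (A : Set ℤ) : ℝ := M.E (A.indicator 1)

end Mean

lemma Bdd.indicator_one (A : Set ℤ) : Bdd (A.indicator (1 : ℤ → ℝ)) :=
  ⟨1, fun n => by
    by_cases h : n ∈ A
    · simp [h]
    · simp [h]⟩

/-- the space of ultrafilters on `ℤ` -/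
abbrev Om := Ultrafilter ℤ

/-- the basic clopen set of a set of integers -/
def cyl (A : Set ℤ) : Set Om := {u | A ∈ u}

lemma mem_cyl {A : Set ℤ} {u : Om} : u ∈ cyl A ↔ A ∈ u := Iff.rfl

instance instMeasurableSpaceOm : MeasurableSpace Om := MeasurableSpace.generateFrom (Set.range cyl)

lemma measurableSet_cyl (A : Set ℤ) : MeasurableSet (cyl A) :=
  MeasurableSpace.measurableSet_generateFrom ⟨A, rfl⟩

lemma cyl_inter (A B : Set ℤ) : cyl A ∩ cyl B = cyl (A ∩ B) := by
  ext u
  simp only [cyl, Set.mem_inter_iff, Set.mem_ofPred_eq]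
  exact (Filter.inter_mem_iff (f := (u : Filter ℤ)) (s := A) (t := B)).symm

lemma cyl_compl (A : Set ℤ) : (cyl A)ᶜ = cyl Aᶜ := by
  ext u
  simp only [cyl, Set.mem_compl_iff, Set.mem_ofPred_eq]
  exact Ultrafilter.compl_mem_iff_notMem.symm

lemma isPiSystem_cyl : IsPiSystem (Set.range cyl) := by
  rintro _ ⟨A, rfl⟩ _ ⟨B, rfl⟩ _
  exact ⟨A ∩ B, (cyl_inter A B).symm⟩

lemma isClopen_cyl (A : Set ℤ) : IsClopen (cyl A) :=
  ⟨ultrafilter_isClosed_basic A, ultrafilter_isOpen_basic A⟩

open scoped CompactlySupported in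
lemma bdd_cc (G : C_c(Om, ℝ)) : Bdd (fun n => G (pure n)) := by
  have h := isCompact_univ.image G.continuous
  obtain ⟨C, hC⟩ := h.isBounded.exists_norm_le
  exact ⟨C, fun n => by simpa using hC _ ⟨pure n, trivial, rfl⟩⟩

open scoped CompactlySupported in
/-- the positive functional on continuous functions -/
noncomputable def Lam (M : Mean) : C_c(Om, ℝ) →ₚ[ℝ] ℝ :=
  PositiveLinearMap.mk₀
    { toFun := fun G => M.E (fun n => G (pure n))
      map_add' := fun G G' => by
        simpa using M.add _ _ (bdd_cc G) (bdd_cc G')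
      map_smul' := fun c G => by
        simpa using M.smul c _ (bdd_cc G) }
    (fun G hG => M.nonneg _ (bdd_cc G) (fun n => hG (pure n)))

/-- the mean as a measure -/
theorem exists_measure (M : Mean) : ∃ μ : Measure Om, IsProbabilityMeasure μ ∧
    ∀ A : Set ℤ, μ (cyl A) = ENNReal.ofReal (M.dens A) := by
  classical
  let m0 : MeasurableSpace Om := borel Om
  have : @BorelSpace Om _ m0 := ⟨rfl⟩
  let ν : @Measure Om m0 := @RealRMK.rieszMeasure Om _ _ m0 _ (Lam M) _
  have hle : instMeasurableSpaceOm ≤ m0 := by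
    apply MeasurableSpace.generateFrom_le
    rintro _ ⟨A, rfl⟩
    exact (isClopen_cyl A).isOpen.measurableSet
  have key : ∀ A : Set ℤ, ν (cyl A) = ENNReal.ofReal (M.dens A) := by
    intro A
    let g : C(Om, ℝ) := ⟨(cyl A).indicator 1, (isClopen_cyl A).continuous_indicator continuous_one⟩
    have hg : HasCompactSupport g := HasCompactSupport.of_compactSpace _
    have h1 := @RealRMK.integral_rieszMeasure Om _ _ m0 _ (Lam M) _ ⟨g, hg⟩
    have h2 : (Lam M) ⟨g, hg⟩ = M.dens A := by
      show M.E (fun n => (cyl A).indicator 1 (pure n)) = M.E (A.indicator 1)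
      congr 1
    have h3 : ∫ x, (⟨g, hg⟩ : CompactlySupportedContinuousMap Om ℝ) x ∂ν = ν.real (cyl A) := by
      show ∫ x, (cyl A).indicator (1 : Om → ℝ) x ∂ν = ν.real (cyl A)
      rw [integral_indicator_one (isClopen_cyl A).isOpen.measurableSet]
    rw [h2] at h1
    have h4 : ν.real (cyl A) = M.dens A := h3 ▸ h1
    have hfin : ν (cyl A) ≠ ⊤ := by
      have : IsFiniteMeasureOnCompacts ν := by
        unfold ν RealRMK.rieszMeasure
        infer_instance
      exact ((isClopen_cyl A).isClosed.isCompact.measure_lt_top).ne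
    rw [← h4, Measure.real, ENNReal.ofReal_toReal hfin]
  refine ⟨ν.trim hle, ⟨?_⟩, fun A => ?_⟩
  · rw [trim_measurableSet_eq hle MeasurableSet.univ]
    have h5 : (Set.univ : Set Om) = cyl Set.univ := by
      ext u
      simp only [Set.mem_univ, mem_cyl, true_iff]
      exact Filter.univ_mem
    rw [h5, key]
    have : M.dens Set.univ = 1 := by
      unfold Mean.dens
      rw [Set.indicator_univ]
      exact M.one
    rw [this, ENNReal.ofReal_one]
  · rw [trim_measurableSet_eq hle (measurableSet_cyl A), key]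

/-! ### maps of the space of ultrafilters -/

/-- the shift -/
def sh (h : ℤ) (u : Om) : Om := Ultrafilter.map (fun n => n + h) u

/-- the dilation -/
def dl (q : ℕ) (u : Om) : Om := Ultrafilter.map (fun n => (q : ℤ) * n) u

lemma mem_sh {h : ℤ} {u : Om} {A : Set ℤ} : A ∈ sh h u ↔ {n | n + h ∈ A} ∈ u := Iff.rfl

lemma mem_dl {q : ℕ} {u : Om} {A : Set ℤ} : A ∈ dl q u ↔ {n | (q : ℤ) * n ∈ A} ∈ u := Iff.rfl

lemma sh_sh (h k : ℤ) (u : Om) : sh h (sh k u) = sh (h + k) u := by
  ext A
  simp only [mem_sh, Set.mem_ofPred_eq]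
  have : {n : ℤ | n + k + h ∈ A} = {n : ℤ | n + (h + k) ∈ A} := by
    ext n
    simp only [Set.mem_ofPred_eq]
    rw [show n + k + h = n + (h + k) by ring]
  rw [this]

lemma sh_zero (u : Om) : sh 0 u = u := by
  ext A
  simp only [mem_sh, add_zero]
  exact Iff.rfl

lemma dl_sh (q : ℕ) (h : ℤ) (u : Om) : dl q (sh h u) = sh (q * h) (dl q u) := by
  ext A
  simp only [mem_sh, mem_dl, Set.mem_ofPred_eq]
  have : {n : ℤ | (q : ℤ) * (n + h) ∈ A} = {n : ℤ | (q : ℤ) * n + q * h ∈ A} := by
    ext n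
    simp only [Set.mem_ofPred_eq]
    rw [show (q : ℤ) * (n + h) = q * n + q * h by ring]
  rw [this]

lemma measurable_sh (h : ℤ) : Measurable (sh h) := by
  apply measurable_generateFrom
  rintro _ ⟨A, rfl⟩
  exact measurableSet_cyl {n | n + h ∈ A}

lemma measurable_dl (q : ℕ) : Measurable (dl q) := by
  apply measurable_generateFrom
  rintro _ ⟨A, rfl⟩
  exact measurableSet_cyl {n | (q : ℤ) * n ∈ A}

/-- the measure realises the mean -/
def Realises (M : Mean) (μ : Measure Om) : Prop := ∀ A : Set ℤ, μ (cyl A) = ENNReal.ofReal (M.dens A)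

variable {M : Mean} {μ : Measure Om} [IsProbabilityMeasure μ]

lemma measurePreserving_sh (hM : Realises M μ) (h : ℤ) : MeasurePreserving (sh h) μ μ := by
  refine ⟨measurable_sh h, ?_⟩
  refine (MeasureTheory.ext_of_generate_finite (Set.range cyl) rfl isPiSystem_cyl ?_ ?_).symm
  · rintro _ ⟨A, rfl⟩
    rw [Measure.map_apply (measurable_sh h) (measurableSet_cyl A)]
    have : sh h ⁻¹' cyl A = cyl {n | n + h ∈ A} := rfl
    rw [this, hM, hM]
    congr 1
    unfold Mean.dens
    rw [← M.shift h _ (Bdd.indicator_one A)]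
    congr 1
  · rw [Measure.map_apply (measurable_sh h) MeasurableSet.univ]
    simp

/-- the multiples of `q` -/
def mult (q : ℕ) : Set ℤ := {n | (q : ℤ) ∣ n}

lemma map_dl (hM : Realises M μ) {q : ℕ} (hq : 0 < q) :
    μ.map (dl q) = (q : ENNReal) • μ.restrict (cyl (mult q)) := by
  have hdens : ∀ A : Set ℤ, M.dens {n | (q : ℤ) * n ∈ A} = q * M.dens (A ∩ mult q) := by
    intro A
    unfold Mean.dens
    have h1 := M.dil q hq _ (Bdd.indicator_one A)
    have h2 : (fun n : ℤ => if (q : ℤ) ∣ n then A.indicator (1 : ℤ → ℝ) n else 0) =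
        (A ∩ mult q).indicator 1 := by
      funext n
      by_cases h : (q : ℤ) ∣ n
      · by_cases hA : n ∈ A
        · have h' : n ∈ A ∩ mult q := ⟨hA, h⟩
          rw [if_pos h, Set.indicator_of_mem hA, Set.indicator_of_mem h']
        · rw [if_pos h, Set.indicator_of_notMem hA, Set.indicator_of_notMem (fun h' => hA h'.1)]
      · rw [if_neg h, Set.indicator_of_notMem (fun h' => h h'.2)]
    rw [h2] at h1
    rw [← h1]
    congr 1
  have hfin : IsFiniteMeasure (μ.map (dl q)) := by infer_instance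
  refine MeasureTheory.ext_of_generate_finite (Set.range cyl) rfl isPiSystem_cyl ?_ ?_
  · rintro _ ⟨A, rfl⟩
    rw [Measure.map_apply (measurable_dl q) (measurableSet_cyl A), Measure.smul_apply,
      Measure.restrict_apply (measurableSet_cyl A), cyl_inter]
    have : dl q ⁻¹' cyl A = cyl {n | (q : ℤ) * n ∈ A} := rfl
    rw [this, hM, hM, hdens, ENNReal.ofReal_mul (by positivity)]
    simp
  · rw [Measure.map_apply (measurable_dl q) MeasurableSet.univ, Measure.smul_apply,
      Measure.restrict_apply MeasurableSet.univ, Set.univ_inter, Set.preimage_univ, hM]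
    have h1 := hdens Set.univ
    have h2 : M.dens {n : ℤ | (q : ℤ) * n ∈ (Set.univ : Set ℤ)} = 1 := by
      unfold Mean.dens
      have : {n : ℤ | (q : ℤ) * n ∈ (Set.univ : Set ℤ)} = Set.univ := by ext; simp
      rw [this, Set.indicator_univ]
      exact M.one
    rw [h2, Set.univ_inter] at h1
    rw [measure_univ, smul_eq_mul, show (q : ENNReal) = ENNReal.ofReal (q : ℝ) by simp,
      ← ENNReal.ofReal_mul (by positivity), ← h1, ENNReal.ofReal_one]

/-! ### Boolean observables -/

open Classical in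
/-- the extension of a Boolean function on `ℤ` -/
noncomputable def hat (φ : ℤ → Bool) (u : Om) : Bool := decide ({n | φ n = true} ∈ u)

lemma hat_eq_true {φ : ℤ → Bool} {u : Om} : hat φ u = true ↔ {n | φ n = true} ∈ u := by
  simp [hat]

lemma hat_eq {φ : ℤ → Bool} {u : Om} {b : Bool} : hat φ u = b ↔ {n | φ n = b} ∈ u := by
  cases b
  · rw [← Bool.not_eq_true, hat_eq_true, ← Ultrafilter.compl_mem_iff_notMem]
    have : {n | φ n = true}ᶜ = {n | φ n = false} := by
      ext n; simp
    rw [this]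
  · exact hat_eq_true

lemma measurable_hat (φ : ℤ → Bool) : Measurable (hat φ) := by
  apply measurable_to_bool
  have : hat φ ⁻¹' {true} = cyl {n | φ n = true} := by
    ext u
    simp only [Set.mem_preimage, Set.mem_singleton_iff, hat_eq_true, mem_cyl]
  rw [this]
  exact measurableSet_cyl _

lemma hat_sh (φ : ℤ → Bool) (h : ℤ) (u : Om) : hat φ (sh h u) = hat (fun n => φ (n + h)) u := by
  unfold hat
  congr 1

lemma hat_dl (φ : ℤ → Bool) (q : ℕ) (u : Om) : hat φ (dl q u) = hat (fun n => φ (q * n)) u := by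
  unfold hat
  congr 1

lemma integral_hat3 (hM : Realises M μ) (F : Bool → Bool → Bool → ℝ) (φ ψ χ : ℤ → Bool) :
    ∫ u, F (hat φ u) (hat ψ u) (hat χ u) ∂μ = M.E (fun n => F (φ n) (ψ n) (χ n)) := by
  classical
  let A : Bool × Bool × Bool → Set ℤ := fun t => {n | φ n = t.1} ∩ ({n | ψ n = t.2.1} ∩
    {n | χ n = t.2.2})
  have hA : ∀ t u, u ∈ cyl (A t) ↔ hat φ u = t.1 ∧ hat ψ u = t.2.1 ∧ hat χ u = t.2.2 := by
    intro t u
    simp only [A, mem_cyl, hat_eq]
    rw [← Ultrafilter.mem_coe, Filter.inter_mem_iff, Filter.inter_mem_iff]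
    rfl
  have h1 : ∀ u, F (hat φ u) (hat ψ u) (hat χ u) =
      ∑ t : Bool × Bool × Bool, F t.1 t.2.1 t.2.2 * (cyl (A t)).indicator 1 u := by
    intro u
    rw [Finset.sum_eq_single (hat φ u, hat ψ u, hat χ u)]
    · rw [Set.indicator_of_mem ((hA _ _).2 ⟨rfl, rfl, rfl⟩)]
      simp
    · rintro ⟨x, y, z⟩ _ hne
      rw [Set.indicator_of_notMem, mul_zero]
      rintro h
      obtain ⟨h1, h2, h3⟩ := (hA _ _).1 h
      exact hne (by rw [h1, h2, h3])
    · intro h; exact absurd (Finset.mem_univ _) h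
  have h2 : ∀ n, F (φ n) (ψ n) (χ n) =
      ∑ t : Bool × Bool × Bool, F t.1 t.2.1 t.2.2 * (A t).indicator 1 n := by
    intro n
    rw [Finset.sum_eq_single (φ n, ψ n, χ n)]
    · rw [Set.indicator_of_mem (by exact ⟨rfl, rfl, rfl⟩)]
      simp
    · rintro ⟨x, y, z⟩ _ hne
      rw [Set.indicator_of_notMem, mul_zero]
      rintro ⟨h1, h2, h3⟩
      simp only [Set.mem_ofPred_eq] at h1 h2 h3
      exact hne (by rw [h1, h2, h3])
    · intro h; exact absurd (Finset.mem_univ _) h
  simp only [h1, h2]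
  rw [M.E_sum _ _ (fun t _ => (Bdd.indicator_one _).const_mul _), integral_finsetSum]
  · refine Finset.sum_congr rfl fun t _ => ?_
    rw [integral_const_mul, M.smul _ _ (Bdd.indicator_one _),
      integral_indicator_one (measurableSet_cyl _), Measure.real, hM, ENNReal.toReal_ofReal]
    · rfl
    · exact M.nonneg _ (Bdd.indicator_one _) (fun n => Set.indicator_nonneg (fun _ _ => zero_le_one) n)
  · intro t _
    apply Integrable.const_mul
    rw [integrable_indicator_iff (measurableSet_cyl _)]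
    exact (integrable_const (1 : ℝ)).integrableOn

end Pool.Agent.Hhelper89.LehmerFull
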