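import Pool.Agent.Hhelper89.LehmerFull.Obs

/-!
The functional `Θ(c,s)` and its invariance.
-/

namespace Pool.Agent.Hhelper89.LehmerFull

open Finset Filter Topology MeasureTheory
open Pool.Agent.Hhelper89.Lehmer
open scoped InnerProductSpace ENNReal

variable {M : Mean} {μ : Measure Om} [IsProbabilityMeasure μ]

/-- the polynomial -/
noncomputable def GG (s x y : ℝ) : ℝ := (1 + s * x) / 2 * ((1 + s * y / 2) / 2) * (s * y)

lemma GG_add (x y : ℝ) : GG 1 x y + GG (-1) x y = (1 / 2) * (x * y) + (1 / 4) * y ^ 2 := by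
  unfold GG; ring

lemma GG_scale {s t : ℝ} (x y : ℝ) : GG s (t * x) (t * y) = GG (s * t) x y := by
  unfold GG; ring_nf

lemma GG_lipschitz {s x y y' : ℝ} (hs : s ^ 2 = 1) (hx : |x| ≤ 1) (hy : |y| ≤ 2) (hy' : |y'| ≤ 2) :
    |GG s x y - GG s x y'| ≤ 3 / 2 * |y - y'| := by
  have h1 : GG s x y - GG s x y' = ((1 + s * x) / 2) * ((s + s ^ 2 * (y + y') / 2) / 2) * (y - y') := by
    unfold GG; ring
  rw [h1, hs, abs_mul]
  apply mul_le_mul_of_nonneg_right _ (abs_nonneg _)
  have hs1 : |s| = 1 := by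
    have : |s| ^ 2 = 1 := by rw [sq_abs, hs]
    have h0 := abs_nonneg s
    nlinarith
  rw [abs_mul]
  have h2 : |(1 + s * x) / 2| ≤ 1 := by
    rw [abs_le]
    have h3 : |s * x| ≤ 1 := by rw [abs_mul, hs1, one_mul]; exact hx
    obtain ⟨h4, h5⟩ := abs_le.1 h3
    constructor <;> linarith
  have h3 : |(s + 1 * (y + y') / 2) / 2| ≤ 3 / 2 := by
    rw [abs_le]
    obtain ⟨a1, a2⟩ := abs_le.1 hy
    obtain ⟨b1, b2⟩ := abs_le.1 hy'
    obtain ⟨c1, c2⟩ := abs_le.1 hs1.le
    constructor <;> linarith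
  calc _ ≤ 1 * (3 / 2) := mul_le_mul h2 h3 (abs_nonneg _) zero_le_one
    _ = _ := by ring

lemma abs_GG_le {s x y : ℝ} (hs : s ^ 2 = 1) (hx : |x| ≤ 1) (hy : |y| ≤ 2) : |GG s x y| ≤ 3 := by
  have := GG_lipschitz hs hx hy (y' := 0) (by norm_num)
  have h0 : GG s x 0 = 0 := by unfold GG; ring
  rw [h0, sub_zero, sub_zero] at this
  linarith

/-- `r(T^{cα}) + r(T^{cβ})` -/
noncomputable def yy (hM : Realises M μ) (f : ℕ → Bool) (α β W : ℕ) (c : ℤ) (u : Om) : ℝ :=
  rr hM f W (sh (c * α) u) + rr hM f W (sh (c * β) u)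

lemma BM_yy (hM : Realises M μ) (f : ℕ → Bool) (α β W : ℕ) (c : ℤ) : BM (yy hM f α β W c) :=
  ((BM_rr hM f W).comp (measurable_sh _)).add ((BM_rr hM f W).comp (measurable_sh _))

lemma abs_yy_le (hM : Realises M μ) (f : ℕ → Bool) (α β W : ℕ) (c : ℤ) (u : Om) :
    |yy hM f α β W c u| ≤ 2 := by
  unfold yy
  have h1 := abs_rr_le hM f W (sh (c * α) u)
  have h2 := abs_rr_le hM f W (sh (c * β) u)
  have h3 := abs_add_le (rr hM f W (sh (c * α) u)) (rr hM f W (sh (c * β) u))
  linarith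

/-- the integrand of `Θ` -/
noncomputable def thF (hM : Realises M μ) (f : ℕ → Bool) (α β W : ℕ) (c : ℤ) (s : ℝ) (u : Om) : ℝ :=
  GG s (xx f u) (yy hM f α β W c u)

lemma BM_thF (hM : Realises M μ) (f : ℕ → Bool) (α β W : ℕ) (c : ℤ) (s : ℝ) :
    BM (thF hM f α β W c s) := by
  have h1 : BM (fun u => (1 + s * xx f u) * (1 / 2)) :=
    ((BM.const 1).add ((BM_xx f).const_mul s)).mul (BM.const _)
  have h2 : BM (fun u => (1 + s * yy hM f α β W c u * (1 / 2)) * (1 / 2)) :=
    ((BM.const 1).add (((BM_yy hM f α β W c).const_mul s).mul (BM.const _))).mul (BM.const _)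
  have h3 : BM (fun u => s * yy hM f α β W c u) := (BM_yy hM f α β W c).const_mul s
  have h4 := (h1.mul h2).mul h3
  have : thF hM f α β W c s = fun u => (1 + s * xx f u) * (1 / 2) *
      ((1 + s * yy hM f α β W c u * (1 / 2)) * (1 / 2)) * (s * yy hM f α β W c u) := by
    funext u
    unfold thF GG
    ring
  rw [this]
  exact h4

/-- `Θ(c,s)` -/
noncomputable def Th (hM : Realises M μ) (f : ℕ → Bool) (α β W : ℕ) (c : ℤ) (s : ℝ) : ℝ :=
  ∫ u, thF hM f α β W c s u ∂μ

lemma yy_congr (hM : Realises M μ) (f : ℕ → Bool) (α β : ℕ) {W : ℕ} {c c' : ℤ}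
    (h : (W : ℤ) ∣ c - c') : ∀ᵐ u ∂μ, yy hM f α β W c u = yy hM f α β W c' u := by
  obtain ⟨k, hk⟩ := h
  have h1 : ∀ e : ℕ, ∀ᵐ u ∂μ, rr hM f W (sh (c * e) u) = rr hM f W (sh (c' * e) u) := by
    intro e
    have h2 := ae_sh hM (c' * e) (rr_sh hM f W (k * e))
    filter_upwards [h2] with u hu
    rw [← hu, sh_sh]
    congr 2
    have : c = c' + W * k := by linarith
    rw [this]
    ring
  filter_upwards [h1 α, h1 β] with u h2 h3
  unfold yy
  rw [h2, h3]

lemma Th_congr (hM : Realises M μ) (f : ℕ → Bool) (α β : ℕ) {W : ℕ} {c c' : ℤ} (s : ℝ)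
    (h : (W : ℤ) ∣ c - c') : Th hM f α β W c s = Th hM f α β W c' s := by
  unfold Th
  apply integral_congr_ae
  filter_upwards [yy_congr hM f α β h] with u hu
  unfold thF
  rw [hu]

/-- the defect of `r_W` under dilation by `q` -/
noncomputable def dfc (hM : Realises M μ) (f : ℕ → Bool) (W q : ℕ) : ℝ :=
  ∫ u, (rr hM f W (dl q u) - bsg (f q) * rr hM f W u) ^ 2 ∂μ

lemma dfc_nonneg (hM : Realises M μ) (f : ℕ → Bool) (W q : ℕ) : 0 ≤ dfc hM f W q :=
  integral_nonneg fun _ => sq_nonneg _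

lemma dfc_le (hM : Realises M μ) {f : ℕ → Bool} (hf : MulSign f) (W : ℕ) {q : ℕ} (hq : 0 < q) :
    dfc hM f W q ≤ q * ((koop hM).V (xL μ f) (q * W) - (koop hM).V (xL μ f) W) := by
  have hg : BM (fun u => (rr hM f W u - rr hM f (q * W) u) ^ 2) :=
    ((BM_rr hM f W).sub (BM_rr hM f (q * W))).pow 2
  have h1 : dfc hM f W q = ∫ u, (rr hM f W (dl q u) - rr hM f (q * W) (dl q u)) ^ 2 ∂μ := by
    unfold dfc
    apply integral_congr_ae
    filter_upwards [rr_dl hM hf hq W] with u hu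
    rw [hu]
  rw [h1]
  refine (integral_dl_nonneg_le hM hq hg (fun u => sq_nonneg _)).trans (le_of_eq ?_)
  congr 1
  rw [← ZAct.norm_P_sub_sq _ _ (Dvd.intro_left q rfl), ← toL_rr, ← toL_rr,
    ← toL_sub (BM_rr hM f (q * W)) (BM_rr hM f W), norm_sq_eq (toL_coe _)]
  congr 1
  funext u
  ring

lemma sum_dfc_le (hM : Realises M μ) {f : ℕ → Bool} (hf : MulSign f) (W : ℕ) (Q : Finset ℕ)
    (hQ : ∀ q ∈ Q, q.Prime) : ∑ q ∈ Q, (1 / (q : ℝ)) * dfc hM f W q ≤ 1 := by
  have h1 := (koop hM).sum_V_le (xL μ f) W Q hQ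
  rw [norm_xL, one_pow] at h1
  refine le_trans (Finset.sum_le_sum fun q hq => ?_) h1
  have hq0 : (0 : ℝ) < q := by exact_mod_cast (hQ q hq).pos
  have := dfc_le hM hf W (hQ q hq).pos
  rw [one_div, inv_mul_le_iff₀ hq0]
  exact this

/-- comparison of `Θ` under dilation -/
lemma Th_dl (hM : Realises M μ) {f : ℕ → Bool} (hf : MulSign f) (α β W : ℕ) {q : ℕ} (hq : 0 < q)
    {c c' : ℤ} (hc : (W : ℤ) ∣ c - q * c') {s : ℝ} (hs : s ^ 2 = 1) :
    |Th hM f α β W c s - Th hM f α β W c' (s * bsg (f q))| ≤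
      |∫ u, thF hM f α β W c s (dl q u) ∂μ - ∫ u, thF hM f α β W c s u ∂μ| +
        3 * Real.sqrt (dfc hM f W q) := by
  set e : Om → ℝ := fun u => rr hM f W (dl q u) - bsg (f q) * rr hM f W u with he
  have hBe : BM e := ((BM_rr hM f W).comp (measurable_dl q)).sub ((BM_rr hM f W).const_mul _)
  have hBabs : BM (fun u => |e u|) := by
    obtain ⟨h1, C, hC⟩ := hBe
    exact ⟨h1.abs, C, fun u => by rw [abs_abs]; exact hC u⟩
  -- the L¹ norm of e
  have hL1 : ∫ u, |e u| ∂μ ≤ Real.sqrt (dfc hM f W q) := by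
    apply Real.le_sqrt_of_sq_le
    have h1 : 0 ≤ ∫ u, (|e u| - ∫ v, |e v| ∂μ) ^ 2 ∂μ := integral_nonneg fun _ => sq_nonneg _
    have h2 : (fun u => (|e u| - ∫ v, |e v| ∂μ) ^ 2) = fun u =>
        e u ^ 2 - 2 * (∫ v, |e v| ∂μ) * |e u| + (∫ v, |e v| ∂μ) ^ 2 := by
      funext u
      have : |e u| ^ 2 = e u ^ 2 := sq_abs _
      linear_combination this
    rw [h2, integral_add, integral_sub, integral_const_mul] at h1
    · simp at h1
      unfold dfc
      have h3 : ∫ u, e u ^ 2 ∂μ = ∫ u, (rr hM f W (dl q u) - bsg (f q) * rr hM f W u) ^ 2 ∂μ := rfl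
      rw [← h3]
      nlinarith
    · exact (hBe.pow 2).integrable
    · exact (hBabs.const_mul _).integrable
    · exact ((hBe.pow 2).sub (hBabs.const_mul _)).integrable
    · exact (BM.const _).integrable
  -- comparison after dilation
  have h1 : ∀ᵐ u ∂μ, |thF hM f α β W c s (dl q u) - thF hM f α β W c' (s * bsg (f q)) u| ≤
      3 / 2 * (|e (sh (c' * α) u)| + |e (sh (c' * β) u)|) := by
    have h2 := ae_dl hM hq (yy_congr hM f α β hc)
    filter_upwards [h2, xx_dl hM hf hq] with u h2 h3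
    have h4 : thF hM f α β W c' (s * bsg (f q)) u =
        GG s (xx f (dl q u)) (bsg (f q) * yy hM f α β W c' u) := by
      rw [h3, GG_scale]
      rfl
    have h5 : thF hM f α β W c s (dl q u) = GG s (xx f (dl q u)) (yy hM f α β W (q * c') (dl q u)) := by
      unfold thF
      rw [h2]
    have habs : |bsg (f q)| = 1 := abs_bsg _
    rw [h4, h5]
    refine (GG_lipschitz hs (abs_xx f _).le (abs_yy_le hM f α β W _ _) ?_).trans ?_
    · rw [abs_mul, habs, one_mul]
      exact abs_yy_le hM f α β W _ _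
    · apply mul_le_mul_of_nonneg_left _ (by norm_num)
      have h6 : yy hM f α β W (q * c') (dl q u) - bsg (f q) * yy hM f α β W c' u =
          e (sh (c' * α) u) + e (sh (c' * β) u) := by
        unfold yy
        rw [he]
        dsimp only
        rw [dl_sh, dl_sh, mul_assoc, mul_assoc]
        ring
      rw [h6]
      exact abs_add_le _ _
  have h2 : |∫ u, thF hM f α β W c s (dl q u) ∂μ - Th hM f α β W c' (s * bsg (f q))| ≤
      3 * Real.sqrt (dfc hM f W q) := by
    unfold Th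
    rw [← integral_sub ((BM_thF hM f α β W c s).comp (measurable_dl q)).integrable
      (BM_thF hM f α β W c' _).integrable]
    refine (abs_integral_le_integral_abs).trans ?_
    have h3 : ∫ u, |thF hM f α β W c s (dl q u) - thF hM f α β W c' (s * bsg (f q)) u| ∂μ ≤
        ∫ u, 3 / 2 * (|e (sh (c' * α) u)| + |e (sh (c' * β) u)|) ∂μ := by
      apply integral_mono_ae _ _ h1
      · exact ((((BM_thF hM f α β W c s).comp (measurable_dl q)).sub
          (BM_thF hM f α β W c' _)).integrable).abs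
      · exact (((hBabs.comp (measurable_sh _)).add (hBabs.comp (measurable_sh _))).const_mul
          _).integrable
    refine h3.trans ?_
    rw [integral_const_mul, integral_add (hBabs.comp (measurable_sh _)).integrable
      (hBabs.comp (measurable_sh _)).integrable, integral_sh hM _ hBabs, integral_sh hM _ hBabs]
    linarith
  have h3 : Th hM f α β W c s - Th hM f α β W c' (s * bsg (f q)) =
      (∫ u, thF hM f α β W c s (dl q u) ∂μ - Th hM f α β W c' (s * bsg (f q))) -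
      (∫ u, thF hM f α β W c s (dl q u) ∂μ - ∫ u, thF hM f α β W c s u ∂μ) := by
    unfold Th
    ring
  rw [h3]
  refine (abs_sub _ _).trans ?_
  linarith

/-- primes with divergent reciprocal sum contain a good dilation -/
lemma exists_good_prime (hM : Realises M μ) {f : ℕ → Bool} (hf : MulSign f) (α β W : ℕ)
    (c : ℤ) (s : ℝ) (T : Set ℕ) (hT : ∀ q ∈ T, q.Prime)
    (hdiv : ¬ Summable (T.indicator (fun q : ℕ => 1 / (q : ℝ)))) {η : ℝ} (hη : 0 < η) :
    ∃ q ∈ T, (∫ u, thF hM f α β W c s (dl q u) ∂μ - ∫ u, thF hM f α β W c s u ∂μ) ^ 2 +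
      dfc hM f W q < η := by
  classical
  by_contra hcon
  push Not at hcon
  apply hdiv
  refine summable_of_sum_le (c := (∫ u, thF hM f α β W c s u ^ 2 ∂μ + 1) / η) ?_ ?_
  · intro q
    exact Set.indicator_nonneg (fun q _ => by positivity) q
  · intro Q
    have hQT : ∑ q ∈ Q, T.indicator (fun q : ℕ => 1 / (q : ℝ)) q =
        ∑ q ∈ Q.filter (fun q => q ∈ T), 1 / (q : ℝ) := by
      rw [Finset.sum_filter]
      refine Finset.sum_congr rfl fun q _ => ?_
      by_cases h : q ∈ T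
      · rw [Set.indicator_of_mem h, if_pos h]
      · rw [Set.indicator_of_notMem h, if_neg h]
    rw [hQT, le_div_iff₀ hη, Finset.sum_mul]
    have h1 := turan_kubilius hM (Q.filter (fun q => q ∈ T))
      (fun q hq => hT q (Finset.mem_filter.1 hq).2) (BM_thF hM f α β W c s)
    have h2 := sum_dfc_le hM hf W (Q.filter (fun q => q ∈ T))
      (fun q hq => hT q (Finset.mem_filter.1 hq).2)
    refine le_trans ?_ (add_le_add h1 h2)
    rw [← Finset.sum_add_distrib]
    refine Finset.sum_le_sum fun q hq => ?_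
    rw [← mul_add]
    exact mul_le_mul_of_nonneg_left (hcon q (Finset.mem_filter.1 hq).2) (by positivity)

/-- invariance of `Θ` under the classes with divergent reciprocal sum -/
theorem Th_invariant (hM : Realises M μ) {f : ℕ → Bool} (hf : MulSign f) (α β W : ℕ)
    (c c' e : ℤ) {s t : ℝ} (hs : s ^ 2 = 1) (hc : (W : ℤ) ∣ c - e * c')
    (hdiv : ¬ Summable (Set.indicator {q : ℕ | q.Prime ∧ (W : ℤ) ∣ q - e ∧ bsg (f q) = t}
      (fun q : ℕ => 1 / (q : ℝ)))) :
    Th hM f α β W c s = Th hM f α β W c' (s * t) := by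
  rw [← sub_eq_zero, ← abs_nonpos_iff]
  apply le_of_forall_pos_le_add
  intro ε hε
  have hη : 0 < (ε / 4) ^ 2 := by positivity
  obtain ⟨q, ⟨hq, hqe, hqt⟩, hlt⟩ := exists_good_prime hM hf α β W c s _ (fun q hq => hq.1) hdiv hη
  have hc2 : (W : ℤ) ∣ c - q * c' := by
    have : c - q * c' = (c - e * c') - (q - e) * c' := by ring
    rw [this]
    exact dvd_sub hc (hqe.mul_right c')
  have h1 := Th_dl hM hf α β W hq.pos hc2 hs
  rw [hqt] at h1
  have h2 : |∫ u, thF hM f α β W c s (dl q u) ∂μ - ∫ u, thF hM f α β W c s u ∂μ| ≤ ε / 4 := by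
    apply abs_le_of_sq_le_sq _ (by positivity)
    have := dfc_nonneg hM f W q
    linarith
  have h3 : Real.sqrt (dfc hM f W q) ≤ ε / 4 := by
    apply Real.sqrt_le_iff.2 ⟨by positivity, ?_⟩
    have := sq_nonneg (∫ u, thF hM f α β W c s (dl q u) ∂μ - ∫ u, thF hM f α β W c s u ∂μ)
    linarith
  linarith

end Pool.Agent.Hhelper89.LehmerFull
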